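import Pool.Graph.R_seed8.R948.Opt

/-!
# Finiteness of optimal primes for constructible systems, and projections
-/

set_option autoImplicit false
set_option linter.unusedSectionVars false
set_option linter.style.haveILetI false

namespace Pool.Agent.H74.ZP

open MvPolynomial Pool.Agent.R948

/-- relations between units of all extension fields -/
abbrev Rel (F ι : Type) [Field F] := ∀ (K : Type) [Field K] [Algebra F K], (ι → Kˣ) → Prop

section

variable {F : Type} [Field F] {ι κ : Type} [Fintype ι] [Fintype κ]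

/-- Finiteness: there are finitely many primes such that every point in the relation is the
specialisation of a point in the relation, with one of these primes, of at most the same defect. -/
def FinR (Φ : Rel F ι) : Prop :=
  ∃ B : Set (Ideal (MvPolynomial ι F)), B.Finite ∧
    ∀ (K : Type) [Field K] [Algebra F K] (y : ι → Kˣ), Φ K y →
      ∃ (K₁ : Type) (_ : Field K₁) (_ : Algebra F K₁) (z : ι → K₁ˣ), Φ K₁ z ∧
        (TP.ofPt z : TP F ι).I ∈ B ∧ Spec F z y ∧ df F z ≤ df F y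

theorem Spec.refl' {K : Type} [Field K] [Algebra F K] (z : ι → Kˣ) : Spec F z z := fun _ h => h

theorem Spec.trans' {K L M : Type} [Field K] [Algebra F K] [Field L] [Algebra F L] [Field M]
    [Algebra F M] {x : ι → Kˣ} {y : ι → Lˣ} {z : ι → Mˣ} (h : Spec F x y) (h' : Spec F y z) :
    Spec F x z := fun f hf => h' f (h f hf)

/-- adding an open condition -/
theorem FinR.and {Φ Ψ : Rel F ι} (h : FinR Φ)
    (hΨ : ∀ (K : Type) [Field K] [Algebra F K] (y : ι → Kˣ) (K₁ : Type) [Field K₁] [Algebra F K₁]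
      (z : ι → K₁ˣ), Φ K y → Φ K₁ z → Spec F z y → Ψ K y → Ψ K₁ z) :
    FinR (F := F) (ι := ι) (fun K _ _ y => Φ K y ∧ Ψ K y) := by
  obtain ⟨B, hB, h⟩ := h
  refine ⟨B, hB, fun K _ _ y hy => ?_⟩
  obtain ⟨K₁, _, _, z, h1, h2, h3, h4⟩ := h K y hy.1
  exact ⟨K₁, _, _, z, ⟨h1, hΨ K y K₁ z hy.1 h1 h3 hy.2⟩, h2, h3, h4⟩

theorem FinR.congr {Φ Ψ : Rel F ι} (h : FinR Φ)
    (hΨ : ∀ (K : Type) [Field K] [Algebra F K] (y : ι → Kˣ), Φ K y ↔ Ψ K y) : FinR Ψ := by
  obtain ⟨B, hB, h⟩ := h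
  refine ⟨B, hB, fun K _ _ y hy => ?_⟩
  obtain ⟨K₁, _, _, z, h1, h2, h3, h4⟩ := h K y ((hΨ K y).2 hy)
  exact ⟨K₁, _, _, z, (hΨ K₁ z).1 h1, h2, h3, h4⟩

theorem td_left_le {K : Type} [Field K] [Algebra F K] (x : ι → Kˣ) (t : κ → Kˣ) :
    td F (un x) ≤ td F (un (Sum.elim x t)) := by
  refine td_le_of_alg F fun i => ?_
  have h2 : un x i ∈ Algebra.adjoin F (Set.range (un (Sum.elim x t))) :=
    Algebra.subset_adjoin ⟨Sum.inl i, rfl⟩
  exact isAlgebraic_algebraMap (A := K) (⟨_, h2⟩ : Algebra.adjoin F (Set.range (un (Sum.elim x t))))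

/-- projections and specialisations, with fibres of any dimension -/
theorem df_proj' {K L : Type} [Field K] [Algebra F K] [Field L] [Algebra F L]
    (x : ι → Kˣ) (t : κ → Kˣ) (x' : ι → Lˣ) (t' : κ → Lˣ)
    (hs : Spec F (Sum.elim x t) (Sum.elim x' t')) (f : ℕ)
    (h1 : td F (un (Sum.elim x t)) ≤ td F (un x) + f)
    (h2 : td F (un x') + f ≤ td F (un (Sum.elim x' t')))
    (h : df F (Sum.elim x t) ≤ df F (Sum.elim x' t')) : df F x ≤ df F x' := by
  have h3 := dr_sum x t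
  have h4 := dr_sum x' t'
  have h5 : Module.finrank ℚ (relProj x t) ≤ Module.finrank ℚ (relProj x' t') :=
    Submodule.finrank_mono (Submodule.map_mono hs.rel_le)
  rw [df, df, Fintype.card_sum] at h
  rw [df, df]
  omega

/-- **Projection lemma.** -/
theorem FinR.proj {Φ : Rel F ι} {Ψ : Rel F (ι ⊕ κ)} (hΨ : FinR Ψ) (f : ℕ)
    (lift : ∀ (K : Type) [Field K] [Algebra F K] (y : ι → Kˣ), Φ K y →
      ∃ (K' : Type) (_ : Field K') (_ : Algebra F K') (y' : ι → K'ˣ) (t : κ → K'ˣ),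
        Ψ K' (Sum.elim y' t) ∧ Spec F y y' ∧ Spec F y' y ∧
        td F (un y') + f ≤ td F (un (Sum.elim y' t)))
    (sound : ∀ (K : Type) [Field K] [Algebra F K] (y : ι → Kˣ) (t : κ → Kˣ),
      Ψ K (Sum.elim y t) → Φ K y ∧ td F (un (Sum.elim y t)) ≤ td F (un y) + f) :
    FinR Φ := by
  obtain ⟨B, hB, h⟩ := hΨ
  refine ⟨(Ideal.comap (rename Sum.inl : MvPolynomial ι F →ₐ[F]
    MvPolynomial (ι ⊕ κ) F)) '' B, hB.image _, fun K _ _ y hy => ?_⟩
  obtain ⟨K', _, _, y', t, h1, h2, h3, h4⟩ := lift K y hy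
  obtain ⟨K₁, _, _, z', h5, h6, h7, h8⟩ := h K' _ h1
  let z : ι → K₁ˣ := fun i => z' (Sum.inl i)
  let s : κ → K₁ˣ := fun i => z' (Sum.inr i)
  have hz : z' = Sum.elim z s := by
    funext k
    rcases k with j | i <;> rfl
  rw [hz] at h5 h7 h8
  obtain ⟨h9, h10⟩ := sound K₁ z s h5
  have hs : Spec F z y' := by
    intro g hg
    have h11 := h7 (rename Sum.inl g) (by rw [aeval_rename]; exact hg)
    rw [aeval_rename] at h11
    exact h11
  refine ⟨K₁, _, _, z, h9, ⟨_, h6, ?_⟩, Spec.trans' hs h3, ?_⟩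
  · ext g
    rw [Ideal.mem_comap, TP.mem_ofPt, TP.mem_ofPt, aeval_rename]
    rfl
  · have h12 := df_proj' z s y' t h7 f h10 h4 h8
    rwa [TP.df_eq_of_spec h3 h2] at h12

/-- back to ideals -/
theorem FinR.fin {Φ : Rel F ι} (h : FinR Φ) (I : Ideal (MvPolynomial ι F))
    (hI : ∀ (K : Type) [Field K] [Algebra F K] (y : ι → Kˣ),
      Φ K y ↔ ∀ f ∈ I, aeval (un y) f = 0) : Fin' I := by
  obtain ⟨B, hB, h⟩ := h
  refine ⟨B, hB, fun Q₀ hQ₀ => ?_⟩
  obtain ⟨K₁, _, _, z, h1, h2, h3, h4⟩ := h Q₀.fld Q₀.pt ((hI _ _).2 fun f hf => by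
    rw [TP.aeval_pt_eq_zero]
    exact hQ₀ hf)
  refine ⟨TP.ofPt z, h2, fun f hf => (TP.mem_ofPt z f).2 ((hI _ _).1 h1 f hf), fun f hf => ?_, ?_⟩
  · have h5 := h3 f ((TP.mem_ofPt z f).1 hf)
    rwa [TP.aeval_pt_eq_zero] at h5
  · rw [TP.df_ofPt]
    exact h4

/-- torsion multiples of monomials -/
noncomputable def tm (K : Type) [Field K] [Algebra F K] (t : Fˣ) (m : ι → ℤ) (y : ι → Kˣ) : Kˣ :=
  uo K t * mon y m

/-- pull-backs under monomial maps -/
theorem FinR.of_fin [IsAlgClosed F] [DecidableEq κ] (I : Ideal (MvPolynomial κ F)) (hI : Fin' I)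
    (m : κ → ι → ℤ) (t : κ → Fˣ) (ht : ∀ j, Tor (t j)) :
    FinR (F := F) (ι := ι) (fun K _ _ y => ∀ f ∈ I, aeval (un fun j => tm K (t j) (m j) y) f = 0) := by
  obtain ⟨B, hB, h⟩ := claimZ I hI m t ht [] (by simp)
  refine ⟨B, hB, fun K _ _ y hy => ?_⟩
  obtain ⟨Q, h1, h2, h3, K', _, _, z, h4, h5, h6, -⟩ := h K y hy (by simp)
  have h7 : (TP.ofPt z : TP F ι).I = Q.I := by
    ext f
    rw [TP.mem_ofPt, ← TP.aeval_pt_eq_zero]
    exact ⟨h5 f, h4 f⟩
  refine ⟨K', _, _, z, h6, by rw [h7]; exact h1, fun f hf => ?_, ?_⟩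
  · refine h2 f ?_
    rw [← h7, TP.mem_ofPt]
    exact hf
  · rw [← TP.df_ofPt z, TP.df_ofPt z, TP.df_eq_of_spec h5 h4]
    exact h3

end

end Pool.Agent.H74.ZP
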