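import Pool.Agent.H74.ZP.Gn3

/-!
# Hypersurfaces which are finite unions of cosets
-/

set_option autoImplicit false
set_option linter.unusedSectionVars false
set_option linter.style.haveILetI false
set_option synthInstance.maxHeartbeats 400000

namespace Pool.Agent.H74.ZP

open Polynomial Pool.Agent.R948

section

variable {n : ℕ}

/-- a primitive direction -/
theorem exists_primitive {a : Fin n → ℤ} (ha : a ≠ 0) : ∃ (D : ℤ) (δ r : Fin n → ℤ), D ≠ 0 ∧
    (∀ i, a i = D * δ i) ∧ ∑ i, r i * δ i = 1 := by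
  obtain ⟨D, hD⟩ := IsPrincipalIdealRing.principal (Ideal.span (Set.range a))
  have h1 : ∀ i, D ∣ a i := by
    intro i
    have h2 : a i ∈ Ideal.span (Set.range a) := Ideal.subset_span ⟨i, rfl⟩
    rw [hD] at h2
    exact Ideal.mem_span_singleton.1 h2
  have h3 : D ∈ Ideal.span (Set.range a) := by
    rw [hD]
    exact Submodule.mem_span_singleton_self D
  rw [Ideal.mem_span_range_iff_exists_fun] at h3
  obtain ⟨r, hr⟩ := h3
  choose δ hδ using h1
  have hD0 : D ≠ 0 := by
    rintro rfl
    apply ha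
    funext i
    rw [hδ i, zero_mul]
    rfl
  refine ⟨D, δ, r, hD0, hδ, mul_left_cancel₀ hD0 ?_⟩
  rw [mul_one, Finset.mul_sum]
  calc ∑ i, D * (r i * δ i) = ∑ i, r i * a i := by
        refine Finset.sum_congr rfl fun i _ => ?_
        rw [hδ i]
        ring
    _ = D := hr

variable {F : Type} [Field F]

/-- polynomials with collinear exponents -/
theorem collinear_form {g : MvPolynomial (Fin n) F} (hg : g ≠ 0) (hnc : ¬ NonCol g.support) :
    ∃ (δ : Fin n → ℤ) (h : F[X]), h ≠ 0 ∧ ∀ (K : Type) [Field K] [Algebra F K]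
      (x : Fin n → Kˣ), MvPolynomial.aeval (fun i => (x i : K)) g = 0 ↔
        aeval ((∏ i, x i ^ δ i : Kˣ) : K) h = 0 := by
  classical
  obtain ⟨e₀, he₀⟩ := MvPolynomial.support_nonempty.2 hg
  obtain ⟨δ, m, hm⟩ : ∃ (δ : Fin n → ℤ) (m : (Fin n →₀ ℕ) → ℤ), ∀ e ∈ g.support, ∀ i,
      (e i : ℤ) = e₀ i + m e * δ i := by
    by_cases h1 : ∃ e₁ ∈ g.support, e₁ ≠ e₀
    · obtain ⟨e₁, he₁, hne⟩ := h1
      have ha : (fun i => (e₁ i : ℤ) - e₀ i) ≠ 0 := by
        intro h2
        apply hne
        ext i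
        have h3 := congrFun h2 i
        simp only [Pi.zero_apply] at h3
        omega
      obtain ⟨D, δ, r, hD0, h2, h3⟩ := exists_primitive ha
      refine ⟨δ, fun e => ∑ j, r j * ((e j : ℤ) - e₀ j), fun e he i => ?_⟩
      have h4 : ∀ j, ((e i : ℤ) - e₀ i) * δ j = ((e j : ℤ) - e₀ j) * δ i := by
        intro j
        refine mul_left_cancel₀ hD0 ?_
        have h5 : ((e i : ℤ) - e₀ i) * (e₁ j - e₀ j) = (e j - e₀ j) * (e₁ i - e₀ i) := by
          by_contra h6
          exact hnc ⟨e₀, he₀, e, he, e₁, he₁, i, j, h6⟩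
        rw [h2 j, h2 i] at h5
        linear_combination h5
      have h5 : (∑ j, r j * ((e j : ℤ) - e₀ j)) * δ i = ((e i : ℤ) - e₀ i) := by
        calc (∑ j, r j * ((e j : ℤ) - e₀ j)) * δ i
            = ∑ j, ((e i : ℤ) - e₀ i) * (r j * δ j) := by
              rw [Finset.sum_mul]
              refine Finset.sum_congr rfl fun j _ => ?_
              linear_combination (-(r j)) * h4 j
          _ = ((e i : ℤ) - e₀ i) := by
              rw [← Finset.mul_sum, h3, mul_one]
      linear_combination -h5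
    · push Not at h1
      refine ⟨0, 0, fun e he i => ?_⟩
      rw [h1 e he]
      simp
  have hinj : ∀ e ∈ g.support, ∀ e' ∈ g.support, m e = m e' → e = e' := by
    intro e he e' he' h1
    ext i
    have h2 := hm e he i
    have h3 := hm e' he' i
    rw [h1] at h2
    have h4 : (e i : ℤ) = e' i := h2.trans h3.symm
    exact_mod_cast h4
  obtain ⟨en, hen, hmin⟩ := Finset.exists_min_image g.support m ⟨e₀, he₀⟩
  obtain ⟨b, hb⟩ : ∃ b, b = -m en := ⟨_, rfl⟩
  have hn : ∀ e ∈ g.support, 0 ≤ m e + b := fun e he => by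
    have := hmin e he
    omega
  refine ⟨δ, ∑ e ∈ g.support, monomial (m e + b).toNat (g.coeff e), ?_, ?_⟩
  · intro h0
    have h1 := coeff_sum_mono (S := g.support) (φ := fun e => (m e + b).toNat) (by
      intro e he e' he' h2
      have h3 := hn e he
      have h4 := hn e' he'
      exact hinj e he e' he' (by omega)) (fun e => g.coeff e) he₀
    rw [h0, coeff_zero] at h1
    exact MvPolynomial.mem_support_iff.1 he₀ h1.symm
  · intro K _ _ x
    obtain ⟨y, hy⟩ : ∃ y : Kˣ, y = ∏ i, x i ^ δ i := ⟨_, rfl⟩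
    rw [← hy]
    have h1 : aeval (y : K) (∑ e ∈ g.support, monomial (m e + b).toNat (g.coeff e)) *
        ((∏ i, x i ^ e₀ i : Kˣ) : K) =
        MvPolynomial.aeval (fun i => (x i : K)) g * ((y ^ b : Kˣ) : K) := by
      conv_rhs => rw [← g.support_sum_monomial_coeff]
      rw [map_sum, map_sum, Finset.sum_mul, Finset.sum_mul]
      refine Finset.sum_congr rfl fun e he => ?_
      rw [aeval_monomial, aeval_mono]
      have h2 : (y : K) ^ (m e + b).toNat = ((y ^ m e : Kˣ) : K) * ((y ^ b : Kˣ) : K) := by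
        rw [← Units.val_mul, ← zpow_add, ← Units.val_pow_eq_pow_val, ← zpow_natCast,
          Int.toNat_of_nonneg (hn e he)]
      have h3 : (∏ i, (x i : K) ^ e i) = ((∏ i, x i ^ e₀ i : Kˣ) : K) * ((y ^ m e : Kˣ) : K) := by
        have h4 : (∏ i, x i ^ e i) = (∏ i, x i ^ e₀ i) * y ^ m e := by
          rw [hy, ← Finset.prod_zpow, ← Finset.prod_mul_distrib]
          refine Finset.prod_congr rfl fun i _ => ?_
          rw [← zpow_natCast, ← zpow_natCast, ← zpow_mul, ← zpow_add, hm e he i, mul_comm (m e)]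
        rw [← Units.val_mul, ← h4, Units.coe_prod]
        refine Finset.prod_congr rfl fun i _ => ?_
        rw [Units.val_pow_eq_pow_val]
      rw [h2, h3]
      ring
    constructor
    · intro h2
      rw [h2, zero_mul] at h1
      exact (mul_eq_zero.1 h1).resolve_right (Units.ne_zero _)
    · intro h2
      rw [h2, zero_mul] at h1
      exact (mul_eq_zero.1 h1.symm).resolve_right (Units.ne_zero _)

/-- finite unions of sets `x ^ d = c` -/
def CosU (V : Set (Fin n → Fˣ)) : Prop :=
  ∃ S : Set ((Fin n → ℤ) × Fˣ), S.Finite ∧ V = ⋃ p ∈ S, {x | ∏ i, x i ^ p.1 i = p.2}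

theorem CosU.union {V W : Set (Fin n → Fˣ)} (hV : CosU V) (hW : CosU W) : CosU (V ∪ W) := by
  obtain ⟨S, hS, rfl⟩ := hV
  obtain ⟨T, hT, rfl⟩ := hW
  exact ⟨S ∪ T, hS.union hT, (Set.biUnion_union S T _).symm⟩

theorem CosU.empty : CosU (∅ : Set (Fin n → Fˣ)) := ⟨∅, Set.finite_empty, by simp⟩

theorem CosU.univ : CosU (Set.univ : Set (Fin n → Fˣ)) :=
  ⟨{(0, 1)}, Set.finite_singleton _, by simp⟩

theorem cosU_of_collinear {g : MvPolynomial (Fin n) F} (hg : g ≠ 0) (hnc : ¬ NonCol g.support) :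
    CosU {x : Fin n → Fˣ | MvPolynomial.eval (fun i => (x i : F)) g = 0} := by
  classical
  obtain ⟨δ, h, h0, h1⟩ := collinear_form hg hnc
  refine ⟨{p | p.1 = δ ∧ h.IsRoot (p.2 : F)}, ?_, ?_⟩
  · have hfin : {c : Fˣ | h.IsRoot (c : F)}.Finite := by
      refine Set.Finite.of_finite_image (f := fun c : Fˣ => (c : F)) ?_
        (Units.val_injective.injOn)
      refine h.roots.toFinset.finite_toSet.subset ?_
      rintro _ ⟨c, hc, rfl⟩
      rw [Finset.mem_coe, Multiset.mem_toFinset, mem_roots h0]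
      exact hc
    refine (hfin.image fun c => (δ, c)).subset ?_
    rintro ⟨d, c⟩ ⟨h2, h3⟩
    exact ⟨c, h3, Prod.ext h2.symm rfl⟩
  · ext x
    have h2 := h1 F x
    rw [MvPolynomial.aeval_eq_eval] at h2
    simp only [Set.mem_ofPred_eq, Set.mem_iUnion, exists_prop, Prod.exists]
    constructor
    · intro h3
      refine ⟨δ, ∏ i, x i ^ δ i, ⟨rfl, ?_⟩, rfl⟩
      have h4 := h2.1 h3
      rwa [coe_aeval_eq_eval] at h4
    · rintro ⟨d, c, ⟨rfl, h3⟩, h4⟩
      refine h2.2 ?_
      rw [h4, coe_aeval_eq_eval]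
      exact h3

/-- a hypersurface which is not a finite union of cosets has an irreducible component with three
exponents which are not collinear -/
theorem exists_nonCol (f : MvPolynomial (Fin n) F) (hf0 : f ≠ 0)
    (hf : ¬ CosU {x : Fin n → Fˣ | MvPolynomial.eval (fun i => (x i : F)) f = 0}) :
    ∃ g, Irreducible g ∧ g ∣ f ∧ NonCol g.support := by
  by_contra hcon
  push Not at hcon
  apply hf
  have key : ∀ f : MvPolynomial (Fin n) F, (∀ g, Irreducible g → g ∣ f → ¬ NonCol g.support) →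
      f ≠ 0 → CosU {x : Fin n → Fˣ | MvPolynomial.eval (fun i => (x i : F)) f = 0} := by
    intro f
    refine WfDvdMonoid.induction_on_irreducible f ?_ ?_ ?_
    · intro _ h
      exact absurd rfl h
    · intro u hu _ _
      obtain ⟨w, hw⟩ := hu.exists_right_inv
      convert CosU.empty
      rw [Set.eq_empty_iff_forall_notMem]
      intro x hx
      rw [Set.mem_ofPred_eq] at hx
      have h1 := congrArg (MvPolynomial.eval fun i => (x i : F)) hw
      rw [map_mul, hx, zero_mul, map_one] at h1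
      exact zero_ne_one h1
    · intro a g ha hg ih h1 _
      have h2 := ih (fun g' h3 h4 => h1 g' h3 (h4.mul_left g)) ha
      have h3 := cosU_of_collinear hg.ne_zero (h1 g hg (dvd_mul_right _ _))
      convert h3.union h2 using 1
      ext x
      simp only [Set.mem_union, Set.mem_ofPred_eq, map_mul, mul_eq_zero]
  exact key f hcon hf0

end

/-- **All hypersurfaces which are not finite unions of cosets are universal.** -/
theorem zp_iff5 {n : ℕ} {k : Type} [Field k] [IsAlgClosed k] [CharZero k]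
    (f : MvPolynomial (Fin n) k)
    (hf : ¬ CosU {x : Fin n → kˣ | MvPolynomial.eval (fun i => (x i : k)) f = 0}) :
    ZilberPinkForTori ↔ ∀ M : ℕ, {A | Optimal A (hypPow f M)}.Finite := by
  have hf0 : f ≠ 0 := by
    rintro rfl
    apply hf
    convert CosU.univ
    simp
  obtain ⟨g, hg, hgf, hnc⟩ := exists_nonCol f hf0 hf
  exact zp_iff4 hf0 hg hgf hnc

end Pool.Agent.H74.ZP
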