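import Pool.Agent.H74.ZP.Zer

/-!
# The derived curve
-/

set_option autoImplicit false
set_option linter.unusedSectionVars false
set_option linter.style.haveILetI false
set_option synthInstance.maxHeartbeats 400000

namespace Pool.Agent.H74.ZP

open Polynomial Pool.Agent.R948

section

variable {F : Type} [Field F]

/-- an irreducible relation -/
theorem exists_irr {K : Type} [Field K] [Algebra F K] {Z s : K}
    (h : IsAlgebraic (Algebra.adjoin F {s}) Z) :
    ∃ Q : F[X][X], Irreducible Q ∧ (spc K s Q).eval Z = 0 := by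
  obtain ⟨p, hp0, hp⟩ := h
  let φ : F[X] →ₐ[F] Algebra.adjoin F {s} :=
    (aeval s : F[X] →ₐ[F] K).codRestrict _ fun p => aeval_mem_adjoin_singleton F s
  have hφ : Function.Surjective (φ : F[X] →+* Algebra.adjoin F {s}) := by
    rintro ⟨x, hx⟩
    rw [Algebra.adjoin_singleton_eq_range_aeval] at hx
    obtain ⟨q, hq⟩ := hx
    exact ⟨q, Subtype.ext hq⟩
  obtain ⟨R, hR⟩ := Polynomial.map_surjective _ hφ p
  have hR0 : R ≠ 0 := by
    rintro rfl
    rw [Polynomial.map_zero] at hR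
    exact hp0 hR.symm
  have hev : (spc K s R).eval Z = 0 := by
    have h1 : (R.map (φ : F[X] →+* Algebra.adjoin F {s})).map
      (algebraMap (Algebra.adjoin F {s}) K) = spc K s R := by
      rw [map_map]
      rfl
    rw [← h1, eval_map_algebraMap, hR]
    exact hp
  have key : ∀ R : F[X][X], R ≠ 0 → (spc K s R).eval Z = 0 →
      ∃ Q : F[X][X], Irreducible Q ∧ (spc K s Q).eval Z = 0 := by
    intro R
    refine WfDvdMonoid.induction_on_irreducible R ?_ ?_ ?_
    · intro h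
      exact absurd rfl h
    · intro u hu _ h0
      exfalso
      obtain ⟨w, hw⟩ := hu.exists_right_inv
      have h1 := congrArg (fun q => (spc K s q).eval Z) hw
      simp only [spc, Polynomial.map_mul, eval_mul, Polynomial.map_one, eval_one] at h1
      change (spc K s u).eval Z * _ = 1 at h1
      rw [h0, zero_mul] at h1
      exact zero_ne_one h1
    · intro a Q ha hQ ih _ h0
      rw [spc, Polynomial.map_mul, eval_mul] at h0
      rcases mul_eq_zero.1 h0 with h1 | h1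
      · exact ⟨Q, hQ, h1⟩
      · exact ih ha h1
  exact key R hR0 hev

theorem natDegree_pos_of_trans {K : Type} [Field K] [Algebra F K] {Z s : K} {Q : F[X][X]}
    (hQ : Q ≠ 0) (hs : Transcendental F s) (h : (spc K s Q).eval Z = 0) : 0 < Q.natDegree := by
  by_contra h0
  have h1 := eq_C_of_natDegree_eq_zero (by omega : Q.natDegree = 0)
  rw [h1, spc, map_C, eval_C] at h
  have h2 : Q.coeff 0 = 0 := by
    by_contra h3
    exact aeval_ne_zero hs h3 h
  rw [h2, C_0] at h1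
  exact hQ h1

/-- exchange -/
theorem alg_exchange {K : Type} [Field K] [Algebra F K] {Z s : K}
    (h : IsAlgebraic (Algebra.adjoin F {Z}) s) (hs : Transcendental F s) :
    IsAlgebraic (Algebra.adjoin F {s}) Z := by
  obtain ⟨Q, hQ, h1⟩ := exists_irr h
  rw [← sw_eval, ← sw_eval] at h1
  refine alg_fst (P := sw Q) (sw_ne_zero hQ.ne_zero) hs ?_
  rw [sw_eval] at h1
  exact h1

theorem alg_self {K : Type} [Field K] [Algebra F K] (Z : K) :
    IsAlgebraic (Algebra.adjoin F {Z}) Z :=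
  isAlgebraic_algebraMap (A := K) (⟨Z, Algebra.self_mem_adjoin_singleton F Z⟩ :
    Algebra.adjoin F {Z})

/-- the system is one-dimensional -/
theorem dim_lemma {K : Type} [Field K] [Algebra F K] {P : F[X][X]} (hP : P ≠ 0) {h k : ℕ}
    (hh : 0 < h) (hk : 0 < k) {Z s T₁ T₂ T₃ : K} (hsol : Sol P h k K Z s T₁ T₂ T₃)
    (hs : Transcendental F s) : IsAlgebraic (Algebra.adjoin F {s}) Z := by
  obtain ⟨hZ0, hs0, hT, ⟨a1, b1⟩, ⟨a2, b2⟩, ⟨a3, b3⟩⟩ := hsol
  by_cases hZ : Transcendental F Z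
  · refine alg_exchange ?_ hs
    have hT30 : T₃ ≠ 0 := fun h0 => b3 (h0 ▸ isAlgebraic_zero)
    have m1 : IsAlgebraic (Algebra.adjoin F {Z}) T₁ :=
      alg_trans ((alg_self Z).pow h) (alg_snd hP (hZ.pow hh) a1)
    have m3 : IsAlgebraic (Algebra.adjoin F {Z}) T₃ := alg_snd hP hZ a3
    have m2 : IsAlgebraic (Algebra.adjoin F {Z}) T₂ := by
      have h3 : T₂ ^ k = T₁ ^ (k + 1) * T₃⁻¹ := by
        rw [← div_eq_mul_inv, eq_div_iff hT30, mul_comm]
        exact hT
      refine IsAlgebraic.of_pow hk ?_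
      rw [h3]
      exact (m1.pow _).mul m3.inv
    have m4 : IsAlgebraic (Algebra.adjoin F {Z}) (s * Z) := alg_trans m2 (alg_fst hP b2 a2)
    have h4 : s = (s * Z) * Z⁻¹ := by
      rw [mul_assoc, mul_inv_cancel₀ hZ0, mul_one]
    rw [h4]
    exact m4.mul (alg_self Z).inv
  · rw [Transcendental, not_not] at hZ
    exact hZ.extendScalars (algebraMap F (Algebra.adjoin F {s})).injective

/-- the bad exponents -/
theorem finite_bad [CharZero F] {m : ℕ} (hm : 0 < m) (c : F) :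
    {k : ℕ | (-(k : F)) ^ m = c}.Finite := by
  refine Set.Subsingleton.finite ?_
  intro a ha b hb
  rw [Set.mem_ofPred_eq] at ha hb
  rw [← hb, neg_pow, neg_pow (b : F)] at ha
  have h1 := mul_left_cancel₀ (pow_ne_zero m (neg_ne_zero.2 one_ne_zero)) ha
  have h2 : a ^ m = b ^ m := by exact_mod_cast h1
  exact (pow_left_inj₀ (Nat.zero_le _) (Nat.zero_le _) hm.ne').1 h2

theorem exists_good [CharZero F] (P : F[X][X]) (D L : ℕ) (hL0 : 0 < L) (hP : P ≠ 0) :
    ∃ k : ℕ, D * D < k ∧ ∀ (e e' : ℕ) (c₂ c₃ ρ₂ ρ₃ : F), 0 < e → e ≤ L * D → e' ≤ L * D →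
      P.leadingCoeff.IsRoot c₂ → P.leadingCoeff.IsRoot c₃ → ρ₂ ∈ rts (sh c₂ P.reverse) L e' →
      ρ₃ ∈ rts (sh c₃ P.reverse) L e' → (-(k : F)) ^ (L * (e + e')) ≠ (ρ₃ / ρ₂) ^ (L * e) := by
  classical
  let A : Finset F := P.leadingCoeff.roots.toFinset
  have hA : ∀ c, P.leadingCoeff.IsRoot c → c ∈ A := by
    intro c hc
    rw [Multiset.mem_toFinset, mem_roots (leadingCoeff_ne_zero.2 hP)]
    exact hc
  let B : Set ℕ := ⋃ e ∈ Finset.Icc 1 (L * D), ⋃ e' ∈ Finset.range (L * D + 1), ⋃ c₂ ∈ A,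
    ⋃ c₃ ∈ A, ⋃ ρ₂ ∈ rts (sh c₂ P.reverse) L e', ⋃ ρ₃ ∈ rts (sh c₃ P.reverse) L e',
      {k : ℕ | (-(k : F)) ^ (L * (e + e')) = (ρ₃ / ρ₂) ^ (L * e)}
  have hB : B.Finite := by
    refine Set.Finite.biUnion (Finset.finite_toSet _) fun e he => ?_
    refine Set.Finite.biUnion (Finset.finite_toSet _) fun e' _ => ?_
    refine Set.Finite.biUnion (Finset.finite_toSet _) fun c₂ _ => ?_
    refine Set.Finite.biUnion (Finset.finite_toSet _) fun c₃ _ => ?_
    refine Set.Finite.biUnion (Finset.finite_toSet _) fun ρ₂ _ => ?_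
    refine Set.Finite.biUnion (Finset.finite_toSet _) fun ρ₃ _ => ?_
    have he1 : 1 ≤ e := (Finset.mem_Icc.1 he).1
    exact finite_bad (Nat.mul_pos hL0 (by omega)) _
  obtain ⟨N, hN⟩ := hB.bddAbove
  refine ⟨N + D * D + 1, by omega, fun e e' c₂ c₃ ρ₂ ρ₃ he0 he he' h2 h3 h4 h5 h6 => ?_⟩
  have h7 : N + D * D + 1 ∈ B := by
    simp only [B, Set.mem_iUnion]
    exact ⟨e, Finset.mem_Icc.2 ⟨he0, he⟩, e', Finset.mem_range.2 (by omega), c₂, hA _ h2, c₃,
      hA _ h3, ρ₂, h4, ρ₃, h5, h6⟩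
  have := hN h7
  omega

/-- **The derived curve.** -/
theorem exists_derived [IsAlgClosed F] [CharZero F] {P : F[X][X]} (hP0 : P.coeff 0 ≠ 0) {u : F}
    (hu0 : u ≠ 0) (hu : (P.coeff 0).eval u = 0) (hPu : P.map (evalRingHom u) ≠ 0) :
    ∃ (h k : ℕ) (Q : F[X][X]), 0 < h ∧ 0 < k ∧ Irreducible Q ∧ Q.coeff 0 ≠ 0 ∧
      ¬ Prp Q.leadingCoeff (Q.coeff 0) ∧
      ∃ (K : Type) (_ : Field K) (_ : Algebra F K) (Z s T₁ T₂ T₃ : K),
        Sol P h k K Z s T₁ T₂ T₃ ∧ Transcendental F Z ∧ Transcendental F s ∧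
        (spc K s Q).eval Z = 0 := by
  classical
  have hP : P ≠ 0 := by
    rintro rfl
    exact hP0 rfl
  obtain ⟨D, hD⟩ : ∃ D, D = bd P + bd (sh u P) +
    ∑ c ∈ P.leadingCoeff.roots.toFinset, bd (sh c P.reverse) := ⟨_, rfl⟩
  have hDP : bd P ≤ D := by omega
  have hDu : bd (sh u P) ≤ D := by omega
  have hDr : ∀ c, P.leadingCoeff.IsRoot c → bd (sh c P.reverse) ≤ D := by
    intro c hc
    have h1 : c ∈ P.leadingCoeff.roots.toFinset := by
      rw [Multiset.mem_toFinset, mem_roots (leadingCoeff_ne_zero.2 hP)]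
      exact hc
    have h2 : bd (sh c P.reverse) ≤ ∑ c ∈ P.leadingCoeff.roots.toFinset, bd (sh c P.reverse) :=
      Finset.single_le_sum (f := fun c => bd (sh c P.reverse)) (fun _ _ => Nat.zero_le _) h1
    omega
  obtain ⟨L, hLD⟩ : ∃ L, L = D.factorial := ⟨_, rfl⟩
  have hL : ∀ q, 1 ≤ q → q ≤ D → q ∣ L := by
    intro q h1 h2
    rw [hLD]
    exact Nat.dvd_factorial h1 h2
  have hL0 : 0 < L := by
    rw [hLD]
    exact Nat.factorial_pos D
  obtain ⟨k, hkD, hgood⟩ := exists_good P D L hL0 hP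
  obtain ⟨h, hh⟩ : ∃ h, h = D * D * D + D * D + 1 := ⟨_, rfl⟩
  have hk : 0 < k := by omega
  have hh0 : 0 < h := by omega
  obtain ⟨K, _, _, _, Γ, _, v, hv, z, hz0, hz⟩ := exists_place F
  obtain ⟨e, s₀, Z, s, T₁, T₂, T₃, he0, heD, hs₀, hsol, hZ, hs⟩ := exists_zero hv hP0 hu0 hu hPu
    hDu hL hL0 (h := h) (k := k) (by omega) hk hz0 hz
  have hinf : ∀ (Z' s' T₁' T₂' T₃' : K), Sol P h k K Z' s' T₁' T₂' T₃' → 1 < v Z' →
      Nr v s' s₀ → False := fun Z' s' T₁' T₂' T₃' h1 h2 h3 =>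
    no_inf hv hP hDP hDr hL hL0 (by omega) hkD he0 hs₀
      (fun e' c₂ c₃ ρ₂ ρ₃ => hgood e e' c₂ c₃ ρ₂ ρ₃ he0 heD) h1 h2 h3
  have hZ0 : Z ≠ 0 := hsol.1
  have hZt : Transcendental F Z := trans_of_v hv hZ0 hZ.ne
  have hs0 : s₀ ≠ 0 := by
    rintro rfl
    rw [zero_pow he0.ne', zero_mul] at hs₀
    exact zero_ne_one hs₀
  have hvs : v s = 1 := hs.v_eq hv hs0
  -- the coordinate s is transcendental
  have hst : Transcendental F s := by
    intro halg
    obtain ⟨c, hc⟩ := mem_range_of_integral halg.isIntegral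
    have hc0 : c = s₀ := Nr.unique hv (hc ▸ Nr.refl c) hs
    rw [hc0] at hc
    have hZi : Transcendental F Z⁻¹ := by
      refine trans_of_v hv (inv_ne_zero hZ0) ?_
      rw [map_inv₀]
      exact ((one_lt_inv₀ (zero_lt_iff.2 ((map_ne_zero v).2 hZ0))).2 hZ).ne'
    rw [hc] at hsol
    obtain ⟨T₁', T₂', T₃', h1⟩ := lift_sol hP hh0 hk (same_of_const s₀ hZt hZi) hZt hsol
    refine hinf _ _ _ _ _ h1 ?_ (Nr.refl s₀)
    rw [map_inv₀]
    exact (one_lt_inv₀ (zero_lt_iff.2 ((map_ne_zero v).2 hZ0))).2 hZ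
  obtain ⟨Q, hQ, hQZ⟩ := exists_irr (dim_lemma hP hh0 hk hsol hst)
  have hQd := natDegree_pos_of_trans hQ.ne_zero hst hQZ
  have hQ0 : Q.coeff 0 ≠ 0 := by
    intro h0
    obtain ⟨R, hR⟩ := X_dvd_iff.2 h0
    rcases hQ.isUnit_or_isUnit hR with h1 | h1
    · exact not_isUnit_X h1
    · obtain ⟨w, hw⟩ := h1.exists_right_inv
      have h2 := congrArg (fun q => (spc K s q).eval Z) hw
      simp only [spc, Polynomial.map_mul, eval_mul, Polynomial.map_one, eval_one] at h2
      rw [hR, spc, Polynomial.map_mul, map_X, eval_mul, eval_X] at hQZ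
      rw [(mul_eq_zero.1 hQZ).resolve_left hZ0, zero_mul] at h2
      exact zero_ne_one h2
  have hb : (Q.coeff 0).eval s₀ = 0 :=
    Nr.unique hv (hs.aeval hv (Q.coeff 0)) (Nr.zero (const_small hv hZ hvs.le hQZ))
  have ha : (Q.leadingCoeff).eval s₀ ≠ 0 := by
    intro ha0
    have h1 := hs.aeval hv Q.leadingCoeff
    rw [ha0] at h1
    have hQs : Q.map (evalRingHom s₀) ≠ 0 := by
      intro h2
      have h3 : C (X - C s₀) ∣ Q := by
        rw [C_dvd_iff_dvd_coeff]
        intro i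
        rw [dvd_iff_isRoot]
        have := congrArg (fun q => q.coeff i) h2
        simpa using this
      obtain ⟨R, hR⟩ := h3
      rcases hQ.isUnit_or_isUnit hR with h4 | h4
      · exact not_isUnit_X_sub_C s₀ (isUnit_C.1 h4)
      · have h5 := natDegree_eq_zero_of_isUnit h4
        have h6 : Q.natDegree ≤ 0 + R.natDegree := by
          conv_lhs => rw [hR]
          refine natDegree_mul_le.trans ?_
          rw [natDegree_C]
        omega
    haveI : Infinite F := IsAlgClosed.instInfinite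
    obtain ⟨c, hc⟩ : ∃ c : F, (Q.map (evalRingHom s₀)).eval c ≠ 0 := by
      by_contra hcon
      push Not at hcon
      exact hQs (Polynomial.funext fun c => by rw [hcon c, eval_zero])
    have h2 : Nr v ((spc K s Q).eval (algebraMap F K c)) ((Q.map (evalRingHom s₀)).eval c) := by
      have h3 : (spc K s Q).eval (algebraMap F K c) =
          aeval s ((sw Q).map (evalRingHom c)) := by
        rw [← sw_eval, spc_const]
      have h4 : ((sw Q).map (evalRingHom c)).eval s₀ = (Q.map (evalRingHom s₀)).eval c := by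
        have h5 := spc_const (K := F) c (sw Q) s₀
        have h6 := spc_const (K := F) s₀ Q c
        rw [sw_eval] at h5
        simp only [Algebra.algebraMap_self, RingHom.id_apply, coe_aeval_eq_eval] at h5 h6
        rw [← h5, ← h6]
      rw [h3, ← h4]
      exact hs.aeval hv _
    have hal : aeval s Q.leadingCoeff ≠ 0 := aeval_ne_zero hst (leadingCoeff_ne_zero.2 hQ.ne_zero)
    obtain ⟨Z', hZ', hZ'1⟩ := exists_root_large v (p := spc K s Q) (x := algebraMap F K c)
      (v_le_one hv c) (by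
        rw [spc_leadingCoeff hal, h2.v_eq hv hc]
        exact h1.lt)
    obtain ⟨T₁', T₂', T₃', h3⟩ := lift_sol hP hh0 hk (same_of_irr hQ hQd hst hst hQZ hZ') hZt hsol
    exact hinf _ _ _ _ _ h3 hZ'1 hs
  refine ⟨h, k, Q, hh0, hk, hQ, hQ0, ?_, K, inferInstance, inferInstance, Z, s, T₁, T₂, T₃, hsol,
    hZt, hst, hQZ⟩
  rintro ⟨κ, i, j, h1⟩
  have h2 := congrArg (eval s₀) h1
  rw [eval_mul, eval_mul, eval_mul, hb, mul_zero, mul_zero, eval_pow, eval_X] at h2
  exact mul_ne_zero (pow_ne_zero _ hs0) ha h2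

end

end Pool.Agent.H74.ZP
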