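import Pool.Graph.R_seed8.R948.Opt

/-!
# Descent of finiteness to a smaller field
-/

set_option autoImplicit false
set_option linter.unusedSectionVars false
set_option linter.style.haveILetI false

namespace Pool.Agent.H74.ZP

open MvPolynomial Pool.Agent.R948

section

variable {F : Type} [Field F] {k : Type} [Field k] [Algebra F k] {ι : Type} [Fintype ι]

theorem td_restrict {K : Type} [Field K] [Algebra k K] [Algebra F K] [IsScalarTower F k K]
    (z : ι → K) : td k z ≤ td F z := by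
  obtain ⟨S, hS, h⟩ := exists_td k z
  rw [← hS]
  refine le_td F ?_
  exact h.1.restrictScalars (algebraMap F k).injective

theorem aeval_map_base {K : Type} [Field K] [Algebra k K] [Algebra F K] [IsScalarTower F k K]
    (z : ι → K) (f : MvPolynomial ι F) :
    aeval z (MvPolynomial.map (algebraMap F k) f) = aeval z f := by
  rw [aeval_map_algebraMap]

/-- descent -/
theorem fin_descent [IsAlgClosed F] (I : Ideal (MvPolynomial ι F))
    (h : Fin' (I.map (MvPolynomial.map (algebraMap F k) : MvPolynomial ι F →+* _))) : Fin' I := by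
  classical
  obtain ⟨B, hB, h⟩ := h
  refine ⟨(Ideal.comap (MvPolynomial.map (algebraMap F k) : MvPolynomial ι F →+* _)) '' B,
    hB.image _, fun Q₀ hQ₀ => ?_⟩
  obtain ⟨x₀, hx₀⟩ := (sub_zeros Q₀).nonempty
  let ev : MvPolynomial ι k →+* k := MvPolynomial.eval (fun i => algebraMap F k (x₀ i : F))
  have h1 : Q₀.I.map (MvPolynomial.map (algebraMap F k) : MvPolynomial ι F →+* _) ≤
      RingHom.ker ev := by
    rw [Ideal.map_le_iff_le_comap]
    intro f hf
    rw [Ideal.mem_comap, RingHom.mem_ker]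
    change MvPolynomial.eval (fun i => algebraMap F k (x₀ i : F))
      (MvPolynomial.map (algebraMap F k) f) = 0
    rw [MvPolynomial.eval_map]
    have h2 := hx₀ f hf
    have h3 := congrArg (algebraMap F k) h2
    rw [map_zero, MvPolynomial.eval, MvPolynomial.coe_eval₂Hom, MvPolynomial.hom_eval₂] at h3
    exact h3
  have hprime : (RingHom.ker ev).IsPrime := RingHom.ker_isPrime ev
  obtain ⟨b, hb, hbe⟩ := Ideal.exists_minimalPrimes_le h1
  have hbp : b.IsPrime := hb.1.1
  let Pb : TP k ι := ⟨b, hbp, fun i hi => by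
    have h2 := hbe hi
    rw [RingHom.mem_ker] at h2
    change MvPolynomial.eval (fun i => algebraMap F k (x₀ i : F)) (X i) = 0 at h2
    rw [eval_X, map_eq_zero_iff _ (algebraMap F k).injective] at h2
    exact (x₀ i).ne_zero h2⟩
  have hbase : tdP Q₀.I ≤ tdP b := base_change Q₀.I b hb
  obtain ⟨P, h2, h3, h4, h5⟩ := h Pb ((Ideal.map_mono hQ₀).trans hb.1.2)
  have hcomap : ∀ (Q : TP k ι), (TP.ofPt Q.pt : TP F ι).I =
      Q.I.comap (MvPolynomial.map (algebraMap F k) : MvPolynomial ι F →+* _) := by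
    intro Q
    ext f
    rw [TP.mem_ofPt, Ideal.mem_comap, ← TP.aeval_pt_eq_zero, aeval_map_base]
  have hQb : Q₀.I ≤ (TP.ofPt Pb.pt : TP F ι).I := by
    rw [hcomap, ← Ideal.map_le_iff_le_comap]
    exact hb.1.2
  have htd : td F (un (TP.ofPt Pb.pt : TP F ι).pt) = td F (un Pb.pt) := by
    refine le_antisymm (Spec.td_le (F := F) (z := Pb.pt)
      (z' := (TP.ofPt Pb.pt : TP F ι).pt) fun f hf => ?_)
      (Spec.td_le (F := F) (z := (TP.ofPt Pb.pt : TP F ι).pt) (z' := Pb.pt) fun f hf => ?_)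
    · rwa [TP.aeval_pt_eq_zero, TP.mem_ofPt]
    · rwa [TP.aeval_pt_eq_zero, TP.mem_ofPt] at hf
  have htd2 : tdP b ≤ td F (un Pb.pt) := by
    have h6 := td_restrict (F := F) (k := k) (un Pb.pt)
    rw [TP.td_pt] at h6
    exact h6
  have heq : Q₀.I = (TP.ofPt Pb.pt : TP F ι).I := by
    by_contra hne
    have h6 := tdP_strict (lt_of_le_of_ne hQb hne)
    rw [← TP.td_pt (TP.ofPt Pb.pt : TP F ι), htd] at h6
    omega
  have hs1 : Spec F Q₀.pt Pb.pt := by
    intro f hf
    rw [TP.aeval_pt_eq_zero, heq, TP.mem_ofPt] at hf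
    exact hf
  have hs2 : Spec F Pb.pt Q₀.pt := by
    intro f hf
    rw [TP.aeval_pt_eq_zero, heq, TP.mem_ofPt]
    exact hf
  refine ⟨TP.ofPt P.pt, ⟨_, h2, (hcomap P).symm⟩, ?_, ?_, ?_⟩
  · rw [hcomap, ← Ideal.map_le_iff_le_comap]
    exact h3
  · rw [heq, hcomap, hcomap]
    exact Ideal.comap_mono h4
  · rw [TP.df_ofPt, TP.df, R948.df, R948.df]
    rw [TP.df, TP.df, R948.df, R948.df] at h5
    have h6 := td_restrict (F := F) (k := k) (un P.pt)
    have h7 : dr Pb.pt = dr Q₀.pt := le_antisymm hs2.dr_le hs1.dr_le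
    have h8 := TP.td_pt Pb
    have h9 := TP.td_pt Q₀
    have h10 : tdP Pb.I = tdP b := rfl
    omega

end

end Pool.Agent.H74.ZP
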