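import Pool.Agent.H74.ZP.Poly
import Pool.Agent.H74.ZP.Desc

/-!
# Powers of hypersurfaces with asymmetric Newton polytope
-/

set_option autoImplicit false
set_option linter.unusedSectionVars false
set_option linter.style.haveILetI false

namespace Pool.Agent.H74.ZP

open Polynomial Pool.Agent.R948

section

variable {n : ℕ} {F : Type} [Field F]

/-- the ideal of the powers of the hypersurface -/
noncomputable def powI (f : MvPolynomial (Fin n) F) (M : ℕ) :
    Ideal (MvPolynomial (Fin M × Fin n) F) :=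
  Ideal.span (Set.range fun i : Fin M => MvPolynomial.rename (fun j => (i, j)) f)

theorem powI_zero_iff (f : MvPolynomial (Fin n) F) (M : ℕ) {K : Type} [Field K] [Algebra F K]
    (z : Fin M × Fin n → K) : (∀ g ∈ powI f M, MvPolynomial.aeval z g = 0) ↔
      ∀ i, MvPolynomial.aeval (fun j => z (i, j)) f = 0 := by
  constructor
  · intro h i
    have h1 := h _ (Ideal.subset_span ⟨i, rfl⟩)
    rw [MvPolynomial.aeval_rename] at h1
    exact h1
  · intro h g hg
    refine Submodule.span_induction (p := fun g _ => MvPolynomial.aeval z g = 0) ?_ ?_ ?_ ?_ hg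
    · rintro _ ⟨i, rfl⟩
      rw [MvPolynomial.aeval_rename]
      exact h i
    · exact map_zero _
    · intro a b _ _ ha hb
      rw [map_add, ha, hb, add_zero]
    · intro a b _ hb
      rw [smul_eq_mul, map_mul, hb, mul_zero]

theorem hypPow_eq (f : MvPolynomial (Fin n) F) (M : ℕ) :
    hypPow f M = zeros (powI f M : Set (MvPolynomial (Fin M × Fin n) F)) := by
  ext x
  exact (powI_zero_iff f M (K := F) (fun p => (x p : F))).symm

theorem fin_powI [IsAlgClosed F] (f : MvPolynomial (Fin n) F) (M : ℕ)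
    (h : {A | Optimal A (hypPow f M)}.Finite) : Fin' (powI f M) := by
  have h1 : ZClosed (hypPow f M) := by
    rw [hypPow_eq]
    exact zclosed_zeros _
  obtain ⟨B, hB, h2⟩ := fin_of_optimal h1 h
  have h3 : powI f M ≤ van (hypPow f M) := by
    intro g hg x hx
    rw [hypPow_eq] at hx
    exact hx g hg
  refine ⟨B, hB, fun Q₀ hQ₀ => ?_⟩
  obtain ⟨P, h4, h5, h6, h7⟩ := h2 Q₀ (by
    rw [← van_zeros Q₀]
    apply van_anti
    rw [hypPow_eq]
    exact zeros_anti hQ₀)
  exact ⟨P, h4, h3.trans h5, h6, h7⟩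

/-- the polynomial in two variables obtained from monomials -/
noncomputable def red (f : MvPolynomial (Fin n) F) (w v : Fin n → ℤ) (a b : ℤ) : F[X][X] :=
  ∑ e ∈ f.support, monomial (ip w e + a).toNat (monomial (ip v e + b).toNat (f.coeff e))

theorem red_coeff (f : MvPolynomial (Fin n) F) (w v : Fin n → ℤ) (a b : ℤ) (m : ℕ) :
    (red f w v a b).coeff m = ∑ e ∈ f.support.filter (fun e => (ip w e + a).toNat = m),
      monomial (ip v e + b).toNat (f.coeff e) := by
  rw [red, finsetSum_coeff, Finset.sum_filter]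
  refine Finset.sum_congr rfl fun e _ => ?_
  rw [coeff_monomial]

theorem ip_neg (w : Fin n → ℤ) (e : Fin n →₀ ℕ) : ip (-w) e = - ip w e := by
  simp [ip]

theorem zpow_sum' {G ι : Type} [CommGroup G] (x : G) (s : Finset ι) (g : ι → ℤ) :
    x ^ (∑ i ∈ s, g i) = ∏ i ∈ s, x ^ g i := by
  classical
  induction s using Finset.induction_on with
  | empty => simp
  | insert a s ha ih => rw [Finset.sum_insert ha, Finset.prod_insert ha, zpow_add, ih]

theorem zpow_ip {G : Type} [CommGroup G] (x t : G) (w v : Fin n → ℤ) (e : Fin n →₀ ℕ) :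
    ∏ i, (x ^ w i * t ^ v i) ^ (e i) = x ^ ip w e * t ^ ip v e := by
  have key : ∀ (x : G) (w : Fin n → ℤ), ∏ i, (x ^ w i) ^ (e i) = x ^ ip w e := by
    intro x w
    rw [ip, zpow_sum']
    refine Finset.prod_congr rfl fun i _ => ?_
    rw [zpow_mul, zpow_natCast]
  rw [← key, ← key, ← Finset.prod_mul_distrib]
  exact Finset.prod_congr rfl fun i _ => mul_pow _ _ _

theorem eval_red {K : Type} [Field K] [Algebra F K] (f : MvPolynomial (Fin n) F)
    (w v : Fin n → ℤ) (a b : ℤ) (ha : ∀ e ∈ f.support, 0 ≤ ip w e + a)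
    (hb : ∀ e ∈ f.support, 0 ≤ ip v e + b) (x t : Kˣ) :
    (spc K (t : K) (red f w v a b)).eval (x : K) =
      MvPolynomial.aeval (fun i => ((x ^ w i * t ^ v i : Kˣ) : K)) f * ((x ^ a * t ^ b : Kˣ) : K) := by
  have h1 : (spc K (t : K) (red f w v a b)).eval (x : K) = ∑ e ∈ f.support,
      algebraMap F K (f.coeff e) * ((x ^ (ip w e + a) * t ^ (ip v e + b) : Kˣ) : K) := by
    rw [spc, red, Polynomial.map_sum, eval_finsetSum]
    refine Finset.sum_congr rfl fun e he => ?_
    rw [map_monomial, eval_monomial]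
    have h2 : ((aeval (t : K) : F[X] →ₐ[F] K) : F[X] →+* K)
        (monomial (ip v e + b).toNat (f.coeff e)) =
        algebraMap F K (f.coeff e) * (t : K) ^ (ip v e + b).toNat := aeval_monomial _
    rw [h2, mul_assoc]
    congr 1
    have h3 : x ^ (ip w e + a) = x ^ (ip w e + a).toNat := by
      rw [← zpow_natCast, Int.toNat_of_nonneg (ha e he)]
    have h4 : t ^ (ip v e + b) = t ^ (ip v e + b).toNat := by
      rw [← zpow_natCast, Int.toNat_of_nonneg (hb e he)]
    rw [h3, h4]
    push_cast
    ring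
  rw [h1, MvPolynomial.aeval_def, MvPolynomial.eval₂_eq', Finset.sum_mul]
  refine Finset.sum_congr rfl fun e _ => ?_
  rw [mul_assoc]
  congr 1
  have h2 : (∏ i, ((x ^ w i * t ^ v i : Kˣ) : K) ^ (e i)) =
      ((∏ i, (x ^ w i * t ^ v i) ^ (e i) : Kˣ) : K) := by
    push_cast
    rfl
  rw [h2, zpow_ip, ← Units.val_mul]
  congr 1
  rw [zpow_add, zpow_add]
  exact mul_mul_mul_comm _ _ _ _

/-- the condition for the reduced polynomial -/
theorem U_red [IsAlgClosed F] (f : MvPolynomial (Fin n) F) (w v : Fin n → ℤ) (a b : ℤ)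
    (ha : ∀ e ∈ f.support, 0 ≤ ip w e + a) (hb : ∀ e ∈ f.support, 0 ≤ ip v e + b)
    (h : ∀ M, Fin' (powI f M)) :
    U (F := F) (fun K _ _ x T => (spc K (T : K) (red f w v a b)).eval (x : K) = 0) := by
  classical
  intro ι J _ _ t s m n' ht hs
  let e : J ≃ Fin (Fintype.card J) := Fintype.equivFin J
  have h1 := FinR.of_fin (ι := ι) (powI f (Fintype.card J)) (h _)
    (fun p : Fin (Fintype.card J) × Fin n => w p.2 • m (e.symm p.1) + v p.2 • n' (e.symm p.1))
    (fun p => t (e.symm p.1) ^ w p.2 * s (e.symm p.1) ^ v p.2)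
    (fun p => (tor_zpow (ht _) _).mul (tor_zpow (hs _) _))
  refine h1.congr fun K _ _ y => ?_
  rw [powI_zero_iff]
  have h2 : ∀ j, ((spc K ((tm K (s j) (n' j) y : Kˣ) : K) (red f w v a b)).eval
      ((tm K (t j) (m j) y : Kˣ) : K) = 0 ↔ MvPolynomial.aeval (fun i =>
        ((tm K (t j ^ w i * s j ^ v i) (w i • m j + v i • n' j) y : Kˣ) : K)) f = 0) := by
    intro j
    rw [eval_red f w v a b ha hb]
    simp only [tm_comb]
    exact mul_eq_zero_iff_right (Units.ne_zero _)
  constructor
  · intro h3 j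
    rw [h2]
    have h4 := h3 (e j)
    simpa [un] using h4
  · intro h3 i
    have h4 := (h2 (e.symm i)).1 (h3 (e.symm i))
    simpa [un] using h4

/-- **From hypersurfaces to the line.** -/
theorem fin_line_of_hyp [IsAlgClosed F] [CharZero F] (f : MvPolynomial (Fin n) F)
    (w v : Fin n → ℤ) (hwv : width (face f w) v ≠ width (face f (-w)) v)
    (h : ∀ M, Fin' (powI f M)) (M : ℕ) : Fin' (lineI F M) := by
  classical
  have hf : f.support.Nonempty := by
    by_contra h0
    rw [Finset.not_nonempty_iff_eq_empty] at h0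
    apply hwv
    rw [face, face, h0]
    rfl
  have hface : ∀ w : Fin n → ℤ, (face f w).Nonempty := by
    intro w
    obtain ⟨e, he, h1⟩ := Finset.exists_max_image f.support (ip w) hf
    exact ⟨e, Finset.mem_filter.2 ⟨he, h1⟩⟩
  obtain ⟨v', hinj, hv'⟩ := exists_direction f.support (face f w) (face f (-w))
    (Finset.filter_subset _ _) (Finset.filter_subset _ _) (hface w) (hface (-w)) v hwv
  obtain ⟨e₁, he₁⟩ := hface w
  obtain ⟨e₀, he₀⟩ := hface (-w)
  rw [face, Finset.mem_filter] at he₁ he₀
  have hmax : ∀ e ∈ f.support, ip w e ≤ ip w e₁ := he₁.2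
  have hmin : ∀ e ∈ f.support, ip w e₀ ≤ ip w e := by
    intro e he
    have := he₀.2 e he
    rw [ip_neg, ip_neg] at this
    omega
  obtain ⟨e₂, he₂, h2⟩ := Finset.exists_min_image f.support (ip v') hf
  have ha : ∀ e ∈ f.support, 0 ≤ ip w e + (- ip w e₀) := fun e he => by
    have := hmin e he
    omega
  have hb : ∀ e ∈ f.support, 0 ≤ ip v' e + (- ip v' e₂) := fun e he => by
    have := h2 e he
    omega
  obtain ⟨a, hae⟩ : ∃ a, a = - ip w e₀ := ⟨_, rfl⟩
  obtain ⟨b, hbe⟩ : ∃ b, b = - ip v' e₂ := ⟨_, rfl⟩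
  rw [← hae] at ha
  rw [← hbe] at hb
  have hS0 : f.support.filter (fun e => (ip w e + a).toNat = 0) = face f (-w) := by
    ext e
    rw [face, Finset.mem_filter, Finset.mem_filter]
    refine and_congr_right fun he => ⟨fun h3 e' he' => ?_, fun h3 => ?_⟩
    · rw [ip_neg, ip_neg]
      have h4 := ha e he
      have h5 := hmin e' he'
      omega
    · have h4 := h3 e₀ he₀.1
      rw [ip_neg, ip_neg] at h4
      omega
  have hS1 : f.support.filter (fun e => (ip w e + a).toNat = (ip w e₁ + a).toNat) =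
      face f w := by
    ext e
    rw [face, Finset.mem_filter, Finset.mem_filter]
    refine and_congr_right fun he => ⟨fun h3 e' he' => ?_, fun h3 => ?_⟩
    · have h4 := ha e he
      have h5 := ha e₁ he₁.1
      have h6 := hmax e' he'
      omega
    · have h4 := h3 e₁ he₁.1
      have h5 := hmax e he
      omega
  have hsub : ∀ w, ∀ e ∈ face f w, e ∈ f.support := fun w e he => (Finset.mem_filter.1 he).1
  have hlen : ∀ w : Fin n → ℤ, (∑ e ∈ face f w, monomial (ip v' e + b).toNat (f.coeff e)) ≠ 0 ∧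
      len (∑ e ∈ face f w, monomial (ip v' e + b).toNat (f.coeff e)) = width (face f w) v' :=
    fun w => len_sum (face f w) (hface w) v' b (fun e he => hb e (hsub w e he))
      (fun e he e' he' => hinj e (hsub w e he) e' (hsub w e' he')) (fun e => f.coeff e)
      (fun e he => MvPolynomial.mem_support_iff.1 (hsub w e he))
  have hc0 : (red f w v' a b).coeff 0 =
      ∑ e ∈ face f (-w), monomial (ip v' e + b).toNat (f.coeff e) := by
    rw [red_coeff, hS0]
  have hcd : (red f w v' a b).coeff (ip w e₁ + a).toNat =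
      ∑ e ∈ face f w, monomial (ip v' e + b).toNat (f.coeff e) := by
    rw [red_coeff, hS1]
  have hdeg : (red f w v' a b).natDegree = (ip w e₁ + a).toNat := by
    refine le_antisymm ?_ (le_natDegree_of_ne_zero (by rw [hcd]; exact (hlen w).1))
    rw [natDegree_le_iff_coeff_eq_zero]
    intro m hm
    rw [red_coeff]
    refine Finset.sum_eq_zero fun e he => ?_
    exfalso
    rw [Finset.mem_filter] at he
    have h4 := hmax e he.1
    have h5 := ha e he.1
    omega
  have hlc : (red f w v' a b).leadingCoeff =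
      ∑ e ∈ face f w, monomial (ip v' e + b).toNat (f.coeff e) := by
    rw [leadingCoeff, hdeg, hcd]
  refine fin_of_poly (P := red f w v' a b) ?_ ?_ (U_red f w v' a b ha hb h) M
  · rw [hc0]
    exact (hlen (-w)).1
  · rw [hc0, hlc, (hlen w).2, (hlen (-w)).2]
    exact_mod_cast hv'

end

theorem lineI_map (F k : Type) [Field F] [Field k] [Algebra F k] (M : ℕ) :
    (lineI F M).map (MvPolynomial.map (algebraMap F k) :
      MvPolynomial (Fin M ⊕ Fin M) F →+* _) = lineI k M := by
  rw [lineI, lineI, Ideal.map_span, ← Set.range_comp]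
  congr 2
  funext i
  simp

/-- **Universality of the powers of a hypersurface with asymmetric Newton polytope.** -/
theorem zp_iff {n : ℕ} {k : Type} [Field k] [IsAlgClosed k] [CharZero k]
    (f : MvPolynomial (Fin n) k) (w v : Fin n → ℤ)
    (hwv : width (face f w) v ≠ width (face f (-w)) v) :
    ZilberPinkForTori ↔ ∀ M : ℕ, {A | Optimal A (hypPow f M)}.Finite := by
  haveI : Algebra.IsAlgebraic ℚ (AlgebraicClosure ℚ) := AlgebraicClosure.isAlgebraic ℚ
  letI : Algebra (AlgebraicClosure ℚ) k :=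
    (IsAlgClosed.lift (R := ℚ) (S := AlgebraicClosure ℚ) (M := k)).toRingHom.toAlgebra
  constructor
  · intro h M
    have h1 := zilberPink_iff.1 h
    have h2 : ZClosed (hypPow f M) := by
      rw [hypPow_eq]
      exact zclosed_zeros _
    exact finite_optimal h2 (fin_aux (AlgebraicClosure.isAlgebraic ℚ)
      (fun M => fin_lineI M (h1 M)) k _)
  · intro h k' _ _ _ ι _ V hV
    refine finite_optimal hV.closed (fin_aux (AlgebraicClosure.isAlgebraic ℚ) (fun M => ?_) k' _)
    refine fin_descent (k := k) (lineI (AlgebraicClosure ℚ) M) ?_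
    rw [lineI_map]
    exact fin_line_of_hyp f w v hwv (fun M => fin_powI f M (h M)) M

end Pool.Agent.H74.ZP
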