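import Pool.Agent.H74.ZP.Mob

/-!
# From the graph of a Moebius map to a line: the main step
-/

set_option autoImplicit false
set_option linter.unusedSectionVars false
set_option linter.style.haveILetI false

namespace Pool.Agent.H74.ZP

open Pool.Agent.R948

section algebra

variable {K : Type} [Field K] {α β γ δ s : K}

/-- If `v = M P` and `y = M (s P)`, where `s β γ = α δ`, then `1 / y` is a linear function of `v`. -/
theorem rel_of_mob (hne : α * δ - β * γ ≠ 0) (hs : s * (β * γ) = α * δ) {P v y : K}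
    (hv : v * (γ - δ * P) = α - β * P) (hy : y * (γ - δ * (s * P)) = α - β * (s * P)) :
    γ * δ * (v * y) - (α * δ + β * γ) * y + α * β = 0 := by
  have h : (α * δ - β * γ) * (γ * δ * (v * y) - (α * δ + β * γ) * y + α * β) = 0 := by
    linear_combination (α * δ * (δ * y - β)) * hv - (β * γ * (δ * v - β)) * hy -
      (P * (δ * v - β) * (δ * y - β)) * hs
  exact (mul_eq_zero.1 h).resolve_left hne

/-- the converse, for `y` -/
theorem mob_of_rel (hl : β * γ ≠ 0) (hs : s * (β * γ) = α * δ) {P v y : K}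
    (hD : δ * v - β ≠ 0) (hv : v * (γ - δ * P) = α - β * P)
    (h : γ * δ * (v * y) - (α * δ + β * γ) * y + α * β = 0) :
    y * (γ - δ * (s * P)) = α - β * (s * P) := by
  have h1 : (β * γ * (δ * v - β)) * (y * (γ - δ * (s * P)) - (α - β * (s * P))) = 0 := by
    linear_combination (α * δ * (δ * y - β)) * hv - (α * δ - β * γ) * h -
      (P * (δ * v - β) * (δ * y - β)) * hs
  exact sub_eq_zero.1 ((mul_eq_zero.1 h1).resolve_left (mul_ne_zero hl hD))

/-- the converse, for `v` -/
theorem mob_of_rel' (hk : α * δ ≠ 0) (hs : s * (β * γ) = α * δ) {P v y : K}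
    (hD : δ * y - β ≠ 0) (hy : y * (γ - δ * (s * P)) = α - β * (s * P))
    (h : γ * δ * (v * y) - (α * δ + β * γ) * y + α * β = 0) :
    v * (γ - δ * P) = α - β * P := by
  have h1 : (α * δ * (δ * y - β)) * (v * (γ - δ * P) - (α - β * P)) = 0 := by
    linear_combination (β * γ * (δ * v - β)) * hy + (α * δ - β * γ) * h +
      (P * (δ * v - β) * (δ * y - β)) * hs
  exact sub_eq_zero.1 ((mul_eq_zero.1 h1).resolve_left (mul_ne_zero hk hD))

/-- the relation between `x = M (s P)` and `w = M P` in general -/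
theorem rel_general {P w x : K} (hw : w * (γ - δ * P) = α - β * P)
    (hx : x * (γ - δ * (s * P)) = α - β * (s * P)) :
    w * (γ * δ * (1 - s) * x - (α * δ - s * (β * γ))) =
      α * β * (s - 1) - (s * (α * δ) - β * γ) * x := by
  linear_combination (δ * w - β) * hx - s * (δ * x - β) * hw

/-- the equations of the gadget determine `s` up to inversion -/
theorem gadget {A B C D b x₁ x₂ y₁ y₂ w₁ w₂ : K} (h1 : w₁ * (C * x₁ - A) = B - D * x₁)
    (h2 : b * w₁ * (C * y₁ - A) = B - D * y₁) (h3 : w₂ * (C * x₂ - A) = B - D * x₂)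
    (h4 : b * w₂ * (C * y₂ - A) = B - D * y₂) (h5 : b * y₁ = - x₂) (h6 : b * y₂ = - x₁)
    (hx : x₁ ≠ x₂) (hb : b ^ 2 ≠ 1) (hb0 : b ≠ 0) : A * D = 0 := by
  have e1 : b * (B - D * x₁) * (C * y₁ - A) = (C * x₁ - A) * (B - D * y₁) := by
    linear_combination (C * x₁ - A) * h2 - b * (C * y₁ - A) * h1
  have e2 : b * (B - D * x₂) * (C * y₂ - A) = (C * x₂ - A) * (B - D * y₂) := by
    linear_combination (C * x₂ - A) * h4 - b * (C * y₂ - A) * h3
  have e3 : (A * D) * ((b ^ 2 - 1) * (x₁ - x₂)) = 0 := by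
    have e4 : y₁ = - x₂ / b := by
      rw [eq_div_iff hb0]
      linear_combination h5
    have e5 : y₂ = - x₁ / b := by
      rw [eq_div_iff hb0]
      linear_combination h6
    subst e4 e5
    field_simp at e1 e2
    linear_combination e1 - e2
  exact (mul_eq_zero.1 e3).resolve_right (mul_ne_zero (sub_ne_zero.2 hb) (sub_ne_zero.2 hx))

end algebra

section

variable {F : Type} [Field F] {ι : Type} [Fintype ι]

theorem val_scale {K : Type} [Field K] [Algebra F K] (c : Fˣ) (x : Kˣ) :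
    ((uo K c * x : Kˣ) : K) = algebraMap F K (c : F) * (x : K) := by
  rw [Units.val_mul, val_uo]

/-- one half of the gadget can be solved -/
theorem half [IsAlgClosed F] {K : Type} [Field K] [Algebra F K] {α β γ δ : F} (hα : α ≠ 0)
    (hβ : β ≠ 0) (hγ : γ ≠ 0) (hδ : δ ≠ 0) (hdet : α * δ ≠ β * γ) (σ b : Fˣ)
    (hσ : (σ : F) * (β * γ) = α * δ) {x y : Kˣ} (hx : Transcendental F (x : K))
    (hxy : (y : K) * (algebraMap F K (b * (α * β)) +
      algebraMap F K ((1 - b) * (α * δ + β * γ)) * (x : K)) = algebraMap F K (α * β) * x) :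
    ∃ p w p' : Kˣ, moeb α β γ δ K x p ∧ moeb α β γ δ K w (p * (uo K σ)⁻¹) ∧
      moeb α β γ δ K (uo K b * w) p' ∧ moeb α β γ δ K y (uo K σ * p') := by
  have hinj := (algebraMap F K).injective
  have hz : ∀ {c : F}, c ≠ 0 → algebraMap F K c ≠ 0 := fun hc => by
    rwa [Ne, map_eq_zero_iff _ hinj]
  obtain ⟨p, hp⟩ := exists_arg hdet hx
  obtain ⟨w, hw, hwt⟩ := exists_mob (α * δ + β * γ) (-(α * β)) (γ * δ) 0 (by
    rw [mul_zero]
    intro h
    have h1 : -(α * β) * (γ * δ) ≠ 0 :=
      mul_ne_zero (neg_ne_zero.2 (mul_ne_zero hα hβ)) (mul_ne_zero hγ hδ)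
    exact h1 h.symm) hx
  have hbw := trans_tm_scale hwt b
  obtain ⟨p', hp'⟩ := exists_arg hdet hbw
  have hσK : algebraMap F K (σ : F) * (algebraMap F K β * algebraMap F K γ) =
      algebraMap F K α * algebraMap F K δ := by
    rw [← map_mul, ← map_mul, hσ, map_mul]
  have hne : ∀ {v : K}, Transcendental F v → algebraMap F K δ * v - algebraMap F K β ≠ 0 := by
    intro v hv h0
    refine lin_ne (c := δ) (d := -β) hv (Or.inl hδ) ?_
    rw [map_neg]
    linear_combination h0
  have hk : algebraMap F K α * algebraMap F K δ ≠ 0 := mul_ne_zero (hz hα) (hz hδ)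
  have hl : algebraMap F K β * algebraMap F K γ ≠ 0 := mul_ne_zero (hz hβ) (hz hγ)
  have hx0 : (x : K) ≠ 0 := x.ne_zero
  have hrel : algebraMap F K γ * algebraMap F K δ * ((w : K) * x) - (algebraMap F K α *
      algebraMap F K δ + algebraMap F K β * algebraMap F K γ) * x + algebraMap F K α *
      algebraMap F K β = 0 := by
    simp only [map_add, map_mul, map_neg, map_zero] at hw
    linear_combination hw
  have hps : algebraMap F K (σ : F) * ((p * (uo K σ)⁻¹ : Kˣ) : K) = p := by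
    rw [← val_scale, mul_comm, mul_assoc, inv_mul_cancel, mul_one]
  have hpt : Transcendental F ((p * (uo K σ)⁻¹ : Kˣ) : K) := by
    have h1 : p * (uo K σ)⁻¹ = uo K σ⁻¹ * p := by
      rw [mul_comm]
      simp [uo]
    rw [h1]
    exact trans_tm_scale hp.2 _
  refine ⟨p, w, p', hp, ⟨?_, hpt⟩, hp', ⟨?_, trans_tm_scale hp'.2 _⟩⟩
  · refine mob_of_rel' hk hσK (hne hx) ?_ hrel
    rw [hps]
    exact hp.1
  · rw [val_scale]
    refine mob_of_rel hl hσK (hne hbw) hp'.1 ?_
    rw [val_scale]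
    simp only [map_add, map_mul, map_sub, map_one] at hxy
    have h1 : (x : K) * (algebraMap F K γ * algebraMap F K δ * (algebraMap F K (b : F) * (w : K) *
        y) - (algebraMap F K α * algebraMap F K δ + algebraMap F K β * algebraMap F K γ) * y +
        algebraMap F K α * algebraMap F K β) = 0 := by
      linear_combination (algebraMap F K (b : F) * (y : K)) * hrel - hxy
    exact (mul_eq_zero.1 h1).resolve_left hx0

theorem tm_inv {K : Type} [Field K] [Algebra F K] (t : Fˣ) (m : ι → ℤ) (y : ι → Kˣ) :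
    tm K t⁻¹ (-m) y = (tm K t m y)⁻¹ := by
  have h1 : uo K t⁻¹ = (uo K t)⁻¹ := by simp [uo]
  rw [tm, tm, mon_neg, h1, mul_inv]

/-- values of the gadget -/
def valG (J : Type) [DecidableEq J] (om : Fˣ) : Fin 8 → Fˣ × (Fin 9 ⊕ J → ℤ) :=
  ![(1, Pi.single (Sum.inl 2) 1), (1, Pi.single (Sum.inl 3) 1), (om, Pi.single (Sum.inl 3) 1),
    (-om⁻¹, Pi.single (Sum.inl 5) 1), (1, Pi.single (Sum.inl 5) 1), (1, Pi.single (Sum.inl 7) 1),
    (om, Pi.single (Sum.inl 7) 1), (-om⁻¹, Pi.single (Sum.inl 2) 1)]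

/-- arguments of the gadget -/
def argG (J : Type) [DecidableEq J] : Fin 8 → (Fin 9 ⊕ J → ℤ) :=
  ![Pi.single (Sum.inl 1) 1, Pi.single (Sum.inl 1) 1 - Pi.single (Sum.inl 0) 1,
    Pi.single (Sum.inl 4) 1, Pi.single (Sum.inl 0) 1 + Pi.single (Sum.inl 4) 1,
    Pi.single (Sum.inl 6) 1, Pi.single (Sum.inl 6) 1 - Pi.single (Sum.inl 0) 1,
    Pi.single (Sum.inl 8) 1, Pi.single (Sum.inl 0) 1 + Pi.single (Sum.inl 8) 1]

theorem exists_omega (F : Type) [Field F] [IsAlgClosed F] [CharZero F] :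
    ∃ om : Fˣ, Tor om ∧ (om : F) ^ 2 ≠ 1 ∧ (om : F) ≠ 1 ∧ (om : F) ^ 4 ≠ 1 := by
  obtain ⟨o, ho⟩ : ∃ o : F, o ^ 2 + o + 1 = 0 := by
    have h1 : (Polynomial.X ^ 2 + Polynomial.X + 1 : Polynomial F).degree ≠ 0 := by
      have : (Polynomial.X ^ 2 + Polynomial.X + 1 : Polynomial F).degree = 2 := by
        compute_degree!
      rw [this]
      decide
    obtain ⟨o, ho⟩ := IsAlgClosed.exists_root _ h1
    refine ⟨o, ?_⟩
    simpa [Polynomial.IsRoot] using ho
  have ho0 : o ≠ 0 := by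
    rintro rfl
    simp at ho
  have ho3 : o ^ 3 = 1 := by linear_combination (o - 1) * ho
  have h3 : (3 : F) ≠ 0 := by norm_num
  refine ⟨Units.mk0 o ho0, ⟨3, by norm_num, Units.ext (by
    rw [Units.val_pow_eq_pow_val, Units.val_mk0, ho3, Units.val_one])⟩, fun h => ?_, fun h => ?_,
    fun h => ?_⟩
  · rw [Units.val_mk0] at h
    apply h3
    linear_combination (2 - o) * ho + (o - 1) * h
  · rw [Units.val_mk0] at h
    apply h3
    rw [h] at ho
    linear_combination ho
  · rw [Units.val_mk0] at h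
    have h4 : o = 1 := by linear_combination h - o * ho3
    apply h3
    rw [h4] at ho
    linear_combination ho

end

end Pool.Agent.H74.ZP
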