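import Pool.Agent.H74.ZP.UCr

/-!
# Reduction of hypersurfaces to curves: preparations
-/

set_option autoImplicit false
set_option linter.unusedSectionVars false
set_option linter.style.haveILetI false
set_option synthInstance.maxHeartbeats 400000

namespace Pool.Agent.H74.ZP

open Polynomial Pool.Agent.R948

section

variable {n : ℕ}

/-- three exponents which are not on a line -/
def NonCol (S : Finset (Fin n →₀ ℕ)) : Prop :=
  ∃ e₁ ∈ S, ∃ e₂ ∈ S, ∃ e₃ ∈ S, ∃ i j : Fin n,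
    ((e₂ i : ℤ) - e₁ i) * (e₃ j - e₁ j) ≠ (e₂ j - e₁ j) * (e₃ i - e₁ i)

theorem ip_single (l : Fin n) (e : Fin n →₀ ℕ) : ip (Pi.single l 1) e = e l := by
  rw [ip, Finset.sum_eq_single l]
  · rw [Pi.single_eq_same, one_mul]
  · intro i _ hi
    rw [Pi.single_eq_of_ne hi, zero_mul]
  · intro h
    exact absurd (Finset.mem_univ l) h

theorem ip_comb (a b : ℤ) (u v : Fin n → ℤ) (e : Fin n →₀ ℕ) :
    ip (a • u + b • v) e = a * ip u e + b * ip v e := by
  simp only [ip, Pi.add_apply, Pi.smul_apply, smul_eq_mul, add_mul, Finset.sum_add_distrib,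
    Finset.mul_sum, mul_assoc]

/-- a direction in which the face has two elements but is not everything -/
theorem exists_w {S : Finset (Fin n →₀ ℕ)} (h : NonCol S) : ∃ w : Fin n → ℤ, ∃ e₀ ∈ S, ∃ e₁ ∈ S,
    ∃ e₂ ∈ S, e₀ ≠ e₁ ∧ (∀ e ∈ S, ip w e₀ ≤ ip w e) ∧ ip w e₁ = ip w e₀ ∧ ip w e₀ < ip w e₂ := by
  classical
  obtain ⟨f₁, hf₁, f₂, hf₂, f₃, hf₃, i₀, j₀, hne⟩ := h
  obtain ⟨v₀, hinj⟩ := exists_inj S
  obtain ⟨e₀, he₀, hmin⟩ := Finset.exists_min_image S (ip v₀) ⟨f₁, hf₁⟩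
  have hlt : ∀ e ∈ S, e ≠ e₀ → 0 < ip v₀ e - ip v₀ e₀ := by
    intro e he hee
    have h1 := hmin e he
    have h2 : ip v₀ e ≠ ip v₀ e₀ := fun h3 => hee (hinj e he e₀ he₀ h3)
    omega
  obtain ⟨e, he, e', he', i, j, hij⟩ : ∃ e ∈ S, ∃ e' ∈ S, ∃ i j : Fin n,
      ((e i : ℤ) - e₀ i) * (e' j - e₀ j) ≠ (e j - e₀ j) * (e' i - e₀ i) := by
    by_contra hcon
    push Not at hcon
    apply hne
    linear_combination hcon f₂ hf₂ f₃ hf₃ i₀ j₀ - hcon f₂ hf₂ f₁ hf₁ i₀ j₀ -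
      hcon f₁ hf₁ f₃ hf₃ i₀ j₀
  have hee : e ≠ e₀ := by
    rintro rfl
    apply hij
    ring
  have hee' : e' ≠ e₀ := by
    rintro rfl
    apply hij
    ring
  have hq := hlt e he hee
  have hq' := hlt e' he' hee'
  obtain ⟨l, hl⟩ : ∃ l : Fin n, (ip v₀ e' - ip v₀ e₀) * ((e l : ℤ) - e₀ l) ≠
      (ip v₀ e - ip v₀ e₀) * (e' l - e₀ l) := by
    by_contra hcon
    push Not at hcon
    apply hij
    refine mul_left_cancel₀ hq'.ne' ?_
    linear_combination ((e' j : ℤ) - e₀ j) * hcon i - ((e' i : ℤ) - e₀ i) * hcon j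
  have hne0 : (S.erase e₀).Nonempty := ⟨e, Finset.mem_erase.2 ⟨hee, he⟩⟩
  obtain ⟨e₁, he₁, hmin1⟩ := Finset.exists_min_image (S.erase e₀)
    (fun e => (((e l : ℤ) - e₀ l : ℤ) : ℚ) / ((ip v₀ e - ip v₀ e₀ : ℤ) : ℚ)) hne0
  rw [Finset.mem_erase] at he₁
  have hq₁ := hlt e₁ he₁.2 he₁.1
  have hmin2 : ∀ e ∈ S, ((e₁ l : ℤ) - e₀ l) * (ip v₀ e - ip v₀ e₀) ≤
      ((e l : ℤ) - e₀ l) * (ip v₀ e₁ - ip v₀ e₀) := by
    intro e he
    by_cases h1 : e = e₀
    · rw [h1, sub_self, sub_self, mul_zero, zero_mul]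
    · have h2 := hmin1 e (Finset.mem_erase.2 ⟨h1, he⟩)
      have h3 := hlt e he h1
      have h4 : (0 : ℚ) < ((ip v₀ e - ip v₀ e₀ : ℤ) : ℚ) := by exact_mod_cast h3
      have h5 : (0 : ℚ) < ((ip v₀ e₁ - ip v₀ e₀ : ℤ) : ℚ) := by exact_mod_cast hq₁
      rw [div_le_div_iff₀ h5 h4] at h2
      exact_mod_cast h2
  obtain ⟨w, hw⟩ : ∃ w : Fin n → ℤ, w = (ip v₀ e₁ - ip v₀ e₀) • Pi.single l 1 +
    (-((e₁ l : ℤ) - e₀ l)) • v₀ := ⟨_, rfl⟩
  have hwe : ∀ e, ip w e = (ip v₀ e₁ - ip v₀ e₀) * e l + (-((e₁ l : ℤ) - e₀ l)) * ip v₀ e := by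
    intro e
    rw [hw, ip_comb, ip_single]
  have hwmin : ∀ e ∈ S, ip w e₀ ≤ ip w e := by
    intro e he
    have h1 := hmin2 e he
    rw [hwe, hwe]
    linarith
  refine ⟨w, e₀, he₀, e₁, he₁.2, ?_⟩
  have h7 : ip w e₁ = ip w e₀ := by
    rw [hwe, hwe]
    ring
  by_cases h8 : ip w e = ip w e₀
  · by_cases h9 : ip w e' = ip w e₀
    · exfalso
      apply hl
      rw [hwe, hwe] at h8 h9
      refine mul_left_cancel₀ hq₁.ne' ?_
      linear_combination (ip v₀ e' - ip v₀ e₀) * h8 - (ip v₀ e - ip v₀ e₀) * h9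
    · exact ⟨e', he', Ne.symm he₁.1, hwmin, h7, lt_of_le_of_ne (hwmin e' he') (Ne.symm h9)⟩
  · exact ⟨e, he, Ne.symm he₁.1, hwmin, h7, lt_of_le_of_ne (hwmin e he) (Ne.symm h8)⟩

end

section

variable {n : ℕ} {F : Type} [Field F]

/-- two hypersurfaces with a common point of large transcendence degree -/
theorem dvd_of_common {g h : MvPolynomial (Fin n) F} (hg : Irreducible g) {K : Type} [Field K]
    [Algebra F K] {Y : Fin n → K} (h1 : MvPolynomial.aeval Y g = 0)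
    (h2 : MvPolynomial.aeval Y h = 0) (htd : n ≤ td F Y + 1) : g ∣ h := by
  have hgp : Prime g := UniqueFactorizationMonoid.irreducible_iff_prime.1 hg
  haveI hp : (Ideal.span {g}).IsPrime := (Ideal.span_singleton_prime hg.ne_zero).2 hgp
  obtain ⟨I, hI⟩ : ∃ I : Ideal (MvPolynomial (Fin n) F),
    I = RingHom.ker (MvPolynomial.aeval (R := F) Y) := ⟨_, rfl⟩
  haveI : I.IsPrime := by
    rw [hI]
    exact RingHom.ker_isPrime _
  have hle : Ideal.span {g} ≤ I := by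
    rw [Ideal.span_singleton_le_iff_mem, hI]
    exact h1
  have h3 : tdP (Ideal.span {g}) < n := by
    have h4 : (⊥ : Ideal (MvPolynomial (Fin n) F)) < Ideal.span {g} := by
      rw [bot_lt_iff_ne_bot, Ne, Ideal.span_singleton_eq_bot]
      exact hg.ne_zero
    have h5 := tdP_strict h4
    rwa [tdP_bot, Fintype.card_fin] at h5
  have h4 : td F Y ≤ tdP I := td_le_tdP I Y fun f hf => by
    rw [hI] at hf
    exact hf
  have h5 : Ideal.span {g} = I := by
    by_contra hne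
    have h6 := tdP_strict (lt_of_le_of_ne hle hne)
    omega
  rw [← Ideal.mem_span_singleton, h5, hI]
  exact h2

theorem coeff_init (g : MvPolynomial (Fin n) F) (w : Fin n → ℤ) (e : Fin n →₀ ℕ) :
    (init g w).coeff e = if e ∈ face g w then g.coeff e else 0 := by
  classical
  rw [init, MvPolynomial.coeff_sum]
  simp only [MvPolynomial.coeff_monomial]
  rw [Finset.sum_ite_eq']

theorem init_ne_zero {g : MvPolynomial (Fin n) F} {w : Fin n → ℤ} {e : Fin n →₀ ℕ}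
    (he : e ∈ face g w) : init g w ≠ 0 := by
  intro h
  have h1 := congrArg (MvPolynomial.coeff e) h
  rw [coeff_init, if_pos he, MvPolynomial.coeff_zero] at h1
  exact MvPolynomial.mem_support_iff.1 (Finset.mem_filter.1 he).1 h1

/-- a polynomial which is not homogeneous does not divide its initial form -/
theorem not_dvd_init {g : MvPolynomial (Fin n) F} {w : Fin n → ℤ} {e e₂ : Fin n →₀ ℕ}
    (he : e ∈ face g w) (he₂ : e₂ ∈ g.support) (h₂ : e₂ ∉ face g w) : ¬ g ∣ init g w := by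
  classical
  rintro ⟨t, ht⟩
  have h0 := init_ne_zero he
  have hg : g ≠ 0 := by
    rintro rfl
    simp at he₂
  have ht0 : t ≠ 0 := by
    rintro rfl
    rw [mul_zero] at ht
    exact h0 ht
  have h1 : (init g w).totalDegree ≤ g.totalDegree := by
    rw [MvPolynomial.totalDegree, MvPolynomial.totalDegree]
    refine Finset.sup_mono fun e he => ?_
    rw [MvPolynomial.mem_support_iff, coeff_init] at he
    rw [MvPolynomial.mem_support_iff]
    intro h2
    apply he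
    rw [h2, ite_self]
  rw [ht, MvPolynomial.totalDegree_mul_of_isDomain hg ht0] at h1
  have h2 : t.totalDegree = 0 := by omega
  rw [MvPolynomial.totalDegree_eq_zero_iff_eq_C] at h2
  have h3 := congrArg (MvPolynomial.coeff e₂) ht
  rw [coeff_init, if_neg h₂, h2, mul_comm, MvPolynomial.coeff_C_mul] at h3
  rcases mul_eq_zero.1 h3.symm with h4 | h4
  · rw [h4, MvPolynomial.C_0] at h2
    exact ht0 h2
  · exact MvPolynomial.mem_support_iff.1 he₂ h4

/-- torsion points are dense -/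
theorem exists_tor_mv [IsAlgClosed F] [CharZero F] {r : MvPolynomial (Fin n) F} (hr : r ≠ 0) :
    ∃ ζ : Fin n → Fˣ, (∀ i, Tor (ζ i)) ∧ MvPolynomial.eval (fun i => (ζ i : F)) r ≠ 0 := by
  by_contra hcon
  push Not at hcon
  have hinf : {x : F | ∃ ζ : Fˣ, Tor ζ ∧ (ζ : F) = x}.Infinite := by
    intro hfin
    have hG : (∏ x ∈ hfin.toFinset, (X - C x) : F[X]) ≠ 0 :=
      Finset.prod_ne_zero_iff.2 fun x _ => X_sub_C_ne_zero x
    obtain ⟨ζ, h1, h2⟩ := exists_tor hG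
    apply h2
    rw [eval_prod]
    refine Finset.prod_eq_zero (i := (ζ : F)) ?_ ?_
    · rw [Set.Finite.mem_toFinset]
      exact ⟨ζ, h1, rfl⟩
    · rw [eval_sub, eval_X, eval_C, sub_self]
  apply hr
  refine MvPolynomial.funext_set (fun _ => {x : F | ∃ ζ : Fˣ, Tor ζ ∧ (ζ : F) = x})
    (fun _ => hinf) fun x hx => ?_
  have hx' : ∀ i, ∃ ζ : Fˣ, Tor ζ ∧ (ζ : F) = x i := fun i => hx i (Set.mem_univ i)
  choose ζ h1 h2 using hx'
  have h3 : x = fun i => (ζ i : F) := funext fun i => (h2 i).symm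
  rw [h3, map_zero]
  exact hcon ζ h1

end

end Pool.Agent.H74.ZP
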