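import Pool.Agent.H74.ZP.Gn1

/-!
# Reduction of hypersurfaces to curves: the torsion translate
-/

set_option autoImplicit false
set_option linter.unusedSectionVars false
set_option linter.style.haveILetI false
set_option synthInstance.maxHeartbeats 400000

namespace Pool.Agent.H74.ZP

open Polynomial Pool.Agent.R948

section

variable {n : ℕ} {F : Type} [Field F]

/-- a polynomial in one variable with polynomial coefficients -/
noncomputable def LL (S : Finset (Fin n →₀ ℕ)) (c : (Fin n →₀ ℕ) → F) (v : Fin n → ℤ) (b : ℤ) :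
    (MvPolynomial (Fin n) F)[X] :=
  ∑ e ∈ S, monomial (ip v e + b).toNat (MvPolynomial.monomial e (c e))

theorem aeval_mono {K : Type} [Field K] [Algebra F K] (Y : Fin n → K) (e : Fin n →₀ ℕ) (c : F) :
    MvPolynomial.aeval Y (MvPolynomial.monomial e c) = algebraMap F K c * ∏ i, Y i ^ e i := by
  rw [MvPolynomial.aeval_monomial, Finsupp.prod_fintype]
  intro i
  rw [pow_zero]

theorem LL_eval {K : Type} [Field K] [Algebra F K] (φ : MvPolynomial (Fin n) F →ₐ[F] K)
    {S : Finset (Fin n →₀ ℕ)} {c : (Fin n →₀ ℕ) → F} {v : Fin n → ℤ} {b : ℤ}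
    (hb : ∀ e ∈ S, 0 ≤ ip v e + b) (u : Kˣ) :
    ((LL S c v b).map (φ : MvPolynomial (Fin n) F →+* K)).eval (u : K) =
      ((u ^ b : Kˣ) : K) * MvPolynomial.aeval (fun i => φ (MvPolynomial.X i) *
        ((u ^ v i : Kˣ) : K)) (∑ e ∈ S, MvPolynomial.monomial e (c e)) := by
  rw [LL, Polynomial.map_sum, eval_finsetSum, map_sum, Finset.mul_sum]
  refine Finset.sum_congr rfl fun e he => ?_
  rw [map_monomial, eval_monomial, aeval_mono]
  have h1 : φ (MvPolynomial.monomial e (c e)) =
      algebraMap F K (c e) * ∏ i, φ (MvPolynomial.X i) ^ e i := by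
    rw [← aeval_mono]
    conv_lhs => rw [MvPolynomial.aeval_unique φ]
    rfl
  have h2 : ∏ i, (φ (MvPolynomial.X i) * ((u ^ v i : Kˣ) : K)) ^ e i =
      (∏ i, φ (MvPolynomial.X i) ^ e i) * ((u ^ ip v e : Kˣ) : K) := by
    have h3 := zpow_ip (1 : Kˣ) u 0 v e
    simp only [one_zpow, one_mul] at h3
    rw [← h3, Units.coe_prod, ← Finset.prod_mul_distrib]
    refine Finset.prod_congr rfl fun i _ => ?_
    rw [mul_pow, Units.val_pow_eq_pow_val]
  have h4 : (u : K) ^ (ip v e + b).toNat = ((u ^ ip v e : Kˣ) : K) * ((u ^ b : Kˣ) : K) := by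
    rw [← Units.val_mul, ← zpow_add, ← Units.val_pow_eq_pow_val, ← zpow_natCast,
      Int.toNat_of_nonneg (hb e he)]
  have h5 : (φ : MvPolynomial (Fin n) F →+* K) (MvPolynomial.monomial e (c e)) =
    φ (MvPolynomial.monomial e (c e)) := rfl
  rw [h5, h1, h2, h4]
  ring

theorem clear_denom {R : Type} [CommRing R] [IsDomain R] {p q : R[X]}
    (h : IsCoprime (p.map (algebraMap R (FractionRing R)))
      (q.map (algebraMap R (FractionRing R)))) :
    ∃ (α β : R[X]) (r : R), r ≠ 0 ∧ α * p + β * q = C r := by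
  obtain ⟨a, b, hab⟩ := h
  obtain ⟨r, hr, h1⟩ := IsLocalization.integerNormalization_spec (nonZeroDivisors R) a
  obtain ⟨s, hs, h2⟩ := IsLocalization.integerNormalization_spec (nonZeroDivisors R) b
  have hr0 := nonZeroDivisors.ne_zero hr
  have hs0 := nonZeroDivisors.ne_zero hs
  refine ⟨C s * IsLocalization.integerNormalization (nonZeroDivisors R) a,
    C r * IsLocalization.integerNormalization (nonZeroDivisors R) b, r * s,
    mul_ne_zero hr0 hs0, ?_⟩
  refine Polynomial.map_injective _ (IsFractionRing.injective R (FractionRing R)) ?_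
  rw [Polynomial.map_add, Polynomial.map_mul, Polynomial.map_mul, Polynomial.map_mul,
    Polynomial.map_mul, h1, h2, map_C, map_C, map_C, map_mul, C_mul]
  rw [Algebra.smul_def, Algebra.smul_def, Polynomial.algebraMap_apply,
    Polynomial.algebraMap_apply]
  linear_combination (C (algebraMap R (FractionRing R) r) *
    C (algebraMap R (FractionRing R) s)) * hab

theorem td_gen {K : Type} [Field K] [Algebra F K] (φ : MvPolynomial (Fin n) F →ₐ[F] K)
    (hφ : Function.Injective φ) : n ≤ td F fun i => φ (MvPolynomial.X i) := by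
  have h1 := tdP_le_td (⊥ : Ideal (MvPolynomial (Fin n) F)) (fun i => φ (MvPolynomial.X i))
    (fun f hf => by
      have h2 : MvPolynomial.aeval (fun i => φ (MvPolynomial.X i)) f = φ f := by
        conv_rhs => rw [MvPolynomial.aeval_unique φ]
        rfl
      rw [h2, map_eq_zero_iff φ hφ] at hf
      rw [hf]
      exact Ideal.zero_mem _)
  rwa [tdP_bot, Fintype.card_fin] at h1

theorem td_twist {K : Type} [Field K] [Algebra F K] (y : Fin n → Kˣ) (a : Kˣ) (v : Fin n → ℤ) :
    td F (fun i => (y i : K)) ≤ td F (fun i => ((y i * a ^ v i : Kˣ) : K)) + 1 := by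
  classical
  obtain ⟨z, hz⟩ : ∃ z : Fin n ⊕ Unit → Kˣ, z = Sum.elim (fun i => y i * a ^ v i) fun _ => a :=
    ⟨_, rfl⟩
  have h1 : td F (fun i => (y i : K)) ≤ td F (un z) := by
    refine td_le_of_alg F fun i => ?_
    have h2 : y i = tm K (1 : Fˣ) (Pi.single (Sum.inl i) 1 +
        (-(v i)) • Pi.single (Sum.inr ()) 1) z := by
      rw [tm, uo_one, one_mul, mon_add, mon_smul, mon_single, mon_single, hz, Sum.elim_inl,
        Sum.elim_inr, zpow_neg, mul_assoc, mul_inv_cancel, mul_one]
    rw [h2]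
    exact alg_tm z 1 _
  have h2 : un z = Sum.elim (fun i => ((y i * a ^ v i : Kˣ) : K)) fun _ : Unit => (a : K) := by
    rw [hz]
    funext i
    rcases i with i | i <;> rfl
  rw [h2] at h1
  refine h1.trans ((td_sum_le _ _).trans ?_)
  simp

/-- **The torsion translate.** -/
theorem exists_twist [IsAlgClosed F] [CharZero F] {g : MvPolynomial (Fin n) F}
    (hg : Irreducible g) {w v : Fin n → ℤ}
    (hinj : ∀ e ∈ g.support, ∀ e' ∈ g.support, ip v e = ip v e' → e = e')
    {e₀ e₁ e₂ : Fin n →₀ ℕ} (h₀ : e₀ ∈ face g w) (h₁ : e₁ ∈ face g w) (h01 : e₀ ≠ e₁)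
    (he₂ : e₂ ∈ g.support) (h₂ : e₂ ∉ face g w) :
    ∃ ζ : Fin n → Fˣ, (∀ i, Tor (ζ i)) ∧ ∃ u : Fˣ,
      MvPolynomial.aeval (fun i => ((ζ i * u ^ v i : Fˣ) : F)) (init g w) = 0 ∧
      MvPolynomial.aeval (fun i => ((ζ i * u ^ v i : Fˣ) : F)) g ≠ 0 := by
  classical
  have hsub : ∀ e ∈ face g w, e ∈ g.support := fun e he => (Finset.mem_filter.1 he).1
  have hc : ∀ e ∈ g.support, g.coeff e ≠ 0 := fun e he => MvPolynomial.mem_support_iff.1 he
  obtain ⟨em, hem, hmin⟩ := Finset.exists_min_image (face g w) (ip v) ⟨e₀, h₀⟩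
  obtain ⟨en, hen, hmin2⟩ := Finset.exists_min_image g.support (ip v) ⟨e₂, he₂⟩
  obtain ⟨b₀, hb₀⟩ : ∃ b₀, b₀ = -ip v em := ⟨_, rfl⟩
  obtain ⟨b, hb⟩ : ∃ b, b = -ip v en := ⟨_, rfl⟩
  have hn₀ : ∀ e ∈ face g w, 0 ≤ ip v e + b₀ := fun e he => by
    have := hmin e he
    omega
  have hn : ∀ e ∈ g.support, 0 ≤ ip v e + b := fun e he => by
    have := hmin2 e he
    omega
  have hinj₀ : ∀ e ∈ face g w, ∀ e' ∈ face g w,
      (ip v e + b₀).toNat = (ip v e' + b₀).toNat → e = e' := by
    intro e he e' he' h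
    have h3 := hn₀ e he
    have h4 := hn₀ e' he'
    exact hinj e (hsub e he) e' (hsub e' he') (by omega)
  have hmap : ∀ {K : Type} [Field K] [Algebra F K] (φ : MvPolynomial (Fin n) F →ₐ[F] K),
      (LL (face g w) (fun e => g.coeff e) v b₀).map (φ : MvPolynomial (Fin n) F →+* K) =
        ∑ e ∈ face g w, monomial (ip v e + b₀).toNat (φ (MvPolynomial.monomial e (g.coeff e))) := by
    intro K _ _ φ
    rw [LL, Polynomial.map_sum]
    exact Finset.sum_congr rfl fun e _ => map_monomial _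
  have hcoef : ∀ {K : Type} [Field K] [Algebra F K] (φ : MvPolynomial (Fin n) F →ₐ[F] K)
      (e : Fin n →₀ ℕ), e ∈ face g w →
      ((LL (face g w) (fun e => g.coeff e) v b₀).map (φ : MvPolynomial (Fin n) F →+* K)).coeff
        (ip v e + b₀).toNat = φ (MvPolynomial.monomial e (g.coeff e)) := by
    intro K _ _ φ e he
    rw [hmap, coeff_sum_mono hinj₀ (fun e => φ (MvPolynomial.monomial e (g.coeff e))) he]
  have hgs : ∑ e ∈ g.support, MvPolynomial.monomial e (g.coeff e) = g :=
    g.support_sum_monomial_coeff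
  have hem0 : (ip v em + b₀).toNat = 0 := by
    rw [hb₀]
    simp
  -- coprimality
  have hcop : IsCoprime ((LL (face g w) (fun e => g.coeff e) v b₀).map
      (algebraMap (MvPolynomial (Fin n) F) (FractionRing (MvPolynomial (Fin n) F))))
      ((LL g.support (fun e => g.coeff e) v b).map
      (algebraMap (MvPolynomial (Fin n) F) (FractionRing (MvPolynomial (Fin n) F)))) := by
    rw [Polynomial.isCoprime_iff_aeval_ne_zero_of_isAlgClosed _
      (AlgebraicClosure (FractionRing (MvPolynomial (Fin n) F)))]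
    intro a
    by_contra hcon
    push Not at hcon
    obtain ⟨h3, h4⟩ := hcon
    obtain ⟨K, _, _, _, φ, hφ, a, h3, h4⟩ : ∃ (K : Type) (_ : Field K) (_ : Algebra F K)
        (_ : IsAlgClosed K) (φ : MvPolynomial (Fin n) F →ₐ[F] K) (_ : Function.Injective φ)
        (a : K), ((LL (face g w) (fun e => g.coeff e) v b₀).map
          (φ : MvPolynomial (Fin n) F →+* K)).eval a = 0 ∧
        ((LL g.support (fun e => g.coeff e) v b).map
          (φ : MvPolynomial (Fin n) F →+* K)).eval a = 0 := by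
      refine ⟨AlgebraicClosure (FractionRing (MvPolynomial (Fin n) F)), inferInstance,
        inferInstance, inferInstance, (IsScalarTower.toAlgHom F
          (FractionRing (MvPolynomial (Fin n) F)) _).comp (IsScalarTower.toAlgHom F
          (MvPolynomial (Fin n) F) (FractionRing (MvPolynomial (Fin n) F))), ?_, a, ?_, ?_⟩
      · exact (algebraMap (FractionRing (MvPolynomial (Fin n) F)) (AlgebraicClosure
          (FractionRing (MvPolynomial (Fin n) F)))).injective.comp
          (IsFractionRing.injective _ _)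
      · rw [← eval_map_algebraMap, map_map] at h3
        exact h3
      · rw [← eval_map_algebraMap, map_map] at h4
        exact h4
    have ha : a ≠ 0 := by
      rintro rfl
      rw [← coeff_zero_eq_eval_zero] at h3
      have h5 := hcoef φ em hem
      rw [hem0, h3] at h5
      have h6 := (map_eq_zero_iff φ hφ).1 h5.symm
      rw [MvPolynomial.monomial_eq_zero] at h6
      exact hc em (hsub em hem) h6
    have hy : ∀ i, φ (MvPolynomial.X i) ≠ 0 := by
      intro i h5
      exact MvPolynomial.X_ne_zero i ((map_eq_zero_iff φ hφ).1 h5)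
    have h5 := LL_eval φ (c := fun e => g.coeff e) hn₀ (Units.mk0 a ha)
    have h6 := LL_eval φ (c := fun e => g.coeff e) hn (Units.mk0 a ha)
    rw [Units.val_mk0, h3] at h5
    rw [Units.val_mk0, h4, hgs] at h6
    have h7 := (mul_eq_zero.1 h5.symm).resolve_left (Units.ne_zero _)
    have h8 := (mul_eq_zero.1 h6.symm).resolve_left (Units.ne_zero _)
    refine not_dvd_init h₀ he₂ h₂ (dvd_of_common hg h8 h7 ?_)
    have h9 := td_gen φ hφ
    have h10 := td_twist (F := F) (fun i => Units.mk0 _ (hy i)) (Units.mk0 a ha) v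
    simp only [Units.val_mul, Units.val_mk0] at h10
    exact h9.trans h10
  obtain ⟨α, β, r, hr, hαβ⟩ := clear_denom hcop
  obtain ⟨ζ, hζ, hζr⟩ := exists_tor_mv hr
  let φ : MvPolynomial (Fin n) F →ₐ[F] F := MvPolynomial.aeval fun i => (ζ i : F)
  have hφm : ∀ e ∈ g.support, φ (MvPolynomial.monomial e (g.coeff e)) ≠ 0 := by
    intro e he
    simp only [φ]
    rw [aeval_mono]
    exact mul_ne_zero (hc e he) (Finset.prod_ne_zero_iff.2 fun i _ =>
      pow_ne_zero _ (ζ i).ne_zero)
  obtain ⟨A, hA⟩ : ∃ A : F[X], A = (LL (face g w) (fun e => g.coeff e) v b₀).map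
    (φ : MvPolynomial (Fin n) F →+* F) := ⟨_, rfl⟩
  obtain ⟨B, hB⟩ : ∃ B : F[X], B = (LL g.support (fun e => g.coeff e) v b).map
    (φ : MvPolynomial (Fin n) F →+* F) := ⟨_, rfl⟩
  obtain ⟨e', he', hne'⟩ : ∃ e' ∈ face g w, e' ≠ em := by
    by_cases h3 : e₀ = em
    · exact ⟨e₁, h₁, fun h4 => h01 (h3.trans h4.symm)⟩
    · exact ⟨e₀, h₀, h3⟩
  have hdeg : A.degree ≠ 0 := by
    intro h3
    have h4 : A.coeff (ip v e' + b₀).toNat ≠ 0 := by
      rw [hA, hcoef φ e' he']
      exact hφm e' (hsub e' he')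
    have h5 := le_natDegree_of_ne_zero h4
    rw [natDegree_eq_zero_iff_degree_le_zero.2 h3.le] at h5
    apply hne'
    refine hinj₀ e' he' em hem ?_
    rw [hem0]
    omega
  obtain ⟨u, hu⟩ := IsAlgClosed.exists_root A hdeg
  have hu0 : u ≠ 0 := by
    rintro rfl
    rw [IsRoot, ← coeff_zero_eq_eval_zero, ← hem0, hA, hcoef φ em hem] at hu
    exact hφm em (hsub em hem) hu
  have hBu : B.eval u ≠ 0 := by
    intro h3
    have h4 := congrArg (fun p => (p.map (φ : MvPolynomial (Fin n) F →+* F)).eval u) hαβ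
    simp only [Polynomial.map_add, Polynomial.map_mul, map_C, eval_add, eval_mul, eval_C] at h4
    rw [← hA, ← hB, hu.eq_zero, h3, mul_zero, mul_zero, zero_add] at h4
    exact hζr h4.symm
  have h5 := LL_eval φ (c := fun e => g.coeff e) hn₀ (Units.mk0 u hu0)
  have h6 := LL_eval φ (c := fun e => g.coeff e) hn (Units.mk0 u hu0)
  rw [Units.val_mk0, ← hA, hu.eq_zero] at h5
  rw [Units.val_mk0, ← hB, hgs] at h6
  have hfun : (fun i => φ (MvPolynomial.X i) * ((Units.mk0 u hu0 ^ v i : Fˣ) : F)) =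
      fun i => ((ζ i * Units.mk0 u hu0 ^ v i : Fˣ) : F) := by
    funext i
    rw [Units.val_mul]
    simp only [φ]
    rw [MvPolynomial.aeval_X]
  rw [hfun] at h5 h6
  refine ⟨ζ, hζ, Units.mk0 u hu0, (mul_eq_zero.1 h5.symm).resolve_left (Units.ne_zero _),
    fun h7 => ?_⟩
  rw [h7, mul_zero] at h6
  exact hBu h6

end

end Pool.Agent.H74.ZP
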