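import Pool.Agent.H74.ZP.Gn2

/-!
# All hypersurfaces which are not unions of cosets are universal
-/

set_option autoImplicit false
set_option linter.unusedSectionVars false
set_option linter.style.haveILetI false
set_option synthInstance.maxHeartbeats 400000

namespace Pool.Agent.H74.ZP

open Polynomial Pool.Agent.R948

section

variable {n : ℕ} {F : Type} [Field F]

/-- the translate of a hypersurface -/
noncomputable def tz (f : MvPolynomial (Fin n) F) (ζ : Fin n → Fˣ) : MvPolynomial (Fin n) F :=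
  MvPolynomial.aeval (fun i => MvPolynomial.C (ζ i : F) * MvPolynomial.X i) f

theorem aeval_tz {K : Type} [Field K] [Algebra F K] (f : MvPolynomial (Fin n) F)
    (ζ : Fin n → Fˣ) (y : Fin n → K) : MvPolynomial.aeval y (tz f ζ) =
      MvPolynomial.aeval (fun i => algebraMap F K (ζ i : F) * y i) f := by
  rw [tz, MvPolynomial.comp_aeval_apply]
  congr 2
  funext i
  rw [map_mul, MvPolynomial.aeval_C, MvPolynomial.aeval_X]

theorem coeff_tz (f : MvPolynomial (Fin n) F) (ζ : Fin n → Fˣ) (e : Fin n →₀ ℕ) :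
    (tz f ζ).coeff e = f.coeff e * ∏ i, (ζ i : F) ^ e i := by
  classical
  have h1 : ∀ (e : Fin n →₀ ℕ) (c : F), tz (MvPolynomial.monomial e c) ζ =
      MvPolynomial.monomial e (c * ∏ i, (ζ i : F) ^ e i) := by
    intro e c
    rw [tz, MvPolynomial.aeval_monomial, Finsupp.prod_fintype]
    · simp only [mul_pow, Finset.prod_mul_distrib, ← map_pow, ← map_prod]
      rw [MvPolynomial.monomial_eq, Finsupp.prod_fintype]
      · rw [MvPolynomial.C_mul, MvPolynomial.algebraMap_eq]
        ring
      · intro i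
        rw [pow_zero]
    · intro i
      rw [pow_zero]
  have h2 : tz f ζ = ∑ e ∈ f.support, MvPolynomial.monomial e
      (f.coeff e * ∏ i, (ζ i : F) ^ e i) := by
    conv_lhs => rw [← f.support_sum_monomial_coeff]
    rw [tz, map_sum]
    exact Finset.sum_congr rfl fun e _ => h1 e _
  rw [h2, MvPolynomial.coeff_sum]
  simp only [MvPolynomial.coeff_monomial]
  rw [Finset.sum_ite_eq']
  split_ifs with h3
  · rfl
  · rw [MvPolynomial.notMem_support_iff.1 h3, zero_mul]

theorem support_tz (f : MvPolynomial (Fin n) F) (ζ : Fin n → Fˣ) :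
    (tz f ζ).support = f.support := by
  ext e
  rw [MvPolynomial.mem_support_iff, MvPolynomial.mem_support_iff, coeff_tz]
  have h1 : ∏ i, (ζ i : F) ^ e i ≠ 0 :=
    Finset.prod_ne_zero_iff.2 fun i _ => pow_ne_zero _ (ζ i).ne_zero
  constructor
  · intro h2
    exact left_ne_zero_of_mul h2
  · intro h2
    exact mul_ne_zero h2 h1

theorem tz_mul (g r : MvPolynomial (Fin n) F) (ζ : Fin n → Fˣ) :
    tz (g * r) ζ = tz g ζ * tz r ζ := map_mul _ _ _

/-- the condition for the reduced polynomial of a torsion translate -/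
theorem U_redT [IsAlgClosed F] (f : MvPolynomial (Fin n) F) {ζ : Fin n → Fˣ}
    (hζ : ∀ i, Tor (ζ i)) (w v : Fin n → ℤ) (a b : ℤ)
    (ha : ∀ e ∈ f.support, 0 ≤ ip w e + a) (hb : ∀ e ∈ f.support, 0 ≤ ip v e + b)
    (h : ∀ M, Fin' (powI f M)) :
    U (F := F) (fun K _ _ x T => (spc K (T : K) (red (tz f ζ) w v a b)).eval (x : K) = 0) := by
  classical
  intro ι J _ _ t s m n' ht hs
  let e : J ≃ Fin (Fintype.card J) := Fintype.equivFin J
  have h1 := FinR.of_fin (ι := ι) (powI f (Fintype.card J)) (h _)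
    (fun p : Fin (Fintype.card J) × Fin n => w p.2 • m (e.symm p.1) + v p.2 • n' (e.symm p.1))
    (fun p => ζ p.2 * (t (e.symm p.1) ^ w p.2 * s (e.symm p.1) ^ v p.2))
    (fun p => (hζ _).mul ((tor_zpow (ht _) _).mul (tor_zpow (hs _) _)))
  refine h1.congr fun K _ _ y => ?_
  rw [powI_zero_iff]
  have h2 : ∀ j, ((spc K ((tm K (s j) (n' j) y : Kˣ) : K) (red (tz f ζ) w v a b)).eval
      ((tm K (t j) (m j) y : Kˣ) : K) = 0 ↔ MvPolynomial.aeval (fun i =>
        ((tm K (ζ i * (t j ^ w i * s j ^ v i)) (w i • m j + v i • n' j) y : Kˣ) : K)) f = 0) := by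
    intro j
    rw [eval_red (tz f ζ) w v a b (by rwa [support_tz]) (by rwa [support_tz]), aeval_tz]
    have h3 : ∀ i, tm K (ζ i * (t j ^ w i * s j ^ v i)) (w i • m j + v i • n' j) y =
        uo K (ζ i) * (tm K (t j) (m j) y ^ w i * tm K (s j) (n' j) y ^ v i) := by
      intro i
      rw [← tm_comb]
      have e1 : uo K (ζ i * (t j ^ w i * s j ^ v i)) =
          uo K (ζ i) * uo K (t j ^ w i * s j ^ v i) := by
        simp [uo]
      rw [tm, e1, mul_assoc]
      rfl
    simp only [h3, Units.val_mul, val_uo]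
    exact mul_eq_zero_iff_right (mul_ne_zero (Units.ne_zero _) (Units.ne_zero _))
  constructor
  · intro h3 j
    rw [h2]
    have h4 := h3 (e j)
    simpa [un] using h4
  · intro h3 i
    have h4 := (h2 (e.symm i)).1 (h3 (e.symm i))
    simpa [un] using h4

/-- equality of polynomials in two variables -/
theorem ext2 [IsAlgClosed F] {P P' : F[X][X]}
    (h : ∀ x T : Fˣ, (spc F (T : F) P).eval (x : F) = (spc F (T : F) P').eval (x : F)) :
    P = P' := by
  haveI : Infinite F := IsAlgClosed.instInfinite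
  have key : ∀ q : F[X], q ≠ 0 → ∃ c : Fˣ, q.eval (c : F) ≠ 0 := by
    intro q hq
    by_contra hcon
    push Not at hcon
    have h1 : X * q = 0 := Polynomial.funext fun c => by
      rw [eval_mul, eval_X, eval_zero]
      by_cases hc : c = 0
      · rw [hc, zero_mul]
      · rw [show q.eval c = 0 from hcon (Units.mk0 c hc), mul_zero]
    exact hq ((mul_eq_zero.1 h1).resolve_left X_ne_zero)
  by_contra hne
  have hD : P - P' ≠ 0 := sub_ne_zero.2 hne
  obtain ⟨T, hT⟩ := key _ (leadingCoeff_ne_zero.2 hD)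
  have h2 : spc F (T : F) (P - P') ≠ 0 := by
    intro h3
    have h4 := congrArg (fun q => q.coeff (P - P').natDegree) h3
    simp only [spc, coeff_map, coeff_zero] at h4
    apply hT
    rw [← coe_aeval_eq_eval]
    exact h4
  obtain ⟨x, hx⟩ := key _ h2
  apply hx
  rw [spc, Polynomial.map_sub, eval_sub, sub_eq_zero]
  exact h x T

theorem red_ne_zero {f : MvPolynomial (Fin n) F} {w v : Fin n → ℤ} {a b : ℤ}
    (hb : ∀ e ∈ f.support, 0 ≤ ip v e + b) (hf : f ≠ 0)
    (hinj : ∀ e ∈ f.support, ∀ e' ∈ f.support, ip v e = ip v e' → e = e') :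
    red f w v a b ≠ 0 := by
  classical
  obtain ⟨e, he⟩ := MvPolynomial.support_nonempty.2 hf
  intro h0
  have h1 := congrArg (fun p => (p.coeff (ip w e + a).toNat).coeff (ip v e + b).toNat) h0
  simp only [coeff_zero] at h1
  have h2 := coeff_sum_mono
    (S := f.support.filter fun e' => (ip w e' + a).toNat = (ip w e + a).toNat)
    (φ := fun e => (ip v e + b).toNat) (by
      intro e₁ h₁ e₂ h₂ h3
      rw [Finset.mem_filter] at h₁ h₂
      have h4 := hb e₁ h₁.1
      have h5 := hb e₂ h₂.1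
      exact hinj e₁ h₁.1 e₂ h₂.1 (by omega)) (fun e => f.coeff e)
    (Finset.mem_filter.2 ⟨he, rfl⟩)
  rw [red_coeff] at h1
  exact MvPolynomial.mem_support_iff.1 he (h2.symm.trans h1)

/-- an irreducible factor whose constant coefficient has a given root -/
theorem exists_factor4 (G : F[X][X]) (u : F) : G ≠ 0 → G.coeff 0 ≠ 0 → (G.coeff 0).eval u = 0 →
    G.map (evalRingHom u) ≠ 0 → ∃ Q : F[X][X], Irreducible Q ∧ Q ∣ G ∧ 0 < Q.natDegree ∧
      Q.coeff 0 ≠ 0 ∧ (Q.coeff 0).eval u = 0 := by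
  refine WfDvdMonoid.induction_on_irreducible G ?_ ?_ ?_
  · intro h
    exact absurd rfl h
  · intro q hq _ h0 h1 _
    exfalso
    obtain ⟨c, hc, rfl⟩ := Polynomial.isUnit_iff.1 hq
    obtain ⟨d, hd⟩ := hc.exists_right_inv
    rw [coeff_C_zero] at h1
    have h2 := congrArg (eval u) hd
    rw [eval_mul, h1, zero_mul, eval_one] at h2
    exact zero_ne_one h2
  · intro a Q ha hQ ih _ h0 h1 h2
    rw [mul_coeff_zero] at h0
    rw [mul_coeff_zero, eval_mul] at h1
    rw [Polynomial.map_mul] at h2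
    have h3 := left_ne_zero_of_mul h0
    have h4 := right_ne_zero_of_mul h0
    have h5 := left_ne_zero_of_mul h2
    have h6 := right_ne_zero_of_mul h2
    rcases mul_eq_zero.1 h1 with h7 | h7
    · refine ⟨Q, hQ, dvd_mul_right _ _, ?_, h3, h7⟩
      by_contra h8
      have h9 := eq_C_of_natDegree_eq_zero (by omega : Q.natDegree = 0)
      apply h5
      rw [h9, map_C]
      change C ((Q.coeff 0).eval u) = 0
      rw [h7, C_0]
    · obtain ⟨Q', b1, b2, b3, b4, b5⟩ := ih ha h4 h7 h6
      exact ⟨Q', b1, b2.mul_left Q, b3, b4, b5⟩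

/-- **From hypersurfaces which are not unions of cosets to the line.** -/
theorem fin_line_gen [IsAlgClosed F] [CharZero F] {f g : MvPolynomial (Fin n) F} (hf : f ≠ 0)
    (hg : Irreducible g) (hgf : g ∣ f) (hnc : NonCol g.support)
    (h : ∀ M, Fin' (powI f M)) (M : ℕ) : Fin' (lineI F M) := by
  classical
  obtain ⟨r, hr⟩ := hgf
  obtain ⟨w, e₀, he₀, e₁, he₁, e₂, he₂, h01, hmin, h1, h2⟩ := exists_w hnc
  obtain ⟨v, hinj⟩ := exists_inj (f.support ∪ g.support)
  have hinjf : ∀ e ∈ f.support, ∀ e' ∈ f.support, ip v e = ip v e' → e = e' :=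
    fun e he e' he' => hinj e (Finset.mem_union_left _ he) e' (Finset.mem_union_left _ he')
  have hinjg : ∀ e ∈ g.support, ∀ e' ∈ g.support, ip v e = ip v e' → e = e' :=
    fun e he e' he' => hinj e (Finset.mem_union_right _ he) e' (Finset.mem_union_right _ he')
  have hm₀ : e₀ ∈ face g (-w) := Finset.mem_filter.2 ⟨he₀, fun e he => by
    rw [ip_neg, ip_neg]
    have := hmin e he
    omega⟩
  have hm₁ : e₁ ∈ face g (-w) := Finset.mem_filter.2 ⟨he₁, fun e he => by
    rw [ip_neg, ip_neg]
    have := hmin e he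
    omega⟩
  have hm₂ : e₂ ∉ face g (-w) := by
    intro h3
    have h4 := (Finset.mem_filter.1 h3).2 e₀ he₀
    rw [ip_neg, ip_neg] at h4
    omega
  obtain ⟨ζ, hζ, u, hu1, hu2⟩ := exists_twist hg hinjg hm₀ hm₁ h01 he₂ hm₂
  -- the exponents
  have hbound : ∀ (S : Finset (Fin n →₀ ℕ)) (v : Fin n → ℤ), ∃ c : ℤ, ∀ c', c ≤ c' →
      ∀ e ∈ S, 0 ≤ ip v e + c' := by
    intro S v
    refine ⟨∑ e ∈ S, |ip v e|, fun c' hc e he => ?_⟩
    have h3 : |ip v e| ≤ ∑ e ∈ S, |ip v e| :=
      Finset.single_le_sum (f := fun e => |ip v e|) (fun _ _ => abs_nonneg _) he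
    have h4 := neg_abs_le (ip v e)
    omega
  obtain ⟨a, hae⟩ : ∃ a, a = - ip w e₀ := ⟨_, rfl⟩
  have ha : ∀ e ∈ g.support, 0 ≤ ip w e + a := fun e he => by
    have := hmin e he
    omega
  obtain ⟨b, hb⟩ := hbound g.support v
  have hb := hb b le_rfl
  obtain ⟨a1, ha1⟩ := hbound r.support w
  obtain ⟨a2, ha2⟩ := hbound f.support w
  obtain ⟨b1, hb1⟩ := hbound r.support v
  obtain ⟨b2, hb2⟩ := hbound f.support v
  obtain ⟨a', ha'⟩ : ∃ a', a' = max a1 (a2 - a) := ⟨_, rfl⟩
  obtain ⟨b', hb'⟩ : ∃ b', b' = max b1 (b2 - b) := ⟨_, rfl⟩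
  have har := ha1 a' (by omega)
  have haf := ha2 (a + a') (by omega)
  have hbr := hb1 b' (by omega)
  have hbf := hb2 (b + b') (by omega)
  have hP : red (tz f ζ) w v (a + a') (b + b') =
      red (tz g ζ) w v a b * red (tz r ζ) w v a' b' := by
    refine ext2 fun x T => ?_
    rw [eval_red (tz f ζ) w v _ _ (by rwa [support_tz]) (by rwa [support_tz])]
    rw [spc, Polynomial.map_mul, eval_mul]
    change _ = (spc F (T : F) (red (tz g ζ) w v a b)).eval (x : F) *
      (spc F (T : F) (red (tz r ζ) w v a' b')).eval (x : F)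
    rw [eval_red (tz g ζ) w v _ _ (by rwa [support_tz]) (by rwa [support_tz]),
      eval_red (tz r ζ) w v _ _ (by rwa [support_tz]) (by rwa [support_tz]), hr, tz_mul,
      map_mul, zpow_add, zpow_add]
    simp only [Units.val_mul]
    ring
  have hP0 : red (tz f ζ) w v (a + a') (b + b') ≠ 0 := by
    refine red_ne_zero (by rwa [support_tz]) ?_ (by rwa [support_tz])
    intro h3
    have h4 := support_tz f ζ
    rw [h3, MvPolynomial.support_zero] at h4
    exact hf (MvPolynomial.support_eq_empty.1 h4.symm)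
  -- the constant coefficient
  let φ : MvPolynomial (Fin n) F →ₐ[F] F := MvPolynomial.aeval fun i => (ζ i : F)
  have hS0 : g.support.filter (fun e => (ip w e + a).toNat = 0) = face g (-w) := by
    ext e
    rw [face, Finset.mem_filter, Finset.mem_filter]
    refine and_congr_right fun he => ⟨fun h3 e' he' => ?_, fun h3 => ?_⟩
    · rw [ip_neg, ip_neg]
      have h4 := ha e he
      have h5 := hmin e' he'
      omega
    · have h4 := h3 e₀ he₀
      rw [ip_neg, ip_neg] at h4
      omega
  have hc0 : (red (tz g ζ) w v a b).coeff 0 = (LL (face g (-w)) (fun e => g.coeff e) v b).map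
      (φ : MvPolynomial (Fin n) F →+* F) := by
    rw [red_coeff, support_tz, hS0, LL, Polynomial.map_sum]
    refine Finset.sum_congr rfl fun e _ => ?_
    rw [map_monomial, coeff_tz]
    congr 1
    change _ = φ _
    simp only [φ]
    rw [aeval_mono]
    rfl
  have hsubg : ∀ e ∈ face g (-w), e ∈ g.support := fun e he => (Finset.mem_filter.1 he).1
  have hG0 : (red (tz g ζ) w v a b).coeff 0 ≠ 0 := by
    intro h0
    have h3 := congrArg (fun p => p.coeff (ip v e₀ + b).toNat) h0
    simp only [coeff_zero] at h3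
    rw [red_coeff, support_tz, hS0, coeff_sum_mono (φ := fun e => (ip v e + b).toNat) ?_
      (fun e => (tz g ζ).coeff e) hm₀] at h3
    · have h4 : e₀ ∈ (tz g ζ).support := by rwa [support_tz]
      exact MvPolynomial.mem_support_iff.1 h4 h3
    · intro e he e' he' h5
      have h6 := hb e (hsubg e he)
      have h7 := hb e' (hsubg e' he')
      exact hinjg e (hsubg e he) e' (hsubg e' he') (by omega)
  have hGu : ((red (tz g ζ) w v a b).coeff 0).eval (u : F) = 0 := by
    rw [hc0, LL_eval φ (fun e he => hb e (hsubg e he)) u]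
    have h3 : (fun i => φ (MvPolynomial.X i) * ((u ^ v i : Fˣ) : F)) =
        fun i => ((ζ i * u ^ v i : Fˣ) : F) := by
      funext i
      rw [Units.val_mul]
      simp only [φ]
      rw [MvPolynomial.aeval_X]
    rw [h3]
    change _ * MvPolynomial.aeval _ (init g (-w)) = 0
    rw [hu1, mul_zero]
  have hGm : (red (tz g ζ) w v a b).map (evalRingHom (u : F)) ≠ 0 := by
    intro h3
    have h4 := spc_const (K := F) (u : F) (red (tz g ζ) w v a b) ((1 : Fˣ) : F)
    rw [h3, map_zero, Algebra.algebraMap_self, RingHom.id_apply,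
      eval_red (tz g ζ) w v a b (by rwa [support_tz]) (by rwa [support_tz]), aeval_tz] at h4
    have h5 := (mul_eq_zero.1 h4).resolve_right (Units.ne_zero _)
    apply hu2
    have h6 : (fun i => ((ζ i * u ^ v i : Fˣ) : F)) =
        fun i => algebraMap F F (ζ i : F) * (((1 : Fˣ) ^ w i * u ^ v i : Fˣ) : F) := by
      funext i
      rw [one_zpow, one_mul, Units.val_mul, Algebra.algebraMap_self, RingHom.id_apply]
    rw [h6]
    exact h5
  have hGne : red (tz g ζ) w v a b ≠ 0 := by
    intro h3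
    rw [h3] at hG0
    exact hG0 rfl
  obtain ⟨Q, hQ, hQG, hQd, hQ0, hQu⟩ := exists_factor4 _ (u : F) hGne hG0 hGu hGm
  have hQP : Q ∣ red (tz f ζ) w v (a + a') (b + b') := by
    rw [hP]
    exact hQG.mul_right _
  obtain ⟨μ, R, hR, hPR⟩ := WfDvdMonoid.max_power_factor hP0 hQ
  have hμ : μ ≠ 0 := by
    rintro rfl
    rw [pow_zero, one_mul] at hPR
    exact hR (hPR ▸ hQP)
  exact fin_of_curve hQ hQd hQ0 u.ne_zero hQu (U_cur_of hμ hPR hQ hQd hR
    (U_redT f hζ w v _ _ haf hbf h)) M

end

/-- **All hypersurfaces which are not unions of cosets are universal.** -/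
theorem zp_iff4 {n : ℕ} {k : Type} [Field k] [IsAlgClosed k] [CharZero k]
    {f g : MvPolynomial (Fin n) k} (hf : f ≠ 0) (hg : Irreducible g) (hgf : g ∣ f)
    (hnc : NonCol g.support) :
    ZilberPinkForTori ↔ ∀ M : ℕ, {A | Optimal A (hypPow f M)}.Finite := by
  haveI : Algebra.IsAlgebraic ℚ (AlgebraicClosure ℚ) := AlgebraicClosure.isAlgebraic ℚ
  letI : Algebra (AlgebraicClosure ℚ) k :=
    (IsAlgClosed.lift (R := ℚ) (S := AlgebraicClosure ℚ) (M := k)).toRingHom.toAlgebra
  constructor
  · intro h M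
    have h1 := zilberPink_iff.1 h
    have h2 : ZClosed (hypPow f M) := by
      rw [hypPow_eq]
      exact zclosed_zeros _
    exact finite_optimal h2 (fin_aux (AlgebraicClosure.isAlgebraic ℚ)
      (fun M => fin_lineI M (h1 M)) k _)
  · intro h k' _ _ _ ι _ V hV
    refine finite_optimal hV.closed (fin_aux (AlgebraicClosure.isAlgebraic ℚ) (fun M => ?_) k' _)
    refine fin_descent (k := k) (lineI (AlgebraicClosure ℚ) M) ?_
    rw [lineI_map]
    exact fin_line_gen hf hg hgf hnc (fun M => fin_powI f M (h M)) M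

end Pool.Agent.H74.ZP
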