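import Pool.Agent.H74.ZP.Red

/-!
# Powers of hypersurfaces
-/

set_option autoImplicit false
set_option linter.unusedSectionVars false
set_option linter.style.haveILetI false

namespace Pool.Agent.H74.ZP

open Polynomial Pool.Agent.R948

section

variable {F : Type} [Field F] {ι κ : Type} [Fintype ι] [Fintype κ]

theorem no_common_root {K : Type} [Field K] [Algebra F K] {T : K} (hT : Transcendental F T)
    {Q R : F[X][X]} (hQ : Irreducible Q) (hd : 0 < Q.natDegree) (hR : ¬ Q ∣ R) {x : K}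
    (hx : (spc K T Q).eval x = 0) : (spc K T R).eval x ≠ 0 := by
  have hprim := hQ.isPrimitive hd.ne'
  have h1 : Irreducible (Q.map (algebraMap F[X] (FractionRing F[X]))) :=
    (hprim.irreducible_iff_irreducible_map_fraction_map).1 hQ
  have h2 : ¬ Q.map (algebraMap F[X] (FractionRing F[X])) ∣
      R.map (algebraMap F[X] (FractionRing F[X])) := fun h =>
    hR (hprim.dvd_of_fraction_map_dvd_fraction_map h)
  have h3 : IsCoprime (Q.map (algebraMap F[X] (FractionRing F[X])))
      (R.map (algebraMap F[X] (FractionRing F[X]))) := (h1.coprime_iff_not_dvd).2 h2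
  have hinj : Function.Injective ((aeval T : F[X] →ₐ[F] K) : F[X] →+* K) :=
    transcendental_iff_injective.1 hT
  let ψ : FractionRing F[X] →+* K := IsFractionRing.lift hinj
  have h4 : ∀ Q : F[X][X], (Q.map (algebraMap F[X] (FractionRing F[X]))).map ψ = spc K T Q := by
    intro Q
    rw [map_map, spc]
    congr 1
    ext a
    · simp [ψ, IsFractionRing.lift_algebraMap]
    · simp [ψ, IsFractionRing.lift_algebraMap]
  obtain ⟨a, b, hab⟩ := h3
  have h5 := congrArg (fun p => eval x (Polynomial.map ψ p)) hab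
  simp only [Polynomial.map_add, Polynomial.map_mul, Polynomial.map_one, h4, eval_add, eval_mul,
    eval_one] at h5
  intro h6
  rw [hx, h6] at h5
  simp at h5

/-- a polynomial in two variables as a multivariate polynomial -/
noncomputable def toMv (R : F[X][X]) : MvPolynomial (Fin 2) F :=
  R.eval₂ ((aeval (MvPolynomial.X 1 : MvPolynomial (Fin 2) F) : F[X] →ₐ[F] _) :
    F[X] →+* MvPolynomial (Fin 2) F) (MvPolynomial.X 0)

theorem aeval_toMv {K : Type} [Field K] [Algebra F K] (g : Fin 2 → K) (R : F[X][X]) :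
    MvPolynomial.aeval g (toMv R) = (spc K (g 1) R).eval (g 0) := by
  have h1 := Polynomial.hom_eval₂ R ((aeval (MvPolynomial.X 1 : MvPolynomial (Fin 2) F) :
    F[X] →ₐ[F] _) : F[X] →+* MvPolynomial (Fin 2) F)
    ((MvPolynomial.aeval g : MvPolynomial (Fin 2) F →ₐ[F] K) : MvPolynomial (Fin 2) F →+* K)
    (MvPolynomial.X 0)
  have h2 : MvPolynomial.aeval g (toMv R) = ((MvPolynomial.aeval g :
    MvPolynomial (Fin 2) F →ₐ[F] K) : MvPolynomial (Fin 2) F →+* K) (toMv R) := rfl
  rw [h2, toMv, h1, spc, eval_map]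
  congr 1
  · ext a
    · simp
    · simp
  · simp

/-- monomial maps are compatible with specialisation -/
theorem spec_eval {K L : Type} [Field K] [Algebra F K] [Field L] [Algebra F L] {z : ι → Kˣ}
    {y : ι → Lˣ} (h : Spec F z y) (t s : Fˣ) (m n : ι → ℤ) (R : F[X][X])
    (h0 : (spc K ((tm K s n z : Kˣ) : K) R).eval ((tm K t m z : Kˣ) : K) = 0) :
    (spc L ((tm L s n y : Lˣ) : L) R).eval ((tm L t m y : Lˣ) : L) = 0 := by
  classical
  let π : (Fin 2 → ℤ) →ₗ[ℤ] (ι → ℤ) :=
    { toFun := fun a => a 0 • m + a 1 • n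
      map_add' := by
        intro a b
        simp only [Pi.add_apply, add_smul]
        abel
      map_smul' := by
        intro c a
        simp only [Pi.smul_apply, smul_eq_mul, mul_smul, RingHom.id_apply, smul_add] }
  obtain ⟨l, hl⟩ := exists_list' π (![t, s] : Fin 2 → Fˣ) (toMv R)
  have key : ∀ (K : Type) [Field K] [Algebra F K] (z : ι → Kˣ), lev l z =
      (spc K ((tm K s n z : Kˣ) : K) R).eval ((tm K t m z : Kˣ) : K) := by
    intro K _ _ z
    rw [hl K z, aeval_toMv]
    have e0 : par π (![t, s] : Fin 2 → Fˣ) K z 0 = tm K t m z := by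
      simp [par, tm, π]
    have e1 : par π (![t, s] : Fin 2 → Fˣ) K z 1 = tm K s n z := by
      simp [par, tm, π]
    rw [un, un, e0, e1]
  rw [← key] at h0 ⊢
  exact h.lev h0

theorem spec_trans [IsAlgClosed F] {K L : Type} [Field K] [Algebra F K] [Field L] [Algebra F L]
    {z : ι → Kˣ} {y : ι → Lˣ} (h : Spec F z y) (s : Fˣ) (n : ι → ℤ)
    (hy : Transcendental F ((tm L s n y : Lˣ) : L)) :
    Transcendental F ((tm K s n z : Kˣ) : K) := by
  intro hz
  obtain ⟨ξ, hξ⟩ := mem_range_of_integral hz.isIntegral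
  have hξ0 : ξ ≠ 0 := by
    rintro rfl
    rw [map_zero] at hξ
    exact (tm K s n z).ne_zero hξ
  have h1 : tm K s n z = tm K (Units.mk0 ξ hξ0) 0 z := by
    rw [tm_zero]
    exact Units.ext hξ
  have h2 := spec_tm h h1
  rw [tm_zero] at h2
  apply hy
  rw [h2, val_uo]
  exact isAlgebraic_algebraMap _

/-- the condition on the powers of `Q` -/
theorem U_cur_of [IsAlgClosed F] {P Q R : F[X][X]} {μ : ℕ} (hμ : μ ≠ 0) (hP : P = Q ^ μ * R)
    (hQ : Irreducible Q) (hd : 0 < Q.natDegree) (hR : ¬ Q ∣ R)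
    (h : U (F := F) (fun K _ _ x T => (spc K (T : K) P).eval (x : K) = 0)) : U (cur Q) := by
  intro ι J _ _ t s m n ht hs
  have h1 := (h ι J t s m n ht hs).and (Ψ := fun K _ _ y => ∀ j,
    Transcendental F ((tm K (s j) (n j) y : Kˣ) : K) ∧
      (spc K ((tm K (s j) (n j) y : Kˣ) : K) R).eval ((tm K (t j) (m j) y : Kˣ) : K) ≠ 0) (by
    intro K _ _ y K₁ _ _ z _ _ hzy hy j
    exact ⟨spec_trans hzy (s j) (n j) (hy j).1, fun h0 =>
      (hy j).2 (spec_eval hzy (t j) (s j) (m j) (n j) R h0)⟩)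
  refine h1.congr fun K _ _ y => ?_
  have hspc : ∀ T : K, spc K T P = spc K T Q ^ μ * spc K T R := by
    intro T
    rw [hP, spc, Polynomial.map_mul, Polynomial.map_pow]
    rfl
  constructor
  · rintro ⟨h2, h3⟩ j
    refine ⟨?_, (h3 j).1⟩
    have h4 : (spc K ((tm K (s j) (n j) y : Kˣ) : K) P).eval
      ((tm K (t j) (m j) y : Kˣ) : K) = 0 := h2 j
    rw [hspc, eval_mul, eval_pow] at h4
    exact pow_eq_zero_iff hμ |>.1 ((mul_eq_zero.1 h4).resolve_right (h3 j).2)
  · intro h2
    refine ⟨fun j => ?_, fun j => ⟨(h2 j).2, no_common_root (h2 j).2 hQ hd hR (h2 j).1⟩⟩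
    have h4 : (spc K ((tm K (s j) (n j) y : Kˣ) : K) Q).eval
      ((tm K (t j) (m j) y : Kˣ) : K) = 0 := (h2 j).1
    change (spc K ((tm K (s j) (n j) y : Kˣ) : K) P).eval ((tm K (t j) (m j) y : Kˣ) : K) = 0
    rw [hspc, eval_mul, eval_pow, h4, zero_pow hμ, zero_mul]

/-- the difference of the lengths of the extreme coefficients -/
noncomputable def dl (P : F[X][X]) : ℤ := len P.leadingCoeff - len (P.coeff 0)

/-- an irreducible factor whose extreme coefficients have different lengths -/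
theorem exists_factor (P : F[X][X]) : P ≠ 0 → P.coeff 0 ≠ 0 → dl P ≠ 0 →
    ∃ Q : F[X][X], Irreducible Q ∧ Q ∣ P ∧ dl Q ≠ 0 ∧ Q.coeff 0 ≠ 0 := by
  refine WfDvdMonoid.induction_on_irreducible P ?_ ?_ ?_
  · intro h
    exact absurd rfl h
  · intro u hu _ h0 h
    exfalso
    apply h
    obtain ⟨c, hc, rfl⟩ := Polynomial.isUnit_iff.1 hu
    rw [dl, leadingCoeff_C, coeff_C_zero, sub_self]
  · intro a Q ha hQ ih _ h0 h
    rw [mul_coeff_zero] at h0
    have h1 := left_ne_zero_of_mul h0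
    have h2 := right_ne_zero_of_mul h0
    by_cases hdQ : dl Q = 0
    · have h3 : dl a ≠ 0 := by
        intro h3
        apply h
        rw [dl, leadingCoeff_mul, mul_coeff_zero, len_mul (leadingCoeff_ne_zero.2 hQ.ne_zero)
          (leadingCoeff_ne_zero.2 ha), len_mul h1 h2]
        rw [dl] at hdQ h3
        linear_combination hdQ + h3
      obtain ⟨Q', h4, h5, h6, h7⟩ := ih ha h2 h3
      exact ⟨Q', h4, h5.mul_left Q, h6, h7⟩
    · exact ⟨Q, hQ, dvd_mul_right _ _, hdQ, h1⟩

/-- **From two-variable polynomials to the line.** -/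
theorem fin_of_poly [IsAlgClosed F] [CharZero F] {P : F[X][X]} (hP0 : P.coeff 0 ≠ 0)
    (hP : len P.leadingCoeff ≠ len (P.coeff 0))
    (h : U (F := F) (fun K _ _ x T => (spc K (T : K) P).eval (x : K) = 0)) (M : ℕ) :
    Fin' (lineI F M) := by
  have hPne : P ≠ 0 := by
    rintro rfl
    exact hP0 rfl
  obtain ⟨Q, hQ, hQP, hdl, hQ0⟩ := exists_factor P hPne hP0 (sub_ne_zero.2 hP)
  have hd : 0 < Q.natDegree := by
    by_contra h0
    have h1 : Q.natDegree = 0 := by omega
    apply hdl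
    rw [dl, leadingCoeff, h1, sub_self]
  obtain ⟨μ, R, hR, hPR⟩ := WfDvdMonoid.max_power_factor hPne hQ
  have hμ : μ ≠ 0 := by
    rintro rfl
    rw [pow_zero, one_mul] at hPR
    exact hR (hPR ▸ hQP)
  have h1 := U_nor hQ hd hQ0 (U_cur_of hμ hPR hQ hd hR h)
  have hc : ((-1 : F) ^ Q.natDegree) ≠ 0 := pow_ne_zero _ (by simp)
  have h2 : U (rat (C ((-1 : F) ^ Q.natDegree) * Q.coeff 0) Q.leadingCoeff) := by
    refine h1.pull 1 0 0 1 fun K _ _ x y => ?_
    rw [zpow_one, zpow_one, zpow_zero, zpow_zero, one_mul, mul_one, rat, nor]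
    simp
  have h3 : len (C ((-1 : F) ^ Q.natDegree) * Q.coeff 0) ≠ len Q.leadingCoeff := by
    rw [len_mul (C_ne_zero.2 hc) hQ0]
    have h4 : len (C ((-1 : F) ^ Q.natDegree)) = 0 := by
      rw [len, natDegree_C, natTrailingDegree_C]
      simp
    rw [h4, zero_add]
    intro h5
    apply hdl
    rw [dl, h5, sub_self]
  obtain ⟨α, β, hα, hβ, h4⟩ := exists_lin (mul_ne_zero (C_ne_zero.2 hc) hQ0)
    (leadingCoeff_ne_zero.2 hQ.ne_zero) h3 h2
  exact fin_line hα hβ h4 M

end

end Pool.Agent.H74.ZP
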