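import Pool.Agent.H74.ZP.Trn

/-!
# The system at infinity
-/

set_option autoImplicit false
set_option linter.unusedSectionVars false
set_option linter.style.haveILetI false
set_option synthInstance.maxHeartbeats 400000

namespace Pool.Agent.H74.ZP

open Polynomial Pool.Agent.R948

section

variable {F : Type} [Field F]

/-- solutions of the system -/
def Sol (P : F[X][X]) (h k : ℕ) (K : Type) [Field K] [Algebra F K] (Z s T₁ T₂ T₃ : K) : Prop :=
  Z ≠ 0 ∧ s ≠ 0 ∧ T₃ * T₂ ^ k = T₁ ^ (k + 1) ∧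
    ((spc K T₁ P).eval (Z ^ h) = 0 ∧ Transcendental F T₁) ∧
    ((spc K T₂ P).eval (s * Z) = 0 ∧ Transcendental F T₂) ∧
    ((spc K T₃ P).eval Z = 0 ∧ Transcendental F T₃)

theorem same_of_irr {K K' : Type} [Field K] [Field K'] [Algebra F K] [Algebra F K'] {Q : F[X][X]}
    (hQ : Irreducible Q) (hd : 0 < Q.natDegree) {Z s : K} {Z' s' : K'} (hs : Transcendental F s)
    (hs' : Transcendental F s') (h1 : (spc K s Q).eval Z = 0) (h2 : (spc K' s' Q).eval Z' = 0)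
    (R : F[X][X]) : (spc K s R).eval Z = 0 ↔ (spc K' s' R).eval Z' = 0 := by
  have key : ∀ {K : Type} [Field K] [Algebra F K] {Z s : K}, Transcendental F s →
      (spc K s Q).eval Z = 0 → ((spc K s R).eval Z = 0 ↔ Q ∣ R) := by
    intro K _ _ Z s hs h1
    constructor
    · intro h3
      by_contra h4
      exact no_common_root hs hQ hd h4 h1 h3
    · rintro ⟨R', rfl⟩
      rw [spc, Polynomial.map_mul, eval_mul]
      change (spc K s Q).eval Z * _ = 0
      rw [h1, zero_mul]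
  rw [key hs h1, key hs' h2]

theorem spc_const {K : Type} [Field K] [Algebra F K] (c : F) (R : F[X][X]) (Z : K) :
    (spc K (algebraMap F K c) R).eval Z = aeval Z (R.map (evalRingHom c)) := by
  have h1 : spc K (algebraMap F K c) R = (R.map (evalRingHom c)).map (algebraMap F K) := by
    rw [map_map, spc]
    congr 1
    ext a
    · simp
    · simp
  rw [h1, eval_map_algebraMap]

theorem same_of_const {K K' : Type} [Field K] [Field K'] [Algebra F K] [Algebra F K'] (c : F)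
    {Z : K} {Z' : K'} (hZ : Transcendental F Z) (hZ' : Transcendental F Z') (R : F[X][X]) :
    (spc K (algebraMap F K c) R).eval Z = 0 ↔ (spc K' (algebraMap F K' c) R).eval Z' = 0 := by
  rw [spc_const, spc_const]
  by_cases h : R.map (evalRingHom c) = 0
  · rw [h, map_zero, map_zero]
    simp
  · exact ⟨fun h1 => absurd h1 (aeval_ne_zero hZ h), fun h1 => absurd h1 (aeval_ne_zero hZ' h)⟩

theorem mem_of_point {K : Type} [Field K] [Algebra F K] {S : IntermediateField F K}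
    (hS : ∀ x : K, IsAlgebraic S x → x ∈ S) {P : F[X][X]} (hP : P ≠ 0) {x T : K} (hx : x ∈ S)
    (hxt : Transcendental F x) (h : (spc K T P).eval x = 0) : T ∈ S := by
  apply hS
  have hxt' : Transcendental F (⟨x, hx⟩ : S) := (trans_hom S.val).1 hxt
  refine ⟨spc S ⟨x, hx⟩ (sw P), ?_, ?_⟩
  · intro h0
    have h1 := congrArg (fun q => q.coeff (sw P).natDegree) h0
    simp only [spc, coeff_map, coeff_zero] at h1
    exact aeval_ne_zero hxt' (leadingCoeff_ne_zero.2 (sw_ne_zero hP)) h1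
  · have h1 : (spc S ⟨x, hx⟩ (sw P)).map (algebraMap S K) = spc K x (sw P) := by
      rw [spc, map_map, spc]
      congr 1
      ext a
      · simp
      · simp
    rw [← eval_map_algebraMap, h1, sw_eval, h]

/-- **Transport of solutions.** -/
theorem lift_sol {K K' : Type} [Field K] [Field K'] [Algebra F K] [Algebra F K'] [IsAlgClosed K']
    {P : F[X][X]} (hP : P ≠ 0) {h k : ℕ} (hh : 0 < h) (hk : 0 < k) {Z s T₁ T₂ T₃ : K}
    {Z' s' : K'} (hsame : ∀ R : F[X][X], (spc K s R).eval Z = 0 ↔ (spc K' s' R).eval Z' = 0)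
    (hZ : Transcendental F Z) (hsol : Sol P h k K Z s T₁ T₂ T₃) :
    ∃ T₁' T₂' T₃' : K', Sol P h k K' Z' s' T₁' T₂' T₃' := by
  obtain ⟨S, ψ, hZS, hsS, h1, h2, hS⟩ := transport hsame
  obtain ⟨hZ0, hs0, hT, ⟨a1, b1⟩, ⟨a2, b2⟩, ⟨a3, b3⟩⟩ := hsol
  have m1 : T₁ ∈ S := mem_of_point hS hP (pow_mem hZS h) (hZ.pow hh) a1
  have m3 : T₃ ∈ S := mem_of_point hS hP hZS hZ a3
  have hT30 : T₃ ≠ 0 := fun h0 => b3 (h0 ▸ isAlgebraic_zero)
  have m2 : T₂ ∈ S := by
    have h3 : T₂ ^ k = T₁ ^ (k + 1) / T₃ := by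
      rw [eq_div_iff hT30, mul_comm]
      exact hT
    apply hS
    refine IsAlgebraic.of_pow hk ?_
    rw [h3]
    exact isAlgebraic_algebraMap (A := K) (⟨_, div_mem (pow_mem m1 _) m3⟩ : S)
  have key : ∀ (x T : S), (spc K (T : K) P).eval (x : K) = 0 → (spc K' (ψ T) P).eval (ψ x) = 0 := by
    intro x T h3
    have h4 := spc_hom S.val P x T
    rw [show S.val T = (T : K) from rfl, show S.val x = (x : K) from rfl, h3] at h4
    have h5 : (spc S T P).eval x = 0 := Subtype.ext h4.symm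
    rw [spc_hom, h5, map_zero]
  have keyt : ∀ T : S, Transcendental F (T : K) → Transcendental F (ψ T) := fun T h3 =>
    (trans_hom ψ).2 ((trans_hom S.val).1 h3)
  have hne : ∀ x : S, (x : K) ≠ 0 → ψ x ≠ 0 := by
    intro x hx h3
    rw [map_eq_zero_iff ψ ψ.injective] at h3
    exact hx (congrArg Subtype.val h3)
  refine ⟨ψ ⟨T₁, m1⟩, ψ ⟨T₂, m2⟩, ψ ⟨T₃, m3⟩, ?_, ?_, ?_, ⟨?_, keyt _ b1⟩, ⟨?_, keyt _ b2⟩,
    ⟨?_, keyt _ b3⟩⟩
  · rw [← h1]
    exact hne _ hZ0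
  · rw [← h2]
    exact hne _ hs0
  · rw [← map_pow, ← map_pow, ← map_mul]
    congr 1
    exact Subtype.ext hT
  · rw [← h1, ← map_pow]
    exact key _ _ a1
  · rw [← h1, ← h2, ← map_mul]
    exact key _ _ a2
  · rw [← h1]
    exact key _ _ a3

/-- shift of the second variable -/
noncomputable def sh (u : F) (P : F[X][X]) : F[X][X] := P.map (compRingHom (C u * (1 + X)))

theorem sh_eval {K : Type} [Field K] [Algebra F K] (u : F) (P : F[X][X]) (τ : K) :
    spc K τ (sh u P) = spc K (algebraMap F K u * (1 + τ)) P := by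
  rw [spc, sh, map_map, spc]
  congr 1
  ext a
  · simp
  · simp

theorem sh_ne_zero {u : F} (hu : u ≠ 0) {P : F[X][X]} (hP : P ≠ 0) : sh u P ≠ 0 := by
  intro h0
  apply hP
  have h1 : (sh u P).map (compRingHom (C u⁻¹ * X - 1)) = P := by
    rw [sh, map_map]
    conv_rhs => rw [← Polynomial.map_id (p := P)]
    congr 1
    ext a
    · simp
    · simp only [RingHom.comp_apply, coe_compRingHom_apply, X_comp, mul_comp, C_comp, add_comp,
        one_comp, RingHom.id_apply]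
      have h2 : C u * (1 + (C u⁻¹ * X - 1)) = (X : F[X]) := by
        rw [show (1 : F[X]) + (C u⁻¹ * X - 1) = C u⁻¹ * X by ring, ← mul_assoc, ← C_mul,
          mul_inv_cancel₀ hu, C_1, one_mul]
      rw [h2]
  rw [← h1, h0, Polynomial.map_zero]

theorem rev_eval {K : Type} [Field K] [Algebra F K] {P : F[X][X]} {T x : K} (hx : x ≠ 0)
    (h : (spc K T P).eval x = 0) : (spc K T P.reverse).eval x⁻¹ = 0 := by
  letI : Invertible x := invertibleOfNonzero hx
  have h1 := eval₂_reverse_mul_pow ((aeval T : F[X] →ₐ[F] K) : F[X] →+* K) x P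
  rw [spc, eval_map] at h ⊢
  rw [h, invOf_eq_inv] at h1
  exact (mul_eq_zero.1 h1).resolve_right (pow_ne_zero _ hx)

end

section

variable {F K Γ : Type} [Field F] [Field K] [Algebra F K] [LinearOrderedCommGroupWithZero Γ]
  {v : Valuation K Γ} (hv : ∀ c : F, c ≠ 0 → v (algebraMap F K c) = 1)

include hv

theorem v_ev_le (P : F[X][X]) {x T : K} (hx : v x ≤ 1) (hT : v T ≤ 1) :
    v ((spc K T P).eval x) ≤ 1 := by
  rw [ev_eq]
  refine v.map_sum_le fun p _ => ?_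
  rw [map_mul, map_mul, map_pow, map_pow]
  exact mul_le_one' (v_le_one hv _) (mul_le_one' (pow_le_one₀ zero_le hx)
    (pow_le_one₀ zero_le hT))

theorem const_small {P : F[X][X]} {x T : K} (hx : v x < 1) (hT : v T ≤ 1)
    (h : (spc K T P).eval x = 0) : v (aeval T (P.coeff 0)) < 1 := by
  have h1 : (spc K T P).eval x = x * (spc K T P.divX).eval x + aeval T (P.coeff 0) := by
    conv_lhs => rw [← divX_mul_X_add P]
    rw [spc, Polynomial.map_add, Polynomial.map_mul, map_X, map_C, eval_add, eval_mul, eval_X,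
      eval_C]
    change (spc K T P.divX).eval x * x + _ = _
    rw [mul_comm]
    rfl
  rw [h] at h1
  have h2 : aeval T (P.coeff 0) = -(x * (spc K T P.divX).eval x) := by linear_combination -h1
  rw [h2, Valuation.map_neg, map_mul]
  exact mul_lt_one_of_lt_of_le hx (v_ev_le hv _ hx.le hT)

theorem exists_e {L D : ℕ} (hL : ∀ q, 1 ≤ q → q ≤ D → q ∣ L) (hL0 : 0 < L) {w τ : K} {p q : ℕ}
    (hp : 1 ≤ p) (hp' : p ≤ D) (hq : 1 ≤ q) (hq' : q ≤ D) (h : v τ ^ q = v (w ^ L) ^ p) :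
    ∃ e, 0 < e ∧ e ≤ L * D ∧ v τ = v w ^ e := by
  obtain ⟨m, hm⟩ := hL q hq hq'
  have hm0 : 0 < m := by
    rcases Nat.eq_zero_or_pos m with h0 | h0
    · rw [h0, mul_zero] at hm
      omega
    · exact h0
  refine ⟨m * p, Nat.mul_pos hm0 hp, ?_, ?_⟩
  · refine Nat.mul_le_mul ?_ hp'
    rw [hm]
    exact Nat.le_mul_of_pos_left m hq
  · refine (pow_left_inj₀ zero_le zero_le (by omega : q ≠ 0)).1 ?_
    rw [h, map_pow, ← pow_mul, ← pow_mul, hm]
    congr 1
    ring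

/-- **The system has no solution at infinity.** -/
theorem no_inf [IsAlgClosed K] [IsAlgClosed F] [CharZero F] {P : F[X][X]} (hP : P ≠ 0) {D L : ℕ}
    (hDP : bd P ≤ D) (hDr : ∀ c, P.leadingCoeff.IsRoot c → bd (sh c P.reverse) ≤ D)
    (hL : ∀ q, 1 ≤ q → q ≤ D → q ∣ L) (hL0 : 0 < L) {h k : ℕ} (hh : D * D * D + D * D < h)
    (hkD : D * D < k) {e : ℕ} (he0 : 0 < e) {s₀ : F} (hs₀ : s₀ ^ e * (-(k : F)) ^ L = 1)
    (hgood : ∀ (e' : ℕ) (c₂ c₃ ρ₂ ρ₃ : F), e' ≤ L * D → P.leadingCoeff.IsRoot c₂ →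
      P.leadingCoeff.IsRoot c₃ → ρ₂ ∈ rts (sh c₂ P.reverse) L e' →
      ρ₃ ∈ rts (sh c₃ P.reverse) L e' → (-(k : F)) ^ (L * (e + e')) ≠ (ρ₃ / ρ₂) ^ (L * e))
    {Z s T₁ T₂ T₃ : K} (hsol : Sol P h k K Z s T₁ T₂ T₃) (hZ : 1 < v Z) (hs : Nr v s s₀) :
    False := by
  obtain ⟨hZ0, hsn0, hT, ⟨a1, b1⟩, ⟨a2, b2⟩, ⟨a3, b3⟩⟩ := hsol
  have hk0 : (k : F) ≠ 0 := by
    rw [Nat.cast_ne_zero]
    omega
  have hs0 : s₀ ≠ 0 := by
    rintro rfl
    rw [zero_pow he0.ne', zero_mul] at hs₀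
    exact zero_ne_one hs₀
  have hvs : v s = 1 := hs.v_eq hv hs0
  have hT1 : T₁ ≠ 0 := fun h0 => b1 (h0 ▸ isAlgebraic_zero)
  have hT2 : T₂ ≠ 0 := fun h0 => b2 (h0 ▸ isAlgebraic_zero)
  have hT3 : T₃ ≠ 0 := fun h0 => b3 (h0 ▸ isAlgebraic_zero)
  have hh0 : h ≠ 0 := by omega
  have hvZ0 : v Z ≠ 0 := (map_ne_zero v).2 hZ0
  -- the valuations
  have hvT : v T₁ = 1 ∧ v T₂ = 1 ∧ v T₃ = 1 := by
    obtain ⟨p1, q1, c1, d1, e1, f1⟩ := slope hv hP (pow_ne_zero h hZ0) hT1 (by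
      rw [map_pow]
      exact (one_lt_pow₀ hZ hh0).ne') a1
    obtain ⟨p2, q2, c2, d2, e2, f2⟩ := slope hv hP (mul_ne_zero hsn0 hZ0) hT2 (by
      rw [map_mul, hvs, one_mul]
      exact hZ.ne') a2
    obtain ⟨p3, q3, c3, d3, e3, f3⟩ := slope hv hP hZ0 hT3 hZ.ne' a3
    rw [map_mul, hvs, one_mul] at f2
    have hT' : v T₃ * v T₂ ^ k = v T₁ ^ (k + 1) := by
      rw [← map_pow, ← map_pow, ← map_mul, hT]
    have f1' : v T₁ ^ q1 = v Z ^ ((h : ℤ) * p1) := by
      rw [f1, map_pow, zpow_mul, zpow_natCast]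
    have h4 : (v T₃ ^ q3) ^ (q1 * q2) * (v T₂ ^ q2) ^ (k * (q1 * q3)) =
        (v T₁ ^ q1) ^ ((k + 1) * (q2 * q3)) := by
      have h5 : (v T₃ * v T₂ ^ k) ^ (q1 * q2 * q3) = (v T₁ ^ (k + 1)) ^ (q1 * q2 * q3) := by
        rw [hT']
      rw [mul_pow, ← pow_mul, ← pow_mul] at h5
      rw [← pow_mul, ← pow_mul, ← pow_mul]
      calc v T₃ ^ (q3 * (q1 * q2)) * v T₂ ^ (q2 * (k * (q1 * q3)))
          = v T₃ ^ (q1 * q2 * q3) * v T₂ ^ (k * (q1 * q2 * q3)) := by
            congr 2 <;> ring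
        _ = v T₁ ^ ((k + 1) * (q1 * q2 * q3)) := h5
        _ = v T₁ ^ (q1 * ((k + 1) * (q2 * q3))) := by
            congr 1
            ring
    rw [f1', f2, f3, ← zpow_natCast, ← zpow_natCast, ← zpow_natCast, ← zpow_mul, ← zpow_mul,
      ← zpow_mul, ← zpow_add₀ hvZ0] at h4
    have h5 := zpow_right_injective₀ (zero_lt_iff.2 hvZ0) hZ.ne' h4
    have hq1 : (1 : ℤ) ≤ q1 := by exact_mod_cast c1
    have hq2 : (1 : ℤ) ≤ q2 := by exact_mod_cast c2
    have hq3 : (1 : ℤ) ≤ q3 := by exact_mod_cast c3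
    have hq1' : (q1 : ℤ) ≤ D := by exact_mod_cast d1.trans hDP
    have hq2' : (q2 : ℤ) ≤ D := by exact_mod_cast d2.trans hDP
    have hq3' : (q3 : ℤ) ≤ D := by exact_mod_cast d3.trans hDP
    have hDP' : (bd P : ℤ) ≤ D := by exact_mod_cast hDP
    have hp1' : |p1| ≤ (D : ℤ) := e1.trans hDP'
    have hp2' : |p2| ≤ (D : ℤ) := e2.trans hDP'
    have hp3' : |p3| ≤ (D : ℤ) := e3.trans hDP'
    have hD0 : (0 : ℤ) ≤ D := Int.natCast_nonneg D
    have hk' : (0 : ℤ) ≤ k := Int.natCast_nonneg k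
    have hhD : (D : ℤ) * D * D < h := by
      have : D * D * D < h := by omega
      exact_mod_cast this
    have hkD' : (D : ℤ) * D < k := by exact_mod_cast hkD
    push_cast at h5
    have hp1 : p1 = 0 := by
      by_contra h6
      have h7 : 1 ≤ |p1| := Int.one_le_abs h6
      have h8 : |p3 * (q1 * q2) + p2 * (k * (q1 * q3))| ≤ (k + 1) * (D * D * D) := by
        refine (abs_add_le _ _).trans ?_
        rw [abs_mul p3, abs_mul p2, abs_of_nonneg (by positivity : (0 : ℤ) ≤ q1 * q2),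
          abs_of_nonneg (by positivity : (0 : ℤ) ≤ k * (q1 * q3))]
        have i1 : |p3| * ((q1 : ℤ) * q2) ≤ D * (D * D) :=
          mul_le_mul hp3' (mul_le_mul hq1' hq2' (by omega) hD0) (by positivity) hD0
        have i2 : |p2| * ((k : ℤ) * (q1 * q3)) ≤ D * (k * (D * D)) :=
          mul_le_mul hp2' (mul_le_mul le_rfl (mul_le_mul hq1' hq3' (by omega) hD0)
            (by positivity) hk') (by positivity) hD0
        calc |p3| * ((q1 : ℤ) * q2) + |p2| * ((k : ℤ) * (q1 * q3))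
            ≤ D * (D * D) + D * (k * (D * D)) := add_le_add i1 i2
          _ = (k + 1) * (D * D * D) := by ring
      rw [h5] at h8
      have h9 : (k + 1 : ℤ) * h ≤ |(h : ℤ) * p1 * ((k + 1) * (q2 * q3))| := by
        rw [abs_mul ((h : ℤ) * p1), abs_mul (h : ℤ), abs_of_nonneg (by positivity : (0 : ℤ) ≤ h),
          abs_of_nonneg (by positivity : (0 : ℤ) ≤ (k + 1) * (q2 * q3))]
        have i3 : (1 : ℤ) ≤ q2 * q3 := by
          calc (1 : ℤ) = 1 * 1 := by ring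
            _ ≤ q2 * q3 := mul_le_mul hq2 hq3 (by norm_num) (by omega)
        calc (k + 1 : ℤ) * h = h * 1 * ((k + 1) * 1) := by ring
          _ ≤ h * |p1| * ((k + 1) * (q2 * q3)) :=
            mul_le_mul (mul_le_mul le_rfl h7 (by norm_num) (by positivity))
              (mul_le_mul le_rfl i3 (by norm_num) (by positivity)) (by positivity)
              (by positivity)
      have h10 : (k + 1 : ℤ) * h ≤ (k + 1) * (D * D * D) := h9.trans h8
      have h11 := le_of_mul_le_mul_left h10 (by positivity)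
      omega
    rw [hp1, mul_zero, zero_mul] at h5
    have h6 : p3 * q2 + k * (p2 * q3) = 0 := by
      have h7 : (q1 : ℤ) * (p3 * q2 + k * (p2 * q3)) = 0 := by linear_combination h5
      exact (mul_eq_zero.1 h7).resolve_left (by omega)
    have hp2 : p2 = 0 := by
      by_contra h7
      have h8 : 1 ≤ |p2| := Int.one_le_abs h7
      have h9 : (k : ℤ) * (|p2| * q3) = |p3| * q2 := by
        have h10 : (k : ℤ) * (p2 * q3) = -(p3 * q2) := by linear_combination h6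
        have h11 := congrArg abs h10
        rwa [abs_neg, abs_mul, abs_mul, abs_mul, abs_of_nonneg hk',
          abs_of_nonneg (by omega : (0 : ℤ) ≤ q3), abs_of_nonneg (by omega : (0 : ℤ) ≤ q2)] at h11
      have h12 : |p3| * (q2 : ℤ) ≤ D * D := mul_le_mul hp3' hq2' (by omega) hD0
      have h13 : (k : ℤ) * (1 * 1) ≤ k * (|p2| * q3) :=
        mul_le_mul le_rfl (mul_le_mul h8 hq3 (by norm_num) (by positivity)) (by norm_num) hk'
      omega
    have hp3 : p3 = 0 := by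
      rw [hp2, zero_mul, mul_zero, add_zero] at h6
      exact (mul_eq_zero.1 h6).resolve_right (by omega)
    rw [hp1, mul_zero, zpow_zero] at f1'
    rw [hp2, zpow_zero] at f2
    rw [hp3, zpow_zero] at f3
    exact ⟨(pow_eq_one_iff_of_nonneg zero_le (by omega)).1 f1',
      (pow_eq_one_iff_of_nonneg zero_le (by omega)).1 f2,
      (pow_eq_one_iff_of_nonneg zero_le (by omega)).1 f3⟩
  obtain ⟨hv1, hv2, hv3⟩ := hvT
  -- the residues
  have hW : v Z⁻¹ < 1 := by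
    rw [map_inv₀]
    exact inv_lt_one_of_one_lt₀ hZ
  have hWh : v (Z ^ h)⁻¹ < 1 := by
    rw [map_inv₀, map_pow]
    exact inv_lt_one_of_one_lt₀ (one_lt_pow₀ hZ hh0)
  have hWs : v (s * Z)⁻¹ < 1 := by
    rw [map_inv₀, map_mul, hvs, one_mul]
    exact inv_lt_one_of_one_lt₀ hZ
  have hres : ∀ {X T : K}, X ≠ 0 → v X⁻¹ < 1 → v T = 1 → (spc K T P).eval X = 0 →
      Transcendental F T →
      ∃ (c : F) (τ : K), c ≠ 0 ∧ P.leadingCoeff.IsRoot c ∧ Nr v T c ∧ T = algebraMap F K c *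
        (1 + τ) ∧ τ ≠ 0 ∧ v τ < 1 ∧ (spc K τ (sh c P.reverse)).eval X⁻¹ = 0 := by
    intro X T hX hX1 hvT h1 h2
    have h3 := rev_eval hX h1
    have h4 := const_small hv hX1 hvT.le h3
    rw [coeff_zero_reverse] at h4
    obtain ⟨c, h5, h6⟩ := exists_near_root hv (leadingCoeff_ne_zero.2 hP) h4
    have hc := h6.ne_zero hv hvT
    have hc' : algebraMap F K c ≠ 0 := by
      rwa [Ne, map_eq_zero_iff _ (algebraMap F K).injective]
    have e1 : T = algebraMap F K c * (1 + (T / algebraMap F K c - 1)) := by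
      field_simp
      ring
    refine ⟨c, T / algebraMap F K c - 1, hc, h5, h6, e1, ?_, ?_, ?_⟩
    · intro h7
      rw [h7, add_zero, mul_one] at e1
      rw [e1] at h2
      exact h2 (isAlgebraic_algebraMap _)
    · have h8 : T / algebraMap F K c - 1 = (T - algebraMap F K c) / algebraMap F K c := by
        field_simp
      rw [h8, map_div₀, hv c hc, div_one]
      exact h6
    · rw [sh_eval, ← e1]
      exact h3
  obtain ⟨c1, τ1, k1, l1, m1, n1, o1, q1, r1⟩ := hres (pow_ne_zero h hZ0) hWh hv1 a1 b1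
  obtain ⟨c2, τ2, k2, l2, m2, n2, o2, q2, r2⟩ := hres (mul_ne_zero hsn0 hZ0) hWs hv2 a2 b2
  obtain ⟨c3, τ3, k3, l3, m3, n3, o3, q3, r3⟩ := hres hZ0 hW hv3 a3 b3
  have hc : c3 * c2 ^ k = c1 ^ (k + 1) := by
    refine Nr.unique hv (m3.mul hv (m2.pow hv k)) ?_
    rw [hT]
    exact m1.pow hv (k + 1)
  have hτ : (1 + τ3) * (1 + τ2) ^ k = (1 + τ1) ^ (k + 1) := by
    have h1 : algebraMap F K (c1 ^ (k + 1)) ≠ 0 := by
      rw [Ne, map_eq_zero_iff _ (algebraMap F K).injective]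
      exact pow_ne_zero _ k1
    refine mul_left_cancel₀ h1 ?_
    have h2 : T₃ * T₂ ^ k = algebraMap F K (c1 ^ (k + 1)) * ((1 + τ3) * (1 + τ2) ^ k) := by
      rw [n3, n2, ← hc, map_mul, map_pow, mul_pow]
      ring
    rw [← h2, hT, map_pow, n1, mul_pow]
  have hrP : ∀ {c : F}, c ≠ 0 → sh c P.reverse ≠ 0 := fun hc =>
    sh_ne_zero hc (by rwa [Ne, reverse_eq_zero])
  obtain ⟨i1, j1, s1, t1, u1, w1, x1⟩ := slope_near hv (hrP k1) (inv_ne_zero (pow_ne_zero h hZ0))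
    o1 hWh q1 r1
  obtain ⟨i3, j3, s3, t3, u3, w3, x3⟩ := slope_near hv (hrP k3) (inv_ne_zero hZ0) o3 hW q3 r3
  have hvW0 : 0 < v Z⁻¹ := zero_lt_iff.2 ((map_ne_zero v).2 (inv_ne_zero hZ0))
  have h13 : v τ1 < v τ3 := by
    refine lt_of_slopes (D := D) (h := h) (p := i1) (q := j1) (p' := i3) (q' := j3) hvW0 hW s1
      (w1.trans (hDr c1 l1)) (t3.trans (hDr c3 l3)) u3 ?_ x3 (by omega)
    rw [x1, ← inv_pow, map_pow, pow_mul]
  have hkK : v (k : K) = 1 := by
    rw [← map_natCast (algebraMap F K)]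
    exact hv _ hk0
  obtain ⟨h23, hfirst⟩ := first_order v hkK q1 q2 hτ o3 h13
  -- roots
  obtain ⟨w, hw⟩ := IsAlgClosed.exists_pow_nat_eq Z⁻¹ hL0
  obtain ⟨σ, hσ⟩ := IsAlgClosed.exists_pow_nat_eq s hL0
  have hw0 : w ≠ 0 := by
    rintro rfl
    rw [zero_pow hL0.ne'] at hw
    exact inv_ne_zero hZ0 hw.symm
  have hσ0 : σ ≠ 0 := by
    rintro rfl
    rw [zero_pow hL0.ne'] at hσ
    exact hsn0 hσ.symm
  obtain ⟨σ₀, hσ1, hσ2⟩ := exists_near_root hv (p := X ^ L - C s₀) (x := σ)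
    (X_pow_sub_C_ne_zero hL0 s₀) (by
      rw [map_sub, map_pow, aeval_X, aeval_C, hσ]
      exact hs)
  rw [IsRoot, eval_sub, eval_pow, eval_X, eval_C, sub_eq_zero] at hσ1
  have hσ₀0 : σ₀ ≠ 0 := by
    rintro rfl
    rw [zero_pow hL0.ne'] at hσ1
    exact hs0 hσ1.symm
  have hvσ : v σ = 1 := hσ2.v_eq hv hσ₀0
  have hvw1 : v w < 1 := by
    by_contra h1
    have h2 : 1 ≤ v w ^ L := one_le_pow₀ (not_lt.1 h1)
    rw [← map_pow, hw] at h2
    exact absurd hW (not_lt.2 h2)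
  rw [← hw] at x3
  obtain ⟨e', he1, he2, he3⟩ := exists_e hv hL hL0 s3 (t3.trans (hDr c3 l3)) u3
    (w3.trans (hDr c3 l3)) x3
  have hwe0 : w ^ e' ≠ 0 := pow_ne_zero _ hw0
  obtain ⟨ρ₃, y3, z3, g3⟩ := near_rho hv (hrP k3) (L := L) (e := e') (x := w)
    (η := τ3 / w ^ e') hL0 hw0 hvw1 (by
      rw [map_div₀, map_pow, he3, div_self]
      exact pow_ne_zero _ ((map_ne_zero v).2 hw0)) (by
      rw [mul_div_cancel₀ _ hwe0, hw]
      exact r3)
  have hx0 : w / σ ≠ 0 := div_ne_zero hw0 hσ0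
  have hvx : v (w / σ) = v w := by rw [map_div₀, hvσ, div_one]
  obtain ⟨ρ₂, y2, z2, g2⟩ := near_rho hv (hrP k2) (L := L) (e := e') (x := w / σ)
    (η := τ2 / (w / σ) ^ e') hL0 hx0 (by rw [hvx]; exact hvw1) (by
      rw [map_div₀, map_pow, hvx, h23, he3, div_self]
      exact pow_ne_zero _ ((map_ne_zero v).2 hw0)) (by
      rw [mul_div_cancel₀ _ (pow_ne_zero _ hx0), div_pow, hw, hσ]
      have h1 : Z⁻¹ / s = (s * Z)⁻¹ := by
        field_simp
      rw [h1]
      exact r2)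
  have hrel : ρ₃ * σ₀ ^ e' + k * ρ₂ = 0 := by
    have h1 : Nr v (τ3 / w ^ e' * σ ^ e' + algebraMap F K k * (τ2 / (w / σ) ^ e'))
        (ρ₃ * σ₀ ^ e' + k * ρ₂) :=
      (g3.mul hv (hσ2.pow hv e')).add ((Nr.refl _).mul hv g2)
    have h2 : τ3 / w ^ e' * σ ^ e' + algebraMap F K k * (τ2 / (w / σ) ^ e') =
        (τ3 + k * τ2) * σ ^ e' / w ^ e' := by
      rw [div_pow, map_natCast]
      field_simp
    have h3 : v ((τ3 + k * τ2) * σ ^ e' / w ^ e') < 1 := by
      rw [map_div₀, map_mul, map_pow, map_pow, hvσ, one_pow, mul_one, ← he3, div_lt_one₀]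
      · exact hfirst
      · exact zero_lt_iff.2 ((map_ne_zero v).2 o3)
    rw [h2] at h1
    exact Nr.unique hv h1 (Nr.zero h3)
  -- the contradiction
  refine hgood e' c2 c3 ρ₂ ρ₃ he2 l2 l3 z2 z3 ?_
  have h1 : σ₀ ^ e' = -(k : F) * ρ₂ / ρ₃ := by
    rw [eq_div_iff y3]
    linear_combination hrel
  have h2 : s₀ ^ e' = (-(k : F) * ρ₂ / ρ₃) ^ L := by
    rw [← hσ1, ← pow_mul, mul_comm, pow_mul, h1]
  have h3 : (s₀ ^ e') ^ e * (-(k : F)) ^ (L * e') = 1 := by
    have h4 := congrArg (fun x => x ^ e') hs₀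
    simp only [mul_pow, one_pow, ← pow_mul] at h4
    rw [← pow_mul, mul_comm e']
    exact h4
  rw [h2, ← pow_mul, div_pow, mul_pow] at h3
  have hρ3 : ρ₃ ^ (L * e) ≠ 0 := pow_ne_zero _ y3
  have hρ2 : ρ₂ ^ (L * e) ≠ 0 := pow_ne_zero _ y2
  rw [mul_add, pow_add, div_pow, eq_div_iff hρ2]
  rw [div_mul_eq_mul_div, div_eq_one_iff_eq hρ3] at h3
  rw [← h3]
  ring

end

end Pool.Agent.H74.ZP
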