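import Pool.Agent.H74.ZP.TwistU

/-!
# From a quotient of non-proportional polynomials to a line
-/

set_option autoImplicit false
set_option linter.unusedSectionVars false
set_option linter.style.haveILetI false

namespace Pool.Agent.H74.ZP

open Polynomial Pool.Agent.R948

section

variable {F : Type} [Field F]

/-- **From a quotient of polynomials which are not proportional up to a monomial to a line.** -/
theorem exists_lin3 [IsAlgClosed F] [CharZero F] {A B : F[X]} (hA : A ≠ 0) (hB : B ≠ 0)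
    (hnp : ∀ (κ : F) (i j : ℕ), X ^ i * A ≠ C κ * (X ^ j * B))
    (hU : U (rat A B)) : ∃ α β : F, α ≠ 0 ∧ β ≠ 0 ∧ U (lin α β) := by
  by_cases h : len A = len B
  swap
  · exact exists_lin hA hB h hU
  obtain ⟨g, A₁, B₁, i, j, rfl, rfl, hg, hcop, hA0, hB0⟩ := exists_red hA hB
  have hA₁ : A₁ ≠ 0 := by
    rintro rfl
    exact hA0 rfl
  have hB₁ : B₁ ≠ 0 := by
    rintro rfl
    exact hB0 rfl
  have hX : (X : F[X]) ≠ 0 := X_ne_zero
  have hdeg : A₁.natDegree = B₁.natDegree := by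
    rw [len_mul hg (mul_ne_zero (pow_ne_zero _ hX) hA₁),
      len_mul hg (mul_ne_zero (pow_ne_zero _ hX) hB₁), len_mul (pow_ne_zero _ hX) hA₁,
      len_mul (pow_ne_zero _ hX) hB₁, len_X_pow, len_X_pow, len_of_ne hA0, len_of_ne hB0] at h
    omega
  have hnp1 : ∀ ξ : F, A₁ ≠ C ξ * B₁ := by
    intro ξ h1
    refine hnp ξ j i ?_
    rw [h1]
    ring
  have hpos : A₁.natDegree ≠ 0 := by
    intro h0
    have h1 := eq_C_of_natDegree_eq_zero h0
    have h2 := eq_C_of_natDegree_eq_zero (hdeg ▸ h0 : B₁.natDegree = 0)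
    refine hnp1 (A₁.coeff 0 / B₁.coeff 0) ?_
    rw [h1, h2, ← C_mul, coeff_C_zero, coeff_C_zero, div_mul_cancel₀ _ hB0]
  obtain ⟨e, he⟩ := Nat.exists_eq_succ_of_ne_zero hpos
  have heA : A₁.natDegree = e + 1 := he
  have heB : B₁.natDegree = e + 1 := hdeg ▸ he
  have hU1 : U (rat A₁ B₁) := hU.pull 1 ((i : ℤ) - j) 0 1 (fun K _ _ x y => by
    rw [← rat_trans hcop hnp1 K y x, cur_pencil' (i := i) (j := j) hg hcop hnp1 K y x,
      mul_comm (y ^ ((i : ℤ) - j)), mul_comm (y ^ (1 : ℤ))])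
  obtain ⟨α, hα, hαr⟩ := exists_prod_form heA
  obtain ⟨β, hβ, hβr⟩ := exists_prod_form heB
  obtain ⟨η, hη, h1, h2, h3, h4, h5⟩ := exists_eta hcop hA0 hB0 hαr hβr
  have hη' : (((η⁻¹)⁻¹ : Fˣ) : F) = η := by rw [inv_inv]
  have hlA : A₁.leadingCoeff ≠ 0 := leadingCoeff_ne_zero.2 hA₁
  have hlB : B₁.leadingCoeff ≠ 0 := leadingCoeff_ne_zero.2 hB₁
  have hA'c := tw_coeff_zero A₁ B₁ A₁.leadingCoeff η α
  have hA'l := tw_leadingCoeff (A := A₁) (g := A₁.leadingCoeff) h2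
  have hA'd := tw_natDegree (A := A₁) hlA h2
  have hB'c := tw_coeff_zero A₁ B₁ B₁.leadingCoeff η β
  have hB'l := tw_leadingCoeff (A := A₁) (g := B₁.leadingCoeff) h4
  have hB'd := tw_natDegree (A := A₁) hlB h4
  have hA'0 : (tw A₁ B₁ A₁.leadingCoeff η α).coeff 0 ≠ 0 := by
    rw [hA'c]
    exact mul_ne_zero (pow_ne_zero _ hlA) (Finset.prod_ne_zero_iff.2 fun i _ => h1 i)
  have hB'0 : (tw A₁ B₁ B₁.leadingCoeff η β).coeff 0 ≠ 0 := by
    rw [hB'c]
    exact mul_ne_zero (pow_ne_zero _ hlB) (Finset.prod_ne_zero_iff.2 fun i _ => h3 i)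
  have hA'ne : tw A₁ B₁ A₁.leadingCoeff η α ≠ 0 := by
    intro h0
    rw [h0] at hA'0
    exact hA'0 rfl
  have hB'ne : tw A₁ B₁ B₁.leadingCoeff η β ≠ 0 := by
    intro h0
    rw [h0] at hB'0
    exact hB'0 rfl
  have hU2 := U_twist hcop hA0 heA heB hnp1 (fun K _ _ => hα K) (fun K _ _ => hβ K) η⁻¹ hη.inv
    (by rw [hη']; exact hB'ne) hU1
  rw [hη'] at hU2
  refine exists_lin' hA'ne hB'ne ?_ ?_ hU2
  · rw [len_of_ne hA'0, len_of_ne hB'0, hA'd, hB'd]
  · rw [trailingCoeff_of_ne hA'0, trailingCoeff_of_ne hB'0, hA'l, hB'l, hA'c, hB'c]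
    intro h6
    apply h5
    have h7 : A₁.leadingCoeff ^ (e + 1) * B₁.leadingCoeff ^ (e + 1) * (-1) ^ (e + 1) ≠ 0 :=
      mul_ne_zero (mul_ne_zero (pow_ne_zero _ hlA) (pow_ne_zero _ hlB))
        (pow_ne_zero _ (by simp))
    refine mul_left_cancel₀ h7 ?_
    linear_combination h6

end

end Pool.Agent.H74.ZP
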