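import Pool.Agent.H74.ZP.Norm

/-!
# From the line `α x + β y = 1` to the line `x + y = 1`
-/

set_option autoImplicit false
set_option linter.unusedSectionVars false
set_option linter.style.haveILetI false

namespace Pool.Agent.H74.ZP

open MvPolynomial Pool.Agent.R948

section

variable {F : Type} [Field F] {ι κ : Type} [Fintype ι] [Fintype κ]

/-- the points of the line with nonconstant coordinates -/
def lin (α β : F) : Cur F := fun K _ _ X Y =>
  algebraMap F K α * (X : K) + algebraMap F K β * (Y : K) = 1 ∧ Transcendental F (Y : K)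

theorem td_sum_le {K : Type} [Field K] [Algebra F K] (b : ι → K) (y : κ → K) :
    td F (Sum.elim b y) ≤ td F b + Fintype.card κ := by
  have h3 : Set.range (Sum.elim b y) = Set.range b ∪ Set.range y := Set.Sum.elim_range b y
  have h4 := (AlgebraicIndependent.matroid F K).eRk_union_le_eRk_add_encard
    (Set.range b) (Set.range y)
  rw [← h3, ← td_spec, ← td_spec] at h4
  have h5 : (Set.range y).encard ≤ Fintype.card κ := by
    rw [← Set.image_univ]
    refine (Set.encard_image_le _ _).trans ?_
    rw [Set.encard_univ, ENat.card_eq_coe_fintype_card]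
  have h6 := h4.trans (add_le_add_right h5 _)
  exact_mod_cast h6

theorem tm_div {K : Type} [Field K] [Algebra F K] [DecidableEq ι] (t : Fˣ) (a : ι → ℤ) (i : ι)
    (w : ι → Kˣ) : tm K t (a - Pi.single i 1) w = tm K t a w * (w i)⁻¹ := by
  rw [tm, tm, sub_eq_add_neg, mon_add, mon_neg, mon_single, mul_assoc]

theorem lin_div {K : Type} [Field K] [Algebra F K] (α β : F) (N N' D : Kˣ) :
    algebraMap F K α * ((N * D⁻¹ : Kˣ) : K) + algebraMap F K β * ((N' * D⁻¹ : Kˣ) : K) = 1 ↔
      algebraMap F K α * (N : K) + algebraMap F K β * (N' : K) = D := by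
  have hD : (D : K) ≠ 0 := D.ne_zero
  rw [Units.val_mul, Units.val_mul, Units.val_inv_eq_inv_val]
  constructor
  · intro h
    field_simp at h
    exact h
  · intro h
    field_simp
    exact h

/-- numerators of the first coordinates -/
def numX (M : ℕ) (om : Fˣ) (j : Fin M) :
    Fin 6 → Fˣ × ((Fin M ⊕ Fin M) ⊕ (Fin M × Fin 7) → ℤ) :=
  ![(1, Pi.single (Sum.inr (j, 0)) 1), (1, Pi.single (Sum.inl (Sum.inr j)) 1),
    (1, Pi.single (Sum.inr (j, 2)) 1), (1, Pi.single (Sum.inr (j, 0)) 1),
    (-om ^ 2, 0), (1, Pi.single (Sum.inr (j, 4)) 1)]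

/-- numerators of the second coordinates -/
def numY (M : ℕ) (om : Fˣ) (j : Fin M) :
    Fin 6 → Fˣ × ((Fin M ⊕ Fin M) ⊕ (Fin M × Fin 7) → ℤ) :=
  ![(1, Pi.single (Sum.inl (Sum.inl j)) 1), (1, Pi.single (Sum.inr (j, 1)) 1),
    (1, Pi.single (Sum.inr (j, 3)) 1), (-om, 0),
    (1, Pi.single (Sum.inr (j, 1)) 1), (1, Pi.single (Sum.inr (j, 5)) 1)]

/-- denominators -/
def den : Fin 6 → Fin 7 := ![2, 3, 6, 4, 5, 6]

theorem tm_one_single {K : Type} [Field K] [Algebra F K] [DecidableEq ι] (i : ι) (w : ι → Kˣ) :
    tm K (1 : Fˣ) (Pi.single i 1) w = w i := by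
  rw [tm, uo_one, mon_single, one_mul]

theorem tm_zero {K : Type} [Field K] [Algebra F K] (t : Fˣ) (w : ι → Kˣ) :
    tm K t 0 w = uo K t := by
  rw [tm, mon_zero, mul_one]

/-- linear forms in independent variables -/
theorem lin_free {K σ : Type} [Field K] (a b : σ) (hab : a ≠ b) (p q r : K)
    (h : algebraMap K (FractionRing (MvPolynomial σ K)) p *
        algebraMap (MvPolynomial σ K) (FractionRing (MvPolynomial σ K)) (X a) +
      algebraMap K (FractionRing (MvPolynomial σ K)) q *
        algebraMap (MvPolynomial σ K) (FractionRing (MvPolynomial σ K)) (X b) +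
      algebraMap K (FractionRing (MvPolynomial σ K)) r = 0) : p = 0 ∧ q = 0 ∧ r = 0 := by
  classical
  have h1 : algebraMap (MvPolynomial σ K) (FractionRing (MvPolynomial σ K))
      (C p * X a + C q * X b + C r) = 0 := by
    rw [map_add, map_add, map_mul, map_mul]
    exact h
  rw [map_eq_zero_iff _ (IsFractionRing.injective _ _)] at h1
  have h2 := congrArg (eval (0 : σ → K)) h1
  have h3 := congrArg (eval (Pi.single a 1 : σ → K)) h1
  have h4 := congrArg (eval (Pi.single b 1 : σ → K)) h1
  simp [hab, hab.symm] at h2 h3 h4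
  refine ⟨?_, ?_, h2⟩
  · rw [h2] at h3
    simpa using h3
  · rw [h2] at h4
    simpa using h4

theorem trans_of_ne {K : Type} [Field K] [Algebra F K] [IsAlgClosed F] (N D : Kˣ)
    (h : ∀ ξ : F, (N : K) ≠ algebraMap F K ξ * D) : Transcendental F ((N * D⁻¹ : Kˣ) : K) := by
  intro h1
  obtain ⟨ξ, hξ⟩ := mem_range_of_integral h1.isIntegral
  refine h ξ ?_
  rw [← hξ, ← Units.val_mul, mul_assoc, inv_mul_cancel, mul_one]

/-- **Second step: from the line `α x + β y = 1` to the line `x + y = 1`.** -/
theorem fin_line [IsAlgClosed F] [CharZero F] {α β : F} (hα : α ≠ 0) (hβ : β ≠ 0)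
    (h : U (lin α β)) (M : ℕ) : Fin' (lineI F M) := by
  classical
  -- a primitive third root of unity
  obtain ⟨o, ho⟩ : ∃ o : F, o ^ 2 + o + 1 = 0 := by
    have h1 : (Polynomial.X ^ 2 + Polynomial.X + 1 : Polynomial F).degree ≠ 0 := by
      have : (Polynomial.X ^ 2 + Polynomial.X + 1 : Polynomial F).degree = 2 := by
        compute_degree!
      rw [this]
      decide
    obtain ⟨o, ho⟩ := IsAlgClosed.exists_root _ h1
    refine ⟨o, ?_⟩
    simpa [Polynomial.IsRoot] using ho
  have ho0 : o ≠ 0 := by
    rintro rfl
    simp at ho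
  have ho3 : o ^ 3 = 1 := by linear_combination (o - 1) * ho
  obtain ⟨om, hom⟩ : ∃ om : Fˣ, (om : F) = o := ⟨Units.mk0 o ho0, rfl⟩
  have htor : Tor om := ⟨3, by norm_num, Units.ext (by
    rw [Units.val_pow_eq_pow_val, hom, ho3, Units.val_one])⟩
  have htorn : Tor (-om) := htor.neg
  have htorn2 : Tor (-om ^ 2) := by
    rw [sq]
    exact (htor.mul htor).neg
  obtain ⟨κ, hκ⟩ : ∃ κ : Type, κ = (Fin M × Fin 7) := ⟨_, rfl⟩
  have hmain := h ((Fin M ⊕ Fin M) ⊕ (Fin M × Fin 7)) (Fin M × Fin 6)
    (fun a => (numX M om a.1 a.2).1) (fun a => (numY M om a.1 a.2).1)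
    (fun a => (numX M om a.1 a.2).2 - Pi.single (Sum.inr (a.1, den a.2)) 1)
    (fun a => (numY M om a.1 a.2).2 - Pi.single (Sum.inr (a.1, den a.2)) 1)
    (by
      rintro ⟨j, k⟩
      fin_cases k
      · exact tor_one
      · exact tor_one
      · exact tor_one
      · exact tor_one
      · exact htorn2
      · exact tor_one)
    (by
      rintro ⟨j, k⟩
      fin_cases k
      · exact tor_one
      · exact tor_one
      · exact tor_one
      · exact htorn
      · exact tor_one
      · exact tor_one)
  -- the equations
  have key : ∀ (K : Type) [Field K] [Algebra F K] (w : (Fin M ⊕ Fin M) ⊕ (Fin M × Fin 7) → Kˣ)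
      (j : Fin M),
      (∀ k, algebraMap F K α * ((tm K (numX M om j k).1 ((numX M om j k).2 -
            Pi.single (Sum.inr (j, den k)) 1) w : Kˣ) : K) +
          algebraMap F K β * ((tm K (numY M om j k).1 ((numY M om j k).2 -
            Pi.single (Sum.inr (j, den k)) 1) w : Kˣ) : K) = 1) ↔
      (algebraMap F K α * (w (Sum.inr (j, 0)) : K) + algebraMap F K β *
          (w (Sum.inl (Sum.inl j)) : K) = w (Sum.inr (j, 2)) ∧
       algebraMap F K α * (w (Sum.inl (Sum.inr j)) : K) + algebraMap F K β *
          (w (Sum.inr (j, 1)) : K) = w (Sum.inr (j, 3)) ∧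
       algebraMap F K α * (w (Sum.inr (j, 2)) : K) + algebraMap F K β *
          (w (Sum.inr (j, 3)) : K) = w (Sum.inr (j, 6)) ∧
       algebraMap F K α * (w (Sum.inr (j, 0)) : K) + algebraMap F K β *
          (- algebraMap F K o) = w (Sum.inr (j, 4)) ∧
       algebraMap F K α * (- (algebraMap F K o) ^ 2) + algebraMap F K β *
          (w (Sum.inr (j, 1)) : K) = w (Sum.inr (j, 5)) ∧
       algebraMap F K α * (w (Sum.inr (j, 4)) : K) + algebraMap F K β *
          (w (Sum.inr (j, 5)) : K) = w (Sum.inr (j, 6))) := by
    intro K _ _ w j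
    have e1 : ((uo K (-om) : Kˣ) : K) = - algebraMap F K o := by
      rw [val_uo, Units.val_neg, hom, map_neg]
    have e2 : ((uo K (-om ^ 2) : Kˣ) : K) = - (algebraMap F K o) ^ 2 := by
      rw [val_uo, Units.val_neg, Units.val_pow_eq_pow_val, hom, map_neg, map_pow]
    simp only [tm_div, lin_div]
    rw [Fin.forall_fin_succ, Fin.forall_fin_succ, Fin.forall_fin_succ, Fin.forall_fin_succ,
      Fin.forall_fin_succ, Fin.forall_fin_succ]
    simp only [numX, numY, den, Matrix.cons_val_zero, Matrix.cons_val_succ, Matrix.cons_val_fin_one,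
      tm_one_single, tm_zero, e1, e2]
    constructor
    · rintro ⟨a1, a2, a3, a4, a5, a6, -⟩
      exact ⟨a1, a2, a3, a4, a5, a6⟩
    · rintro ⟨a1, a2, a3, a4, a5, a6⟩
      exact ⟨a1, a2, a3, a4, a5, a6, fun i => i.elim0⟩
  have hmain2 : FinR (F := F) (ι := Fin M ⊕ Fin M) (fun K _ _ y =>
      ∀ j, (y (Sum.inl j) : K) + (y (Sum.inr j) : K) = 1) := by
    refine hmain.proj (f := Fintype.card (Fin M × Fin 2)) ?_ ?_
    · intro K _ _ y hy
      obtain ⟨K', hK'⟩ : ∃ K' : Type, K' = FractionRing (MvPolynomial (Fin M × Fin 2) K) :=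
        ⟨_, rfl⟩
      have hfree : ∀ (j : Fin M) (p q r : K),
          algebraMap K (FractionRing (MvPolynomial (Fin M × Fin 2) K)) p *
            algebraMap (MvPolynomial (Fin M × Fin 2) K)
              (FractionRing (MvPolynomial (Fin M × Fin 2) K)) (X (j, 0)) +
          algebraMap K (FractionRing (MvPolynomial (Fin M × Fin 2) K)) q *
            algebraMap (MvPolynomial (Fin M × Fin 2) K)
              (FractionRing (MvPolynomial (Fin M × Fin 2) K)) (X (j, 1)) +
          algebraMap K (FractionRing (MvPolynomial (Fin M × Fin 2) K)) r = 0 →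
          p = 0 ∧ q = 0 ∧ r = 0 := fun j p q r h =>
        lin_free (j, 0) (j, 1) (by simp) p q r h
      have hind : AlgebraicIndependent K (fun a : Fin M × Fin 2 =>
          algebraMap (MvPolynomial (Fin M × Fin 2) K)
              (FractionRing (MvPolynomial (Fin M × Fin 2) K)) (X a)) := by
        have h1 := MvPolynomial.algebraicIndependent_X (Fin M × Fin 2) K
        have h2 := h1.map' (f := IsScalarTower.toAlgHom K (MvPolynomial (Fin M × Fin 2) K)
          (FractionRing (MvPolynomial (Fin M × Fin 2) K))) (IsFractionRing.injective _ _)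
        exact h2
      obtain ⟨_, _, _, hst, u, hfree, hind⟩ : ∃ (_ : Field K') (_ : Algebra F K')
          (_ : Algebra K K') (_ : IsScalarTower F K K') (u : Fin M × Fin 2 → K'),
          (∀ (j : Fin M) (p q r : K), algebraMap K K' p * u (j, 0) + algebraMap K K' q * u (j, 1) +
            algebraMap K K' r = 0 → p = 0 ∧ q = 0 ∧ r = 0) ∧ AlgebraicIndependent K u := by
        subst hK'
        exact ⟨inferInstance, inferInstance, inferInstance, inferInstance, _, hfree, hind⟩
      have hαK : algebraMap F K α ≠ 0 := by
        rwa [Ne, map_eq_zero_iff _ (algebraMap F K).injective]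
      have hβK : algebraMap F K β ≠ 0 := by
        rwa [Ne, map_eq_zero_iff _ (algebraMap F K).injective]
      have hoK : algebraMap F K o ≠ 0 := by
        rwa [Ne, map_eq_zero_iff _ (algebraMap F K).injective]
      have hoK2 : algebraMap F K o ^ 2 + algebraMap F K o + 1 = 0 := by
        rw [← map_pow, ← map_add, ← map_one (algebraMap F K), ← map_add, ho, map_zero]
      have hFK : ∀ c : F, algebraMap F K' c = algebraMap K K' (algebraMap F K c) := fun c =>
        IsScalarTower.algebraMap_apply F K K' c
      let x : Fin M → K := fun j => y (Sum.inl j)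
      let y₂ : Fin M → K := fun j => y (Sum.inr j)
      have hxy : ∀ j, x j + y₂ j = 1 := hy
      have hx0 : ∀ j, x j ≠ 0 := fun j => Units.ne_zero _
      have hy0 : ∀ j, y₂ j ≠ 0 := fun j => Units.ne_zero _
      -- the new coordinates, as linear forms in the independent variables
      let P : Fin M → Fin 7 → K := fun _ => ![1, 0, algebraMap F K α, 0, algebraMap F K α, 0,
        algebraMap F K α ^ 2]
      let Q : Fin M → Fin 7 → K := fun _ => ![0, 1, 0, algebraMap F K β, 0, algebraMap F K β,
        algebraMap F K β ^ 2]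
      let R : Fin M → Fin 7 → K := fun j => ![0, 0, algebraMap F K β * x j,
        algebraMap F K α * y₂ j, - (algebraMap F K β * algebraMap F K o),
        - (algebraMap F K α * algebraMap F K o ^ 2), algebraMap F K α * algebraMap F K β]
      let v : Fin M → Fin 7 → K' := fun j k => algebraMap K K' (P j k) * u (j, 0) +
        algebraMap K K' (Q j k) * u (j, 1) + algebraMap K K' (R j k)
      have hv : ∀ j k, v j k ≠ 0 := by
        intro j k h0
        obtain ⟨h1, h2, h3⟩ := hfree j _ _ _ h0
        fin_cases k
        · exact one_ne_zero h1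
        · exact one_ne_zero h2
        · exact hαK h1
        · exact hβK h2
        · exact hαK h1
        · exact hβK h2
        · exact pow_ne_zero 2 hαK h1
      let t : Fin M × Fin 7 → K'ˣ := fun a => Units.mk0 (v a.1 a.2) (hv a.1 a.2)
      obtain ⟨w, hw⟩ : ∃ w : (Fin M ⊕ Fin M) ⊕ (Fin M × Fin 7) → K'ˣ,
        w = Sum.elim (up K' y) t := ⟨_, rfl⟩
      have hwx : ∀ j, (w (Sum.inl (Sum.inl j)) : K') = algebraMap K K' (x j) := by
        intro j
        rw [hw]
        rfl
      have hwy : ∀ j, (w (Sum.inl (Sum.inr j)) : K') = algebraMap K K' (y₂ j) := by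
        intro j
        rw [hw]
        rfl
      have hwv : ∀ j k, (w (Sum.inr (j, k)) : K') = v j k := by
        intro j k
        rw [hw]
        rfl
      refine ⟨K', inferInstance, inferInstance, up K' y, t, ?_, spec_up y, spec_up' y, ?_⟩
      · rw [← hw]
        have heq := fun j => (key K' w j).2 (by
          simp only [hwx, hwy, hwv, hFK, v, P, Q, R]
          refine ⟨?_, ?_, ?_, ?_, ?_, ?_⟩
          · simp
          · simp
            ring
          · have h1 := congrArg (algebraMap K K') (hxy j)
            simp only [map_add, map_one] at h1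
            simp
            linear_combination (algebraMap K K' (algebraMap F K α)) *
              (algebraMap K K' (algebraMap F K β)) * h1
          · simp
          · simp
            ring
          · have h1 := congrArg (algebraMap K K') hoK2
            simp only [map_add, map_pow, map_one, map_zero] at h1
            simp
            linear_combination (- (algebraMap K K' (algebraMap F K α)) *
              (algebraMap K K' (algebraMap F K β))) * h1)
        rintro ⟨j, k⟩
        refine ⟨heq j k, ?_⟩
        change Transcendental F ((tm K' (numY M om j k).1 ((numY M om j k).2 -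
            Pi.single (Sum.inr (j, den k)) 1) w : K'ˣ) : K')
        rw [tm_div]
        refine trans_of_ne _ _ fun ξ hξ => ?_
        have e1 : ((uo K' (-om) : K'ˣ) : K') = - algebraMap K K' (algebraMap F K o) := by
          rw [val_uo, Units.val_neg, hom, map_neg, hFK]
        have hgen : ∀ (p q r : K) (k : Fin 7), algebraMap K K' p * u (j, 0) +
            algebraMap K K' q * u (j, 1) + algebraMap K K' r =
              algebraMap K K' (algebraMap F K ξ) * v j k →
            p = algebraMap F K ξ * P j k ∧ q = algebraMap F K ξ * Q j k ∧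
              r = algebraMap F K ξ * R j k := by
          intro p q r k h0
          obtain ⟨h1, h2, h3⟩ := hfree j (p - algebraMap F K ξ * P j k)
            (q - algebraMap F K ξ * Q j k) (r - algebraMap F K ξ * R j k) (by
              simp only [map_sub, map_mul]
              simp only [v] at h0
              linear_combination h0)
          exact ⟨sub_eq_zero.1 h1, sub_eq_zero.1 h2, sub_eq_zero.1 h3⟩
        fin_cases k
        · change ((tm K' (1 : Fˣ) (Pi.single (Sum.inl (Sum.inl j)) 1) w : K'ˣ) : K') =
            algebraMap F K' ξ * (w (Sum.inr (j, 2)) : K') at hξ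
          rw [tm_one_single, hwx, hwv, hFK] at hξ
          obtain ⟨h1, h2, h3⟩ := hgen 0 0 (x j) 2 (by
            rw [map_zero, zero_mul, zero_mul, zero_add, zero_add, hξ])
          have h4 : algebraMap F K ξ = 0 := by
            rcases mul_eq_zero.1 h1.symm with h5 | h5
            · exact h5
            · exact absurd h5 hαK
          rw [h4, zero_mul] at h3
          exact hx0 j h3
        · change ((tm K' (1 : Fˣ) (Pi.single (Sum.inr (j, 1)) 1) w : K'ˣ) : K') =
            algebraMap F K' ξ * (w (Sum.inr (j, 3)) : K') at hξ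
          rw [tm_one_single, hwv, hwv, hFK] at hξ
          obtain ⟨h1, h2, h3⟩ := hgen _ _ _ 3 hξ
          have h4 : algebraMap F K ξ = 0 := by
            rcases mul_eq_zero.1 h3.symm with h5 | h5
            · exact h5
            · exact absurd h5 (mul_ne_zero hαK (hy0 j))
          rw [h4, zero_mul] at h2
          exact one_ne_zero h2
        · change ((tm K' (1 : Fˣ) (Pi.single (Sum.inr (j, 3)) 1) w : K'ˣ) : K') =
            algebraMap F K' ξ * (w (Sum.inr (j, 6)) : K') at hξ
          rw [tm_one_single, hwv, hwv, hFK] at hξ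
          obtain ⟨h1, h2, h3⟩ := hgen _ _ _ 6 hξ
          have h4 : algebraMap F K ξ = 0 := by
            rcases mul_eq_zero.1 h1.symm with h5 | h5
            · exact h5
            · exact absurd h5 (pow_ne_zero 2 hαK)
          rw [h4, zero_mul] at h2
          exact hβK h2
        · change ((tm K' (-om : Fˣ) 0 w : K'ˣ) : K') =
            algebraMap F K' ξ * (w (Sum.inr (j, 4)) : K') at hξ
          rw [tm_zero, e1, hwv, hFK, ← map_neg] at hξ
          obtain ⟨h1, h2, h3⟩ := hgen 0 0 (-algebraMap F K o) 4 (by
            rw [map_zero, zero_mul, zero_mul, zero_add, zero_add, hξ])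
          have h4 : algebraMap F K ξ = 0 := by
            rcases mul_eq_zero.1 h1.symm with h5 | h5
            · exact h5
            · exact absurd h5 hαK
          rw [h4, zero_mul] at h3
          exact hoK (neg_eq_zero.1 h3)
        · change ((tm K' (1 : Fˣ) (Pi.single (Sum.inr (j, 1)) 1) w : K'ˣ) : K') =
            algebraMap F K' ξ * (w (Sum.inr (j, 5)) : K') at hξ
          rw [tm_one_single, hwv, hwv, hFK] at hξ
          obtain ⟨h1, h2, h3⟩ := hgen _ _ _ 5 hξ
          have h4 : algebraMap F K ξ = 0 := by
            rcases mul_eq_zero.1 h3.symm with h5 | h5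
            · exact h5
            · exact absurd (neg_eq_zero.1 h5) (mul_ne_zero hαK (pow_ne_zero 2 hoK))
          rw [h4, zero_mul] at h2
          exact one_ne_zero h2
        · change ((tm K' (1 : Fˣ) (Pi.single (Sum.inr (j, 5)) 1) w : K'ˣ) : K') =
            algebraMap F K' ξ * (w (Sum.inr (j, 6)) : K') at hξ
          rw [tm_one_single, hwv, hwv, hFK] at hξ
          obtain ⟨h1, h2, h3⟩ := hgen _ _ _ 6 hξ
          have h4 : algebraMap F K ξ = 0 := by
            rcases mul_eq_zero.1 h1.symm with h5 | h5
            · exact h5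
            · exact absurd h5 (pow_ne_zero 2 hαK)
          rw [h4, zero_mul] at h2
          exact hβK h2
      · have h1 := td_add_le (F := F) (k := K) (K := K') u (un y)
        have h2 := card_le_td hind
        have h3 := (spec_up (K' := K') y : Spec F y (up K' y)).td_le
        have h4 : td F (Sum.elim u (fun j => algebraMap K K' (un y j))) ≤
            td F (un (Sum.elim (up K' y) t)) := by
          refine td_le_of_alg F ?_
          rintro (⟨j, i⟩ | i)
          · have h5 : u (j, i) = un (Sum.elim (up K' y) t) (Sum.inr (j, ![0, 1] i)) := by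
              change u (j, i) = v j (![0, 1] i)
              fin_cases i <;> simp [v, P, Q, R]
            rw [Sum.elim_inl, h5]
            exact alg_of_range _ _
          · exact alg_of_range (un (Sum.elim (up K' y) t)) (Sum.inl i)
        omega
    · intro K _ _ y t hyt
      have heq := fun j => (key K (Sum.elim y t) j).1 (fun k => (hyt (j, k)).1)
      simp only [Sum.elim_inl, Sum.elim_inr] at heq
      have hαK : algebraMap F K α ≠ 0 := by
        rwa [Ne, map_eq_zero_iff _ (algebraMap F K).injective]
      have hβK : algebraMap F K β ≠ 0 := by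
        rwa [Ne, map_eq_zero_iff _ (algebraMap F K).injective]
      have hoK2 : algebraMap F K o ^ 2 + algebraMap F K o + 1 = 0 := by
        rw [← map_pow, ← map_add, ← map_one (algebraMap F K), ← map_add, ho, map_zero]
      refine ⟨fun j => ?_, ?_⟩
      · obtain ⟨a1, a2, a3, a4, a5, a6⟩ := heq j
        refine mul_left_cancel₀ (mul_ne_zero hαK hβK) ?_
        linear_combination a3 - a6 + (algebraMap F K α) * (a1 - a4) +
          (algebraMap F K β) * (a2 - a5) - (algebraMap F K α) * (algebraMap F K β) * hoK2
      · refine le_trans ?_ (td_sum_le (un y) (fun a : Fin M × Fin 2 => (t (a.1, ![0, 1] a.2) : K)))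
        refine td_le_of_alg F ?_
        obtain ⟨g, hg⟩ : ∃ g : (Fin M ⊕ Fin M) ⊕ (Fin M × Fin 2) → K,
          g = Sum.elim (un y) (fun a : Fin M × Fin 2 => (t (a.1, ![0, 1] a.2) : K)) := ⟨_, rfl⟩
        rw [← hg]
        have hmem : ∀ i, g i ∈ Algebra.adjoin F (Set.range g) := fun i =>
          Algebra.subset_adjoin ⟨i, rfl⟩
        have hx : ∀ i, (y i : K) ∈ Algebra.adjoin F (Set.range g) := fun i => by
          have := hmem (Sum.inl i)
          rwa [hg] at this ⊢
        have hu1 : ∀ j, (t (j, 0) : K) ∈ Algebra.adjoin F (Set.range g) := fun j => by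
          have := hmem (Sum.inr (j, 0))
          rwa [hg] at this ⊢
        have hu2 : ∀ j, (t (j, 1) : K) ∈ Algebra.adjoin F (Set.range g) := fun j => by
          have := hmem (Sum.inr (j, 1))
          rwa [hg] at this ⊢
        have hc : ∀ c : F, algebraMap F K c ∈ Algebra.adjoin F (Set.range g) := fun c =>
          Subalgebra.algebraMap_mem _ c
        have h2 : ∀ j, (t (j, 2) : K) ∈ Algebra.adjoin F (Set.range g) := fun j => by
          rw [← (heq j).1]
          exact add_mem (mul_mem (hc _) (hu1 j)) (mul_mem (hc _) (hx _))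
        have h3 : ∀ j, (t (j, 3) : K) ∈ Algebra.adjoin F (Set.range g) := fun j => by
          rw [← (heq j).2.1]
          exact add_mem (mul_mem (hc _) (hx _)) (mul_mem (hc _) (hu2 j))
        have h6 : ∀ j, (t (j, 6) : K) ∈ Algebra.adjoin F (Set.range g) := fun j => by
          rw [← (heq j).2.2.1]
          exact add_mem (mul_mem (hc _) (h2 j)) (mul_mem (hc _) (h3 j))
        have h4 : ∀ j, (t (j, 4) : K) ∈ Algebra.adjoin F (Set.range g) := fun j => by
          rw [← (heq j).2.2.2.1]
          exact add_mem (mul_mem (hc _) (hu1 j)) (mul_mem (hc _) (neg_mem (hc _)))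
        have h5 : ∀ j, (t (j, 5) : K) ∈ Algebra.adjoin F (Set.range g) := fun j => by
          rw [← (heq j).2.2.2.2.1]
          exact add_mem (mul_mem (hc _) (neg_mem (pow_mem (hc _) 2))) (mul_mem (hc _) (hu2 j))
        have hall : ∀ i, un (Sum.elim y t) i ∈ Algebra.adjoin F (Set.range g) := by
          rintro (i | ⟨j, k⟩)
          · exact hx i
          · change (t (j, k) : K) ∈ _
            fin_cases k
            · exact hu1 j
            · exact hu2 j
            · exact h2 j
            · exact h3 j
            · exact h4 j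
            · exact h5 j
            · exact h6 j
        intro i
        exact isAlgebraic_algebraMap (A := K) (⟨_, hall i⟩ : Algebra.adjoin F (Set.range g))
  refine hmain2.fin _ fun K _ _ y => ?_
  have h1 : ∀ i : Fin M, aeval (un y)
      (X (Sum.inl i) + X (Sum.inr i) - 1 : MvPolynomial (Fin M ⊕ Fin M) F) =
      (y (Sum.inl i) : K) + (y (Sum.inr i) : K) - 1 := by
    intro i
    simp only [map_sub, map_add, aeval_X, map_one, un]
  constructor
  · intro h f hf
    refine Submodule.span_induction (p := fun f _ => aeval (un y) f = 0) ?_ ?_ ?_ ?_ hf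
    · rintro _ ⟨i, rfl⟩
      rw [h1, h i, sub_self]
    · exact map_zero _
    · intro a b _ _ ha hb
      rw [map_add, ha, hb, add_zero]
    · intro a b _ hb
      rw [smul_eq_mul, map_mul, hb, mul_zero]
  · intro h i
    have h2 := h _ (Ideal.subset_span ⟨i, rfl⟩)
    rw [h1] at h2
    exact sub_eq_zero.1 h2

end

end Pool.Agent.H74.ZP
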