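import Pool.Agent.H74.ZP.Gad

/-!
# From the graph of a Moebius map to a line: the theorem
-/

set_option autoImplicit false
set_option linter.unusedSectionVars false
set_option linter.style.haveILetI false

namespace Pool.Agent.H74.ZP

open Pool.Agent.R948

section

variable {F : Type} [Field F]

/-- the conditions of the gadget and of the lines -/
def GSat (α β γ δ : F) (om : Fˣ) {J : Type} (K : Type) [Field K] [Algebra F K] (X Y : J → Kˣ)
    (g : Fin 9 → Kˣ) (p : J → Kˣ) : Prop :=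
  (moeb α β γ δ K (g 2) (g 1) ∧ moeb α β γ δ K (g 3) (g 1 * (g 0)⁻¹) ∧
    moeb α β γ δ K (uo K om * g 3) (g 4) ∧ moeb α β γ δ K (uo K (-om⁻¹) * g 5) (g 0 * g 4) ∧
    moeb α β γ δ K (g 5) (g 6) ∧ moeb α β γ δ K (g 7) (g 6 * (g 0)⁻¹) ∧
    moeb α β γ δ K (uo K om * g 7) (g 8) ∧ moeb α β γ δ K (uo K (-om⁻¹) * g 2) (g 0 * g 8)) ∧
  (∀ j, moeb α β γ δ K (Y j) (p j)) ∧ ∀ j, moeb α β γ δ K ((X j)⁻¹) (g 0 * p j)

theorem gsat_sound [IsAlgClosed F] [CharZero F] {α β γ δ : F} (hdet : α * δ ≠ β * γ) (hdet2 : α * δ + β * γ ≠ 0) (om : Fˣ)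
    (hom : (om : F) ^ 2 ≠ 1) {J : Type} {K : Type} [Field K] [Algebra F K] {X Y : J → Kˣ}
    {g : Fin 9 → Kˣ} {p : J → Kˣ} (h : GSat α β γ δ om K X Y g p) (h25 : g 2 ≠ g 5)
    (h0 : (g 0 : K) * (algebraMap F K α * algebraMap F K δ) ≠
      algebraMap F K β * algebraMap F K γ) :
    (g 0 : K) * (algebraMap F K β * algebraMap F K γ) = algebraMap F K α * algebraMap F K δ ∧
    (∀ j, lin (α * β / (α * δ + β * γ)) (γ * δ / (α * δ + β * γ)) K (X j) (Y j)) := by
  obtain ⟨⟨a1, a2, a3, a4, a5, a6, a7, a8⟩, hY, hX⟩ := h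
  have hinj := (algebraMap F K).injective
  have hz : ∀ {c : F}, c ≠ 0 → algebraMap F K c ≠ 0 := fun hc => by
    rwa [Ne, map_eq_zero_iff _ hinj]
  have e0 : ∀ x : Kˣ, (g 0 : K) * ((x * (g 0)⁻¹ : Kˣ) : K) = x := by
    intro x
    rw [← Units.val_mul, mul_comm, mul_assoc, inv_mul_cancel, mul_one]
  have e1 : ∀ x : Kˣ, ((uo K (-om⁻¹) * x : Kˣ) : K) = - ((algebraMap F K (om : F))⁻¹ * x) := by
    intro x
    rw [val_scale]
    simp
  have homK : algebraMap F K (om : F) ≠ 0 := hz om.ne_zero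
  have r1 := rel_general (s := (g 0 : K)) (w := (g 3 : K)) (x := (g 2 : K)) a2.1 (by
    rw [e0]
    exact a1.1)
  have r2 := rel_general (s := (g 0 : K)) (w := ((uo K om * g 3 : Kˣ) : K))
    (x := ((uo K (-om⁻¹) * g 5 : Kˣ) : K)) a3.1 (by
      have := a4.1
      rwa [Units.val_mul (g 0)] at this)
  have r3 := rel_general (s := (g 0 : K)) (w := (g 7 : K)) (x := (g 5 : K)) a6.1 (by
    rw [e0]
    exact a5.1)
  have r4 := rel_general (s := (g 0 : K)) (w := ((uo K om * g 7 : Kˣ) : K))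
    (x := ((uo K (-om⁻¹) * g 2 : Kˣ) : K)) a7.1 (by
      have := a8.1
      rwa [Units.val_mul (g 0)] at this)
  rw [val_scale] at r2 r4
  have h1 := gadget r1 r2 r3 r4 (b := algebraMap F K (om : F)) (by
      rw [e1]
      field_simp) (by
      rw [e1]
      field_simp) (fun h => h25 (Units.ext h)) (fun h => hom (hinj (by
        rw [map_pow, map_one, h]))) homK
  have h2 : (g 0 : K) * (algebraMap F K β * algebraMap F K γ) =
      algebraMap F K α * algebraMap F K δ := by
    rcases mul_eq_zero.1 h1 with h3 | h3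
    · linear_combination (-1 : K) * h3
    · exfalso
      apply h0
      linear_combination h3
  refine ⟨h2, fun j => ⟨?_, mob_trans hdet (hY j)⟩⟩
  have hdetK : algebraMap F K α * algebraMap F K δ - algebraMap F K β * algebraMap F K γ ≠ 0 := by
    rw [← map_mul, ← map_mul, ← map_sub]
    exact hz (sub_ne_zero.2 hdet)
  have hdetK2 : algebraMap F K α * algebraMap F K δ + algebraMap F K β * algebraMap F K γ ≠ 0 := by
    rw [← map_mul, ← map_mul, ← map_add]
    exact hz hdet2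
  have h3 := rel_of_mob hdetK h2 (hY j).1 (by
    have := (hX j).1
    rwa [Units.val_mul] at this)
  have hX0 : (X j : K) ≠ 0 := (X j).ne_zero
  rw [Units.val_inv_eq_inv_val] at h3
  simp only [map_div₀, map_mul, map_add]
  field_simp
  field_simp at h3
  linear_combination h3

theorem gsat_mem [IsAlgClosed F] [CharZero F] {α β γ δ : F}
    (hβ : β ≠ 0) (hγ : γ ≠ 0) (hdet : α * δ ≠ β * γ) (om : Fˣ)
    {J : Type} {K : Type} [Field K] [Algebra F K] {X Y : J → Kˣ}
    {g : Fin 9 → Kˣ} {p : J → Kˣ} (h : GSat α β γ δ om K X Y g p)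
    (h0 : (g 0 : K) * (algebraMap F K β * algebraMap F K γ) =
      algebraMap F K α * algebraMap F K δ) (L : IntermediateField F K) (h2 : (g 2 : K) ∈ L)
    (hYL : ∀ j, (Y j : K) ∈ L) : (∀ i, (g i : K) ∈ L) ∧ ∀ j, (p j : K) ∈ L := by
  obtain ⟨⟨a1, a2, a3, a4, a5, a6, a7, a8⟩, hY, -⟩ := h
  have hinj := (algebraMap F K).injective
  have hz : ∀ {c : F}, c ≠ 0 → algebraMap F K c ≠ 0 := fun hc => by
    rwa [Ne, map_eq_zero_iff _ hinj]
  have hbg : algebraMap F K β * algebraMap F K γ ≠ 0 := mul_ne_zero (hz hβ) (hz hγ)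
  have hg0 : (g 0 : K) ∈ L := by
    have h3 : (g 0 : K) = (algebraMap F K α * algebraMap F K δ) /
      (algebraMap F K β * algebraMap F K γ) := by
      rw [eq_div_iff hbg, h0]
    rw [h3]
    exact div_mem (mul_mem (L.algebraMap_mem _) (L.algebraMap_mem _))
      (mul_mem (L.algebraMap_mem _) (L.algebraMap_mem _))
  have hdiv : ∀ {x : Kˣ}, (x : K) ∈ L → ((x * (g 0)⁻¹ : Kˣ) : K) ∈ L := by
    intro x hx
    rw [Units.val_mul, Units.val_inv_eq_inv_val]
    exact mul_mem hx (inv_mem hg0)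
  have hmul : ∀ {x : Kˣ}, (x : K) ∈ L → ((g 0 * x : Kˣ) : K) ∈ L := by
    intro x hx
    rw [Units.val_mul]
    exact mul_mem hg0 hx
  have hsc : ∀ (c : Fˣ) {x : Kˣ}, (x : K) ∈ L → ((uo K c * x : Kˣ) : K) ∈ L := by
    intro c x hx
    rw [val_scale]
    exact mul_mem (L.algebraMap_mem _) hx
  have hsc' : ∀ (c : Fˣ) {x : Kˣ}, ((uo K c * x : Kˣ) : K) ∈ L → (x : K) ∈ L := by
    intro c x hx
    have h3 := hsc c⁻¹ hx
    have h4 : uo K c⁻¹ * (uo K c * x) = x := by
      have h1 : uo K c⁻¹ = (uo K c)⁻¹ := by simp [uo]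
      rw [h1, inv_mul_cancel_left]
    rwa [h4] at h3
  have g1 := mob_mem' hdet a1 h2
  have g3 := mob_mem hdet a2 (hdiv g1)
  have g4 := mob_mem' hdet a3 (hsc om g3)
  have g5 := hsc' _ (mob_mem hdet a4 (hmul g4))
  have g6 := mob_mem' hdet a5 g5
  have g7 := mob_mem hdet a6 (hdiv g6)
  have g8 := mob_mem' hdet a7 (hsc om g7)
  refine ⟨fun i => ?_, fun j => mob_mem' hdet (hY j) (hYL j)⟩
  fin_cases i
  · exact hg0
  · exact g1
  · exact h2
  · exact g3
  · exact g4
  · exact g5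
  · exact g6
  · exact g7
  · exact g8

/-- the gadget can be solved -/
theorem gsat_lift [IsAlgClosed F] [CharZero F] {α β γ δ : F} (hα : α ≠ 0) (hβ : β ≠ 0)
    (hγ : γ ≠ 0) (hδ : δ ≠ 0) (hdet : α * δ ≠ β * γ) (hdet2 : α * δ + β * γ ≠ 0) (om : Fˣ)
    (hom : (om : F) ≠ 1) {J : Type} {K : Type} [Field K] [Algebra F K] {X Y : J → Kˣ}
    (h : ∀ j, lin (α * β / (α * δ + β * γ)) (γ * δ / (α * δ + β * γ)) K (X j) (Y j))
    (x : Kˣ) (hx : Transcendental F (x : K)) :
    ∃ (g : Fin 9 → Kˣ) (p : J → Kˣ), GSat α β γ δ om K X Y g p ∧ g 2 = x ∧ g 2 ≠ g 5 ∧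
      (g 0 : K) * (algebraMap F K α * algebraMap F K δ) ≠
      algebraMap F K β * algebraMap F K γ := by
  have hinj := (algebraMap F K).injective
  have hz : ∀ {c : F}, c ≠ 0 → algebraMap F K c ≠ 0 := fun hc => by
    rwa [Ne, map_eq_zero_iff _ hinj]
  have hl : β * γ ≠ 0 := mul_ne_zero hβ hγ
  have hk : α * δ ≠ 0 := mul_ne_zero hα hδ
  have hb0 : (om : F) ≠ 0 := om.ne_zero
  obtain ⟨σ, hσ⟩ : ∃ σ : Fˣ, (σ : F) = α * δ / (β * γ) := ⟨Units.mk0 _ (div_ne_zero hk hl), rfl⟩
  have hσ1 : (σ : F) * (β * γ) = α * δ := by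
    rw [hσ, div_mul_cancel₀ _ hl]
  have hσK : algebraMap F K (σ : F) * (algebraMap F K β * algebraMap F K γ) =
      algebraMap F K α * algebraMap F K δ := by
    rw [← map_mul, ← map_mul, hσ1, map_mul]
  obtain ⟨x₂, h2, hx₂⟩ := exists_mob (-(om * (α * β))) 0 ((1 - om) * (α * δ + β * γ))
    (om * (α * β)) (by
      rw [zero_mul]
      exact mul_ne_zero (neg_ne_zero.2 (mul_ne_zero hb0 (mul_ne_zero hα hβ)))
        (mul_ne_zero hb0 (mul_ne_zero hα hβ))) hx
  have e1 : ∀ x : Kˣ, ((uo K (-om⁻¹) * x : Kˣ) : K) = - ((algebraMap F K (om : F))⁻¹ * x) := by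
    intro x
    rw [val_scale]
    simp
  have homK : algebraMap F K (om : F) ≠ 0 := hz hb0
  simp only [map_mul, map_add, map_sub, map_one, map_neg, map_zero] at h2
  obtain ⟨p1, w1, q1, b1, b2, b3, b4⟩ := half hα hβ hγ hδ hdet σ om hσ1 (x := x)
    (y := uo K (-om⁻¹) * x₂) hx (by
      rw [e1]
      simp only [map_mul, map_add, map_sub, map_one]
      field_simp
      linear_combination (-1 : K) * h2)
  obtain ⟨p2, w2, q2, b5, b6, b7, b8⟩ := half hα hβ hγ hδ hdet σ om hσ1 (x := x₂)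
    (y := uo K (-om⁻¹) * x) hx₂ (by
      rw [e1]
      simp only [map_mul, map_add, map_sub, map_one]
      field_simp
      linear_combination (-1 : K) * h2)
  have hp : ∀ j, ∃ p : Kˣ, moeb α β γ δ K (Y j) p := fun j => exists_arg hdet (h j).2
  choose p hp using hp
  refine ⟨![uo K σ, p1, x, w1, q1, x₂, p2, w2, q2], p, ⟨⟨b1, b2, b3, b4, b5, b6, b7, b8⟩, hp,
    fun j => ⟨?_, trans_tm_scale (hp j).2 σ⟩⟩, rfl, ?_, ?_⟩
  · change (((X j)⁻¹ : Kˣ) : K) * (algebraMap F K γ - algebraMap F K δ *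
      ((uo K σ * p j : Kˣ) : K)) = algebraMap F K α - algebraMap F K β *
      ((uo K σ * p j : Kˣ) : K)
    rw [val_scale]
    have hne : algebraMap F K δ * (Y j : K) - algebraMap F K β ≠ 0 := by
      intro h0
      refine lin_ne (c := δ) (d := -β) (h j).2 (Or.inl hδ) ?_
      rw [map_neg]
      linear_combination h0
    refine mob_of_rel (mul_ne_zero (hz hβ) (hz hγ)) hσK hne (hp j).1 ?_
    have h3 := (h j).1
    have hX0 : (X j : K) ≠ 0 := (X j).ne_zero
    have hdetK2 : algebraMap F K α * algebraMap F K δ + algebraMap F K β * algebraMap F K γ ≠ 0 := by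
      rw [← map_mul, ← map_mul, ← map_add]
      exact hz hdet2
    simp only [map_div₀, map_mul, map_add] at h3
    rw [Units.val_inv_eq_inv_val]
    field_simp at h3
    field_simp
    linear_combination h3
  · change x ≠ x₂
    rintro rfl
    have h4 : (x : K) * (algebraMap F K ((1 - om) * (α * δ + β * γ)) * (x : K) +
        algebraMap F K (2 * (om * (α * β)))) = 0 := by
      simp only [map_mul, map_add, map_sub, map_one, map_ofNat]
      linear_combination h2
    rcases mul_eq_zero.1 h4 with h5 | h5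
    · exact x.ne_zero h5
    · exact lin_ne hx (Or.inl (mul_ne_zero (sub_ne_zero.2 hom.symm) hdet2)) h5
  · change ((uo K σ : Kˣ) : K) * (algebraMap F K α * algebraMap F K δ) ≠ _
    rw [val_uo, ← map_mul, ← map_mul, ← map_mul]
    intro h3
    have h4 := hinj h3
    rw [hσ, div_mul_eq_mul_div, div_eq_iff hl] at h4
    have h5 : (α * δ - β * γ) * (α * δ + β * γ) = 0 := by linear_combination h4
    rcases mul_eq_zero.1 h5 with h6 | h6
    · exact hdet (sub_eq_zero.1 h6)
    · exact hdet2 h6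

theorem mon_sub' {G κ : Type} [CommGroup G] [Fintype κ] (z : κ → G) (a b : κ → ℤ) :
    mon z (a - b) = mon z a * (mon z b)⁻¹ := by
  rw [sub_eq_add_neg, mon_add, mon_neg]

theorem lin_up {K K' : Type} [Field K] [Algebra F K] [Field K'] [Algebra F K'] [Algebra K K']
    [IsScalarTower F K K'] {α β : F} {X Y : Kˣ} (h : lin α β K X Y) :
    lin α β K' (Units.map (algebraMap K K').toMonoidHom X)
      (Units.map (algebraMap K K').toMonoidHom Y) := by
  refine ⟨?_, (transcendental_algebraMap_iff (algebraMap K K').injective).2 h.2⟩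
  have h1 := congrArg (algebraMap K K') h.1
  rw [map_add, map_mul, map_mul, map_one, ← IsScalarTower.algebraMap_apply,
    ← IsScalarTower.algebraMap_apply] at h1
  exact h1

/-- **From the graph of a Moebius map to a line.** -/
theorem U_lin_of_moeb [IsAlgClosed F] [CharZero F] {α β γ δ : F} (hα : α ≠ 0) (hβ : β ≠ 0)
    (hγ : γ ≠ 0) (hδ : δ ≠ 0) (hdet : α * δ ≠ β * γ) (hdet2 : α * δ + β * γ ≠ 0)
    (h : U (moeb α β γ δ)) : U (lin (α * β / (α * δ + β * γ)) (γ * δ / (α * δ + β * γ))) := by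
  classical
  obtain ⟨om, homt, hom, hom1, -⟩ := exists_omega F
  intro ι J _ _ t s m n ht hs
  obtain ⟨τ, hτ⟩ : ∃ τ : Fˣ, (τ : F) = β * γ / (α * δ) :=
    ⟨Units.mk0 _ (div_ne_zero (mul_ne_zero hβ hγ) (mul_ne_zero hα hδ)), rfl⟩
  have hmain := h (ι ⊕ (Fin 9 ⊕ J)) (Fin 8 ⊕ (J ⊕ J))
    (Sum.elim (fun a => (valG J om a).1) (Sum.elim s (fun j => (t j)⁻¹)))
    (Sum.elim (fun _ => 1) (Sum.elim (fun _ => 1) (fun _ => 1)))
    (Sum.elim (fun a => Sum.elim 0 (valG J om a).2)
      (Sum.elim (fun j => Sum.elim (n j) 0) (fun j => Sum.elim (-(m j)) 0)))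
    (Sum.elim (fun a => Sum.elim 0 (argG J a))
      (Sum.elim (fun j => Sum.elim 0 (Pi.single (Sum.inr j) 1))
        (fun j => Sum.elim 0 (Pi.single (Sum.inl 0) 1 + Pi.single (Sum.inr j) 1))))
    (by
      rintro (a | j | j)
      · change Tor (valG J om a).1
        fin_cases a
        · exact tor_one
        · exact tor_one
        · exact homt
        · exact homt.inv.neg
        · exact tor_one
        · exact tor_one
        · exact homt
        · exact homt.inv.neg
      · exact hs j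
      · exact (ht j).inv)
    (by
      rintro (a | j | j)
      · exact tor_one
      · exact tor_one
      · exact tor_one)
  -- the equations
  have key : ∀ (K : Type) [Field K] [Algebra F K] (y : ι → Kˣ) (r : Fin 9 ⊕ J → Kˣ),
      (∀ a : Fin 8 ⊕ (J ⊕ J), moeb α β γ δ K
        (tm K ((Sum.elim (fun a => (valG J om a).1) (Sum.elim s (fun j => (t j)⁻¹)) :
            Fin 8 ⊕ (J ⊕ J) → Fˣ) a)
          ((Sum.elim (fun a => Sum.elim 0 (valG J om a).2)
            (Sum.elim (fun j => Sum.elim (n j) 0) (fun j => Sum.elim (-(m j)) 0)) :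
            Fin 8 ⊕ (J ⊕ J) → ι ⊕ (Fin 9 ⊕ J) → ℤ) a) (Sum.elim y r))
        (tm K ((Sum.elim (fun _ => 1) (Sum.elim (fun _ => 1) (fun _ => 1)) :
            Fin 8 ⊕ (J ⊕ J) → Fˣ) a)
          ((Sum.elim (fun a => Sum.elim 0 (argG J a))
            (Sum.elim (fun j => Sum.elim 0 (Pi.single (Sum.inr j) 1))
              (fun j => Sum.elim 0 (Pi.single (Sum.inl 0) 1 + Pi.single (Sum.inr j) 1))) :
            Fin 8 ⊕ (J ⊕ J) → ι ⊕ (Fin 9 ⊕ J) → ℤ) a) (Sum.elim y r))) ↔
      GSat α β γ δ om K (fun j => tm K (t j) (m j) y) (fun j => tm K (s j) (n j) y)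
        (fun i => r (Sum.inl i)) (fun j => r (Sum.inr j)) := by
    intro K _ _ y r
    have e1 : ∀ (c : Fˣ) (a : Fin 9 ⊕ J → ℤ), tm K c (Sum.elim 0 a) (Sum.elim y r) =
        uo K c * mon r a := by
      intro c a
      rw [tm_elim, tm_zero]
    have e2 : ∀ (c : Fˣ) (a : ι → ℤ), tm K c (Sum.elim a 0) (Sum.elim y r) = tm K c a y := by
      intro c a
      rw [tm_elim, mon_zero, mul_one]
    rw [Sum.forall, Sum.forall]
    simp only [Sum.elim_inl, Sum.elim_inr, e1, e2, uo_one, one_mul, tm_inv, mon_add, mon_single]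
    refine and_congr ?_ Iff.rfl
    rw [Fin.forall_fin_succ, Fin.forall_fin_succ, Fin.forall_fin_succ, Fin.forall_fin_succ,
      Fin.forall_fin_succ, Fin.forall_fin_succ, Fin.forall_fin_succ, Fin.forall_fin_succ]
    simp only [valG, argG, Matrix.cons_val_zero, Matrix.cons_val_succ, Matrix.cons_val_fin_one,
      mon_add, mon_sub', mon_single, uo_one, one_mul]
    constructor
    · rintro ⟨a1, a2, a3, a4, a5, a6, a7, a8, -⟩
      exact ⟨a1, a2, a3, a4, a5, a6, a7, a8⟩
    · rintro ⟨a1, a2, a3, a4, a5, a6, a7, a8⟩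
      exact ⟨a1, a2, a3, a4, a5, a6, a7, a8, fun i => i.elim0⟩
  have hmain2 := hmain.and (Ψ := fun K _ _ y => y (Sum.inr (Sum.inl 2)) ≠ y (Sum.inr (Sum.inl 5)) ∧
    y (Sum.inr (Sum.inl 0)) ≠ uo K τ) (by
      intro K _ _ y K₁ _ _ z _ _ hzy hy
      refine ⟨fun h1 => hy.1 ?_, fun h1 => hy.2 ?_⟩
      · have h2 := spec_tm (t := (1 : Fˣ)) (s := (1 : Fˣ)) (m := Pi.single (Sum.inr (Sum.inl 2)) 1)
          (n := Pi.single (Sum.inr (Sum.inl 5)) 1) hzy (by rw [tm_one_single, tm_one_single, h1])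
        rwa [tm_one_single, tm_one_single] at h2
      · have h2 := spec_tm (t := (1 : Fˣ)) (s := τ) (m := Pi.single (Sum.inr (Sum.inl 0)) 1)
          (n := 0) hzy (by rw [tm_one_single, tm_zero, h1])
        rwa [tm_one_single, tm_zero] at h2)
  have hτK : ∀ {K : Type} [Field K] [Algebra F K] (g : Kˣ),
      (g : K) * (algebraMap F K α * algebraMap F K δ) ≠ algebraMap F K β * algebraMap F K γ ↔
        g ≠ uo K τ := by
    intro K _ _ g
    have hk : algebraMap F K α * algebraMap F K δ ≠ 0 := by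
      rw [← map_mul, Ne, map_eq_zero_iff _ (algebraMap F K).injective]
      exact mul_ne_zero hα hδ
    refine not_congr ⟨fun h1 => Units.ext ?_, fun h1 => ?_⟩
    · rw [val_uo, hτ, map_div₀, map_mul, map_mul, eq_div_iff hk, h1]
    · rw [h1, val_uo, hτ, map_div₀, map_mul, map_mul, div_mul_cancel₀ _ hk]
  refine hmain2.proj (f := Fintype.card (Fin 1)) ?_ ?_
  · intro K _ _ y hy
    obtain ⟨K', hK'⟩ : ∃ K' : Type, K' = FractionRing (MvPolynomial (Fin 1) K) := ⟨_, rfl⟩
    have hind : AlgebraicIndependent K (fun a : Fin 1 =>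
        algebraMap (MvPolynomial (Fin 1) K)
            (FractionRing (MvPolynomial (Fin 1) K)) (MvPolynomial.X a)) := by
      have h1 := MvPolynomial.algebraicIndependent_X (Fin 1) K
      have h2 := h1.map' (f := IsScalarTower.toAlgHom K (MvPolynomial (Fin 1) K)
        (FractionRing (MvPolynomial (Fin 1) K))) (IsFractionRing.injective _ _)
      exact h2
    obtain ⟨_, _, _, hst, u, hind⟩ : ∃ (_ : Field K') (_ : Algebra F K')
        (_ : Algebra K K') (_ : IsScalarTower F K K') (u : Fin 1 → K'),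
        AlgebraicIndependent K u := by
      subst hK'
      exact ⟨inferInstance, inferInstance, inferInstance, inferInstance, _, hind⟩
    have hut : Transcendental K (u 0) := hind.transcendental 0
    have hut' : Transcendental F (u 0) := hut.restrictScalars (algebraMap F K).injective
    have hu0 : u 0 ≠ 0 := by
      intro h0
      apply hut'
      rw [h0]
      exact isAlgebraic_zero
    obtain ⟨g, p, h1, h2, h3, h4⟩ := gsat_lift (K := K') (J := J)
      (X := fun j => tm K' (t j) (m j) (up K' y)) (Y := fun j => tm K' (s j) (n j) (up K' y))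
      hα hβ hγ hδ hdet hdet2 om hom1 (fun j => by
        rw [tm_up, tm_up]
        exact lin_up (hy j)) (Units.mk0 (u 0) hu0) hut'
    refine ⟨K', inferInstance, inferInstance, up K' y, Sum.elim g p,
      ⟨(key K' (up K' y) (Sum.elim g p)).2 h1, h3, (hτK (g 0)).1 h4⟩, spec_up y, spec_up' y, ?_⟩
    have h5 := td_add_le (F := F) (k := K) (K := K') u (un y)
    have h6 := card_le_td hind
    have h7 := (spec_up (K' := K') y : Spec F y (up K' y)).td_le
    have h8 : td F (Sum.elim u (fun j => algebraMap K K' (un y j))) ≤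
        td F (un (Sum.elim (up K' y) (Sum.elim g p))) := by
      refine td_le_of_alg F ?_
      rintro (i | i)
      · have h9 : u i = un (Sum.elim (up K' y) (Sum.elim g p)) (Sum.inr (Sum.inl 2)) := by
          change u i = (g 2 : K')
          rw [h2, Subsingleton.elim i 0]
          rfl
        rw [Sum.elim_inl, h9]
        exact alg_of_range _ _
      · exact alg_of_range (un (Sum.elim (up K' y) (Sum.elim g p))) (Sum.inl i)
    omega
  · intro K _ _ y r hyr
    obtain ⟨h1, h2, h3⟩ := hyr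
    have h4 := (key K y r).1 h1
    obtain ⟨h5, h6⟩ := gsat_sound hdet hdet2 om hom h4 h2 ((hτK _).2 h3)
    refine ⟨h6, ?_⟩
    refine le_trans ?_ (td_sum_le (un y) (fun _ : Fin 1 => (r (Sum.inl 2) : K)))
    refine td_le_of_mem ?_
    have hyL : ∀ i, (y i : K) ∈ IntermediateField.adjoin F
        (Set.range (Sum.elim (un y) (fun _ : Fin 1 => (r (Sum.inl 2) : K)))) := fun i =>
      IntermediateField.subset_adjoin F _ ⟨Sum.inl i, rfl⟩
    obtain ⟨h7, h8⟩ := gsat_mem hβ hγ hdet om h4 h5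
      (IntermediateField.adjoin F
        (Set.range (Sum.elim (un y) (fun _ : Fin 1 => (r (Sum.inl 2) : K)))))
      (IntermediateField.subset_adjoin F _ ⟨Sum.inr 0, rfl⟩) (fun j => mem_tm y hyL _ _)
    rintro (i | i | j)
    · exact hyL i
    · exact h7 i
    · exact h8 j

end

end Pool.Agent.H74.ZP
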