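import Pool.Agent.H74.ZP.MLin
import Pool.Agent.H74.ZP.Fin

/-!
# Polynomials whose extreme coefficients have different products of roots
-/

set_option autoImplicit false
set_option linter.unusedSectionVars false
set_option linter.style.haveILetI false

namespace Pool.Agent.H74.ZP

open Polynomial Pool.Agent.R948

section

variable {F : Type} [Field F]

/-- from the graph of a Moebius map to a line -/
theorem exists_lin_of_moeb [IsAlgClosed F] [CharZero F] {α β γ δ : F} (hα : α ≠ 0) (hβ : β ≠ 0)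
    (hγ : γ ≠ 0) (hδ : δ ≠ 0) (hdet : α * δ ≠ β * γ) (h : U (moeb α β γ δ)) :
    ∃ α' β' : F, α' ≠ 0 ∧ β' ≠ 0 ∧ U (lin α' β') := by
  by_cases hdet2 : α * δ + β * γ = 0
  · obtain ⟨om, homt, hom, hom1, hom4⟩ := exists_omega F
    have hk : α * δ = -(β * γ) := by linear_combination hdet2
    obtain ⟨u, hu, hu4⟩ : ∃ u : Fˣ, Tor u ∧ (u : F) ^ 4 * β ^ 4 ≠ γ ^ 4 := by
      by_cases h1 : β ^ 4 = γ ^ 4
      · refine ⟨om, homt, fun h2 => ?_⟩
        rw [← h1] at h2
        refine hom4 (mul_right_cancel₀ (pow_ne_zero 4 hβ) ?_)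
        rw [h2, one_mul]
      · refine ⟨1, tor_one, fun h2 => h1 ?_⟩
        rw [Units.val_one, one_pow, one_mul] at h2
        exact h2
    have hfac : (γ - u * β) * (γ + u * β) * (γ ^ 2 + (u : F) ^ 2 * β ^ 2) ≠ 0 := by
      intro h1
      apply hu4
      linear_combination (-1 : F) * h1
    have h1 : γ - u * β ≠ 0 := fun h => hfac (by rw [h]; ring)
    have h2 : γ + u * β ≠ 0 := fun h => hfac (by rw [h]; ring)
    have h3 : γ ^ 2 + (u : F) ^ 2 * β ^ 2 ≠ 0 := fun h => hfac (by rw [h]; ring)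
    have h4 := U_moeb_comp hdet u hu h
    have e1 : α * (γ - u * β) ≠ 0 := mul_ne_zero hα h1
    have e2 : α * δ - u * β ^ 2 ≠ 0 := by
      intro h5
      refine mul_ne_zero hβ h2 ?_
      linear_combination hk - h5
    have e3 : γ ^ 2 - u * (α * δ) ≠ 0 := by
      intro h5
      refine mul_ne_zero hγ h2 ?_
      linear_combination h5 + u * hk
    have e4 : δ * (γ - u * β) ≠ 0 := mul_ne_zero hδ h1
    have e5 : α * (γ - u * β) * (δ * (γ - u * β)) ≠
        (α * δ - u * β ^ 2) * (γ ^ 2 - u * (α * δ)) := by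
      intro h5
      have h6 : (u : F) * (α * δ - β * γ) ^ 2 ≠ 0 :=
        mul_ne_zero u.ne_zero (pow_ne_zero 2 (sub_ne_zero.2 hdet))
      apply h6
      linear_combination h5
    have e6 : α * (γ - u * β) * (δ * (γ - u * β)) +
        (α * δ - u * β ^ 2) * (γ ^ 2 - u * (α * δ)) ≠ 0 := by
      intro h5
      have h6 : 2 * (α * δ) * (γ ^ 2 + (u : F) ^ 2 * β ^ 2) ≠ 0 :=
        mul_ne_zero (mul_ne_zero two_ne_zero (mul_ne_zero hα hδ)) h3
      apply h6
      linear_combination h5 + (u : F) * (α * δ + β * γ) * hdet2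
    exact ⟨_, _, div_ne_zero (mul_ne_zero e1 e2) e6, div_ne_zero (mul_ne_zero e3 e4) e6,
      U_lin_of_moeb e1 e2 e3 e4 e5 e6 h4⟩
  · exact ⟨_, _, div_ne_zero (mul_ne_zero hα hβ) hdet2, div_ne_zero (mul_ne_zero hγ hδ) hdet2,
      U_lin_of_moeb hα hβ hγ hδ hdet hdet2 h⟩

theorem exists_red {A B : F[X]} (hA : A ≠ 0) (hB : B ≠ 0) :
    ∃ (g A₁ B₁ : F[X]) (i j : ℕ), A = g * (X ^ i * A₁) ∧ B = g * (X ^ j * B₁) ∧ g ≠ 0 ∧
      IsCoprime A₁ B₁ ∧ A₁.coeff 0 ≠ 0 ∧ B₁.coeff 0 ≠ 0 := by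
  classical
  have key : ∀ A : F[X], A ≠ 0 → ∃ (i : ℕ) (A₀ : F[X]), A = X ^ i * A₀ ∧ A₀.coeff 0 ≠ 0 := by
    intro A hA
    obtain ⟨q, hq, hq2⟩ := exists_eq_pow_rootMultiplicity_mul_and_not_dvd A hA 0
    refine ⟨_, q, by simpa using hq, fun h0 => hq2 ?_⟩
    rw [C_0, sub_zero]
    exact X_dvd_iff.2 h0
  obtain ⟨i, A₀, hA1, hA2⟩ := key A hA
  obtain ⟨j, B₀, hB1, hB2⟩ := key B hB
  have hA0 : A₀ ≠ 0 := by
    rintro rfl
    exact hA2 rfl
  obtain ⟨A₁, hA₁⟩ := EuclideanDomain.gcd_dvd_left A₀ B₀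
  obtain ⟨B₁, hB₁⟩ := EuclideanDomain.gcd_dvd_right A₀ B₀
  obtain ⟨g, hg⟩ : ∃ g, g = EuclideanDomain.gcd A₀ B₀ := ⟨_, rfl⟩
  have hg0 : g ≠ 0 := by
    rintro rfl
    rw [← hg, zero_mul] at hA₁
    exact hA0 hA₁
  have hcop : IsCoprime A₁ B₁ := by
    obtain ⟨s, t, h1⟩ : ∃ s t, g = A₀ * s + B₀ * t :=
      ⟨_, _, hg.trans (EuclideanDomain.gcd_eq_gcd_ab A₀ B₀)⟩
    rw [← hg] at hA₁ hB₁
    refine ⟨s, t, mul_left_cancel₀ hg0 ?_⟩
    linear_combination (-1 : F[X]) * h1 + s * (-hA₁) + t * (-hB₁)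
  rw [← hg] at hA₁ hB₁
  refine ⟨g, A₁, B₁, i, j, ?_, ?_, hg0, hcop, fun h0 => ?_, fun h0 => ?_⟩
  · rw [hA1, hA₁]
    ring
  · rw [hB1, hB₁]
    ring
  · rw [hA₁, mul_coeff_zero, h0, mul_zero] at hA2
    exact hA2 rfl
  · rw [hB₁, mul_coeff_zero, h0, mul_zero] at hB2
    exact hB2 rfl

theorem trailingCoeff_of_ne {A : F[X]} (hA : A.coeff 0 ≠ 0) : A.trailingCoeff = A.coeff 0 := by
  rw [trailingCoeff, natTrailingDegree_eq_zero.2 (Or.inr hA)]

theorem len_of_ne {A : F[X]} (hA : A.coeff 0 ≠ 0) : len A = A.natDegree := by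
  rw [len, natTrailingDegree_eq_zero.2 (Or.inr hA)]
  simp

theorem len_X_pow (i : ℕ) : len (X ^ i : F[X]) = 0 := by
  rw [len, natDegree_X_pow, natTrailingDegree_X_pow]
  simp

theorem cur_pencil' [IsAlgClosed F] {g A₁ B₁ : F[X]} {i j : ℕ} (hg : g ≠ 0)
    (hcop : IsCoprime A₁ B₁) (hnp : ∀ ξ : F, A₁ ≠ C ξ * B₁)
    (K : Type) [Field K] [Algebra F K] (x r : Kˣ) :
    cur (pencil A₁ B₁) K x r ↔ rat (g * (X ^ i * A₁)) (g * (X ^ j * B₁)) K
      (x ^ ((i : ℤ) - j) * r ^ (1 : ℤ)) (x ^ (1 : ℤ) * r ^ (0 : ℤ)) := by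
  rw [zpow_one, zpow_one, zpow_zero, mul_one]
  have h1 : Transcendental F (x : K) → (aeval (x : K) A₁ - (r : K) * aeval (x : K) B₁ = 0 ↔
      ((x ^ ((i : ℤ) - j) * r : Kˣ) : K) * aeval (x : K) (g * (X ^ j * B₁)) =
        aeval (x : K) (g * (X ^ i * A₁))) := by
    intro hx
    have hgx := aeval_ne_zero hx hg
    have hx0 : (x : K) ≠ 0 := x.ne_zero
    have h2 : ((x ^ ((i : ℤ) - j) * r : Kˣ) : K) * (x : K) ^ j = (x : K) ^ i * r := by
      have h3 : x ^ ((i : ℤ) - j) * x ^ j = x ^ i := by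
        rw [← zpow_natCast, ← zpow_natCast, ← zpow_add]
        congr 1
        ring
      have h4 : (x ^ ((i : ℤ) - j) * r) * x ^ j = x ^ i * r := by
        rw [mul_right_comm, h3]
      have h5 := congrArg Units.val h4
      rw [Units.val_mul, Units.val_pow_eq_pow_val] at h5
      rw [h5, Units.val_mul, Units.val_pow_eq_pow_val]
    simp only [map_mul, map_pow, aeval_X]
    constructor
    · intro h
      linear_combination (aeval (x : K) g * aeval (x : K) B₁) * h2 -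
        (aeval (x : K) g * (x : K) ^ i) * h
    · intro h
      have h3 : (aeval (x : K) g * (x : K) ^ i) *
          (aeval (x : K) A₁ - (r : K) * aeval (x : K) B₁) = 0 := by
        linear_combination (aeval (x : K) g * aeval (x : K) B₁) * h2 - h
      exact (mul_eq_zero.1 h3).resolve_left (mul_ne_zero hgx (pow_ne_zero _ hx0))
  rw [cur, rat, IsRoot, eval_spc_pencil]
  constructor
  · rintro ⟨h2, h3⟩
    have hx : Transcendental F (x : K) := by
      intro hx
      obtain ⟨ξ, hξ⟩ := mem_range_of_integral hx.isIntegral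
      have e : ∀ A : F[X], aeval (x : K) A = algebraMap F K (A.eval ξ) := by
        intro A
        rw [hξ, aeval_algebraMap_apply, coe_aeval_eq_eval]
      rw [e, e] at h2
      by_cases hB : B₁.eval ξ = 0
      · rw [hB, map_zero, mul_zero, sub_zero, map_eq_zero_iff _ (algebraMap F K).injective] at h2
        obtain ⟨a, b, hab⟩ := hcop
        have h4 := congrArg (eval ξ) hab
        rw [eval_add, eval_mul, eval_mul, h2, hB] at h4
        simp at h4
      · apply h3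
        have h4 : (r : K) = algebraMap F K (A₁.eval ξ / B₁.eval ξ) := by
          rw [map_div₀, eq_div_iff (by
            rwa [Ne, map_eq_zero_iff _ (algebraMap F K).injective])]
          exact (sub_eq_zero.1 h2).symm
        rw [h4]
        exact isAlgebraic_algebraMap _
    exact ⟨(h1 hx).1 h2, hx⟩
  · rintro ⟨h2, hx⟩
    have h3 := (h1 hx).2 h2
    refine ⟨h3, ?_⟩
    intro hr
    obtain ⟨ξ, hξ⟩ := mem_range_of_integral hr.isIntegral
    have h4 : aeval (x : K) (A₁ - C ξ * B₁) = 0 := by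
      rw [map_sub, map_mul, aeval_C, ← hξ]
      exact h3
    have h5 : A₁ - C ξ * B₁ = 0 := by
      by_contra h6
      exact aeval_ne_zero hx h6 h4
    exact hnp ξ (sub_eq_zero.1 h5)

/-- **From a quotient of polynomials with different products of roots to a line.** -/
theorem exists_lin' [IsAlgClosed F] [CharZero F] {A B : F[X]} (hA : A ≠ 0) (hB : B ≠ 0)
    (h : len A = len B)
    (hχ : A.leadingCoeff * B.trailingCoeff ≠ A.trailingCoeff * B.leadingCoeff)
    (hU : U (rat A B)) : ∃ α β : F, α ≠ 0 ∧ β ≠ 0 ∧ U (lin α β) := by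
  obtain ⟨g, A₁, B₁, i, j, rfl, rfl, hg, hcop, hA0, hB0⟩ := exists_red hA hB
  have hA₁ : A₁ ≠ 0 := by
    rintro rfl
    exact hA0 rfl
  have hB₁ : B₁ ≠ 0 := by
    rintro rfl
    exact hB0 rfl
  have hX : (X : F[X]) ≠ 0 := X_ne_zero
  have hdeg : A₁.natDegree = B₁.natDegree := by
    rw [len_mul hg (mul_ne_zero (pow_ne_zero _ hX) hA₁),
      len_mul hg (mul_ne_zero (pow_ne_zero _ hX) hB₁), len_mul (pow_ne_zero _ hX) hA₁,
      len_mul (pow_ne_zero _ hX) hB₁, len_X_pow, len_X_pow, len_of_ne hA0, len_of_ne hB0] at h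
    omega
  have htX : ∀ i : ℕ, (X ^ i : F[X]).trailingCoeff = 1 := by
    intro i
    rw [trailingCoeff, natTrailingDegree_X_pow, coeff_X_pow_self]
  have hχ₁ : A₁.leadingCoeff * B₁.coeff 0 ≠ A₁.coeff 0 * B₁.leadingCoeff := by
    intro h1
    apply hχ
    rw [leadingCoeff_mul, leadingCoeff_mul, leadingCoeff_mul, leadingCoeff_mul,
      trailingCoeff_mul, trailingCoeff_mul, trailingCoeff_mul, trailingCoeff_mul, htX, htX,
      leadingCoeff_X_pow, leadingCoeff_X_pow, trailingCoeff_of_ne hA0, trailingCoeff_of_ne hB0]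
    linear_combination (g.leadingCoeff * g.trailingCoeff) * h1
  have hnp : ∀ ξ : F, A₁ ≠ C ξ * B₁ := by
    intro ξ h1
    apply hχ₁
    rw [h1, leadingCoeff_mul, leadingCoeff_C, coeff_C_mul]
    ring
  have hpos : 0 < A₁.natDegree := by
    by_contra h0
    have h1 : A₁.natDegree = 0 := by omega
    apply hχ₁
    rw [leadingCoeff, leadingCoeff, ← hdeg, h1]
  have h1 : U (cur (pencil A₁ B₁)) := hU.pull ((i : ℤ) - j) 1 1 0
    (fun K _ _ x y => cur_pencil' hg hcop hnp K x y)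
  have hnd : (pencil A₁ B₁).natDegree = A₁.natDegree := by
    refine le_antisymm ?_ ?_
    · rw [natDegree_le_iff_coeff_eq_zero]
      intro N hN
      rw [pencil_coeff, coeff_eq_zero_of_natDegree_lt hN,
        coeff_eq_zero_of_natDegree_lt (hdeg ▸ hN)]
      simp
    · exact le_natDegree_of_ne_zero (pencil_coeff_ne (Or.inl (leadingCoeff_ne_zero.2 hA₁)))
  have h2 := U_nor (pencil_irreducible hcop hB₁) (by rw [hnd]; exact hpos)
    (pencil_coeff_ne (Or.inl hA0)) h1
  obtain ⟨e, he⟩ : ∃ e, e = A₁.natDegree := ⟨_, rfl⟩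
  have hs : ((-1 : F) ^ e) ≠ 0 := pow_ne_zero _ (by simp)
  refine exists_lin_of_moeb (α := (-1) ^ e * A₁.coeff 0) (β := (-1) ^ e * B₁.coeff 0)
    (γ := A₁.leadingCoeff) (δ := B₁.leadingCoeff) (mul_ne_zero hs hA0) (mul_ne_zero hs hB0)
    (leadingCoeff_ne_zero.2 hA₁) (leadingCoeff_ne_zero.2 hB₁) ?_ ?_
  · intro h3
    apply hχ₁
    refine mul_left_cancel₀ hs ?_
    linear_combination (-1 : F) * h3
  · refine h2.pull 1 0 0 1 fun K _ _ x y => ?_
    rw [zpow_one, zpow_one, zpow_zero, zpow_zero, one_mul, mul_one, moeb, nor]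
    refine and_congr_left fun _ => ?_
    have e1 : aeval (y : K) (pencil A₁ B₁).leadingCoeff =
        algebraMap F K A₁.leadingCoeff - algebraMap F K B₁.leadingCoeff * (y : K) := by
      rw [leadingCoeff, hnd, pencil_coeff, map_sub, map_mul, aeval_C, aeval_C, aeval_X,
        leadingCoeff, leadingCoeff, ← hdeg]
      ring
    have e2 : aeval (y : K) ((pencil A₁ B₁).coeff 0) =
        algebraMap F K (A₁.coeff 0) - algebraMap F K (B₁.coeff 0) * (y : K) := by
      rw [pencil_coeff, map_sub, map_mul, aeval_C, aeval_C, aeval_X]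
      ring
    rw [e1, e2, hnd, ← he]
    simp only [map_mul, map_pow, map_neg, map_one]
    constructor
    · intro h3
      linear_combination h3
    · intro h3
      linear_combination h3

/-- the extreme coefficients have the same length and the same quotient of the extreme
coefficients -/
def Flat (P : F[X][X]) : Prop :=
  dl P = 0 ∧ P.leadingCoeff.leadingCoeff * (P.coeff 0).trailingCoeff =
    P.leadingCoeff.trailingCoeff * (P.coeff 0).leadingCoeff

theorem flat_of_natDegree {P : F[X][X]} (h : P.natDegree = 0) : Flat P := by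
  have h1 : P.leadingCoeff = P.coeff 0 := by rw [leadingCoeff, h]
  refine ⟨?_, ?_⟩
  · rw [dl, h1, sub_self]
  · rw [h1, mul_comm]

theorem Flat.mul {P Q : F[X][X]} (hP : P.coeff 0 ≠ 0) (hQ : Q.coeff 0 ≠ 0) (h : Flat P)
    (h' : Flat Q) : Flat (P * Q) := by
  have hP0 : P ≠ 0 := by
    rintro rfl
    exact hP rfl
  have hQ0 : Q ≠ 0 := by
    rintro rfl
    exact hQ rfl
  obtain ⟨h1, h2⟩ := h
  obtain ⟨h3, h4⟩ := h'
  refine ⟨?_, ?_⟩
  · rw [dl, leadingCoeff_mul, mul_coeff_zero, len_mul (leadingCoeff_ne_zero.2 hP0)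
      (leadingCoeff_ne_zero.2 hQ0), len_mul hP hQ]
    rw [dl] at h1 h3
    linear_combination h1 + h3
  · rw [leadingCoeff_mul, leadingCoeff_mul, mul_coeff_zero, trailingCoeff_mul, trailingCoeff_mul,
      leadingCoeff_mul]
    linear_combination (Q.leadingCoeff.leadingCoeff * (Q.coeff 0).trailingCoeff) * h2 +
      (P.leadingCoeff.trailingCoeff * (P.coeff 0).leadingCoeff) * h4

theorem exists_factor' (P : F[X][X]) : P ≠ 0 → P.coeff 0 ≠ 0 → ¬ Flat P →
    ∃ Q : F[X][X], Irreducible Q ∧ Q ∣ P ∧ ¬ Flat Q ∧ Q.coeff 0 ≠ 0 := by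
  refine WfDvdMonoid.induction_on_irreducible P ?_ ?_ ?_
  · intro h
    exact absurd rfl h
  · intro u hu _ h0 h
    exfalso
    apply h
    obtain ⟨c, hc, rfl⟩ := Polynomial.isUnit_iff.1 hu
    exact flat_of_natDegree (natDegree_C _)
  · intro a Q ha hQ ih _ h0 h
    rw [mul_coeff_zero] at h0
    have h1 := left_ne_zero_of_mul h0
    have h2 := right_ne_zero_of_mul h0
    by_cases hfQ : Flat Q
    · have h3 : ¬ Flat a := fun h3 => h (hfQ.mul h1 h2 h3)
      obtain ⟨Q', h4, h5, h6, h7⟩ := ih ha h2 h3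
      exact ⟨Q', h4, h5.mul_left Q, h6, h7⟩
    · exact ⟨Q, hQ, dvd_mul_right _ _, hfQ, h1⟩

/-- **From two-variable polynomials to the line.** -/
theorem fin_of_poly' [IsAlgClosed F] [CharZero F] {P : F[X][X]} (hP0 : P.coeff 0 ≠ 0)
    (hP : ¬ Flat P)
    (h : U (F := F) (fun K _ _ x T => (spc K (T : K) P).eval (x : K) = 0)) (M : ℕ) :
    Fin' (lineI F M) := by
  have hPne : P ≠ 0 := by
    rintro rfl
    exact hP0 rfl
  obtain ⟨Q, hQ, hQP, hfl, hQ0⟩ := exists_factor' P hPne hP0 hP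
  have hd : 0 < Q.natDegree := by
    by_contra h0
    exact hfl (flat_of_natDegree (by omega))
  obtain ⟨μ, R, hR, hPR⟩ := WfDvdMonoid.max_power_factor hPne hQ
  have hμ : μ ≠ 0 := by
    rintro rfl
    rw [pow_zero, one_mul] at hPR
    exact hR (hPR ▸ hQP)
  have h1 := U_nor hQ hd hQ0 (U_cur_of hμ hPR hQ hd hR h)
  have hc : ((-1 : F) ^ Q.natDegree) ≠ 0 := pow_ne_zero _ (by simp)
  have hcC : C ((-1 : F) ^ Q.natDegree) ≠ 0 := C_ne_zero.2 hc
  have h2 : U (rat (C ((-1 : F) ^ Q.natDegree) * Q.coeff 0) Q.leadingCoeff) := by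
    refine h1.pull 1 0 0 1 fun K _ _ x y => ?_
    rw [zpow_one, zpow_one, zpow_zero, zpow_zero, one_mul, mul_one, rat, nor]
    simp
  have hlen : len (C ((-1 : F) ^ Q.natDegree) * Q.coeff 0) = len (Q.coeff 0) := by
    rw [len_mul hcC hQ0]
    have h4 : len (C ((-1 : F) ^ Q.natDegree)) = 0 := by
      rw [len, natDegree_C, natTrailingDegree_C]
      simp
    rw [h4, zero_add]
  have hlc := leadingCoeff_ne_zero.2 hQ.ne_zero
  by_cases h3 : dl Q = 0
  · have h4 : Q.leadingCoeff.leadingCoeff * (Q.coeff 0).trailingCoeff ≠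
        Q.leadingCoeff.trailingCoeff * (Q.coeff 0).leadingCoeff := fun h4 => hfl ⟨h3, h4⟩
    obtain ⟨α, β, hα, hβ, h5⟩ := exists_lin' (mul_ne_zero hcC hQ0) hlc (by
      rw [hlen]
      rw [dl] at h3
      linear_combination (-1 : ℤ) * h3) (by
      intro h5
      apply h4
      rw [leadingCoeff_mul, trailingCoeff_mul, leadingCoeff_C] at h5
      have h6 : (C ((-1 : F) ^ Q.natDegree)).trailingCoeff = (-1 : F) ^ Q.natDegree := by
        rw [trailingCoeff, natTrailingDegree_C, coeff_C_zero]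
      rw [h6] at h5
      refine mul_left_cancel₀ hc ?_
      linear_combination (-1 : F) * h5) h2
    exact fin_line hα hβ h5 M
  · obtain ⟨α, β, hα, hβ, h4⟩ := exists_lin (mul_ne_zero hcC hQ0) hlc (by
      rw [hlen]
      intro h5
      apply h3
      rw [dl, h5, sub_self]) h2
    exact fin_line hα hβ h4 M

end

end Pool.Agent.H74.ZP
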