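import Pool.Agent.H74.ZP.Line

/-!
# From the graph of a Moebius map to a line
-/

set_option autoImplicit false
set_option linter.unusedSectionVars false
set_option linter.style.haveILetI false

namespace Pool.Agent.H74.ZP

open Pool.Agent.R948

section

variable {F : Type} [Field F] {ι κ : Type} [Fintype ι] [Fintype κ]

/-- the graph of a Moebius map, over nonconstant arguments -/
def moeb (α β γ δ : F) : Cur F := fun K _ _ q p =>
  (q : K) * (algebraMap F K γ - algebraMap F K δ * (p : K)) =
    algebraMap F K α - algebraMap F K β * (p : K) ∧ Transcendental F (p : K)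

section

variable {K : Type} [Field K] [Algebra F K]

theorem lin_ne {x : K} (hx : Transcendental F x) {c d : F} (h : c ≠ 0 ∨ d ≠ 0) :
    algebraMap F K c * x + algebraMap F K d ≠ 0 := by
  intro h0
  have hinj := (algebraMap F K).injective
  by_cases hc : c = 0
  · rw [hc, map_zero, zero_mul, zero_add, map_eq_zero_iff _ hinj] at h0
    rcases h with h | h
    · exact h hc
    · exact h h0
  · apply hx
    have hcK : algebraMap F K c ≠ 0 := by rwa [Ne, map_eq_zero_iff _ hinj]
    have h1 : x = algebraMap F K (-d / c) := by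
      rw [map_div₀, map_neg, eq_div_iff hcK]
      linear_combination h0
    rw [h1]
    exact isAlgebraic_algebraMap _

/-- images of transcendental elements under Moebius maps -/
theorem trans_mob [IsAlgClosed F] {x y : K} (a b c d : F) (hdet : a * d ≠ b * c)
    (hx : Transcendental F x)
    (h : y * (algebraMap F K c * x + algebraMap F K d) =
      algebraMap F K a * x + algebraMap F K b) : Transcendental F y := by
  intro hy
  obtain ⟨ξ, hξ⟩ := mem_range_of_integral hy.isIntegral
  have h1 : algebraMap F K (ξ * c - a) * x + algebraMap F K (ξ * d - b) = 0 := by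
    rw [map_sub, map_sub, map_mul, map_mul, ← hξ]
    linear_combination h
  by_cases h2 : ξ * c - a ≠ 0 ∨ ξ * d - b ≠ 0
  · exact lin_ne hx h2 h1
  · rw [not_or, not_not, not_not] at h2
    apply hdet
    linear_combination (-d) * h2.1 + c * h2.2

theorem exists_mob [IsAlgClosed F] {x : K} (a b c d : F) (hdet : a * d ≠ b * c)
    (hx : Transcendental F x) : ∃ y : Kˣ,
      (y : K) * (algebraMap F K c * x + algebraMap F K d) =
        algebraMap F K a * x + algebraMap F K b ∧ Transcendental F (y : K) := by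
  have h1 : algebraMap F K c * x + algebraMap F K d ≠ 0 := lin_ne hx (by
    by_contra h
    rw [not_or, not_not, not_not] at h
    apply hdet
    rw [h.1, h.2]
    ring)
  have h2 : (algebraMap F K a * x + algebraMap F K b) /
      (algebraMap F K c * x + algebraMap F K d) *
      (algebraMap F K c * x + algebraMap F K d) = algebraMap F K a * x + algebraMap F K b :=
    div_mul_cancel₀ _ h1
  have h3 := trans_mob a b c d hdet hx h2
  refine ⟨Units.mk0 _ (fun h0 => ?_), h2, h3⟩
  apply h3
  rw [h0]
  exact isAlgebraic_zero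

theorem alg_of_mem_field {S : Set K} {x : K} (hx : x ∈ IntermediateField.adjoin F S) :
    IsAlgebraic (Algebra.adjoin F S) x := by
  obtain ⟨r, hr, s, hs, rfl⟩ := IntermediateField.mem_adjoin_iff_div.1 hx
  have h1 : IsAlgebraic (Algebra.adjoin F S) r :=
    isAlgebraic_algebraMap (A := K) (⟨r, hr⟩ : Algebra.adjoin F S)
  have h2 : IsAlgebraic (Algebra.adjoin F S) s :=
    isAlgebraic_algebraMap (A := K) (⟨s, hs⟩ : Algebra.adjoin F S)
  rw [div_eq_mul_inv]
  exact h1.mul h2.inv

theorem mem_tm {L : IntermediateField F K} (y : ι → Kˣ) (hy : ∀ i, (y i : K) ∈ L) (t : Fˣ)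
    (m : ι → ℤ) : ((tm K t m y : Kˣ) : K) ∈ L := by
  rw [tm, mon, Units.val_mul, Units.coe_prod, val_uo]
  refine mul_mem (L.algebraMap_mem _) (prod_mem fun i _ => ?_)
  rw [Units.val_zpow_eq_zpow_val]
  exact zpow_mem (hy i) _

/-- the value of a Moebius map lies in the field of the argument -/
theorem mob_mem {L : IntermediateField F K} {α β γ δ : F} {q p : Kˣ} (hdet : α * δ ≠ β * γ)
    (h : moeb α β γ δ K q p) (hp : (p : K) ∈ L) : (q : K) ∈ L := by
  have h1 : algebraMap F K (-δ) * (p : K) + algebraMap F K γ ≠ 0 := lin_ne h.2 (by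
    by_contra h
    rw [not_or, not_not, not_not, neg_eq_zero] at h
    apply hdet
    rw [h.1, h.2]
    ring)
  have h2 : (q : K) = (algebraMap F K α - algebraMap F K β * (p : K)) /
      (algebraMap F K (-δ) * (p : K) + algebraMap F K γ) := by
    rw [eq_div_iff h1, map_neg, ← h.1]
    ring
  rw [h2]
  exact div_mem (sub_mem (L.algebraMap_mem _) (mul_mem (L.algebraMap_mem _) hp))
    (add_mem (mul_mem (L.algebraMap_mem _) hp) (L.algebraMap_mem _))

/-- the value of a Moebius map is transcendental -/
theorem mob_trans [IsAlgClosed F] {α β γ δ : F} {q p : Kˣ} (hdet : α * δ ≠ β * γ)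
    (h : moeb α β γ δ K q p) : Transcendental F (q : K) := by
  refine trans_mob (-β) α (-δ) γ (fun h1 => hdet (by linear_combination h1)) h.2 ?_
  rw [map_neg, map_neg]
  linear_combination h.1

/-- the argument of a Moebius map lies in the field of the value -/
theorem mob_mem' [IsAlgClosed F] {L : IntermediateField F K} {α β γ δ : F} {q p : Kˣ}
    (hdet : α * δ ≠ β * γ) (h : moeb α β γ δ K q p) (hq : (q : K) ∈ L) : (p : K) ∈ L := by
  have h1 : algebraMap F K δ * (q : K) + algebraMap F K (-β) ≠ 0 :=
    lin_ne (mob_trans hdet h) (by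
      by_contra h
      rw [not_or, not_not, not_not, neg_eq_zero] at h
      apply hdet
      rw [h.1, h.2]
      ring)
  have h2 : (p : K) = (algebraMap F K γ * (q : K) - algebraMap F K α) /
      (algebraMap F K δ * (q : K) + algebraMap F K (-β)) := by
    rw [eq_div_iff h1, map_neg]
    linear_combination (-1 : K) * h.1
  rw [h2]
  exact div_mem (sub_mem (mul_mem (L.algebraMap_mem _) hq) (L.algebraMap_mem _))
    (add_mem (mul_mem (L.algebraMap_mem _) hq) (L.algebraMap_mem _))

/-- the inverse Moebius map -/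
theorem exists_arg [IsAlgClosed F] {α β γ δ : F} {q : Kˣ} (hdet : α * δ ≠ β * γ)
    (hq : Transcendental F (q : K)) : ∃ p : Kˣ, moeb α β γ δ K q p := by
  obtain ⟨p, h1, h2⟩ := exists_mob γ (-α) δ (-β)
    (fun h1 => hdet (by linear_combination h1)) hq
  refine ⟨p, ?_, h2⟩
  rw [map_neg, map_neg] at h1
  linear_combination (-1 : K) * h1

theorem trans_tm_scale [IsAlgClosed F] {x : Kˣ} (hx : Transcendental F (x : K)) (c : Fˣ) :
    Transcendental F ((uo K c * x : Kˣ) : K) := by
  refine trans_mob (c : F) 0 0 1 (by simp) hx ?_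
  rw [Units.val_mul, val_uo]
  simp

end

theorem td_le_of_mem {K : Type} [Field K] [Algebra F K] {y : ι → K} {x : κ → K}
    (h : ∀ j, x j ∈ IntermediateField.adjoin F (Set.range y)) : td F x ≤ td F y :=
  td_le_of_alg F fun j => alg_of_mem_field (h j)

/-- **Composition of Moebius maps.** -/
theorem U_moeb_comp [IsAlgClosed F] {α β γ δ : F} (hdet : α * δ ≠ β * γ) (u : Fˣ) (hu : Tor u)
    (h : U (moeb α β γ δ)) :
    U (moeb (α * (γ - u * β)) (α * δ - u * β ^ 2) (γ ^ 2 - u * (α * δ)) (δ * (γ - u * β))) := by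
  classical
  intro ι J _ _ t s m n ht hs
  have hmain := h (ι ⊕ J) (J ⊕ J) (Sum.elim (fun _ => 1) t) (Sum.elim s (fun _ => u))
    (Sum.elim (fun j => Sum.elim 0 (Pi.single j 1)) (fun j => Sum.elim (m j) 0))
    (Sum.elim (fun j => Sum.elim (n j) 0) (fun j => Sum.elim 0 (Pi.single j 1)))
    (by
      rintro (j | j)
      · exact tor_one
      · exact ht j)
    (by
      rintro (j | j)
      · exact hs j
      · exact hu)
  have e1 : ∀ (K : Type) [Field K] [Algebra F K] (y : ι → Kˣ) (r : J → Kˣ) (c : Fˣ) (j : J),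
      tm K c (Sum.elim 0 (Pi.single j 1)) (Sum.elim y r) = uo K c * r j := by
    intro K _ _ y r c j
    rw [tm_elim, mon_single, tm_zero]
  have e2 : ∀ (K : Type) [Field K] [Algebra F K] (y : ι → Kˣ) (r : J → Kˣ) (c : Fˣ)
      (m : ι → ℤ), tm K c (Sum.elim m 0) (Sum.elim y r) = tm K c m y := by
    intro K _ _ y r c m
    rw [tm_elim, mon_zero, mul_one]
  have key : ∀ (K : Type) [Field K] [Algebra F K] (y : ι → Kˣ) (r : J → Kˣ),
      (∀ a : J ⊕ J, moeb α β γ δ K
        (tm K ((Sum.elim (fun _ => 1) t : J ⊕ J → Fˣ) a)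
          ((Sum.elim (fun j => Sum.elim 0 (Pi.single j 1)) (fun j => Sum.elim (m j) 0) :
            J ⊕ J → ι ⊕ J → ℤ) a) (Sum.elim y r))
        (tm K ((Sum.elim s (fun _ => u) : J ⊕ J → Fˣ) a)
          ((Sum.elim (fun j => Sum.elim (n j) 0) (fun j => Sum.elim 0 (Pi.single j 1)) :
            J ⊕ J → ι ⊕ J → ℤ) a) (Sum.elim y r))) ↔
      ∀ j, moeb α β γ δ K (r j) (tm K (s j) (n j) y) ∧
        moeb α β γ δ K (tm K (t j) (m j) y) (uo K u * r j) := by
    intro K _ _ y r
    rw [Sum.forall]
    simp only [Sum.elim_inl, Sum.elim_inr, e1, e2, uo_one, one_mul]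
    exact forall_and.symm
  refine hmain.proj (f := 0) ?_ ?_
  · intro K _ _ y hy
    have hr : ∀ j, ∃ r : Kˣ, moeb α β γ δ K r (tm K (s j) (n j) y) ∧ Transcendental F (r : K) := by
      intro j
      obtain ⟨r, h1, h2⟩ := exists_mob (-β) α (-δ) γ
        (fun h1 => hdet (by linear_combination h1)) (hy j).2
      refine ⟨r, ⟨?_, (hy j).2⟩, h2⟩
      rw [map_neg, map_neg] at h1
      linear_combination h1
    choose r hr1 hr2 using hr
    refine ⟨K, inferInstance, inferInstance, y, r, ?_, Spec.refl' y, Spec.refl' y,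
      td_left_le _ _⟩
    rw [key K y r]
    intro j
    refine ⟨hr1 j, ?_, trans_tm_scale (hr2 j) u⟩
    obtain ⟨h3, h4⟩ := hy j
    obtain ⟨h5, -⟩ := hr1 j
    have h6 : algebraMap F K γ - algebraMap F K δ * ((tm K (s j) (n j) y : Kˣ) : K) ≠ 0 := by
      have h7 := lin_ne (c := -δ) (d := γ) h4 (by
        by_contra h
        rw [not_or, not_not, not_not, neg_eq_zero] at h
        apply hdet
        rw [h.1, h.2]
        ring)
      rw [map_neg] at h7
      intro h8
      apply h7
      linear_combination h8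
    refine mul_right_cancel₀ h6 ?_
    rw [Units.val_mul, val_uo]
    simp only [map_mul, map_sub, map_pow] at h3
    linear_combination h3 + ((algebraMap F K (u : F)) * algebraMap F K β -
      (algebraMap F K (u : F)) * algebraMap F K δ * ((tm K (t j) (m j) y : Kˣ) : K)) * h5
  · intro K _ _ y r hyr
    rw [key K y r] at hyr
    refine ⟨fun j => ?_, ?_⟩
    · obtain ⟨⟨h5, h4⟩, h3, -⟩ := hyr j
      refine ⟨?_, h4⟩
      rw [Units.val_mul, val_uo] at h3
      simp only [map_mul, map_sub, map_pow]
      linear_combination (algebraMap F K γ - algebraMap F K δ *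
        ((tm K (s j) (n j) y : Kˣ) : K)) * h3 - ((algebraMap F K (u : F)) * algebraMap F K β -
        (algebraMap F K (u : F)) * algebraMap F K δ * ((tm K (t j) (m j) y : Kˣ) : K)) * h5
    · rw [add_zero]
      refine td_le_of_mem ?_
      rintro (i | j)
      · exact IntermediateField.subset_adjoin F _ ⟨i, rfl⟩
      · exact mob_mem hdet (hyr j).1 (mem_tm (L := IntermediateField.adjoin F (Set.range (un y))) y
          (fun i => IntermediateField.subset_adjoin F _ ⟨i, rfl⟩) _ _)

end

end Pool.Agent.H74.ZP
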