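import Pool.Agent.H74.ZP.Val

/-!
# Newton polygons
-/

set_option autoImplicit false
set_option linter.unusedSectionVars false
set_option linter.style.haveILetI false

namespace Pool.Agent.H74.ZP

open Polynomial Pool.Agent.R948

section

variable {F : Type} [Field F]

/-- the coefficients -/
noncomputable def cf (P : F[X][X]) (p : ℕ × ℕ) : F := (P.coeff p.1).coeff p.2

/-- a bound for the exponents -/
noncomputable def bd (P : F[X][X]) : ℕ :=
  P.natDegree + ∑ i ∈ Finset.range (P.natDegree + 1), (P.coeff i).natDegree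

theorem natDegree_coeff_le (P : F[X][X]) (i : ℕ) : (P.coeff i).natDegree ≤ bd P := by
  by_cases hi : i < P.natDegree + 1
  · have h1 : (P.coeff i).natDegree ≤ ∑ i ∈ Finset.range (P.natDegree + 1), (P.coeff i).natDegree :=
      Finset.single_le_sum (f := fun i => (P.coeff i).natDegree) (fun _ _ => Nat.zero_le _)
        (Finset.mem_range.2 hi)
    rw [bd]
    omega
  · rw [coeff_eq_zero_of_natDegree_lt (by omega), natDegree_zero]
    omega

theorem cf_bd {P : F[X][X]} {p : ℕ × ℕ} (h : cf P p ≠ 0) : p.1 ≤ bd P ∧ p.2 ≤ bd P := by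
  constructor
  · by_contra h1
    apply h
    have h2 : P.coeff p.1 = 0 := coeff_eq_zero_of_natDegree_lt (by
      rw [bd] at h1
      omega)
    rw [cf, h2, coeff_zero]
  · refine (le_natDegree_of_ne_zero h).trans (natDegree_coeff_le P p.1)

open scoped Classical in
/-- the exponents -/
noncomputable def spt (P : F[X][X]) : Finset (ℕ × ℕ) :=
  Finset.filter (fun p : ℕ × ℕ => cf P p ≠ 0)
    (Finset.range (bd P + 1) ×ˢ Finset.range (bd P + 1))

theorem mem_spt {P : F[X][X]} {p : ℕ × ℕ} : p ∈ spt P ↔ cf P p ≠ 0 := by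
  classical
  rw [spt, Finset.mem_filter, Finset.mem_product, Finset.mem_range, Finset.mem_range]
  refine ⟨fun h => h.2, fun h => ⟨?_, h⟩⟩
  have := cf_bd h
  omega

theorem spt_nonempty {P : F[X][X]} (hP : P ≠ 0) : (spt P).Nonempty := by
  have h1 : ∃ i, P.coeff i ≠ 0 := by
    by_contra h
    push Not at h
    exact hP (Polynomial.ext h)
  obtain ⟨i, hi⟩ := h1
  have h2 : ∃ j, (P.coeff i).coeff j ≠ 0 := by
    by_contra h
    push Not at h
    exact hi (Polynomial.ext h)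
  obtain ⟨j, hj⟩ := h2
  exact ⟨(i, j), mem_spt.2 hj⟩

theorem ev_eq {K : Type} [Field K] [Algebra F K] (P : F[X][X]) (x T : K) :
    (spc K T P).eval x = ∑ p ∈ spt P, algebraMap F K (cf P p) * (x ^ p.1 * T ^ p.2) := by
  classical
  have h1 : (spc K T P).natDegree < bd P + 1 := by
    have := natDegree_map_le (f := ((aeval T : F[X] →ₐ[F] K) : F[X] →+* K)) (p := P)
    rw [spc, bd]
    omega
  rw [eval_eq_sum_range' h1, spt, Finset.sum_filter_of_ne, Finset.sum_product]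
  · refine Finset.sum_congr rfl fun i _ => ?_
    have h2 : (spc K T P).coeff i = aeval T (P.coeff i) := by
      rw [spc, coeff_map]
      rfl
    have h3 : (P.coeff i).natDegree < bd P + 1 := by
      have := natDegree_coeff_le P i
      omega
    rw [h2, aeval_eq_sum_range' h3, Finset.sum_mul]
    refine Finset.sum_congr rfl fun j _ => ?_
    rw [Algebra.smul_def, cf]
    ring
  · intro p _ hp h0
    rw [h0, map_zero, zero_mul] at hp
    exact hp rfl

end

section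

variable {F K Γ : Type} [Field F] [Field K] [Algebra F K] [LinearOrderedCommGroupWithZero Γ]
  {v : Valuation K Γ} (hv : ∀ c : F, c ≠ 0 → v (algebraMap F K c) = 1)

include hv

/-- the slopes -/
theorem slope {P : F[X][X]} (hP : P ≠ 0) {x T : K} (hx : x ≠ 0) (hT : T ≠ 0) (hx1 : v x ≠ 1)
    (h : (spc K T P).eval x = 0) : ∃ (p : ℤ) (q : ℕ), 1 ≤ q ∧ q ≤ bd P ∧ |p| ≤ bd P ∧
      v T ^ q = v x ^ p := by
  classical
  rw [ev_eq] at h
  obtain ⟨a, ha⟩ := spt_nonempty hP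
  have hne : ∀ p ∈ spt P, algebraMap F K (cf P p) * (x ^ p.1 * T ^ p.2) ≠ 0 := by
    intro p hp
    refine mul_ne_zero ?_ (mul_ne_zero (pow_ne_zero _ hx) (pow_ne_zero _ hT))
    rw [Ne, map_eq_zero_iff _ (algebraMap F K).injective]
    exact mem_spt.1 hp
  obtain ⟨b, hb, c, hc, hbc, h1, -, -⟩ := exists_twice v h ha (hne a ha)
  have key : ∀ b ∈ spt P, ∀ c ∈ spt P, b ≠ c → b.2 ≤ c.2 →
      v x ^ b.1 * v T ^ b.2 = v x ^ c.1 * v T ^ c.2 →
      ∃ (p : ℤ) (q : ℕ), 1 ≤ q ∧ q ≤ bd P ∧ |p| ≤ bd P ∧ v T ^ q = v x ^ p := by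
    intro b hb c hc hbc hle h2
    have hvx : v x ≠ 0 := (map_ne_zero v).2 hx
    have hvT : v T ≠ 0 := (map_ne_zero v).2 hT
    have hb1 := cf_bd (mem_spt.1 hb)
    have hc1 := cf_bd (mem_spt.1 hc)
    have hne2 : b.2 ≠ c.2 := by
      intro h3
      rw [h3] at h2
      have h4 := mul_right_cancel₀ (pow_ne_zero _ hvT) h2
      have h5 := pow_right_injective₀ (zero_lt_iff.2 hvx) hx1 h4
      exact hbc (Prod.ext h5 h3)
    refine ⟨(b.1 : ℤ) - c.1, c.2 - b.2, by omega, by omega, by rw [abs_le]; omega, ?_⟩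
    rw [zpow_sub₀ hvx, zpow_natCast, zpow_natCast, eq_div_iff (pow_ne_zero _ hvx)]
    have h3 : v T ^ c.2 = v T ^ (c.2 - b.2) * v T ^ b.2 := by
      rw [← pow_add]
      congr 1
      omega
    rw [h3, ← mul_assoc] at h2
    have h4 := mul_right_cancel₀ (pow_ne_zero _ hvT) h2
    rw [h4, mul_comm]
  simp only [map_mul, map_pow, hv _ (mem_spt.1 hb), hv _ (mem_spt.1 hc), one_mul] at h1
  rcases le_total b.2 c.2 with h2 | h2
  · exact key b hb c hc hbc h2 h1
  · exact key c hc b hb (Ne.symm hbc) h2 h1.symm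

/-- the slopes close to a point -/
theorem slope_near {P : F[X][X]} (hP : P ≠ 0) {x T : K} (hx : x ≠ 0) (hT : T ≠ 0) (hx1 : v x < 1)
    (hT1 : v T < 1) (h : (spc K T P).eval x = 0) : ∃ p q : ℕ, 1 ≤ p ∧ p ≤ bd P ∧ 1 ≤ q ∧
      q ≤ bd P ∧ v T ^ q = v x ^ p := by
  obtain ⟨p, q, h1, h2, h3, h4⟩ := slope hv hP hx hT hx1.ne h
  have hvx : 0 < v x := zero_lt_iff.2 ((map_ne_zero v).2 hx)
  have hp : 0 < p := by
    by_contra h0
    obtain ⟨n, hn⟩ : ∃ n : ℕ, p = -(n : ℤ) := ⟨p.natAbs, by omega⟩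
    have h5 : v T ^ q < 1 := pow_lt_one₀ zero_le hT1 (by omega)
    rw [h4, hn, zpow_neg, zpow_natCast] at h5
    have h6 : v x ^ n ≤ 1 := pow_le_one₀ hvx.le hx1.le
    have h7 : 1 ≤ (v x ^ n)⁻¹ := (one_le_inv₀ (pow_pos hvx n)).2 h6
    exact absurd h5 (not_lt.2 h7)
  refine ⟨p.toNat, q, by omega, ?_, h1, h2, ?_⟩
  · have := (abs_le.1 h3).2
    omega
  · rw [h4, ← zpow_natCast, Int.toNat_of_nonneg hp.le]

omit hv in
/-- comparison of valuations -/
theorem lt_of_slopes {a s t : Γ} (ha : 0 < a) (ha1 : a < 1) {D h p q p' q' : ℕ}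
    (hp : 1 ≤ p) (hq : q ≤ D) (hp' : p' ≤ D) (hq' : 1 ≤ q')
    (h1 : s ^ q = a ^ (h * p)) (h2 : t ^ q' = a ^ p') (hD : D * D < h) : s < t := by
  by_contra hcon
  push Not at hcon
  have h3 : t ^ (q * q') ≤ s ^ (q * q') := pow_le_pow_left₀ zero_le hcon _
  have e1 : t ^ (q * q') = a ^ (p' * q) := by
    rw [mul_comm q, pow_mul, h2, ← pow_mul]
  have e2 : s ^ (q * q') = a ^ (h * p * q') := by
    rw [pow_mul, h1, ← pow_mul]
  rw [e1, e2] at h3
  have h4 : h * p * q' ≤ p' * q := by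
    by_contra h5
    push Not at h5
    exact absurd h3 (not_le.2 (pow_lt_pow_right_of_lt_one₀ ha ha1 h5))
  have h6 : p' * q ≤ D * D := Nat.mul_le_mul hp' hq
  have h7 : h * 1 * 1 ≤ h * p * q' := Nat.mul_le_mul (Nat.mul_le_mul le_rfl hp) hq'
  omega

end

section

variable {F : Type} [Field F]

/-- the weight -/
def wt (L e : ℕ) (p : ℕ × ℕ) : ℕ := L * p.1 + e * p.2

/-- the smallest weight -/
noncomputable def mu (P : F[X][X]) (L e : ℕ) : ℕ :=
  sInf ((fun p => wt L e p) '' (spt P : Set (ℕ × ℕ)))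

theorem mu_le {P : F[X][X]} (L e : ℕ) {p : ℕ × ℕ} (hp : p ∈ spt P) : mu P L e ≤ wt L e p :=
  Nat.sInf_le ⟨p, hp, rfl⟩

theorem exists_mu {P : F[X][X]} (hP : P ≠ 0) (L e : ℕ) : ∃ p ∈ spt P, wt L e p = mu P L e := by
  obtain ⟨a, ha⟩ := spt_nonempty hP
  exact Nat.sInf_mem (s := (fun p => wt L e p) '' (spt P : Set (ℕ × ℕ))) ⟨_, a, ha, rfl⟩

/-- the exponents of smallest weight -/
noncomputable def fc (P : F[X][X]) (L e : ℕ) : Finset (ℕ × ℕ) :=
  (spt P).filter fun p => wt L e p = mu P L e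

theorem mem_fc {P : F[X][X]} {L e : ℕ} {p : ℕ × ℕ} :
    p ∈ fc P L e ↔ p ∈ spt P ∧ wt L e p = mu P L e := by
  rw [fc, Finset.mem_filter]

/-- the equation of the leading coefficient -/
noncomputable def eq1 (P : F[X][X]) (L e : ℕ) : F[X] :=
  ∑ p ∈ fc P L e, monomial p.2 (cf P p)

theorem eq1_ne_zero {P : F[X][X]} (hP : P ≠ 0) {L e : ℕ} (hL : 0 < L) : eq1 P L e ≠ 0 := by
  obtain ⟨p, hp, h1⟩ := exists_mu hP L e
  intro h0
  have h2 : (eq1 P L e).coeff p.2 = cf P p := by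
    rw [eq1, finsetSum_coeff, Finset.sum_eq_single p]
    · rw [coeff_monomial, if_pos rfl]
    · intro q hq hqp
      rw [coeff_monomial, if_neg]
      intro h3
      apply hqp
      have h4 := (mem_fc.1 hq).2
      rw [← h1, wt, wt, h3] at h4
      have h5 : L * q.1 = L * p.1 := by omega
      exact Prod.ext (Nat.eq_of_mul_eq_mul_left hL h5) h3
    · intro h3
      exact absurd (mem_fc.2 ⟨hp, h1⟩) h3
  rw [h0, coeff_zero] at h2
  exact mem_spt.1 hp h2.symm

/-- the equation of the other coordinate -/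
noncomputable def eq2 (P : F[X][X]) (L e : ℕ) (β : F) : F[X] :=
  ∑ p ∈ fc P L e, monomial p.1 (cf P p * β ^ p.2)

theorem eq2_ne_zero {P : F[X][X]} (hP : P ≠ 0) {L e : ℕ} (he : 0 < e) {β : F} (hβ : β ≠ 0) :
    eq2 P L e β ≠ 0 := by
  obtain ⟨p, hp, h1⟩ := exists_mu hP L e
  intro h0
  have h2 : (eq2 P L e β).coeff p.1 = cf P p * β ^ p.2 := by
    rw [eq2, finsetSum_coeff, Finset.sum_eq_single p]
    · rw [coeff_monomial, if_pos rfl]
    · intro q hq hqp
      rw [coeff_monomial, if_neg]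
      intro h3
      apply hqp
      have h4 := (mem_fc.1 hq).2
      rw [← h1, wt, wt, h3] at h4
      have h5 : e * q.2 = e * p.2 := by omega
      exact Prod.ext h3 (Nat.eq_of_mul_eq_mul_left he h5)
    · intro h3
      exact absurd (mem_fc.2 ⟨hp, h1⟩) h3
  rw [h0, coeff_zero] at h2
  exact mul_ne_zero (mem_spt.1 hp) (pow_ne_zero _ hβ) h2.symm

theorem eval_eq1 (P : F[X][X]) (L e : ℕ) (ρ : F) :
    (eq1 P L e).eval ρ = ∑ p ∈ fc P L e, cf P p * ρ ^ p.2 := by
  rw [eq1, eval_finsetSum]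
  exact Finset.sum_congr rfl fun p _ => eval_monomial

theorem eval_eq2 (P : F[X][X]) (L e : ℕ) (β c : F) :
    (eq2 P L e β).eval c = ∑ p ∈ fc P L e, cf P p * (c ^ p.1 * β ^ p.2) := by
  rw [eq2, eval_finsetSum]
  refine Finset.sum_congr rfl fun p _ => ?_
  rw [eval_monomial]
  ring

theorem eq2_hom (P : F[X][X]) (L e : ℕ) (l ρ : F) :
    (eq2 P L e (l ^ e * ρ)).eval (l ^ L) = l ^ mu P L e * (eq1 P L e).eval ρ := by
  rw [eval_eq1, eval_eq2, Finset.mul_sum]
  refine Finset.sum_congr rfl fun p hp => ?_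
  rw [← (mem_fc.1 hp).2, wt, mul_pow, ← pow_mul, ← pow_mul, pow_add]
  ring

/-- the possible leading coefficients -/
noncomputable def rts (P : F[X][X]) (L e : ℕ) : Finset F := by
  classical
  exact (eq1 P L e).roots.toFinset

theorem mem_rts {P : F[X][X]} (hP : P ≠ 0) {L e : ℕ} (hL : 0 < L) {ρ : F} :
    ρ ∈ rts P L e ↔ (eq1 P L e).eval ρ = 0 := by
  classical
  rw [rts, Multiset.mem_toFinset, mem_roots (eq1_ne_zero hP hL)]
  rfl

end

section

variable {F K Γ : Type} [Field F] [Field K] [Algebra F K] [LinearOrderedCommGroupWithZero Γ]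
  {v : Valuation K Γ} (hv : ∀ c : F, c ≠ 0 → v (algebraMap F K c) = 1)

include hv

/-- the leading form -/
theorem red_lt (P : F[X][X]) (L e : ℕ) {x Y η : K} (hx : x ≠ 0) (hx1 : v x < 1) (hY : v Y ≤ 1)
    (hη : v η ≤ 1) : v ((spc K (x ^ e * η) P).eval (x ^ L * Y) / x ^ mu P L e -
      ∑ p ∈ fc P L e, algebraMap F K (cf P p) * (Y ^ p.1 * η ^ p.2)) < 1 := by
  classical
  have h1 : (spc K (x ^ e * η) P).eval (x ^ L * Y) / x ^ mu P L e =
      ∑ p ∈ spt P, algebraMap F K (cf P p) * (x ^ (wt L e p - mu P L e) *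
        (Y ^ p.1 * η ^ p.2)) := by
    rw [ev_eq, Finset.sum_div]
    refine Finset.sum_congr rfl fun p hp => ?_
    rw [div_eq_iff (pow_ne_zero _ hx)]
    have h2 : x ^ (wt L e p) = x ^ (wt L e p - mu P L e) * x ^ mu P L e := by
      rw [← pow_add, Nat.sub_add_cancel (mu_le L e hp)]
    have h3 : (x ^ L * Y) ^ p.1 * (x ^ e * η) ^ p.2 = x ^ (wt L e p) * (Y ^ p.1 * η ^ p.2) := by
      rw [wt, mul_pow, mul_pow, ← pow_mul, ← pow_mul, pow_add]
      ring
    rw [h3, h2]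
    ring
  have h4 : ∑ p ∈ fc P L e, algebraMap F K (cf P p) * (Y ^ p.1 * η ^ p.2) =
      ∑ p ∈ (spt P).filter (fun p => wt L e p = mu P L e),
        algebraMap F K (cf P p) * (x ^ (wt L e p - mu P L e) * (Y ^ p.1 * η ^ p.2)) := by
    refine Finset.sum_congr rfl fun p hp => ?_
    rw [(mem_fc.1 hp).2, Nat.sub_self, pow_zero, one_mul]
  rw [h1, h4, ← Finset.sum_filter_add_sum_filter_not (spt P) (fun p => wt L e p = mu P L e),
    add_sub_cancel_left]
  refine v.map_sum_lt one_ne_zero fun p hp => ?_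
  rw [Finset.mem_filter] at hp
  have h5 := mu_le L e hp.1
  have h6 : wt L e p - mu P L e ≠ 0 := by
    have := hp.2
    omega
  have h7 : v x ^ (wt L e p - mu P L e) < 1 := pow_lt_one₀ zero_le hx1 h6
  have h8 : v Y ^ p.1 * v η ^ p.2 ≤ 1 :=
    mul_le_one' (pow_le_one₀ zero_le hY) (pow_le_one₀ zero_le hη)
  rw [map_mul, map_mul, map_mul, map_pow, map_pow, map_pow]
  calc v (algebraMap F K (cf P p)) * (v x ^ (wt L e p - mu P L e) * (v Y ^ p.1 * v η ^ p.2))
      ≤ 1 * (v x ^ (wt L e p - mu P L e) * 1) := by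
        refine mul_le_mul' (v_le_one hv _) (mul_le_mul' le_rfl h8)
    _ < 1 := by rwa [one_mul, mul_one]

/-- the leading form, at points which are close to constants -/
theorem red_nr (P : F[X][X]) (L e : ℕ) {x Y η : K} {c β : F} (hx : x ≠ 0) (hx1 : v x < 1)
    (hY : Nr v Y c) (hη : Nr v η β) :
    Nr v ((spc K (x ^ e * η) P).eval (x ^ L * Y) / x ^ mu P L e) ((eq2 P L e β).eval c) := by
  have h1 := red_lt hv P L e hx hx1 (hY.le hv) (hη.le hv)
  have h2 : Nr v (∑ p ∈ fc P L e, algebraMap F K (cf P p) * (Y ^ p.1 * η ^ p.2))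
      ((eq2 P L e β).eval c) := by
    rw [eval_eq2]
    exact Nr.sum hv _ fun p _ => (Nr.refl _).mul hv ((hY.pow hv _).mul hv (hη.pow hv _))
  have h3 := (Nr.zero (F := F) h1).add h2
  rw [zero_add, sub_add_cancel] at h3
  exact h3

/-- the leading coefficients -/
theorem near_rho [IsAlgClosed F] {P : F[X][X]} (hP : P ≠ 0) {L e : ℕ} (hL : 0 < L) {x η : K}
    (hx : x ≠ 0) (hx1 : v x < 1) (hη : v η = 1) (h : (spc K (x ^ e * η) P).eval (x ^ L) = 0) :
    ∃ ρ : F, ρ ≠ 0 ∧ ρ ∈ rts P L e ∧ Nr v η ρ := by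
  have h1 := red_lt hv P L e (Y := 1) hx hx1 (by rw [map_one]) hη.le
  rw [mul_one, h, zero_div, zero_sub, Valuation.map_neg] at h1
  have h2 : Polynomial.aeval η (eq1 P L e) =
      ∑ p ∈ fc P L e, algebraMap F K (cf P p) * ((1 : K) ^ p.1 * η ^ p.2) := by
    rw [eq1, map_sum]
    refine Finset.sum_congr rfl fun p _ => ?_
    rw [aeval_monomial, one_pow, one_mul]
  rw [← h2] at h1
  obtain ⟨ρ, h3, h4⟩ := exists_near_root hv (eq1_ne_zero hP hL) h1
  exact ⟨ρ, h4.ne_zero hv hη, (mem_rts hP hL).2 h3, h4⟩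

/-- the other coordinate -/
theorem exists_other [IsAlgClosed K] [IsAlgClosed F] {P : F[X][X]} (hP : P ≠ 0) {L e : ℕ}
    (hL : 0 < L) (he : 0 < e) {x η : K} (hx : x ≠ 0) (hx1 : v x < 1) {ρ l : F} (hρ0 : ρ ≠ 0)
    (hl : l ≠ 0) (hρ : ρ ∈ rts P L e) (hη : Nr v η (l ^ e * ρ)) :
    ∃ s : K, (spc K (x ^ e * η) P).eval (x ^ L * s) = 0 ∧ Nr v s (l ^ L) := by
  have hβ : l ^ e * ρ ≠ 0 := mul_ne_zero (pow_ne_zero _ hl) hρ0
  haveI : Infinite F := IsAlgClosed.instInfinite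
  obtain ⟨c, hc⟩ : ∃ c : F, (eq2 P L e (l ^ e * ρ)).eval c ≠ 0 := by
    by_contra hcon
    push Not at hcon
    exact eq2_ne_zero hP he hβ (Polynomial.funext fun c => by rw [hcon c, eval_zero])
  have h1 := red_nr hv P L e hx hx1 (Nr.refl c) hη
  have h2 := red_nr hv P L e hx hx1 (Nr.refl (l ^ L)) hη
  have h1' := h1.v_eq hv hc
  rw [eq2_hom, (mem_rts hP hL).1 hρ, mul_zero] at h2
  have h2' := h2.lt
  have hvx : 0 < v (x ^ mu P L e) := zero_lt_iff.2 ((map_ne_zero v).2 (pow_ne_zero _ hx))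
  rw [map_div₀, div_eq_one_iff_eq hvx.ne'] at h1'
  rw [map_div₀, div_lt_one₀ hvx] at h2'
  have key : ∀ y : K, ((spc K (x ^ e * η) P).comp (C (x ^ L) * X)).eval y =
      (spc K (x ^ e * η) P).eval (x ^ L * y) := by
    intro y
    rw [eval_comp, eval_mul, eval_C, eval_X]
  obtain ⟨s, hs, h3⟩ := exists_root_near v (p := (spc K (x ^ e * η) P).comp (C (x ^ L) * X))
    (u := algebraMap F K (l ^ L)) (x := algebraMap F K c) (by
      rw [← map_sub]
      exact v_le_one hv _) (by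
      rw [key, key, h1']
      exact h2')
  refine ⟨s, ?_, h3⟩
  rw [← key]
  exact hs

end

end Pool.Agent.H74.ZP
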