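import Pool.Agent.H74.ZP.Base

/-!
# Products of the roots of a polynomial with coefficients in a polynomial ring
-/

set_option autoImplicit false
set_option linter.unusedSectionVars false
set_option linter.style.haveILetI false

namespace Pool.Agent.H74.ZP

open Polynomial Pool.Agent.R948

/-- binary relations between units of all extension fields -/
abbrev Cur (F : Type) [Field F] := ∀ (K : Type) [Field K] [Algebra F K], Kˣ → Kˣ → Prop

section

variable {F : Type} [Field F] {ι κ : Type} [Fintype ι] [Fintype κ]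

/-- finiteness for all systems of conditions that pairs of torsion multiples of monomials lie on
a curve -/
def U (C : Cur F) : Prop :=
  ∀ (ι J : Type) [Fintype ι] [Fintype J] (t s : J → Fˣ) (m n : J → ι → ℤ),
    (∀ j, Tor (t j)) → (∀ j, Tor (s j)) →
    FinR (F := F) (ι := ι) (fun K _ _ y => ∀ j, C K (tm K (t j) (m j) y) (tm K (s j) (n j) y))

/-- extension of scalars for a family of units -/
noncomputable def up {K : Type} [Field K] (K' : Type) [Field K'] [Algebra K K'] (y : ι → Kˣ) :
    ι → K'ˣ := fun i => Units.map (algebraMap K K').toMonoidHom (y i)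

section

variable {K K' : Type} [Field K] [Algebra F K] [Field K'] [Algebra F K'] [Algebra K K']
  [IsScalarTower F K K']

theorem aeval_up (y : ι → Kˣ) (f : MvPolynomial ι F) :
    MvPolynomial.aeval (un (up K' y)) f = algebraMap K K' (MvPolynomial.aeval (un y) f) :=
  (MvPolynomial.aeval_algebraMap_apply K' (un y) f)

theorem spec_up (y : ι → Kˣ) : Spec F y (up K' y) := fun f hf => by
  rw [aeval_up, hf, map_zero]

theorem spec_up' (y : ι → Kˣ) : Spec F (up K' y) y := fun f hf => by
  rw [aeval_up, map_eq_zero_iff _ (algebraMap K K').injective] at hf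
  exact hf

theorem mon_up (y : ι → Kˣ) (m : ι → ℤ) :
    mon (up K' y) m = Units.map (algebraMap K K').toMonoidHom (mon y m) := by
  simp [mon, up]

theorem uo_up (t : Fˣ) :
    uo K' t = Units.map (algebraMap K K').toMonoidHom (uo K t) := by
  apply Units.ext
  change algebraMap F K' (t : F) = algebraMap K K' (algebraMap F K t)
  exact IsScalarTower.algebraMap_apply F K K' _

theorem tm_up (y : ι → Kˣ) (t : Fˣ) (m : ι → ℤ) :
    tm K' t m (up K' y) = Units.map (algebraMap K K').toMonoidHom (tm K t m y) := by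
  rw [tm, tm, mon_up, uo_up (K := K), map_mul]

end

section

variable {K : Type} [Field K] [Algebra F K]

theorem mon_single [DecidableEq ι] (y : ι → Kˣ) (i : ι) : mon y (Pi.single i 1 : ι → ℤ) = y i := by
  rw [mon, Finset.prod_eq_single i]
  · simp
  · intro j' _ hj'
    rw [Pi.single_eq_of_ne hj', zpow_zero]
  · intro h
    exact absurd (Finset.mem_univ i) h

theorem tm_elim (t : Fˣ) (m : ι → ℤ) (c : κ → ℤ) (y : ι → Kˣ) (x : κ → Kˣ) :
    tm K t (Sum.elim m c) (Sum.elim y x) = tm K t m y * mon x c := by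
  rw [tm, tm, mon_sum, mul_assoc]
  rfl

theorem tor_one : Tor (1 : Fˣ) := ⟨1, one_pos, by simp⟩

theorem uo_one : uo K (1 : Fˣ) = 1 := by simp [uo]

theorem alg_trans {S : Set K} {T X : K}
    (h1 : IsAlgebraic (Algebra.adjoin F S) T) (h2 : IsAlgebraic (Algebra.adjoin F {T}) X) :
    IsAlgebraic (Algebra.adjoin F S) X := by
  have h3 : T ∈ (AlgebraicIndependent.matroid F K).closure S := by
    rw [AlgebraicIndependent.matroid_closure_eq]
    exact h1
  have h4 : X ∈ (AlgebraicIndependent.matroid F K).closure {T} := by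
    rw [AlgebraicIndependent.matroid_closure_eq]
    exact h2
  have h5 := Matroid.closure_subset_closure_of_subset_closure (Set.singleton_subset_iff.2 h3) h4
  rw [AlgebraicIndependent.matroid_closure_eq] at h5
  exact h5

theorem alg_tm (y : ι → Kˣ) (t : Fˣ) (m : ι → ℤ) :
    IsAlgebraic (Algebra.adjoin F (Set.range (un y))) ((tm K t m y : Kˣ) : K) := by
  rw [tm, Units.val_mul, val_uo]
  exact alg_mon y m (t : F)

/-- specialisation of the coefficients -/
noncomputable def spc (K : Type) [Field K] [Algebra F K] (T : K) (Q : F[X][X]) : K[X] :=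
  Q.map ((aeval T : F[X] →ₐ[F] K) : F[X] →+* K)

theorem eval_spc_zero (T : K) (Q : F[X][X]) : (spc K T Q).eval 0 = aeval T (Q.coeff 0) := by
  rw [← coeff_zero_eq_eval_zero, spc, coeff_map]
  rfl

theorem spc_natDegree {T : K} {Q : F[X][X]} (h : aeval T Q.leadingCoeff ≠ 0) :
    (spc K T Q).natDegree = Q.natDegree :=
  natDegree_map_of_leadingCoeff_ne_zero _ h

theorem spc_leadingCoeff {T : K} {Q : F[X][X]} (h : aeval T Q.leadingCoeff ≠ 0) :
    (spc K T Q).leadingCoeff = aeval T Q.leadingCoeff :=
  leadingCoeff_map_of_leadingCoeff_ne_zero _ h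

theorem aeval_ne_zero {T : K} (hT : Transcendental F T) {a : F[X]} (ha : a ≠ 0) :
    aeval T a ≠ 0 := fun h => ha ((transcendental_iff_injective.1 hT) (by rw [h, map_zero]))

theorem root_alg {T X : K} {Q : F[X][X]} (h : aeval T Q.leadingCoeff ≠ 0)
    (hX : (spc K T Q).IsRoot X) : IsAlgebraic (Algebra.adjoin F {T}) X := by
  let φ : F[X] →ₐ[F] Algebra.adjoin F {T} :=
    (aeval T : F[X] →ₐ[F] K).codRestrict _ fun p => aeval_mem_adjoin_singleton F T
  refine ⟨Q.map (φ : F[X] →+* Algebra.adjoin F {T}), ?_, ?_⟩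
  · intro h0
    have h1 := congrArg (fun p => p.coeff Q.natDegree) h0
    simp only [coeff_map, coeff_zero] at h1
    exact h (congrArg Subtype.val h1)
  · have h1 : (Q.map (φ : F[X] →+* Algebra.adjoin F {T})).map
      (algebraMap (Algebra.adjoin F {T}) K) = spc K T Q := by
      rw [map_map]
      rfl
    rw [← eval_map_algebraMap, h1]
    exact hX

/-- the roots of a specialised irreducible polynomial are distinct -/
theorem spc_separable [CharZero F] {T : K} (hT : Transcendental F T) {Q : F[X][X]}
    (hQ : Irreducible Q) (hd : 0 < Q.natDegree) : (spc K T Q).Separable := by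
  have h1 : Irreducible (Q.map (algebraMap F[X] (FractionRing F[X]))) :=
    ((hQ.isPrimitive hd.ne').irreducible_iff_irreducible_map_fraction_map).1 hQ
  have h2 : (Q.map (algebraMap F[X] (FractionRing F[X]))).Separable := h1.separable
  have hinj : Function.Injective ((aeval T : F[X] →ₐ[F] K) : F[X] →+* K) :=
    transcendental_iff_injective.1 hT
  let ψ : FractionRing F[X] →+* K := IsFractionRing.lift hinj
  have h3 : (Q.map (algebraMap F[X] (FractionRing F[X]))).map ψ = spc K T Q := by
    rw [map_map, spc]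
    congr 1
    ext a
    · simp [ψ, IsFractionRing.lift_algebraMap]
    · simp [ψ, IsFractionRing.lift_algebraMap]
  rw [← h3]
  exact h2.map

/-- the roots, as a function -/
theorem exists_roots [CharZero F] [IsAlgClosed K] {T : K} (hT : Transcendental F T) {Q : F[X][X]}
    (hQ : Irreducible Q) {e : ℕ} (hd : Q.natDegree = e + 1) (h0 : Q.coeff 0 ≠ 0) :
    ∃ r : Fin (e + 1) → Kˣ, Function.Injective r ∧ (∀ k, (spc K T Q).IsRoot (r k : K)) ∧
      ((∏ k, r k : Kˣ) : K) * aeval T Q.leadingCoeff = (-1) ^ (e + 1) * aeval T (Q.coeff 0) := by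
  have hl : aeval T Q.leadingCoeff ≠ 0 := aeval_ne_zero hT (leadingCoeff_ne_zero.2 hQ.ne_zero)
  have hc : aeval T (Q.coeff 0) ≠ 0 := aeval_ne_zero hT h0
  have hsep := spc_separable hT hQ (by omega)
  have hcard : (spc K T Q).roots.card = (spc K T Q).natDegree := IsAlgClosed.card_roots_eq_natDegree
  have hcard2 : (spc K T Q).roots.toList.length = e + 1 := by
    rw [Multiset.length_toList, hcard, spc_natDegree hl, hd]
  have hne : spc K T Q ≠ 0 := hsep.ne_zero
  let g : Fin (e + 1) → K := fun k => (spc K T Q).roots.toList.get (k.cast hcard2.symm)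
  have hg : ∀ k, (spc K T Q).IsRoot (g k) := by
    intro k
    have h1 : g k ∈ (spc K T Q).roots := by
      rw [← Multiset.mem_toList]
      exact List.get_mem _ _
    exact isRoot_of_mem_roots h1
  have hg0 : ∀ k, g k ≠ 0 := by
    intro k hk
    have h1 := hg k
    rw [hk, IsRoot, eval_spc_zero] at h1
    exact hc h1
  have hprod : ∏ k, g k = (spc K T Q).roots.prod := by
    conv_rhs => rw [← Multiset.coe_toList (spc K T Q).roots, Multiset.prod_coe]
    rw [← List.prod_ofFn]
    congr 1
    apply List.ext_get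
    · simp [hcard2]
    · intro n h1 h2
      rw [List.get_eq_getElem, List.get_eq_getElem, List.getElem_ofFn]
      rfl
  refine ⟨fun k => Units.mk0 (g k) (hg0 k), ?_, hg, ?_⟩
  · intro k k' hkk
    have h1 : g k = g k' := congrArg Units.val hkk
    have h2 : (spc K T Q).roots.toList.Nodup := by
      rw [← Multiset.coe_nodup, Multiset.coe_toList]
      exact nodup_roots hsep
    have h3 := (List.Nodup.get_inj_iff h2).1 h1
    simpa using h3
  · rw [Units.coe_prod]
    have h1 : ∏ k, ((Units.mk0 (g k) (hg0 k) : Kˣ) : K) = (spc K T Q).roots.prod := by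
      rw [← hprod]
      rfl
    rw [h1]
    have h2 := C_leadingCoeff_mul_prod_multiset_X_sub_C hcard
    have h3 := congrArg (eval 0) h2
    rw [eval_mul, eval_C, eval_multiset_prod, Multiset.map_map, eval_spc_zero,
      spc_leadingCoeff hl] at h3
    have h4 : (Multiset.map (eval 0 ∘ fun a => X - C a) (spc K T Q).roots).prod =
        (-1) ^ (e + 1) * (spc K T Q).roots.prod := by
      have h5 : (eval 0 ∘ fun a : K => X - C a) = fun a => -a := by
        funext a
        simp
      rw [h5, Multiset.prod_map_neg, hcard, spc_natDegree hl, hd]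
    rw [h4] at h3
    rw [← h3]
    have h6 : ((-1 : K) ^ (e + 1)) * (-1) ^ (e + 1) = 1 := by
      rw [← mul_pow]
      simp
    linear_combination (- (spc K T Q).roots.prod * aeval T Q.leadingCoeff) * h6

/-- distinct roots determine the product -/
theorem prod_roots {T : K} {Q : F[X][X]} {e : ℕ} (hd : Q.natDegree = e + 1)
    (hl : aeval T Q.leadingCoeff ≠ 0) (r : Fin (e + 1) → Kˣ) (hr : Function.Injective r)
    (h : ∀ k, (spc K T Q).IsRoot (r k : K)) :
    ((∏ k, r k : Kˣ) : K) * aeval T Q.leadingCoeff = (-1) ^ (e + 1) * aeval T (Q.coeff 0) := by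
  classical
  have hne : spc K T Q ≠ 0 := by
    intro h0
    have h1 := spc_leadingCoeff hl
    rw [h0, leadingCoeff_zero] at h1
    exact hl h1.symm
  let s : Multiset K := Finset.univ.val.map fun k => (r k : K)
  have hs : s.Nodup := by
    refine (Multiset.nodup_map_iff_inj_on Finset.univ.nodup).2 ?_
    intro x _ y _ hxy
    exact hr (Units.ext hxy)
  have hle : s ≤ (spc K T Q).roots := by
    rw [Multiset.le_iff_subset hs]
    intro a ha
    obtain ⟨k, -, rfl⟩ := Multiset.mem_map.1 ha
    exact (mem_roots hne).2 (h k)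
  have hcs : s.card = e + 1 := by simp [s]
  have hnd := spc_natDegree hl
  have hcard : (spc K T Q).roots.card = (spc K T Q).natDegree := by
    refine le_antisymm (card_roots' _) ?_
    rw [hnd, hd, ← hcs]
    exact Multiset.card_le_card hle
  have heq : s = (spc K T Q).roots := by
    refine Multiset.eq_of_le_of_card_le hle ?_
    rw [hcard, hnd, hd, hcs]
  have h1 : ((∏ k, r k : Kˣ) : K) = (spc K T Q).roots.prod := by
    rw [← heq, Units.coe_prod]
    rfl
  rw [h1]
  have h2 := C_leadingCoeff_mul_prod_multiset_X_sub_C hcard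
  have h3 := congrArg (eval 0) h2
  rw [eval_mul, eval_C, eval_multiset_prod, Multiset.map_map, eval_spc_zero,
    spc_leadingCoeff hl] at h3
  have h4 : (Multiset.map (eval 0 ∘ fun a => X - C a) (spc K T Q).roots).prod =
      (-1) ^ (e + 1) * (spc K T Q).roots.prod := by
    have h5 : (eval 0 ∘ fun a : K => X - C a) = fun a => -a := by
      funext a
      simp
    rw [h5, Multiset.prod_map_neg, hcard, spc_natDegree hl, hd]
  rw [h4] at h3
  rw [← h3]
  have h6 : ((-1 : K) ^ (e + 1)) * (-1) ^ (e + 1) = 1 := by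
    rw [← mul_pow]
    simp
  linear_combination (- (spc K T Q).roots.prod * aeval T Q.leadingCoeff) * h6

end

/-- the curve of a polynomial -/
def cur (Q : F[X][X]) : Cur F := fun K _ _ X T =>
  (spc K (T : K) Q).IsRoot (X : K) ∧ Transcendental F (T : K)

/-- the curve of the products of the roots -/
def nor (Q : F[X][X]) : Cur F := fun K _ _ p T =>
  (p : K) * aeval (T : K) Q.leadingCoeff = (-1) ^ Q.natDegree * aeval (T : K) (Q.coeff 0) ∧
    Transcendental F (T : K)

theorem spec_tm {K L : Type} [Field K] [Algebra F K] [Field L] [Algebra F L] {z : ι → Kˣ}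
    {y : ι → Lˣ} (h : Spec F z y) {t s : Fˣ} {m n : ι → ℤ} (h' : tm K t m z = tm K s n z) :
    tm L t m y = tm L s n y := by
  have key : ∀ (K : Type) [Field K] [Algebra F K] (z : ι → Kˣ), tm K t m z = tm K s n z ↔
      ((mon z (m - n) : Kˣ) : K) = algebraMap F K ((s * t⁻¹ : Fˣ) : F) := by
    intro K _ _ z
    rw [sub_eq_add_neg, mon_add, mon_neg, ← val_uo, Units.val_inj, tm, tm]
    have h1 : uo K (s * t⁻¹) = uo K s * (uo K t)⁻¹ := by simp [uo]
    rw [h1, ← div_eq_mul_inv, ← div_eq_mul_inv, div_eq_div_iff_mul_eq_mul, mul_comm (uo K t)]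
  rw [key] at h' ⊢
  exact h.mon h'

/-- **First step: products of roots.** -/
theorem U_nor [CharZero F] {Q : F[X][X]} (hQ : Irreducible Q) (hd : 0 < Q.natDegree)
    (h0 : Q.coeff 0 ≠ 0) (h : U (cur Q)) : U (nor Q) := by
  classical
  intro ι J _ _ t s m n ht hs
  obtain ⟨e, he⟩ : ∃ e, Q.natDegree = e + 1 := ⟨Q.natDegree - 1, by omega⟩
  -- the exponents of the roots
  let mX : J → Fin (e + 1) → ι ⊕ (J × Fin e) → ℤ := fun j => Fin.lastCases
    (Sum.elim (m j) (fun a => if a.1 = j then -1 else 0))
    (fun i => Sum.elim 0 (Pi.single (j, i) 1))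
  let tX : J → Fin (e + 1) → Fˣ := fun j => Fin.lastCases (t j) (fun _ => 1)
  have hlast : ∀ (K : Type) [Field K] [Algebra F K] (y : ι → Kˣ) (x : J × Fin e → Kˣ) (j : J),
      tm K (tX j (Fin.last e)) (mX j (Fin.last e)) (Sum.elim y x) =
        tm K (t j) (m j) y * (∏ i, x (j, i))⁻¹ := by
    intro K _ _ y x j
    simp only [tX, mX, Fin.lastCases_last]
    rw [tm_elim, mon, Fintype.prod_prod_type, Finset.prod_eq_single j]
    · simp
    · intro j' _ hj'
      simp [hj']
    · intro hj
      exact absurd (Finset.mem_univ j) hj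
  have hcast : ∀ (K : Type) [Field K] [Algebra F K] (y : ι → Kˣ) (x : J × Fin e → Kˣ) (j : J)
      (i : Fin e), tm K (tX j i.castSucc) (mX j i.castSucc) (Sum.elim y x) = x (j, i) := by
    intro K _ _ y x j i
    simp only [tX, mX, Fin.lastCases_castSucc]
    rw [tm_elim, mon_single, tm, uo_one, mon_zero, one_mul, one_mul]
  have hT : ∀ (K : Type) [Field K] [Algebra F K] (y : ι → Kˣ) (x : J × Fin e → Kˣ) (j : J),
      tm K (s j) (Sum.elim (n j) 0) (Sum.elim y x) = tm K (s j) (n j) y := by
    intro K _ _ y x j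
    rw [tm_elim, mon_zero, mul_one]
  have hprod : ∀ (K : Type) [Field K] [Algebra F K] (y : ι → Kˣ) (x : J × Fin e → Kˣ) (j : J),
      ∏ k, tm K (tX j k) (mX j k) (Sum.elim y x) = tm K (t j) (m j) y := by
    intro K _ _ y x j
    rw [Fin.prod_univ_castSucc, hlast]
    simp only [hcast]
    rw [mul_comm, mul_assoc, inv_mul_cancel, mul_one]
  have hmain := h (ι ⊕ (J × Fin e)) (J × Fin (e + 1)) (fun a => tX a.1 a.2) (fun a => s a.1)
    (fun a => mX a.1 a.2) (fun a => Sum.elim (n a.1) 0) (by
      rintro ⟨j, k⟩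
      refine Fin.lastCases ?_ (fun i => ?_) k
      · simp only [tX, Fin.lastCases_last]
        exact ht j
      · simp only [tX, Fin.lastCases_castSucc]
        exact tor_one) (fun a => hs a.1)
  have hmain2 := hmain.and (Ψ := fun K _ _ y => ∀ j, Function.Injective fun k =>
    tm K (tX j k) (mX j k) y) (by
      intro K _ _ y K₁ _ _ z _ _ hzy hinj j k k' hkk
      exact hinj j (spec_tm hzy hkk))
  refine hmain2.proj (f := 0) ?_ ?_
  · intro K _ _ y hy
    have hr : ∀ j, ∃ r : Fin (e + 1) → (AlgebraicClosure K)ˣ, Function.Injective r ∧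
        (∀ k, (spc (AlgebraicClosure K)
          ((tm (AlgebraicClosure K) (s j) (n j) (up (AlgebraicClosure K) y) :
            (AlgebraicClosure K)ˣ) : AlgebraicClosure K) Q).IsRoot
            (r k : AlgebraicClosure K)) ∧
        ∏ k, r k = tm (AlgebraicClosure K) (t j) (m j) (up (AlgebraicClosure K) y) := by
      intro j
      have h1 : Transcendental F ((tm (AlgebraicClosure K) (s j) (n j)
          (up (AlgebraicClosure K) y) : (AlgebraicClosure K)ˣ) : AlgebraicClosure K) := by
        rw [tm_up]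
        exact (transcendental_algebraMap_iff (algebraMap K (AlgebraicClosure K)).injective).2
          (hy j).2
      obtain ⟨r, hr1, hr2, hr3⟩ := exists_roots h1 hQ he h0
      refine ⟨r, hr1, hr2, ?_⟩
      have hl := aeval_ne_zero h1 (leadingCoeff_ne_zero.2 hQ.ne_zero)
      apply Units.ext
      refine mul_right_cancel₀ hl ?_
      rw [hr3, tm_up, tm_up]
      change _ = algebraMap K (AlgebraicClosure K) ((tm K (t j) (m j) y : Kˣ) : K) *
        aeval (algebraMap K (AlgebraicClosure K) ((tm K (s j) (n j) y : Kˣ) : K)) Q.leadingCoeff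
      change (-1) ^ (e + 1) *
        aeval (algebraMap K (AlgebraicClosure K) ((tm K (s j) (n j) y : Kˣ) : K)) (Q.coeff 0) = _
      rw [aeval_algebraMap_apply, aeval_algebraMap_apply, ← map_mul, (hy j).1, he, map_mul,
        map_pow, map_neg, map_one]
    choose r hr1 hr2 hr3 using hr
    refine ⟨AlgebraicClosure K, inferInstance, inferInstance, up (AlgebraicClosure K) y,
      fun a => r a.1 a.2.castSucc, ?_, spec_up y, spec_up' y, td_left_le _ _⟩
    have hk : ∀ j k, tm (AlgebraicClosure K) (tX j k) (mX j k)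
        (Sum.elim (up (AlgebraicClosure K) y) fun a : J × Fin e => r a.1 a.2.castSucc) = r j k := by
      intro j k
      refine Fin.lastCases ?_ (fun i => ?_) k
      · rw [hlast, ← hr3 j, Fin.prod_univ_castSucc, mul_comm, ← mul_assoc, inv_mul_cancel, one_mul]
      · rw [hcast]
    refine ⟨?_, ?_⟩
    · rintro ⟨j, k⟩
      change cur Q (AlgebraicClosure K) (tm _ (tX j k) (mX j k) _) (tm _ (s j) _ _)
      rw [hk, hT]
      refine ⟨hr2 j k, ?_⟩
      rw [tm_up]
      exact (transcendental_algebraMap_iff (algebraMap K (AlgebraicClosure K)).injective).2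
          (hy j).2
    · intro j
      have h1 : (fun k => tm (AlgebraicClosure K) (tX j k) (mX j k)
        (Sum.elim (up (AlgebraicClosure K) y) fun a : J × Fin e => r a.1 a.2.castSucc)) = r j :=
        funext (hk j)
      rw [h1]
      exact hr1 j
  · intro K _ _ y x hyx
    obtain ⟨h1, h2⟩ := hyx
    have h3 : ∀ j, Transcendental F ((tm K (s j) (n j) y : Kˣ) : K) := by
      intro j
      have h4 := (h1 (j, 0)).2
      change Transcendental F ((tm K (s j) (Sum.elim (n j) 0) (Sum.elim y x) : Kˣ) : K) at h4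
      rwa [hT] at h4
    have h5 : ∀ j k, (spc K ((tm K (s j) (n j) y : Kˣ) : K) Q).IsRoot
        ((tm K (tX j k) (mX j k) (Sum.elim y x) : Kˣ) : K) := by
      intro j k
      have h4 := (h1 (j, k)).1
      change (spc K ((tm K (s j) (Sum.elim (n j) 0) (Sum.elim y x) : Kˣ) : K) Q).IsRoot
        ((tm K (tX j k) (mX j k) (Sum.elim y x) : Kˣ) : K) at h4
      rwa [hT] at h4
    have hl : ∀ j, aeval ((tm K (s j) (n j) y : Kˣ) : K) Q.leadingCoeff ≠ 0 := fun j =>
      aeval_ne_zero (h3 j) (leadingCoeff_ne_zero.2 hQ.ne_zero)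
    refine ⟨fun j => ⟨?_, h3 j⟩, ?_⟩
    · have h6 := prod_roots he (hl j) (fun k => tm K (tX j k) (mX j k) (Sum.elim y x)) (h2 j) (h5 j)
      rw [hprod] at h6
      rw [he]
      exact h6
    · rw [add_zero]
      refine td_le_of_alg F ?_
      rintro (i | ⟨j, i⟩)
      · have h6 : un y i ∈ Algebra.adjoin F (Set.range (un y)) := Algebra.subset_adjoin ⟨i, rfl⟩
        exact isAlgebraic_algebraMap (A := K) (⟨_, h6⟩ : Algebra.adjoin F (Set.range (un y)))
      · have h6 := h5 j i.castSucc
        rw [hcast] at h6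
        exact alg_trans (alg_tm y (s j) (n j)) (root_alg (hl j) h6)

end

end Pool.Agent.H74.ZP
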