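import Pool.Agent.H74.ZP.MRed

/-!
# Coefficients at opposite vertices of the Newton polytope
-/

set_option autoImplicit false
set_option linter.unusedSectionVars false
set_option linter.style.haveILetI false

namespace Pool.Agent.H74.ZP

open Polynomial Pool.Agent.R948

section

variable {n : ℕ} {F : Type} [Field F]

/-- the extreme coefficients of a sparse polynomial -/
theorem ext_sum (S : Finset (Fin n →₀ ℕ)) (v : Fin n → ℤ) (N : ℤ)
    (hN : ∀ e ∈ S, 0 ≤ ip v e + N) (hinj : ∀ e ∈ S, ∀ e' ∈ S, ip v e = ip v e' → e = e')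
    (c : (Fin n →₀ ℕ) → F) (hc : ∀ e ∈ S, c e ≠ 0) {e₁ e₂ : Fin n →₀ ℕ} (he₁ : e₁ ∈ S)
    (he₂ : e₂ ∈ S) (hmax : ∀ e ∈ S, ip v e ≤ ip v e₁) (hmin : ∀ e ∈ S, ip v e₂ ≤ ip v e) :
    (∑ e ∈ S, monomial (ip v e + N).toNat (c e)) ≠ 0 ∧
      (∑ e ∈ S, monomial (ip v e + N).toNat (c e)).leadingCoeff = c e₁ ∧
      (∑ e ∈ S, monomial (ip v e + N).toNat (c e)).trailingCoeff = c e₂ := by
  classical
  obtain ⟨p, hp⟩ : ∃ p, p = ∑ e ∈ S, monomial (ip v e + N).toNat (c e) := ⟨_, rfl⟩
  rw [← hp]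
  have hcoeff : ∀ e ∈ S, p.coeff (ip v e + N).toNat = c e := by
    intro e he
    rw [hp, finsetSum_coeff, Finset.sum_eq_single e]
    · rw [coeff_monomial, if_pos rfl]
    · intro e' he' hne
      rw [coeff_monomial, if_neg]
      intro h
      apply hne
      apply hinj e' he' e he
      have h1 := hN e he
      have h2 := hN e' he'
      omega
    · intro h
      exact absurd he h
  have hzero : ∀ m, (∀ e ∈ S, (ip v e + N).toNat ≠ m) → p.coeff m = 0 := by
    intro m hm
    rw [hp, finsetSum_coeff]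
    refine Finset.sum_eq_zero fun e he => ?_
    rw [coeff_monomial, if_neg (hm e he)]
  have hne : p ≠ 0 := by
    intro h
    apply hc e₁ he₁
    rw [← hcoeff e₁ he₁, h, coeff_zero]
  have hd : p.natDegree = (ip v e₁ + N).toNat := by
    refine le_antisymm ?_ (le_natDegree_of_ne_zero (by rw [hcoeff e₁ he₁]; exact hc e₁ he₁))
    rw [natDegree_le_iff_coeff_eq_zero]
    intro m hm
    refine hzero m fun e he h => ?_
    have h1 := hmax e he
    have h2 := hN e he
    omega
  have ht : p.natTrailingDegree = (ip v e₂ + N).toNat := by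
    refine le_antisymm (natTrailingDegree_le_of_ne_zero (by
      rw [hcoeff e₂ he₂]; exact hc e₂ he₂)) ?_
    refine le_natTrailingDegree hne fun m hm => ?_
    refine hzero m fun e he h => ?_
    have h1 := hmin e he
    have h2 := hN e he
    omega
  refine ⟨hne, ?_, ?_⟩
  · rw [leadingCoeff, hd, hcoeff e₁ he₁]
  · rw [trailingCoeff, ht, hcoeff e₂ he₂]

/-- **From hypersurfaces to the line, local form.** -/
theorem fin_line_local [IsAlgClosed F] [CharZero F] (f : MvPolynomial (Fin n) F)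
    (w v : Fin n → ℤ) (hinj : ∀ e ∈ face f w, ∀ e' ∈ face f w, ip v e = ip v e' → e = e')
    (hinj' : ∀ e ∈ face f (-w), ∀ e' ∈ face f (-w), ip v e = ip v e' → e = e')
    {e₁ e₂ e₃ e₄ : Fin n →₀ ℕ} (he₁ : e₁ ∈ face f w) (he₂ : e₂ ∈ face f w)
    (he₃ : e₃ ∈ face f (-w)) (he₄ : e₄ ∈ face f (-w)) (h₁ : ∀ e ∈ face f w, ip v e ≤ ip v e₁)
    (h₂ : ∀ e ∈ face f w, ip v e₂ ≤ ip v e) (h₃ : ∀ e ∈ face f (-w), ip v e₃ ≤ ip v e)
    (h₄ : ∀ e ∈ face f (-w), ip v e ≤ ip v e₄)
    (hne : f.coeff e₁ * f.coeff e₃ ≠ f.coeff e₂ * f.coeff e₄)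
    (h : ∀ M, Fin' (powI f M)) (M : ℕ) : Fin' (lineI F M) := by
  classical
  have hsub : ∀ w, ∀ e ∈ face f w, e ∈ f.support := fun w e he => (Finset.mem_filter.1 he).1
  have hmax : ∀ e ∈ f.support, ip w e ≤ ip w e₁ := (Finset.mem_filter.1 he₁).2
  have hmin : ∀ e ∈ f.support, ip w e₃ ≤ ip w e := by
    intro e he
    have := (Finset.mem_filter.1 he₃).2 e he
    rw [ip_neg, ip_neg] at this
    omega
  obtain ⟨e₅, he₅, h2⟩ := Finset.exists_min_image f.support (ip v) ⟨e₁, hsub _ _ he₁⟩
  obtain ⟨a, hae⟩ : ∃ a, a = - ip w e₃ := ⟨_, rfl⟩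
  obtain ⟨b, hbe⟩ : ∃ b, b = - ip v e₅ := ⟨_, rfl⟩
  have ha : ∀ e ∈ f.support, 0 ≤ ip w e + a := fun e he => by
    have := hmin e he
    omega
  have hb : ∀ e ∈ f.support, 0 ≤ ip v e + b := fun e he => by
    have := h2 e he
    omega
  have hS0 : f.support.filter (fun e => (ip w e + a).toNat = 0) = face f (-w) := by
    ext e
    rw [face, Finset.mem_filter, Finset.mem_filter]
    refine and_congr_right fun he => ⟨fun h3 e' he' => ?_, fun h3 => ?_⟩
    · rw [ip_neg, ip_neg]
      have h4 := ha e he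
      have h5 := hmin e' he'
      omega
    · have h4 := h3 e₃ (hsub _ _ he₃)
      rw [ip_neg, ip_neg] at h4
      omega
  have hS1 : f.support.filter (fun e => (ip w e + a).toNat = (ip w e₁ + a).toNat) =
      face f w := by
    ext e
    rw [face, Finset.mem_filter, Finset.mem_filter]
    refine and_congr_right fun he => ⟨fun h3 e' he' => ?_, fun h3 => ?_⟩
    · have h4 := ha e he
      have h5 := ha e₁ (hsub _ _ he₁)
      have h6 := hmax e' he'
      omega
    · have h4 := h3 e₁ (hsub _ _ he₁)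
      have h5 := hmax e he
      omega
  have hcne : ∀ w, ∀ e ∈ face f w, f.coeff e ≠ 0 := fun w e he =>
    MvPolynomial.mem_support_iff.1 (hsub w e he)
  obtain ⟨c1, c2, c3⟩ := ext_sum (face f w) v b (fun e he => hb e (hsub w e he)) hinj
    (fun e => f.coeff e) (hcne w) he₁ he₂ h₁ h₂
  obtain ⟨d1, d2, d3⟩ := ext_sum (face f (-w)) v b (fun e he => hb e (hsub (-w) e he)) hinj'
    (fun e => f.coeff e) (hcne (-w)) he₄ he₃ h₄ h₃
  have hc0 : (red f w v a b).coeff 0 =
      ∑ e ∈ face f (-w), monomial (ip v e + b).toNat (f.coeff e) := by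
    rw [red_coeff, hS0]
  have hcd : (red f w v a b).coeff (ip w e₁ + a).toNat =
      ∑ e ∈ face f w, monomial (ip v e + b).toNat (f.coeff e) := by
    rw [red_coeff, hS1]
  have hdeg : (red f w v a b).natDegree = (ip w e₁ + a).toNat := by
    refine le_antisymm ?_ (le_natDegree_of_ne_zero (by rw [hcd]; exact c1))
    rw [natDegree_le_iff_coeff_eq_zero]
    intro m hm
    rw [red_coeff]
    refine Finset.sum_eq_zero fun e he => ?_
    exfalso
    rw [Finset.mem_filter] at he
    have h4 := hmax e he.1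
    have h5 := ha e he.1
    omega
  have hlc : (red f w v a b).leadingCoeff =
      ∑ e ∈ face f w, monomial (ip v e + b).toNat (f.coeff e) := by
    rw [leadingCoeff, hdeg, hcd]
  refine fin_of_poly' (P := red f w v a b) ?_ ?_ (U_red f w v a b ha hb h) M
  · rw [hc0]
    exact d1
  · intro hfl
    apply hne
    have h3 := hfl.2
    rw [hlc, hc0, c2, c3, d2, d3] at h3
    exact h3

theorem ip_line (W v : Fin n → ℤ) (N j : ℤ) (e : Fin n →₀ ℕ) :
    ip (N • W + j • v) e = N * ip W e + j * ip v e := by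
  simp only [ip, Pi.add_apply, Pi.smul_apply, smul_eq_mul, add_mul, Finset.sum_add_distrib,
    Finset.mul_sum, mul_assoc]

/-- on the next point of the path the face contains the old vertex -/
theorem path_step (f : MvPolynomial (Fin n) F) (W v : Fin n → ℤ) (N : ℤ)
    (hN : ∀ e ∈ f.support, ∀ e' ∈ f.support, ip v e ≠ ip v e' → (ip v e - ip v e') ∣ N) (j : ℤ)
    {e : Fin n →₀ ℕ} (he : e ∈ face f (N • W + j • v))
    (hmax : ∀ e' ∈ face f (N • W + j • v), ip v e' ≤ ip v e) :
    e ∈ face f (N • W + (j + 1) • v) ∧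
      ∀ e' ∈ face f (N • W + (j + 1) • v), ip v e ≤ ip v e' := by
  have heS := (Finset.mem_filter.1 he).1
  have hemax := (Finset.mem_filter.1 he).2
  have key : ∀ e' ∈ f.support, ip (N • W + (j + 1) • v) e' ≤ ip (N • W + (j + 1) • v) e ∧
      (ip (N • W + (j + 1) • v) e' = ip (N • W + (j + 1) • v) e → ip v e ≤ ip v e') := by
    intro e' he'
    have h1 := hemax e' he'
    rw [ip_line, ip_line] at h1 ⊢
    rcases le_or_gt (ip v e') (ip v e) with h2 | h2
    · have h3 : (N * ip W e' + (j + 1) * ip v e') ≤ (N * ip W e + (j + 1) * ip v e) := by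
        linarith
      refine ⟨h3, fun h4 => ?_⟩
      linarith
    · have h3 : ip v e ≠ ip v e' := h2.ne
      obtain ⟨q, hq⟩ := hN e heS e' he' h3
      have h4 : N * ip W e + j * ip v e ≠ N * ip W e' + j * ip v e' := by
        intro h5
        have h6 : e' ∈ face f (N • W + j • v) := by
          refine Finset.mem_filter.2 ⟨he', fun e'' he'' => ?_⟩
          have h7 := hemax e'' he''
          rw [ip_line, ip_line] at h7 ⊢
          linarith
        have h7 := hmax e' h6
        omega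
      have h5 : 0 < (N * ip W e + j * ip v e) - (N * ip W e' + j * ip v e') := by
        rcases lt_or_eq_of_le h1 with h6 | h6
        · linarith
        · exact absurd h6.symm h4
      have h6 : (ip v e - ip v e') * (q * (ip W e - ip W e') + j) =
          (N * ip W e + j * ip v e) - (N * ip W e' + j * ip v e') := by
        rw [hq]
        ring
      have h7 : (ip v e - ip v e') * (q * (ip W e - ip W e') + j) ≥ -(ip v e - ip v e') := by
        have h8 : q * (ip W e - ip W e') + j ≤ -1 := by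
          by_contra h9
          have h10 : 0 ≤ q * (ip W e - ip W e') + j := by omega
          have h11 : (ip v e - ip v e') * (q * (ip W e - ip W e') + j) ≤ 0 :=
            mul_nonpos_of_nonpos_of_nonneg (by linarith) h10
          linarith
        nlinarith
      refine ⟨by linarith, fun h8 => by linarith⟩
  refine ⟨Finset.mem_filter.2 ⟨heS, fun e' he' => (key e' he').1⟩, fun e' he' => ?_⟩
  have h1 := (Finset.mem_filter.1 he').1
  have h2 := (Finset.mem_filter.1 he').2 e heS
  exact (key e' h1).2 (le_antisymm (key e' h1).1 h2)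

theorem ip_smul' (N : ℤ) (W : Fin n → ℤ) (e : Fin n →₀ ℕ) : ip (N • W) e = N * ip W e := by
  simp only [ip, Pi.smul_apply, smul_eq_mul, Finset.mul_sum, mul_assoc]

theorem face_smul (f : MvPolynomial (Fin n) F) (W : Fin n → ℤ) {N : ℤ} (hN : 0 < N) :
    face f (N • W) = face f W := by
  ext e
  rw [face, face, Finset.mem_filter, Finset.mem_filter]
  refine and_congr_right fun _ => forall₂_congr fun e' _ => ?_
  rw [ip_smul', ip_smul']
  exact mul_le_mul_iff_right₀ hN

/-- an injective direction with the same vertex -/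
theorem exists_inj_dir (f : MvPolynomial (Fin n) F) (w : Fin n → ℤ) {e₁ e₂ : Fin n →₀ ℕ}
    (h1 : face f w = {e₁}) (h2 : face f (-w) = {e₂}) : ∃ W : Fin n → ℤ,
      (∀ e ∈ f.support, ∀ e' ∈ f.support, ip W e = ip W e' → e = e') ∧ face f W = {e₁} ∧
        face f (-W) = {e₂} := by
  classical
  obtain ⟨u, hu⟩ := exists_inj f.support
  obtain ⟨c, hc⟩ : ∃ c : ℤ, ∀ e ∈ f.support, |ip u e| ≤ c := by
    refine ⟨∑ e ∈ f.support, |ip u e|, fun e he => ?_⟩
    exact Finset.single_le_sum (f := fun e => |ip u e|) (fun _ _ => abs_nonneg _) he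
  have he₁ : e₁ ∈ face f w := by rw [h1]; exact Finset.mem_singleton_self _
  have he₂ : e₂ ∈ face f (-w) := by rw [h2]; exact Finset.mem_singleton_self _
  have hs₁ := (Finset.mem_filter.1 he₁).1
  have hs₂ := (Finset.mem_filter.1 he₂).1
  have hc0 : 0 ≤ c := (abs_nonneg _).trans (hc e₁ hs₁)
  have hlt₁ : ∀ e ∈ f.support, e ≠ e₁ → ip w e + 1 ≤ ip w e₁ := by
    intro e he hne
    have h3 : e ∉ face f w := by rw [h1, Finset.mem_singleton]; exact hne
    have h4 := (Finset.mem_filter.1 he₁).2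
    by_contra h5
    apply h3
    refine Finset.mem_filter.2 ⟨he, fun e' he' => ?_⟩
    have h6 := h4 e' he'
    have h7 := h4 e he
    omega
  have hlt₂ : ∀ e ∈ f.support, e ≠ e₂ → ip w e₂ + 1 ≤ ip w e := by
    intro e he hne
    have h3 : e ∉ face f (-w) := by rw [h2, Finset.mem_singleton]; exact hne
    have h4 := (Finset.mem_filter.1 he₂).2
    by_contra h5
    apply h3
    refine Finset.mem_filter.2 ⟨he, fun e' he' => ?_⟩
    have h6 := h4 e' he'
    have h7 := h4 e he
    rw [ip_neg, ip_neg] at h6 h7 ⊢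
    omega
  have hW : ∀ e, ip ((2 * c + 1) • w + u) e = (2 * c + 1) * ip w e + ip u e := fun e =>
    ip_smul_add _ _ _ _
  refine ⟨(2 * c + 1) • w + u, fun e he e' he' h => hu e he e' he' ?_, ?_, ?_⟩
  · rw [hW, hW] at h
    have h5 := abs_le.1 (hc e he)
    have h6 := abs_le.1 (hc e' he')
    have h8 : ip w e - ip w e' = 0 := by
      by_contra h9
      rcases lt_or_gt_of_ne h9 with h9 | h9
      · have h10 : (2 * c + 1) * (ip w e - ip w e') ≤ (2 * c + 1) * (-1) :=
          mul_le_mul_of_nonneg_left (by omega) (by linarith)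
        linarith
      · have h10 : (2 * c + 1) * 1 ≤ (2 * c + 1) * (ip w e - ip w e') :=
          mul_le_mul_of_nonneg_left (by omega) (by linarith)
        linarith
    have h9 : (2 * c + 1) * ip w e = (2 * c + 1) * ip w e' := by
      rw [sub_eq_zero.1 h8]
    linarith
  · have key : ∀ e ∈ f.support, e ≠ e₁ →
        ip ((2 * c + 1) • w + u) e < ip ((2 * c + 1) • w + u) e₁ := by
      intro e he hne
      rw [hW, hW]
      have h5 := abs_le.1 (hc e he)
      have h6 := abs_le.1 (hc e₁ hs₁)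
      have h7 : (2 * c + 1) * (ip w e + 1) ≤ (2 * c + 1) * ip w e₁ :=
        mul_le_mul_of_nonneg_left (hlt₁ e he hne) (by linarith)
      linarith
    ext e
    rw [Finset.mem_singleton]
    constructor
    · intro he
      by_contra hne
      have h5 := key e (Finset.mem_filter.1 he).1 hne
      have h6 := (Finset.mem_filter.1 he).2 e₁ hs₁
      omega
    · rintro rfl
      refine Finset.mem_filter.2 ⟨hs₁, fun e' he' => ?_⟩
      by_cases h5 : e' = e
      · rw [h5]
      · exact (key e' he' h5).le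
  · have key : ∀ e ∈ f.support, e ≠ e₂ →
        ip ((2 * c + 1) • w + u) e₂ < ip ((2 * c + 1) • w + u) e := by
      intro e he hne
      rw [hW, hW]
      have h5 := abs_le.1 (hc e he)
      have h6 := abs_le.1 (hc e₂ hs₂)
      have h7 : (2 * c + 1) * (ip w e₂ + 1) ≤ (2 * c + 1) * ip w e :=
        mul_le_mul_of_nonneg_left (hlt₂ e he hne) (by linarith)
      linarith
    ext e
    rw [Finset.mem_singleton]
    constructor
    · intro he
      by_contra hne
      have h5 := key e (Finset.mem_filter.1 he).1 hne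
      have h6 := (Finset.mem_filter.1 he).2 e₂ hs₂
      rw [ip_neg, ip_neg] at h6
      omega
    · rintro rfl
      refine Finset.mem_filter.2 ⟨hs₂, fun e' he' => ?_⟩
      rw [ip_neg, ip_neg]
      by_cases h5 : e' = e
      · rw [h5]
      · have := key e' he' h5
        omega

/-- **From opposite vertices to adjacent vertices.** -/
theorem exists_local (f : MvPolynomial (Fin n) F) (w w' : Fin n → ℤ)
    {e₁ e₂ e₃ e₄ : Fin n →₀ ℕ} (h1 : face f w = {e₁}) (h2 : face f (-w) = {e₂})
    (h3 : face f w' = {e₃}) (h4 : face f (-w') = {e₄})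
    (hne : f.coeff e₁ * f.coeff e₂ ≠ f.coeff e₃ * f.coeff e₄) :
    ∃ (w₀ v : Fin n → ℤ) (a₁ a₂ a₃ a₄ : Fin n →₀ ℕ),
      (∀ e ∈ face f w₀, ∀ e' ∈ face f w₀, ip v e = ip v e' → e = e') ∧
      (∀ e ∈ face f (-w₀), ∀ e' ∈ face f (-w₀), ip v e = ip v e' → e = e') ∧
      a₁ ∈ face f w₀ ∧ a₂ ∈ face f w₀ ∧ a₃ ∈ face f (-w₀) ∧ a₄ ∈ face f (-w₀) ∧
      (∀ e ∈ face f w₀, ip v e ≤ ip v a₁) ∧ (∀ e ∈ face f w₀, ip v a₂ ≤ ip v e) ∧
      (∀ e ∈ face f (-w₀), ip v a₃ ≤ ip v e) ∧ (∀ e ∈ face f (-w₀), ip v e ≤ ip v a₄) ∧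
      f.coeff a₁ * f.coeff a₃ ≠ f.coeff a₂ * f.coeff a₄ := by
  classical
  obtain ⟨W, hW, hW1, hW2⟩ := exists_inj_dir f w h1 h2
  obtain ⟨v, hv⟩ : ∃ v, v = w' - W := ⟨_, rfl⟩
  obtain ⟨N, hNpos, hN⟩ : ∃ N : ℕ, 0 < N ∧ ∀ e ∈ f.support, ∀ e' ∈ f.support,
      ip v e ≠ ip v e' → (ip v e - ip v e') ∣ (N : ℤ) := by
    refine ⟨∏ p ∈ f.support ×ˢ f.support,
      if ip v p.1 = ip v p.2 then 1 else (ip v p.1 - ip v p.2).natAbs, ?_, ?_⟩
    · refine Finset.prod_pos fun p _ => ?_
      split_ifs with h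
      · exact one_pos
      · exact Int.natAbs_pos.2 (sub_ne_zero.2 h)
    · intro e he e' he' hne
      have h5 := Finset.dvd_prod_of_mem (fun p : (Fin n →₀ ℕ) × (Fin n →₀ ℕ) =>
        if ip v p.1 = ip v p.2 then 1 else (ip v p.1 - ip v p.2).natAbs)
        (Finset.mk_mem_product he he')
      simp only [if_neg hne] at h5
      exact Int.natAbs_dvd.1 (Int.natCast_dvd_natCast.2 h5)
  have hN' : ∀ e ∈ f.support, ∀ e' ∈ f.support, ip (-v) e ≠ ip (-v) e' →
      (ip (-v) e - ip (-v) e') ∣ (N : ℤ) := by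
    intro e he e' he' hne
    rw [ip_neg, ip_neg] at hne ⊢
    have h5 := hN e he e' he' (fun h => hne (by rw [h]))
    have h6 : -ip v e - -ip v e' = -(ip v e - ip v e') := by ring
    rw [h6]
    exact (neg_dvd).2 h5
  obtain ⟨D, hD⟩ : ∃ D : ℕ → (Fin n → ℤ), ∀ j, D j = (N : ℤ) • W + (j : ℤ) • v :=
    ⟨_, fun _ => rfl⟩
  have hDn : ∀ j, -D j = (N : ℤ) • (-W) + (j : ℤ) • (-v) := by
    intro j
    rw [hD, smul_neg, smul_neg, neg_add]
  have hinj : ∀ j, ∀ e ∈ face f (D j), ∀ e' ∈ face f (D j), ip v e = ip v e' → e = e' := by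
    intro j e he e' he' h5
    have h6 := (Finset.mem_filter.1 he).2 e' (Finset.mem_filter.1 he').1
    have h7 := (Finset.mem_filter.1 he').2 e (Finset.mem_filter.1 he).1
    refine hW e (Finset.mem_filter.1 he).1 e' (Finset.mem_filter.1 he').1 ?_
    have h8 := le_antisymm h7 h6
    rw [hD, ip_line, ip_line, h5] at h8
    have h9 : (N : ℤ) * ip W e = N * ip W e' := by linarith
    exact mul_left_cancel₀ (by exact_mod_cast hNpos.ne') h9
  have hinj' : ∀ j, ∀ e ∈ face f (-D j), ∀ e' ∈ face f (-D j), ip v e = ip v e' → e = e' := by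
    intro j e he e' he' h5
    have h6 := (Finset.mem_filter.1 he).2 e' (Finset.mem_filter.1 he').1
    have h7 := (Finset.mem_filter.1 he').2 e (Finset.mem_filter.1 he).1
    refine hW e (Finset.mem_filter.1 he).1 e' (Finset.mem_filter.1 he').1 ?_
    have h8 := le_antisymm h7 h6
    rw [ip_neg, ip_neg, hD, ip_line, ip_line, h5] at h8
    have h9 : (N : ℤ) * ip W e = N * ip W e' := by linarith
    exact mul_left_cancel₀ (by exact_mod_cast hNpos.ne') h9
  have hf : f.support.Nonempty := by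
    refine ⟨e₁, ?_⟩
    have : e₁ ∈ face f w := by rw [h1]; exact Finset.mem_singleton_self _
    exact (Finset.mem_filter.1 this).1
  have hface : ∀ w : Fin n → ℤ, (face f w).Nonempty := by
    intro w
    obtain ⟨e, he, h1⟩ := Finset.exists_max_image f.support (ip w) hf
    exact ⟨e, Finset.mem_filter.2 ⟨he, h1⟩⟩
  have hR := fun j => Finset.exists_max_image (face f (D j)) (ip v) (hface _)
  have hL := fun j => Finset.exists_min_image (face f (D j)) (ip v) (hface _)
  have hR' := fun j => Finset.exists_min_image (face f (-D j)) (ip v) (hface _)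
  have hL' := fun j => Finset.exists_max_image (face f (-D j)) (ip v) (hface _)
  choose R hR1 hR2 using hR
  choose L hL1 hL2 using hL
  choose R' hR'1 hR'2 using hR'
  choose L' hL'1 hL'2 using hL'
  by_contra hcon
  apply hne
  have hloc : ∀ j, f.coeff (R j) * f.coeff (R' j) = f.coeff (L j) * f.coeff (L' j) := by
    intro j
    by_contra h5
    exact hcon ⟨D j, v, R j, L j, R' j, L' j, hinj j, hinj' j, hR1 j, hL1 j, hR'1 j, hL'1 j,
      hR2 j, hL2 j, hR'2 j, hL'2 j, h5⟩
  have hstep : ∀ j, R j = L (j + 1) := by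
    intro j
    have h5 := path_step f W v N hN j (e := R j) (by rw [← hD]; exact hR1 j)
      (by rw [← hD]; exact hR2 j)
    have h6 : ((j : ℤ) + 1) = ((j + 1 : ℕ) : ℤ) := by push_cast; rfl
    rw [h6, ← hD] at h5
    exact hinj (j + 1) _ h5.1 _ (hL1 (j + 1)) (le_antisymm (h5.2 _ (hL1 (j + 1)))
      (hL2 (j + 1) _ h5.1))
  have hstep' : ∀ j, R' j = L' (j + 1) := by
    intro j
    have h5 := path_step f (-W) (-v) N hN' j (e := R' j) (by rw [← hDn]; exact hR'1 j) (by
      rw [← hDn]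
      intro e he
      rw [ip_neg, ip_neg]
      exact neg_le_neg (hR'2 j e he))
    have h6 : ((j : ℤ) + 1) = ((j + 1 : ℕ) : ℤ) := by push_cast; rfl
    rw [h6, ← hDn] at h5
    have h7 := h5.2 _ (hL'1 (j + 1))
    rw [ip_neg, ip_neg] at h7
    exact hinj' (j + 1) _ h5.1 _ (hL'1 (j + 1)) (le_antisymm (hL'2 (j + 1) _ h5.1)
      (neg_le_neg_iff.1 h7))
  have hconst : ∀ j : ℕ, f.coeff (L j) * f.coeff (L' j) = f.coeff (L 0) * f.coeff (L' 0) := by
    intro j
    induction j with
    | zero => rfl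
    | succ j ih => rw [← hstep, ← hstep', hloc, ih]
  have hNz : (0 : ℤ) < N := by exact_mod_cast hNpos
  have e0 : face f (D 0) = {e₁} := by
    have : D 0 = (N : ℤ) • W := by
      rw [hD]
      simp
    rw [this, face_smul f W hNz, hW1]
  have e0' : face f (-D 0) = {e₂} := by
    have : -D 0 = (N : ℤ) • (-W) := by
      rw [hDn]
      simp
    rw [this, face_smul f (-W) hNz, hW2]
  have eN : face f (D N) = {e₃} := by
    have : D N = (N : ℤ) • w' := by
      rw [hD, hv, smul_sub]
      simp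
    rw [this, face_smul f w' hNz, h3]
  have eN' : face f (-D N) = {e₄} := by
    have : -D N = (N : ℤ) • (-w') := by
      rw [hD, hv, smul_sub]
      simp
    rw [this, face_smul f (-w') hNz, h4]
  have f1 : L 0 = e₁ := by
    have := hL1 0
    rwa [e0, Finset.mem_singleton] at this
  have f2 : L' 0 = e₂ := by
    have := hL'1 0
    rwa [e0', Finset.mem_singleton] at this
  have f3 : L N = e₃ := by
    have := hL1 N
    rwa [eN, Finset.mem_singleton] at this
  have f4 : L' N = e₄ := by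
    have := hL'1 N
    rwa [eN', Finset.mem_singleton] at this
  rw [← f1, ← f2, ← f3, ← f4, hconst N]

end

/-- **Universality of the powers of a hypersurface with different products of the coefficients at
opposite vertices.** -/
theorem zp_iff' {n : ℕ} {k : Type} [Field k] [IsAlgClosed k] [CharZero k]
    (f : MvPolynomial (Fin n) k) (w w' : Fin n → ℤ) (e₁ e₂ e₃ e₄ : Fin n →₀ ℕ)
    (h1 : face f w = {e₁}) (h2 : face f (-w) = {e₂}) (h3 : face f w' = {e₃})
    (h4 : face f (-w') = {e₄}) (hne : f.coeff e₁ * f.coeff e₂ ≠ f.coeff e₃ * f.coeff e₄) :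
    ZilberPinkForTori ↔ ∀ M : ℕ, {A | Optimal A (hypPow f M)}.Finite := by
  haveI : Algebra.IsAlgebraic ℚ (AlgebraicClosure ℚ) := AlgebraicClosure.isAlgebraic ℚ
  letI : Algebra (AlgebraicClosure ℚ) k :=
    (IsAlgClosed.lift (R := ℚ) (S := AlgebraicClosure ℚ) (M := k)).toRingHom.toAlgebra
  constructor
  · intro h M
    have h1 := zilberPink_iff.1 h
    have h2 : ZClosed (hypPow f M) := by
      rw [hypPow_eq]
      exact zclosed_zeros _
    exact finite_optimal h2 (fin_aux (AlgebraicClosure.isAlgebraic ℚ)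
      (fun M => fin_lineI M (h1 M)) k _)
  · intro h k' _ _ _ ι _ V hV
    refine finite_optimal hV.closed (fin_aux (AlgebraicClosure.isAlgebraic ℚ) (fun M => ?_) k' _)
    refine fin_descent (k := k) (lineI (AlgebraicClosure ℚ) M) ?_
    rw [lineI_map]
    obtain ⟨w₀, v, a₁, a₂, a₃, a₄, b1, b2, b3, b4, b5, b6, b7, b8, b9, b10, b11⟩ :=
      exists_local f w w' h1 h2 h3 h4 hne
    exact fin_line_local f w₀ v b1 b2 b3 b4 b5 b6 b7 b8 b9 b10 b11
      (fun M => fin_powI f M (h M)) M

end Pool.Agent.H74.ZP
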