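import Pool.Agent.H74.ZP.New

/-!
# Places
-/

set_option autoImplicit false
set_option linter.unusedSectionVars false
set_option linter.style.haveILetI false

namespace Pool.Agent.H74.ZP

open Polynomial Pool.Agent.R948

section

variable {K Γ : Type} [Field K] [LinearOrderedCommGroupWithZero Γ] (v : Valuation K Γ)

theorem v_nat_le (n : ℕ) : v (n : K) ≤ 1 := by
  induction n with
  | zero =>
    rw [Nat.cast_zero, map_zero]
    exact zero_le_one
  | succ n ih =>
    rw [Nat.cast_succ]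
    exact (v.map_add _ _).trans (max_le ih (by rw [map_one]))

theorem v_one_add {τ : K} (h : v τ < 1) : v (1 + τ) ≤ 1 :=
  (v.map_add _ _).trans (max_le (by rw [map_one]) h.le)

theorem v_pow_sub_one {τ : K} (h : v τ < 1) (n : ℕ) : v ((1 + τ) ^ n - 1) ≤ v τ := by
  induction n with
  | zero =>
    rw [pow_zero, sub_self, map_zero]
    exact zero_le
  | succ n ih =>
    have h1 : (1 + τ) ^ (n + 1) - 1 = ((1 + τ) ^ n - 1) * (1 + τ) + τ := by ring
    rw [h1]
    refine (v.map_add _ _).trans (max_le ?_ le_rfl)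
    rw [map_mul]
    exact (mul_le_mul' ih (v_one_add v h)).trans (mul_one _).le

theorem v_pow_sub {τ : K} (h : v τ < 1) (n : ℕ) :
    v ((1 + τ) ^ n - 1 - n * τ) ≤ v τ * v τ := by
  induction n with
  | zero =>
    rw [pow_zero, sub_self, Nat.cast_zero, zero_mul, sub_zero, map_zero]
    exact zero_le
  | succ n ih =>
    have h1 : (1 + τ) ^ (n + 1) - 1 - ((n + 1 : ℕ) : K) * τ =
        ((1 + τ) ^ n - 1 - n * τ) * (1 + τ) + n * (τ * τ) := by
      push_cast
      ring
    rw [h1]
    refine (v.map_add _ _).trans (max_le ?_ ?_)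
    · rw [map_mul]
      exact (mul_le_mul' ih (v_one_add v h)).trans (mul_one _).le
    · rw [map_mul, map_mul]
      exact (mul_le_mul' (v_nat_le v n) le_rfl).trans (one_mul _).le

/-- the first order terms -/
theorem first_order {τ₁ τ₂ τ₃ : K} {k : ℕ} (hk : v (k : K) = 1) (h1 : v τ₁ < 1) (h2 : v τ₂ < 1)
    (h : (1 + τ₃) * (1 + τ₂) ^ k = (1 + τ₁) ^ (k + 1)) (h0 : τ₃ ≠ 0)
    (h13 : v τ₁ < v τ₃) : v τ₂ = v τ₃ ∧ v (τ₃ + k * τ₂) < v τ₃ := by
  have hτ3 : 0 < v τ₃ := zero_lt_iff.2 ((map_ne_zero v).2 h0)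
  have e1 : τ₃ + k * τ₂ = ((1 + τ₁) ^ (k + 1) - 1) - ((1 + τ₂) ^ k - 1 - k * τ₂) -
      τ₃ * ((1 + τ₂) ^ k - 1) := by
    linear_combination h
  have hM : v (τ₃ + k * τ₂) < max (v τ₂) (v τ₃) := by
    rw [e1]
    refine v.map_sub_lt (v.map_sub_lt ?_ ?_) ?_
    · exact ((v_pow_sub_one v h1 _).trans_lt h13).trans_le (le_max_right _ _)
    · refine (v_pow_sub v h2 k).trans_lt ?_
      by_cases h4 : v τ₂ = 0
      · rw [h4, mul_zero]
        exact hτ3.trans_le (le_max_right _ _)
      · refine lt_of_lt_of_le ?_ (le_max_left _ _)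
        exact (mul_lt_mul_of_pos_right h2 (zero_lt_iff.2 h4)).trans_le (one_mul _).le
    · rw [map_mul]
      refine lt_of_le_of_lt (mul_le_mul' le_rfl (v_pow_sub_one v h2 k)) ?_
      refine lt_of_lt_of_le ?_ (le_max_right _ _)
      exact (mul_lt_mul_of_pos_left h2 hτ3).trans_le (mul_one _).le
  have hkτ : v ((k : K) * τ₂) = v τ₂ := by
    rw [map_mul, hk, one_mul]
  have h23 : v τ₂ = v τ₃ := by
    by_contra hne
    have h4 : v (τ₃ + k * τ₂) = max (v τ₃) (v ((k : K) * τ₂)) :=
      v.map_add_of_distinct_val (by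
        rw [hkτ]
        exact Ne.symm hne)
    rw [h4, hkτ, max_comm] at hM
    exact lt_irrefl _ hM
  refine ⟨h23, ?_⟩
  rw [h23, max_self] at hM
  exact hM

end

theorem exists_val {F K : Type} [Field F] [Field K] [Algebra F K] {z : K}
    (hz : Transcendental F z) : ∃ (Γ : Type) (_ : LinearOrderedCommGroupWithZero Γ)
    (v : Valuation K Γ), (∀ c : F, c ≠ 0 → v (algebraMap F K c) = 1) ∧ v z < 1 := by
  have hinj := transcendental_iff_injective.1 hz
  let A : Subring K := (aeval z : F[X] →ₐ[F] K).toRingHom.range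
  have hzA : z ∈ A := ⟨X, aeval_X z⟩
  have hI : (Ideal.span {(⟨z, hzA⟩ : A)}) ≠ ⊤ := by
    intro h
    rw [Ideal.span_singleton_eq_top] at h
    obtain ⟨⟨_, p, rfl⟩, hp⟩ := h.exists_right_inv
    have h1 : aeval z (X * p) = aeval z (1 : F[X]) := by
      rw [map_mul, aeval_X, map_one]
      exact congrArg Subtype.val hp
    have h2 := congrArg (fun q => q.coeff 0) (hinj h1)
    simp at h2
  obtain ⟨B, hB1, hB2⟩ := Ideal.image_subset_nonunits_valuationSubring _ hI
  have hF : ∀ c : F, algebraMap F K c ∈ B := fun c => hB1 ⟨C c, aeval_C z c⟩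
  refine ⟨B.ValueGroup, inferInstance, B.valuation, fun c hc => ?_, ?_⟩
  · have h1 := (B.valuation_le_one_iff _).2 (hF c)
    have h2 := (B.valuation_le_one_iff _).2 (hF c⁻¹)
    rw [map_inv₀, map_inv₀] at h2
    have h3 : B.valuation (algebraMap F K c) ≠ 0 := by
      rw [Ne, map_eq_zero, map_eq_zero_iff _ (algebraMap F K).injective]
      exact hc
    refine le_antisymm h1 ?_
    exact (inv_le_one₀ (zero_lt_iff.2 h3)).1 h2
  · rw [← ValuationSubring.mem_nonunits_iff]
    exact hB2 ⟨⟨z, hzA⟩, Ideal.mem_span_singleton_self _, rfl⟩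

/-- **Existence of a place.** -/
theorem exists_place (F : Type) [Field F] : ∃ (K : Type) (_ : Field K) (_ : Algebra F K)
    (_ : IsAlgClosed K) (Γ : Type) (_ : LinearOrderedCommGroupWithZero Γ) (v : Valuation K Γ),
    (∀ c : F, c ≠ 0 → v (algebraMap F K c) = 1) ∧ ∃ z : K, z ≠ 0 ∧ v z < 1 := by
  have h1 : Transcendental F (RatFunc.X : RatFunc F) := by
    rw [← RatFunc.algebraMap_X]
    exact (transcendental_algebraMap_iff (RatFunc.algebraMap_injective F)).2
      (Polynomial.transcendental_X F)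
  have hz : Transcendental F (algebraMap (RatFunc F) (AlgebraicClosure (RatFunc F)) RatFunc.X) :=
    (transcendental_algebraMap_iff
      (algebraMap (RatFunc F) (AlgebraicClosure (RatFunc F))).injective).2 h1
  obtain ⟨Γ, hΓ, v, hv, hvz⟩ := exists_val hz
  refine ⟨AlgebraicClosure (RatFunc F), inferInstance, inferInstance, inferInstance, Γ, hΓ, v, hv,
    _, fun h => hz ?_, hvz⟩
  rw [h]
  exact isAlgebraic_zero

end Pool.Agent.H74.ZP
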