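import Pool.Agent.H74.ZP.Hyp

/-!
# Newton polytopes
-/

set_option autoImplicit false
set_option linter.unusedSectionVars false
set_option linter.style.haveILetI false

namespace Pool.Agent.H74.ZP

open Polynomial Pool.Agent.R948

section defs

variable {n : ℕ}

/-- the value of a linear form with integral coefficients on an exponent -/
def ip (w : Fin n → ℤ) (e : Fin n →₀ ℕ) : ℤ := ∑ i, w i * (e i : ℤ)

/-- The exponents of `f` on the face of the Newton polytope on which `w` is maximal. -/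
def face {k : Type} [Field k] (f : MvPolynomial (Fin n) k) (w : Fin n → ℤ) :
    Finset (Fin n →₀ ℕ) :=
  f.support.filter fun e => ∀ e' ∈ f.support, ip w e' ≤ ip w e

/-- The width of a set of exponents in the direction `v`: the maximum of `v (e - e')`. -/
def width (S : Finset (Fin n →₀ ℕ)) (v : Fin n → ℤ) : ℕ :=
  (S ×ˢ S).sup fun p => (ip v p.1 - ip v p.2).toNat

/-- The power `V ^ M` of the hypersurface `V : f = 0` in the torus `G_m ^ n`. -/
def hypPow {k : Type} [Field k] (f : MvPolynomial (Fin n) k) (M : ℕ) :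
    Set (Fin M × Fin n → kˣ) :=
  {x | ∀ i, MvPolynomial.eval (fun j => (x (i, j) : k)) f = 0}

end defs

section

variable {n : ℕ} {F : Type} [Field F]

theorem ip_smul_add (K : ℤ) (u v : Fin n → ℤ) (e : Fin n →₀ ℕ) :
    ip (K • v + u) e = K * ip v e + ip u e := by
  simp only [ip, Pi.add_apply, Pi.smul_apply, smul_eq_mul, add_mul, Finset.sum_add_distrib,
    Finset.mul_sum, mul_assoc]

/-- a linear form which separates the elements of a finite set of exponents -/
theorem exists_inj (S : Finset (Fin n →₀ ℕ)) : ∃ u : Fin n → ℤ, ∀ e ∈ S, ∀ e' ∈ S,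
    ip u e = ip u e' → e = e' := by
  obtain ⟨B, hB⟩ : ∃ B : ℕ, ∀ e ∈ S, ∀ i, e i < B := by
    refine ⟨(S.sup fun e => ∑ i, e i) + 1, fun e he i => ?_⟩
    have h1 : (∑ i, e i) ≤ S.sup fun e => ∑ i, e i := Finset.le_sup (f := fun e => ∑ i, e i) he
    have h2 : e i ≤ ∑ i, e i := Finset.single_le_sum (f := fun i => e i)
      (fun _ _ => Nat.zero_le _) (Finset.mem_univ i)
    omega
  refine ⟨fun i => (B : ℤ) ^ (i : ℕ), fun e he e' he' h => ?_⟩
  have key : ∀ e ∈ S, ∀ he : ∀ i, e i < B, ip (fun i => (B : ℤ) ^ (i : ℕ)) e =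
      ((finFunctionFinEquiv (fun i : Fin n => (⟨e i, he i⟩ : Fin B)) : Fin (B ^ n)) : ℕ) := by
    intro e _ he
    rw [finFunctionFinEquiv_apply, ip]
    push_cast
    refine Finset.sum_congr rfl fun i _ => ?_
    ring
  rw [key e he (hB e he), key e' he' (hB e' he')] at h
  have h2 : (finFunctionFinEquiv (fun i : Fin n => (⟨e i, hB e he i⟩ : Fin B)) : Fin (B ^ n)) =
      finFunctionFinEquiv (fun i : Fin n => (⟨e' i, hB e' he' i⟩ : Fin B)) :=
    Fin.ext (by exact_mod_cast h)
  have h3 := finFunctionFinEquiv.injective h2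
  ext i
  have h4 := congrFun h3 i
  simpa using h4

theorem le_width {S : Finset (Fin n →₀ ℕ)} {v : Fin n → ℤ} {e e' : Fin n →₀ ℕ} (he : e ∈ S)
    (he' : e' ∈ S) : ip v e - ip v e' ≤ width S v := by
  have h1 := Finset.le_sup (f := fun p : (Fin n →₀ ℕ) × (Fin n →₀ ℕ) =>
    (ip v p.1 - ip v p.2).toNat) (Finset.mk_mem_product he he')
  have h2 : (ip v e - ip v e').toNat ≤ width S v := h1
  omega

theorem exists_width {S : Finset (Fin n →₀ ℕ)} (hS : S.Nonempty) (v : Fin n → ℤ) :
    ∃ e ∈ S, ∃ e' ∈ S, ip v e - ip v e' = width S v := by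
  obtain ⟨⟨e, e'⟩, h1, h2⟩ := Finset.exists_mem_eq_sup (S ×ˢ S) (hS.product hS)
    (fun p => (ip v p.1 - ip v p.2).toNat)
  rw [Finset.mem_product] at h1
  have h3 : width S v = (ip v e - ip v e').toNat := h2
  by_cases h4 : 0 ≤ ip v e - ip v e'
  · exact ⟨e, h1.1, e', h1.2, by omega⟩
  · refine ⟨e, h1.1, e, h1.1, by omega⟩

/-- perturbation of the direction -/
theorem exists_direction (S A B : Finset (Fin n →₀ ℕ)) (hA : A ⊆ S) (hB : B ⊆ S)
    (hA0 : A.Nonempty) (hB0 : B.Nonempty) (v : Fin n → ℤ) (h : width A v ≠ width B v) :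
    ∃ v' : Fin n → ℤ, (∀ e ∈ S, ∀ e' ∈ S, ip v' e = ip v' e' → e = e') ∧
      width A v' ≠ width B v' := by
  obtain ⟨u, hu⟩ := exists_inj S
  obtain ⟨c, hc⟩ : ∃ c : ℤ, ∀ e ∈ S, |ip u e| ≤ c := by
    refine ⟨∑ e ∈ S, |ip u e|, fun e he => ?_⟩
    exact Finset.single_le_sum (f := fun e => |ip u e|) (fun _ _ => abs_nonneg _) he
  have hc0 : 0 ≤ c := by
    obtain ⟨e, he⟩ := hA0
    exact (abs_nonneg _).trans (hc e (hA he))
  have hw : ∀ T : Finset (Fin n →₀ ℕ), T ⊆ S → T.Nonempty →
      |(width T ((4 * c + 1) • v + u) : ℤ) - (4 * c + 1) * width T v| ≤ 2 * c := by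
    intro T hT hT0
    obtain ⟨e, he, e', he', h1⟩ := exists_width hT0 v
    obtain ⟨g, hg, g', hg', h2⟩ := exists_width hT0 ((4 * c + 1) • v + u)
    have h3 := le_width (v := (4 * c + 1) • v + u) he he'
    have h4 := le_width (v := v) hg hg'
    rw [ip_smul_add, ip_smul_add] at h2 h3
    have h5 := abs_le.1 (hc e (hT he))
    have h6 := abs_le.1 (hc e' (hT he'))
    have h7 := abs_le.1 (hc g (hT hg))
    have h8 := abs_le.1 (hc g' (hT hg'))
    rw [abs_le]
    constructor
    · rw [← h1]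
      linarith
    · have h9 : (4 * c + 1) * (ip v g - ip v g') ≤ (4 * c + 1) * (width T v : ℤ) :=
        mul_le_mul_of_nonneg_left h4 (by linarith)
      rw [← h2]
      linarith
  refine ⟨(4 * c + 1) • v + u, fun e he e' he' h1 => hu e he e' he' ?_, fun h1 => ?_⟩
  · rw [ip_smul_add, ip_smul_add] at h1
    have h5 := abs_le.1 (hc e he)
    have h6 := abs_le.1 (hc e' he')
    have h7 : (4 * c + 1) * (ip v e - ip v e') = ip u e' - ip u e := by linarith
    have h8 : ip v e - ip v e' = 0 := by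
      by_contra h9
      rcases lt_or_gt_of_ne h9 with h9 | h9
      · have h10 : (4 * c + 1) * (ip v e - ip v e') ≤ (4 * c + 1) * (-1) :=
          mul_le_mul_of_nonneg_left (by omega) (by linarith)
        linarith
      · have h10 : (4 * c + 1) * 1 ≤ (4 * c + 1) * (ip v e - ip v e') :=
          mul_le_mul_of_nonneg_left (by omega) (by linarith)
        linarith
    rw [h8, mul_zero] at h7
    linarith
  · have h2 := hw A hA hA0
    have h3 := hw B hB hB0
    rw [h1] at h2
    have h4 := abs_le.1 h2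
    have h5 := abs_le.1 h3
    have h6 : (4 * c + 1) * ((width A v : ℤ) - width B v) ≤ 4 * c := by linarith
    have h7 : - (4 * c) ≤ (4 * c + 1) * ((width A v : ℤ) - width B v) := by linarith
    have h8 : (width A v : ℤ) - width B v ≠ 0 := by
      intro h9
      apply h
      omega
    rcases lt_or_gt_of_ne h8 with h9 | h9
    · have h10 : (4 * c + 1) * ((width A v : ℤ) - width B v) ≤ (4 * c + 1) * (-1) :=
          mul_le_mul_of_nonneg_left (by omega) (by linarith)
      linarith
    · have h10 : (4 * c + 1) * 1 ≤ (4 * c + 1) * ((width A v : ℤ) - width B v) :=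
          mul_le_mul_of_nonneg_left (by omega) (by linarith)
      linarith

/-- the length of a sparse polynomial -/
theorem len_sum (S : Finset (Fin n →₀ ℕ)) (hS : S.Nonempty) (v : Fin n → ℤ) (N : ℤ)
    (hN : ∀ e ∈ S, 0 ≤ ip v e + N) (hinj : ∀ e ∈ S, ∀ e' ∈ S, ip v e = ip v e' → e = e')
    (c : (Fin n →₀ ℕ) → F) (hc : ∀ e ∈ S, c e ≠ 0) :
    (∑ e ∈ S, monomial (ip v e + N).toNat (c e)) ≠ 0 ∧
      len (∑ e ∈ S, monomial (ip v e + N).toNat (c e)) = width S v := by
  classical
  obtain ⟨e₁, he₁, e₂, he₂, h12⟩ := exists_width hS v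
  obtain ⟨p, hp⟩ : ∃ p, p = ∑ e ∈ S, monomial (ip v e + N).toNat (c e) := ⟨_, rfl⟩
  rw [← hp]
  have hcoeff : ∀ e ∈ S, p.coeff (ip v e + N).toNat = c e := by
    intro e he
    rw [hp, finsetSum_coeff, Finset.sum_eq_single e]
    · rw [coeff_monomial, if_pos rfl]
    · intro e' he' hne
      rw [coeff_monomial, if_neg]
      intro h
      apply hne
      apply hinj e' he' e he
      have h1 := hN e he
      have h2 := hN e' he'
      omega
    · intro h
      exact absurd he h
  have hzero : ∀ m, (∀ e ∈ S, (ip v e + N).toNat ≠ m) → p.coeff m = 0 := by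
    intro m hm
    rw [hp, finsetSum_coeff]
    refine Finset.sum_eq_zero fun e he => ?_
    rw [coeff_monomial, if_neg (hm e he)]
  have hmax : ∀ e ∈ S, ip v e ≤ ip v e₁ := by
    intro e he
    have := le_width (v := v) he he₂
    omega
  have hmin : ∀ e ∈ S, ip v e₂ ≤ ip v e := by
    intro e he
    have := le_width (v := v) he₁ he
    omega
  have hne : p ≠ 0 := by
    intro h
    apply hc e₁ he₁
    rw [← hcoeff e₁ he₁, h, coeff_zero]
  have hd : p.natDegree = (ip v e₁ + N).toNat := by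
    refine le_antisymm ?_ (le_natDegree_of_ne_zero (by rw [hcoeff e₁ he₁]; exact hc e₁ he₁))
    rw [natDegree_le_iff_coeff_eq_zero]
    intro m hm
    refine hzero m fun e he h => ?_
    have h1 := hmax e he
    have h2 := hN e he
    omega
  have ht : p.natTrailingDegree = (ip v e₂ + N).toNat := by
    refine le_antisymm (natTrailingDegree_le_of_ne_zero (by
      rw [hcoeff e₂ he₂]; exact hc e₂ he₂)) ?_
    refine le_natTrailingDegree hne fun m hm => ?_
    refine hzero m fun e he h => ?_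
    have h1 := hmin e he
    have h2 := hN e he
    omega
  refine ⟨hne, ?_⟩
  have h1 := hN e₁ he₁
  have h2 := hN e₂ he₂
  rw [len, hd, ht, ← h12]
  omega

end

end Pool.Agent.H74.ZP
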