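import Pool.Agent.H74.ZP.Lin3

/-!
# Hypersurfaces with non-proportional opposite initial forms
-/

set_option autoImplicit false
set_option linter.unusedSectionVars false
set_option linter.style.haveILetI false

namespace Pool.Agent.H74.ZP

open Polynomial Pool.Agent.R948

section

variable {F : Type} [Field F]

/-- proportional up to a monomial -/
def Prp (A B : F[X]) : Prop := ∃ (κ : F) (i j : ℕ), X ^ i * A = C κ * (X ^ j * B)

theorem Prp.refl (A : F[X]) : Prp A A := ⟨1, 0, 0, by simp⟩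

theorem Prp.mul {A B A' B' : F[X]} (h : Prp A B) (h' : Prp A' B') : Prp (A * A') (B * B') := by
  obtain ⟨κ, i, j, h⟩ := h
  obtain ⟨κ', i', j', h'⟩ := h'
  refine ⟨κ * κ', i + i', j + j', ?_⟩
  calc X ^ (i + i') * (A * A') = (X ^ i * A) * (X ^ i' * A') := by ring
    _ = _ := by
      rw [h, h', C_mul]
      ring

theorem exists_factor3 (P : F[X][X]) : P ≠ 0 → P.coeff 0 ≠ 0 →
    ¬ Prp P.leadingCoeff (P.coeff 0) →
    ∃ Q : F[X][X], Irreducible Q ∧ Q ∣ P ∧ ¬ Prp Q.leadingCoeff (Q.coeff 0) ∧ Q.coeff 0 ≠ 0 := by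
  refine WfDvdMonoid.induction_on_irreducible P ?_ ?_ ?_
  · intro h
    exact absurd rfl h
  · intro u hu _ h0 h
    exfalso
    apply h
    obtain ⟨c, hc, rfl⟩ := Polynomial.isUnit_iff.1 hu
    rw [leadingCoeff_C, coeff_C_zero]
    exact Prp.refl c
  · intro a Q ha hQ ih _ h0 h
    rw [mul_coeff_zero] at h0
    have h1 := left_ne_zero_of_mul h0
    have h2 := right_ne_zero_of_mul h0
    by_cases hfQ : Prp Q.leadingCoeff (Q.coeff 0)
    · have h3 : ¬ Prp a.leadingCoeff (a.coeff 0) := fun h3 => h (by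
        rw [leadingCoeff_mul, mul_coeff_zero]
        exact hfQ.mul h3)
      obtain ⟨Q', h4, h5, h6, h7⟩ := ih ha h2 h3
      exact ⟨Q', h4, h5.mul_left Q, h6, h7⟩
    · exact ⟨Q, hQ, dvd_mul_right _ _, hfQ, h1⟩

/-- **From two-variable polynomials to the line.** -/
theorem fin_of_poly3 [IsAlgClosed F] [CharZero F] {P : F[X][X]} (hP0 : P.coeff 0 ≠ 0)
    (hP : ¬ Prp P.leadingCoeff (P.coeff 0))
    (h : U (F := F) (fun K _ _ x T => (spc K (T : K) P).eval (x : K) = 0)) (M : ℕ) :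
    Fin' (lineI F M) := by
  have hPne : P ≠ 0 := by
    rintro rfl
    exact hP0 rfl
  obtain ⟨Q, hQ, hQP, hfl, hQ0⟩ := exists_factor3 P hPne hP0 hP
  have hd : 0 < Q.natDegree := by
    by_contra h0
    apply hfl
    have h1 : Q.leadingCoeff = Q.coeff 0 := by
      rw [leadingCoeff, show Q.natDegree = 0 by omega]
    rw [h1]
    exact Prp.refl _
  obtain ⟨μ, R, hR, hPR⟩ := WfDvdMonoid.max_power_factor hPne hQ
  have hμ : μ ≠ 0 := by
    rintro rfl
    rw [pow_zero, one_mul] at hPR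
    exact hR (hPR ▸ hQP)
  have h1 := U_nor hQ hd hQ0 (U_cur_of hμ hPR hQ hd hR h)
  have hc : ((-1 : F) ^ Q.natDegree) ≠ 0 := pow_ne_zero _ (by simp)
  have hcC : C ((-1 : F) ^ Q.natDegree) ≠ 0 := C_ne_zero.2 hc
  have h2 : U (rat (C ((-1 : F) ^ Q.natDegree) * Q.coeff 0) Q.leadingCoeff) := by
    refine h1.pull 1 0 0 1 fun K _ _ x y => ?_
    rw [zpow_one, zpow_one, zpow_zero, zpow_zero, one_mul, mul_one, rat, nor]
    simp
  have hlc := leadingCoeff_ne_zero.2 hQ.ne_zero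
  obtain ⟨α, β, hα, hβ, h5⟩ := exists_lin3 (mul_ne_zero hcC hQ0) hlc (by
    intro κ i j h3
    apply hfl
    have hκ : κ ≠ 0 := by
      rintro rfl
      rw [C_0, zero_mul] at h3
      exact mul_ne_zero (pow_ne_zero _ X_ne_zero) (mul_ne_zero hcC hQ0) h3
    refine ⟨(-1) ^ Q.natDegree / κ, j, i, ?_⟩
    have hκC : C κ ≠ 0 := C_ne_zero.2 hκ
    refine mul_left_cancel₀ hκC ?_
    have h4 : C κ * C ((-1) ^ Q.natDegree / κ) = C ((-1 : F) ^ Q.natDegree) := by
      rw [← C_mul, mul_div_cancel₀ _ hκ]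
    linear_combination (-1 : F[X]) * h3 - (X ^ i * Q.coeff 0) * h4) h2
  exact fin_line hα hβ h5 M

end

section

variable {n : ℕ} {F : Type} [Field F]

/-- the initial form in the direction w -/
noncomputable def init (f : MvPolynomial (Fin n) F) (w : Fin n → ℤ) : MvPolynomial (Fin n) F :=
  ∑ e ∈ face f w, MvPolynomial.monomial e (f.coeff e)

theorem coeff_sum_mono {S : Finset (Fin n →₀ ℕ)} {φ : (Fin n →₀ ℕ) → ℕ}
    (hφ : ∀ e ∈ S, ∀ e' ∈ S, φ e = φ e' → e = e') (c : (Fin n →₀ ℕ) → F) {e : Fin n →₀ ℕ}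
    (he : e ∈ S) : (∑ e ∈ S, monomial (φ e) (c e)).coeff (φ e) = c e := by
  rw [finsetSum_coeff, Finset.sum_eq_single e]
  · rw [coeff_monomial, if_pos rfl]
  · intro e' he' hne
    rw [coeff_monomial, if_neg (fun h => hne (hφ e' he' e he h))]
  · intro h
    exact absurd he h

theorem exists_of_coeff_sum {S : Finset (Fin n →₀ ℕ)} {φ : (Fin n →₀ ℕ) → ℕ}
    {c : (Fin n →₀ ℕ) → F} {N : ℕ} (h : (∑ e ∈ S, monomial (φ e) (c e)).coeff N ≠ 0) :
    ∃ e ∈ S, φ e = N := by
  rw [finsetSum_coeff] at h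
  obtain ⟨e, he, h1⟩ := Finset.exists_ne_zero_of_sum_ne_zero h
  refine ⟨e, he, ?_⟩
  rw [coeff_monomial] at h1
  by_contra h2
  rw [if_neg h2] at h1
  exact h1 rfl

/-- the proportionality of two sums of monomials -/
theorem prp_pairs {S S' : Finset (Fin n →₀ ℕ)} {φ : (Fin n →₀ ℕ) → ℕ}
    (hφ : ∀ e ∈ S, ∀ e' ∈ S, φ e = φ e' → e = e')
    (hφ' : ∀ e ∈ S', ∀ e' ∈ S', φ e = φ e' → e = e') {c : (Fin n →₀ ℕ) → F}
    (hc : ∀ e ∈ S, c e ≠ 0) {κ : F} {i j : ℕ}
    (h : X ^ i * (∑ e ∈ S, monomial (φ e) (c e)) =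
      C κ * (X ^ j * ∑ e ∈ S', monomial (φ e) (c e))) :
    ∀ e ∈ S, ∃ e' ∈ S', φ e' + j = φ e + i ∧ c e = κ * c e' := by
  intro e he
  have h1 := congrArg (fun p => p.coeff (φ e + i)) h
  simp only [coeff_X_pow_mul, coeff_C_mul] at h1
  rw [coeff_sum_mono hφ c he, coeff_X_pow_mul'] at h1
  by_cases h2 : j ≤ φ e + i
  · rw [if_pos h2] at h1
    have h3 : (∑ e ∈ S', monomial (φ e) (c e)).coeff (φ e + i - j) ≠ 0 := by
      intro h3
      rw [h3, mul_zero] at h1
      exact hc e he h1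
    obtain ⟨e', he', h4⟩ := exists_of_coeff_sum h3
    refine ⟨e', he', by omega, ?_⟩
    rw [← h4, coeff_sum_mono hφ' c he'] at h1
    exact h1
  · rw [if_neg h2, mul_zero] at h1
    exact absurd h1 (hc e he)

/-- proportional specialisations come from proportional initial forms -/
theorem init_prp {f : MvPolynomial (Fin n) F} {w v : Fin n → ℤ} {b : ℤ}
    (hb : ∀ e ∈ f.support, 0 ≤ ip v e + b) (hS : f.support.Nonempty)
    (hinj : ∀ e ∈ f.support, ∀ e' ∈ f.support, ip v e = ip v e' → e = e')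
    (hinj2 : ∀ e₁ ∈ f.support, ∀ e₂ ∈ f.support, ∀ e₃ ∈ f.support, ∀ e₄ ∈ f.support,
      ip v e₁ + ip v e₂ = ip v e₃ + ip v e₄ → e₁ + e₂ = e₃ + e₄)
    (h : Prp (∑ e ∈ face f w, monomial (ip v e + b).toNat (f.coeff e))
      (∑ e ∈ face f (-w), monomial (ip v e + b).toNat (f.coeff e))) :
    ∃ (κ : F) (m m' : Fin n →₀ ℕ), MvPolynomial.monomial m 1 * init f w =
      MvPolynomial.monomial m' κ * init f (-w) := by
  classical
  obtain ⟨κ, i, j, h⟩ := h
  have hsub : ∀ w, ∀ e ∈ face f w, e ∈ f.support := fun w e he => (Finset.mem_filter.1 he).1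
  have hφ : ∀ w, ∀ e ∈ face f w, ∀ e' ∈ face f w, (ip v e + b).toNat = (ip v e' + b).toNat →
      e = e' := by
    intro w e he e' he' h1
    have h2 := hb e (hsub w e he)
    have h3 := hb e' (hsub w e' he')
    exact hinj e (hsub w e he) e' (hsub w e' he') (by omega)
  have hc : ∀ w, ∀ e ∈ face f w, f.coeff e ≠ 0 := fun w e he =>
    MvPolynomial.mem_support_iff.1 (hsub w e he)
  have hface : (face f w).Nonempty := by
    obtain ⟨e, he, h1⟩ := Finset.exists_max_image f.support (ip w) hS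
    exact ⟨e, Finset.mem_filter.2 ⟨he, h1⟩⟩
  have hp := prp_pairs (hφ w) (hφ (-w)) (hc w) h
  obtain ⟨e₁, he₁⟩ := hface
  obtain ⟨e₁', he₁', h1, h2⟩ := hp e₁ he₁
  have hκ : κ ≠ 0 := by
    rintro rfl
    rw [zero_mul] at h2
    exact hc w e₁ he₁ h2
  have h' : X ^ j * (∑ e ∈ face f (-w), monomial (ip v e + b).toNat (f.coeff e)) =
      C κ⁻¹ * (X ^ i * ∑ e ∈ face f w, monomial (ip v e + b).toNat (f.coeff e)) := by
    rw [h, ← mul_assoc, ← C_mul, inv_mul_cancel₀ hκ, C_1, one_mul]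
  have hp' := prp_pairs (hφ (-w)) (hφ w) (hc (-w)) h'
  choose! g hg1 hg2 hg3 using hp
  refine ⟨κ, e₁', e₁, ?_⟩
  rw [init, init, Finset.mul_sum, Finset.mul_sum]
  refine Finset.sum_bij (fun e _ => g e) hg1 ?_ ?_ ?_
  · intro e he e' he' hee
    have h3 := hg2 e he
    have h4 := hg2 e' he'
    rw [hee] at h3
    exact hφ w e he e' he' (by omega)
  · intro e' he'
    obtain ⟨e, he, h3, -⟩ := hp' e' he'
    refine ⟨e, he, ?_⟩
    have h4 := hg2 e he
    exact hφ (-w) _ (hg1 e he) e' he' (by omega)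
  · intro e he
    rw [MvPolynomial.monomial_mul, MvPolynomial.monomial_mul, one_mul, ← hg3 e he]
    have h3 := hg2 e he
    have h4 := hb e (hsub w e he)
    have h5 := hb _ (hsub (-w) _ (hg1 e he))
    have h6 := hb e₁ (hsub w e₁ he₁)
    have h7 := hb e₁' (hsub (-w) e₁' he₁')
    rw [hinj2 e₁' (hsub (-w) e₁' he₁') e (hsub w e he) e₁ (hsub w e₁ he₁) _
      (hsub (-w) _ (hg1 e he)) (by omega)]

/-- a direction separating the sums of two exponents -/
theorem exists_inj2 (S : Finset (Fin n →₀ ℕ)) : ∃ v : Fin n → ℤ,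
    (∀ e ∈ S, ∀ e' ∈ S, ip v e = ip v e' → e = e') ∧
    (∀ e₁ ∈ S, ∀ e₂ ∈ S, ∀ e₃ ∈ S, ∀ e₄ ∈ S,
      ip v e₁ + ip v e₂ = ip v e₃ + ip v e₄ → e₁ + e₂ = e₃ + e₄) := by
  classical
  have hadd : ∀ (v : Fin n → ℤ) (e e' : Fin n →₀ ℕ), ip v (e + e') = ip v e + ip v e' := by
    intro v e e'
    simp [ip, mul_add, Finset.sum_add_distrib]
  obtain ⟨v, hv⟩ := exists_inj (S ∪ (S ×ˢ S).image fun p => p.1 + p.2)
  refine ⟨v, fun e he e' he' h => hv e (Finset.mem_union_left _ he) e'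
    (Finset.mem_union_left _ he') h, fun e₁ h1 e₂ h2 e₃ h3 e₄ h4 h => ?_⟩
  refine hv _ (Finset.mem_union_right _ (Finset.mem_image.2
    ⟨(e₁, e₂), Finset.mem_product.2 ⟨h1, h2⟩, rfl⟩)) _ (Finset.mem_union_right _
    (Finset.mem_image.2 ⟨(e₃, e₄), Finset.mem_product.2 ⟨h3, h4⟩, rfl⟩)) ?_
  rw [hadd, hadd]
  exact h

/-- **From hypersurfaces to the line.** -/
theorem fin_line_of_hyp3 [IsAlgClosed F] [CharZero F] (f : MvPolynomial (Fin n) F)
    (w : Fin n → ℤ) (hw : ∀ (κ : F) (m m' : Fin n →₀ ℕ),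
      MvPolynomial.monomial m 1 * init f w ≠ MvPolynomial.monomial m' κ * init f (-w))
    (h : ∀ M, Fin' (powI f M)) (M : ℕ) : Fin' (lineI F M) := by
  classical
  have hf : f.support.Nonempty := by
    by_contra h0
    rw [Finset.not_nonempty_iff_eq_empty] at h0
    apply hw 0 0 0
    rw [init, init, face, face, h0]
    simp
  have hface : ∀ w : Fin n → ℤ, (face f w).Nonempty := by
    intro w
    obtain ⟨e, he, h1⟩ := Finset.exists_max_image f.support (ip w) hf
    exact ⟨e, Finset.mem_filter.2 ⟨he, h1⟩⟩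
  obtain ⟨v', hinj, hinj2⟩ := exists_inj2 f.support
  obtain ⟨e₁, he₁⟩ := hface w
  obtain ⟨e₀, he₀⟩ := hface (-w)
  rw [face, Finset.mem_filter] at he₁ he₀
  have hmax : ∀ e ∈ f.support, ip w e ≤ ip w e₁ := he₁.2
  have hmin : ∀ e ∈ f.support, ip w e₀ ≤ ip w e := by
    intro e he
    have := he₀.2 e he
    rw [ip_neg, ip_neg] at this
    omega
  obtain ⟨e₂, he₂, h2⟩ := Finset.exists_min_image f.support (ip v') hf
  have ha : ∀ e ∈ f.support, 0 ≤ ip w e + (- ip w e₀) := fun e he => by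
    have := hmin e he
    omega
  have hb : ∀ e ∈ f.support, 0 ≤ ip v' e + (- ip v' e₂) := fun e he => by
    have := h2 e he
    omega
  obtain ⟨a, hae⟩ : ∃ a, a = - ip w e₀ := ⟨_, rfl⟩
  obtain ⟨b, hbe⟩ : ∃ b, b = - ip v' e₂ := ⟨_, rfl⟩
  rw [← hae] at ha
  rw [← hbe] at hb
  have hS0 : f.support.filter (fun e => (ip w e + a).toNat = 0) = face f (-w) := by
    ext e
    rw [face, Finset.mem_filter, Finset.mem_filter]
    refine and_congr_right fun he => ⟨fun h3 e' he' => ?_, fun h3 => ?_⟩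
    · rw [ip_neg, ip_neg]
      have h4 := ha e he
      have h5 := hmin e' he'
      omega
    · have h4 := h3 e₀ he₀.1
      rw [ip_neg, ip_neg] at h4
      omega
  have hS1 : f.support.filter (fun e => (ip w e + a).toNat = (ip w e₁ + a).toNat) =
      face f w := by
    ext e
    rw [face, Finset.mem_filter, Finset.mem_filter]
    refine and_congr_right fun he => ⟨fun h3 e' he' => ?_, fun h3 => ?_⟩
    · have h4 := ha e he
      have h5 := ha e₁ he₁.1
      have h6 := hmax e' he'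
      omega
    · have h4 := h3 e₁ he₁.1
      have h5 := hmax e he
      omega
  have hsub : ∀ w, ∀ e ∈ face f w, e ∈ f.support := fun w e he => (Finset.mem_filter.1 he).1
  have hlen : ∀ w : Fin n → ℤ, (∑ e ∈ face f w, monomial (ip v' e + b).toNat (f.coeff e)) ≠ 0 :=
    fun w => (len_sum (face f w) (hface w) v' b (fun e he => hb e (hsub w e he))
      (fun e he e' he' => hinj e (hsub w e he) e' (hsub w e' he')) (fun e => f.coeff e)
      (fun e he => MvPolynomial.mem_support_iff.1 (hsub w e he))).1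
  have hc0 : (red f w v' a b).coeff 0 =
      ∑ e ∈ face f (-w), monomial (ip v' e + b).toNat (f.coeff e) := by
    rw [red_coeff, hS0]
  have hcd : (red f w v' a b).coeff (ip w e₁ + a).toNat =
      ∑ e ∈ face f w, monomial (ip v' e + b).toNat (f.coeff e) := by
    rw [red_coeff, hS1]
  have hdeg : (red f w v' a b).natDegree = (ip w e₁ + a).toNat := by
    refine le_antisymm ?_ (le_natDegree_of_ne_zero (by rw [hcd]; exact hlen w))
    rw [natDegree_le_iff_coeff_eq_zero]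
    intro m hm
    rw [red_coeff]
    refine Finset.sum_eq_zero fun e he => ?_
    exfalso
    rw [Finset.mem_filter] at he
    have h4 := hmax e he.1
    have h5 := ha e he.1
    omega
  have hlc : (red f w v' a b).leadingCoeff =
      ∑ e ∈ face f w, monomial (ip v' e + b).toNat (f.coeff e) := by
    rw [leadingCoeff, hdeg, hcd]
  refine fin_of_poly3 (P := red f w v' a b) ?_ ?_ (U_red f w v' a b ha hb h) M
  · rw [hc0]
    exact hlen (-w)
  · rw [hc0, hlc]
    intro h3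
    obtain ⟨κ, m, m', h4⟩ := init_prp hb hf hinj hinj2 h3
    exact hw κ m m' h4

end

/-- **Universality of the powers of a hypersurface with two opposite initial forms which are not
proportional.** -/
theorem zp_iff3 {n : ℕ} {k : Type} [Field k] [IsAlgClosed k] [CharZero k]
    (f : MvPolynomial (Fin n) k) (w : Fin n → ℤ) (hw : ∀ (κ : k) (m m' : Fin n →₀ ℕ),
      MvPolynomial.monomial m 1 * init f w ≠ MvPolynomial.monomial m' κ * init f (-w)) :
    ZilberPinkForTori ↔ ∀ M : ℕ, {A | Optimal A (hypPow f M)}.Finite := by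
  haveI : Algebra.IsAlgebraic ℚ (AlgebraicClosure ℚ) := AlgebraicClosure.isAlgebraic ℚ
  letI : Algebra (AlgebraicClosure ℚ) k :=
    (IsAlgClosed.lift (R := ℚ) (S := AlgebraicClosure ℚ) (M := k)).toRingHom.toAlgebra
  constructor
  · intro h M
    have h1 := zilberPink_iff.1 h
    have h2 : ZClosed (hypPow f M) := by
      rw [hypPow_eq]
      exact zclosed_zeros _
    exact finite_optimal h2 (fin_aux (AlgebraicClosure.isAlgebraic ℚ)
      (fun M => fin_lineI M (h1 M)) k _)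
  · intro h k' _ _ _ ι _ V hV
    refine finite_optimal hV.closed (fin_aux (AlgebraicClosure.isAlgebraic ℚ) (fun M => ?_) k' _)
    refine fin_descent (k := k) (lineI (AlgebraicClosure ℚ) M) ?_
    rw [lineI_map]
    exact fin_line_of_hyp3 f w hw (fun M => fin_powI f M (h M)) M

end Pool.Agent.H74.ZP
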