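import Pool.Agent.H74.ZP.Line

/-!
# From a polynomial with different extreme coefficients to a line
-/

set_option autoImplicit false
set_option linter.unusedSectionVars false
set_option linter.style.haveILetI false

namespace Pool.Agent.H74.ZP

open Polynomial Pool.Agent.R948

section

variable {F : Type} [Field F] {ι κ : Type} [Fintype ι] [Fintype κ]

/-- the length of a polynomial in one variable: the number of its nonzero roots -/
def len (a : F[X]) : ℤ := (a.natDegree : ℤ) - a.natTrailingDegree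

theorem len_mul {a b : F[X]} (ha : a ≠ 0) (hb : b ≠ 0) : len (a * b) = len a + len b := by
  rw [len, len, len, natDegree_mul ha hb, natTrailingDegree_mul ha hb]
  push_cast
  ring

theorem exists_reduced {A B : F[X]} (hA : A ≠ 0) (hB : B ≠ 0) (h : len A ≠ len B) :
    ∃ (g A₁ B₁ : F[X]) (i j : ℕ), A = g * (X ^ i * A₁) ∧ B = g * (X ^ j * B₁) ∧ g ≠ 0 ∧
      IsCoprime A₁ B₁ ∧ A₁.coeff 0 ≠ 0 ∧ B₁.coeff 0 ≠ 0 ∧ A₁.natDegree ≠ B₁.natDegree := by
  classical
  have key : ∀ A : F[X], A ≠ 0 → ∃ (i : ℕ) (A₀ : F[X]), A = X ^ i * A₀ ∧ A₀.coeff 0 ≠ 0 := by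
    intro A hA
    obtain ⟨q, hq, hq2⟩ := exists_eq_pow_rootMultiplicity_mul_and_not_dvd A hA 0
    refine ⟨_, q, by simpa using hq, fun h0 => hq2 ?_⟩
    rw [C_0, sub_zero]
    exact X_dvd_iff.2 h0
  obtain ⟨i, A₀, hA1, hA2⟩ := key A hA
  obtain ⟨j, B₀, hB1, hB2⟩ := key B hB
  have hA0 : A₀ ≠ 0 := by
    rintro rfl
    exact hA2 rfl
  have hB0 : B₀ ≠ 0 := by
    rintro rfl
    exact hB2 rfl
  obtain ⟨A₁, hA₁⟩ := EuclideanDomain.gcd_dvd_left A₀ B₀
  obtain ⟨B₁, hB₁⟩ := EuclideanDomain.gcd_dvd_right A₀ B₀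
  obtain ⟨g, hg⟩ : ∃ g, g = EuclideanDomain.gcd A₀ B₀ := ⟨_, rfl⟩
  have hg0 : g ≠ 0 := by
    rintro rfl
    rw [← hg, zero_mul] at hA₁
    exact hA0 hA₁
  have hcop : IsCoprime A₁ B₁ := by
    obtain ⟨s, t, h1⟩ : ∃ s t, g = A₀ * s + B₀ * t :=
      ⟨_, _, hg.trans (EuclideanDomain.gcd_eq_gcd_ab A₀ B₀)⟩
    rw [← hg] at hA₁ hB₁
    refine ⟨s, t, mul_left_cancel₀ hg0 ?_⟩
    linear_combination (-1 : F[X]) * h1 + s * (-hA₁) + t * (-hB₁)
  rw [← hg] at hA₁ hB₁
  have hA10 : A₁.coeff 0 ≠ 0 := by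
    intro h0
    rw [hA₁, mul_coeff_zero, h0, mul_zero] at hA2
    exact hA2 rfl
  have hB10 : B₁.coeff 0 ≠ 0 := by
    intro h0
    rw [hB₁, mul_coeff_zero, h0, mul_zero] at hB2
    exact hB2 rfl
  refine ⟨g, A₁, B₁, i, j, ?_, ?_, hg0, hcop, hA10, hB10, ?_⟩
  · rw [hA1, hA₁]
    ring
  · rw [hB1, hB₁]
    ring
  · intro hdeg
    apply h
    have hX : (X : F[X]) ≠ 0 := X_ne_zero
    have hA₁0 : A₁ ≠ 0 := by
      rintro rfl
      exact hA10 rfl
    have hB₁0 : B₁ ≠ 0 := by
      rintro rfl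
      exact hB10 rfl
    have e1 : ∀ i : ℕ, len (X ^ i : F[X]) = 0 := by
      intro i
      rw [len, natDegree_X_pow, natTrailingDegree_X_pow]
      simp
    have e2 : ∀ A : F[X], A.coeff 0 ≠ 0 → len A = A.natDegree := by
      intro A hA
      rw [len, natTrailingDegree_eq_zero.2 (Or.inr hA)]
      simp
    rw [hA1, hB1, len_mul (pow_ne_zero _ hX) hA0, len_mul (pow_ne_zero _ hX) hB0, e1, e1,
      hA₁, hB₁, len_mul hg0 hA₁0, len_mul hg0 hB₁0, e2 _ hA10, e2 _ hB10, hdeg]

/-- the pencil `A - r B` -/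
noncomputable def pencil (A B : F[X]) : F[X][X] := A.map C - C X * B.map C

theorem pencil_irreducible {A B : F[X]} (h : IsCoprime A B) (hB : B ≠ 0) :
    Irreducible (pencil A B) := by
  have h1 : Bivariate.swap (pencil A B) = C (-B) * X + C A := by
    rw [pencil, map_sub, map_mul, Bivariate.swap_map_C, Bivariate.swap_map_C, Bivariate.swap_X]
    rw [map_neg]
    ring
  rw [← MulEquiv.irreducible_iff (Bivariate.swap : F[X][X] ≃ₐ[F] F[X][X]), h1]
  exact irreducible_C_mul_X_add_C (neg_ne_zero.2 hB)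
    ((IsCoprime.neg_right_iff _ _).2 h).symm.isRelPrime

theorem pencil_coeff (A B : F[X]) (n : ℕ) :
    (pencil A B).coeff n = C (A.coeff n) - X * C (B.coeff n) := by
  rw [pencil, coeff_sub, coeff_map, coeff_C_mul, coeff_map]

theorem pencil_coeff_ne {A B : F[X]} {n : ℕ} (h : A.coeff n ≠ 0 ∨ B.coeff n ≠ 0) :
    (pencil A B).coeff n ≠ 0 := by
  rw [pencil_coeff]
  intro h0
  have h1 := congrArg (fun p => coeff p 0) h0
  have h2 := congrArg (fun p => coeff p 1) h0
  simp at h1 h2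
  rcases h with h | h
  · exact h h1
  · exact h h2

theorem pencil_natDegree {A B : F[X]} (hA : A ≠ 0) (hB : B ≠ 0)
    (h : A.natDegree ≠ B.natDegree) : (pencil A B).natDegree = max A.natDegree B.natDegree := by
  refine le_antisymm ?_ ?_
  · rw [natDegree_le_iff_coeff_eq_zero]
    intro N hN
    rw [pencil_coeff, coeff_eq_zero_of_natDegree_lt (lt_of_le_of_lt (le_max_left _ _) hN),
      coeff_eq_zero_of_natDegree_lt (lt_of_le_of_lt (le_max_right _ _) hN)]
    simp
  · refine le_natDegree_of_ne_zero (pencil_coeff_ne ?_)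
    rcases lt_or_gt_of_ne h with h | h
    · rw [max_eq_right h.le]
      exact Or.inr (leadingCoeff_ne_zero.2 hB)
    · rw [max_eq_left h.le]
      exact Or.inl (leadingCoeff_ne_zero.2 hA)

theorem eval_spc_pencil {K : Type} [Field K] [Algebra F K] (A B : F[X]) (r T : K) :
    (spc K r (pencil A B)).eval T = aeval T A - r * aeval T B := by
  have h1 : ∀ A : F[X], (A.map (C : F →+* F[X])).map ((aeval r : F[X] →ₐ[F] K) : F[X] →+* K) =
      A.map (algebraMap F K) := by
    intro A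
    rw [map_map]
    congr 1
    ext c
    simp
  rw [pencil, spc, Polynomial.map_sub, Polynomial.map_mul, h1, h1, map_C, eval_sub, eval_mul,
    eval_C, eval_map_algebraMap, eval_map_algebraMap]
  simp

theorem tor_zpow {t : Fˣ} (h : Tor t) (a : ℤ) : Tor (t ^ a) := by
  obtain ⟨N, hN, h⟩ := h
  refine ⟨N, hN, ?_⟩
  rw [← zpow_natCast, ← zpow_mul, mul_comm, zpow_mul, zpow_natCast, h, one_zpow]

theorem tm_comb {K : Type} [Field K] [Algebra F K] (t s : Fˣ) (m n : ι → ℤ) (a b : ℤ)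
    (y : ι → Kˣ) : tm K (t ^ a * s ^ b) (a • m + b • n) y = tm K t m y ^ a * tm K s n y ^ b := by
  have h1 : uo K (t ^ a * s ^ b) = uo K t ^ a * uo K s ^ b := by
    simp [uo]
  rw [tm, tm, tm, h1, mon_add, mon_smul, mon_smul, mul_zpow, mul_zpow]
  exact mul_mul_mul_comm _ _ _ _

/-- pull-backs of curves under monomial maps -/
theorem U.pull {C D : Cur F} (h : U C) (a b c d : ℤ)
    (hCD : ∀ (K : Type) [Field K] [Algebra F K] (x y : Kˣ),
      D K x y ↔ C K (x ^ a * y ^ b) (x ^ c * y ^ d)) : U D := by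
  intro ι J _ _ t s m n ht hs
  refine (h ι J (fun j => t j ^ a * s j ^ b) (fun j => t j ^ c * s j ^ d)
    (fun j => a • m j + b • n j) (fun j => c • m j + d • n j)
    (fun j => (tor_zpow (ht j) a).mul (tor_zpow (hs j) b))
    (fun j => (tor_zpow (ht j) c).mul (tor_zpow (hs j) d))).congr fun K _ _ y => ?_
  refine forall_congr' fun j => ?_
  rw [tm_comb, tm_comb, hCD]

/-- the graph of a quotient of polynomials -/
def rat (A B : F[X]) : Cur F := fun K _ _ p T =>
  (p : K) * aeval (T : K) B = aeval (T : K) A ∧ Transcendental F (T : K)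

theorem cur_pencil [IsAlgClosed F] {g A₁ B₁ : F[X]} {i j : ℕ} (hg : g ≠ 0)
    (hcop : IsCoprime A₁ B₁) (hA : A₁ ≠ 0) (hdeg : A₁.natDegree ≠ B₁.natDegree)
    (K : Type) [Field K] [Algebra F K] (x r : Kˣ) :
    cur (pencil A₁ B₁) K x r ↔ rat (g * (X ^ i * A₁)) (g * (X ^ j * B₁)) K
      (x ^ ((i : ℤ) - j) * r ^ (1 : ℤ)) (x ^ (1 : ℤ) * r ^ (0 : ℤ)) := by
  rw [zpow_one, zpow_one, zpow_zero, mul_one]
  have h1 : Transcendental F (x : K) → (aeval (x : K) A₁ - (r : K) * aeval (x : K) B₁ = 0 ↔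
      ((x ^ ((i : ℤ) - j) * r : Kˣ) : K) * aeval (x : K) (g * (X ^ j * B₁)) =
        aeval (x : K) (g * (X ^ i * A₁))) := by
    intro hx
    have hgx := aeval_ne_zero hx hg
    have hx0 : (x : K) ≠ 0 := x.ne_zero
    have h2 : ((x ^ ((i : ℤ) - j) * r : Kˣ) : K) * (x : K) ^ j = (x : K) ^ i * r := by
      have h3 : x ^ ((i : ℤ) - j) * x ^ j = x ^ i := by
        rw [← zpow_natCast, ← zpow_natCast, ← zpow_add]
        congr 1
        ring
      have h4 : (x ^ ((i : ℤ) - j) * r) * x ^ j = x ^ i * r := by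
        rw [mul_right_comm, h3]
      have h5 := congrArg Units.val h4
      rw [Units.val_mul, Units.val_pow_eq_pow_val] at h5
      rw [h5, Units.val_mul, Units.val_pow_eq_pow_val]
    simp only [map_mul, map_pow, aeval_X]
    constructor
    · intro h
      linear_combination (aeval (x : K) g * aeval (x : K) B₁) * h2 -
        (aeval (x : K) g * (x : K) ^ i) * h
    · intro h
      have h3 : (aeval (x : K) g * (x : K) ^ i) *
          (aeval (x : K) A₁ - (r : K) * aeval (x : K) B₁) = 0 := by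
        linear_combination (aeval (x : K) g * aeval (x : K) B₁) * h2 - h
      exact (mul_eq_zero.1 h3).resolve_left (mul_ne_zero hgx (pow_ne_zero _ hx0))
  rw [cur, rat, IsRoot, eval_spc_pencil]
  constructor
  · rintro ⟨h2, h3⟩
    have hx : Transcendental F (x : K) := by
      intro hx
      obtain ⟨ξ, hξ⟩ := mem_range_of_integral hx.isIntegral
      have e : ∀ A : F[X], aeval (x : K) A = algebraMap F K (A.eval ξ) := by
        intro A
        rw [hξ, aeval_algebraMap_apply, coe_aeval_eq_eval]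
      rw [e, e] at h2
      by_cases hB : B₁.eval ξ = 0
      · rw [hB, map_zero, mul_zero, sub_zero, map_eq_zero_iff _ (algebraMap F K).injective] at h2
        obtain ⟨a, b, hab⟩ := hcop
        have h4 := congrArg (eval ξ) hab
        rw [eval_add, eval_mul, eval_mul, h2, hB] at h4
        simp at h4
      · apply h3
        have h4 : (r : K) = algebraMap F K (A₁.eval ξ / B₁.eval ξ) := by
          rw [map_div₀, eq_div_iff (by
            rwa [Ne, map_eq_zero_iff _ (algebraMap F K).injective])]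
          exact (sub_eq_zero.1 h2).symm
        rw [h4]
        exact isAlgebraic_algebraMap _
    exact ⟨(h1 hx).1 h2, hx⟩
  · rintro ⟨h2, hx⟩
    have h3 := (h1 hx).2 h2
    refine ⟨h3, ?_⟩
    intro hr
    obtain ⟨ξ, hξ⟩ := mem_range_of_integral hr.isIntegral
    have h4 : aeval (x : K) (A₁ - C ξ * B₁) = 0 := by
      rw [map_sub, map_mul, aeval_C, ← hξ]
      exact h3
    have h5 : A₁ - C ξ * B₁ = 0 := by
      by_contra h6
      exact aeval_ne_zero hx h6 h4
    have h6 : A₁ = C ξ * B₁ := sub_eq_zero.1 h5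
    have h7 : ξ ≠ 0 := by
      rintro rfl
      rw [C_0, zero_mul] at h6
      exact hA h6
    apply hdeg
    rw [h6, natDegree_C_mul h7]

/-- **From a quotient of polynomials of different lengths to a line.** -/
theorem exists_lin [IsAlgClosed F] [CharZero F] {A B : F[X]} (hA : A ≠ 0) (hB : B ≠ 0)
    (h : len A ≠ len B) (hU : U (rat A B)) : ∃ α β : F, α ≠ 0 ∧ β ≠ 0 ∧ U (lin α β) := by
  obtain ⟨g, A₁, B₁, i, j, rfl, rfl, hg, hcop, hA0, hB0, hdeg⟩ := exists_reduced hA hB h
  have hA₁ : A₁ ≠ 0 := by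
    rintro rfl
    exact hA0 rfl
  have hB₁ : B₁ ≠ 0 := by
    rintro rfl
    exact hB0 rfl
  have h1 : U (cur (pencil A₁ B₁)) := hU.pull ((i : ℤ) - j) 1 1 0
    (fun K _ _ x y => cur_pencil hg hcop hA₁ hdeg K x y)
  have hnd := pencil_natDegree hA₁ hB₁ hdeg
  have hpos : 0 < (pencil A₁ B₁).natDegree := by
    rw [hnd]
    omega
  have h2 := U_nor (pencil_irreducible hcop hB₁) hpos (pencil_coeff_ne (Or.inl hA0)) h1
  obtain ⟨e, he⟩ : ∃ e, e = (pencil A₁ B₁).natDegree := ⟨_, rfl⟩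
  have hc0 : ∀ (K : Type) [Field K] [Algebra F K] (r : K),
      aeval r ((pencil A₁ B₁).coeff 0) =
        algebraMap F K (A₁.coeff 0) - r * algebraMap F K (B₁.coeff 0) := by
    intro K _ _ r
    rw [pencil_coeff, map_sub, map_mul, aeval_C, aeval_C, aeval_X]
  have hsq : ((-1 : F) ^ e) * (-1) ^ e = 1 := by
    rw [← mul_pow]
    simp
  rcases lt_or_gt_of_ne hdeg with hlt | hgt
  · have hmax : max A₁.natDegree B₁.natDegree = B₁.natDegree := max_eq_right hlt.le
    have hlead : ∀ (K : Type) [Field K] [Algebra F K] (r : K),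
        aeval r (pencil A₁ B₁).leadingCoeff = - (r * algebraMap F K B₁.leadingCoeff) := by
      intro K _ _ r
      rw [leadingCoeff, hnd, hmax, pencil_coeff, coeff_eq_zero_of_natDegree_lt hlt, map_sub,
        map_mul, aeval_C, aeval_C, aeval_X, map_zero, zero_sub]
      rfl
    refine ⟨-((-1) ^ e * B₁.leadingCoeff) / A₁.coeff 0, B₁.coeff 0 / A₁.coeff 0,
      div_ne_zero (neg_ne_zero.2 (mul_ne_zero (pow_ne_zero _ (by simp))
        (leadingCoeff_ne_zero.2 hB₁))) hA0, div_ne_zero hB0 hA0, ?_⟩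
    refine h2.pull 1 (-1) 0 1 fun K _ _ x y => ?_
    rw [zpow_one, zpow_one, zpow_zero, one_mul, zpow_neg_one, lin, nor]
    refine and_congr_left fun _ => ?_
    rw [hlead, hc0, ← he]
    have ha : algebraMap F K (A₁.coeff 0) ≠ 0 := by
      rwa [Ne, map_eq_zero_iff _ (algebraMap F K).injective]
    have hsqK : ((-1 : K) ^ e) * (-1) ^ e = 1 := by
      rw [← mul_pow]
      simp
    have hy : ((x * y⁻¹ : Kˣ) : K) * (y : K) = x := by
      rw [← Units.val_mul, mul_assoc, inv_mul_cancel, mul_one]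
    simp only [map_div₀, map_neg, map_mul, map_pow, map_one]
    rw [div_mul_eq_mul_div, div_mul_eq_mul_div, ← add_div, div_eq_one_iff_eq ha]
    constructor
    · intro h3
      linear_combination (-algebraMap F K B₁.leadingCoeff) * hy + ((-1 : K) ^ e) * h3 +
        (x : K) * algebraMap F K B₁.leadingCoeff * hsqK
    · intro h3
      linear_combination (((-1 : K) ^ e) * algebraMap F K B₁.leadingCoeff) * hy +
        ((-1 : K) ^ e) * h3 + (algebraMap F K (A₁.coeff 0) -
          (y : K) * algebraMap F K (B₁.coeff 0)) * hsqK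
  · have hmax : max A₁.natDegree B₁.natDegree = A₁.natDegree := max_eq_left (le_of_lt hgt)
    have hlead : ∀ (K : Type) [Field K] [Algebra F K] (r : K),
        aeval r (pencil A₁ B₁).leadingCoeff = algebraMap F K A₁.leadingCoeff := by
      intro K _ _ r
      rw [leadingCoeff, hnd, hmax, pencil_coeff, coeff_eq_zero_of_natDegree_lt hgt, map_sub,
        map_mul, aeval_C, aeval_C, aeval_X, map_zero, mul_zero, sub_zero]
      rfl
    refine ⟨((-1) ^ e * A₁.leadingCoeff) / A₁.coeff 0, B₁.coeff 0 / A₁.coeff 0,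
      div_ne_zero (mul_ne_zero (pow_ne_zero _ (by simp))
        (leadingCoeff_ne_zero.2 hA₁)) hA0, div_ne_zero hB0 hA0, ?_⟩
    refine h2.pull 1 0 0 1 fun K _ _ x y => ?_
    rw [zpow_one, zpow_one, zpow_zero, zpow_zero, one_mul, mul_one, lin, nor]
    refine and_congr_left fun _ => ?_
    rw [hlead, hc0, ← he]
    have ha : algebraMap F K (A₁.coeff 0) ≠ 0 := by
      rwa [Ne, map_eq_zero_iff _ (algebraMap F K).injective]
    have hsqK : ((-1 : K) ^ e) * (-1) ^ e = 1 := by
      rw [← mul_pow]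
      simp
    simp only [map_div₀, map_neg, map_mul, map_pow, map_one]
    rw [div_mul_eq_mul_div, div_mul_eq_mul_div, ← add_div, div_eq_one_iff_eq ha]
    constructor
    · intro h3
      linear_combination ((-1 : K) ^ e) * h3 - (x : K) * algebraMap F K A₁.leadingCoeff * hsqK
    · intro h3
      linear_combination ((-1 : K) ^ e) * h3 + (algebraMap F K (A₁.coeff 0) -
          (y : K) * algebraMap F K (B₁.coeff 0)) * hsqK

end

end Pool.Agent.H74.ZP
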