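import Pool.Agent.H74.ZP.Plc

/-!
# Transport of solutions
-/

set_option autoImplicit false
set_option linter.unusedSectionVars false
set_option linter.style.haveILetI false
set_option synthInstance.maxHeartbeats 400000

namespace Pool.Agent.H74.ZP

open Polynomial Pool.Agent.R948

section

variable {F : Type} [Field F]

theorem spc_hom {A B : Type} [Field A] [Algebra F A] [Field B] [Algebra F B] (φ : A →ₐ[F] B)
    (P : F[X][X]) (x T : A) : (spc B (φ T) P).eval (φ x) = φ ((spc A T P).eval x) := by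
  rw [ev_eq, ev_eq, map_sum]
  refine Finset.sum_congr rfl fun p _ => ?_
  rw [map_mul, map_mul, map_pow, map_pow, AlgHom.commutes]

theorem trans_hom {A B : Type} [Field A] [Algebra F A] [Field B] [Algebra F B] (φ : A →ₐ[F] B)
    {x : A} : Transcendental F (φ x) ↔ Transcendental F x :=
  not_congr (isAlgebraic_algHom_iff φ φ.injective)

/-- exchange of the variables -/
noncomputable def sw (P : F[X][X]) : F[X][X] :=
  ∑ p ∈ spt P, monomial p.2 (monomial p.1 (cf P p))

theorem sw_eval {K : Type} [Field K] [Algebra F K] (P : F[X][X]) (x T : K) :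
    (spc K x (sw P)).eval T = (spc K T P).eval x := by
  rw [ev_eq P, spc, sw, Polynomial.map_sum, eval_finsetSum]
  refine Finset.sum_congr rfl fun p _ => ?_
  rw [map_monomial, eval_monomial]
  have h2 : ((aeval x : F[X] →ₐ[F] K) : F[X] →+* K) (monomial p.1 (cf P p)) =
      algebraMap F K (cf P p) * x ^ p.1 := aeval_monomial _
  rw [h2, mul_assoc]

theorem sw_ne_zero {P : F[X][X]} (hP : P ≠ 0) : sw P ≠ 0 := by
  obtain ⟨p, hp⟩ := spt_nonempty hP
  intro h0
  have h1 : ((sw P).coeff p.2).coeff p.1 = cf P p := by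
    rw [sw, finsetSum_coeff, finsetSum_coeff, Finset.sum_eq_single p]
    · rw [coeff_monomial, if_pos rfl, coeff_monomial, if_pos rfl]
    · intro q _ hqp
      rw [coeff_monomial]
      by_cases h1 : q.2 = p.2
      · rw [if_pos h1, coeff_monomial, if_neg]
        intro h2
        exact hqp (Prod.ext h2 h1)
      · rw [if_neg h1, coeff_zero]
    · intro h2
      exact absurd hp h2
  rw [h0, coeff_zero, coeff_zero] at h1
  exact mem_spt.1 hp h1.symm

/-- the second coordinate of a point is algebraic over the first one -/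
theorem alg_snd {K : Type} [Field K] [Algebra F K] {P : F[X][X]} (hP : P ≠ 0) {x T : K}
    (hx : Transcendental F x) (h : (spc K T P).eval x = 0) :
    IsAlgebraic (Algebra.adjoin F {x}) T :=
  root_alg (Q := sw P) (aeval_ne_zero hx (leadingCoeff_ne_zero.2 (sw_ne_zero hP)))
    (by rw [IsRoot, sw_eval, h])

theorem alg_fst {K : Type} [Field K] [Algebra F K] {P : F[X][X]} (hP : P ≠ 0) {x T : K}
    (hT : Transcendental F T) (h : (spc K T P).eval x = 0) :
    IsAlgebraic (Algebra.adjoin F {T}) x :=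
  root_alg (aeval_ne_zero hT (leadingCoeff_ne_zero.2 hP)) h

/-- the evaluation at two points -/
noncomputable def ev2 (K : Type) [Field K] [Algebra F K] (Z s : K) : F[X][X] →ₐ[F] K :=
  ((aeval Z : K[X] →ₐ[K] K).restrictScalars F).comp (mapAlgHom (aeval s : F[X] →ₐ[F] K))

theorem ev2_eq {K : Type} [Field K] [Algebra F K] (Z s : K) (R : F[X][X]) :
    ev2 K Z s R = (spc K s R).eval Z := by
  rw [ev2, spc]
  simp only [AlgHom.comp_apply, AlgHom.restrictScalars_apply, coe_mapAlgHom, coe_aeval_eq_eval]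

/-- a domain contained in two fields -/
theorem exists_common {R K K' : Type} [CommRing R] [IsDomain R] [Field K] [Field K']
    [IsAlgClosed K'] (f₁ : R →+* K) (f₂ : R →+* K') (h1 : Function.Injective f₁)
    (h2 : Function.Injective f₂) : ∃ (S : Subfield K) (ψ : S →+* K'),
      (∀ r, ∃ hr : f₁ r ∈ S, ψ ⟨_, hr⟩ = f₂ r) ∧ ∀ x : K, IsAlgebraic S x → x ∈ S := by
  let g₁ : FractionRing R →+* K := IsFractionRing.lift h1
  let g₂ : FractionRing R →+* K' := IsFractionRing.lift h2
  have eg₁ : ∀ r, g₁ (algebraMap R (FractionRing R) r) = f₁ r := fun r =>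
    IsFractionRing.lift_algebraMap h1 r
  have eg₂ : ∀ r, g₂ (algebraMap R (FractionRing R) r) = f₂ r := fun r =>
    IsFractionRing.lift_algebraMap h2 r
  letI : Algebra (FractionRing R) K := g₁.toAlgebra
  letI : Algebra (FractionRing R) K' := g₂.toAlgebra
  let ψ : algebraicClosure (FractionRing R) K →ₐ[FractionRing R] K' := IsAlgClosed.lift
  refine ⟨(algebraicClosure (FractionRing R) K).toSubfield, ψ.toRingHom, fun r => ?_, ?_⟩
  · have h3 : f₁ r ∈ algebraicClosure (FractionRing R) K := by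
      rw [← eg₁]
      exact IntermediateField.algebraMap_mem _ (algebraMap R (FractionRing R) r)
    refine ⟨h3, ?_⟩
    rw [← eg₂]
    refine Eq.trans ?_ (ψ.commutes (algebraMap R (FractionRing R) r))
    change ψ _ = ψ _
    congr 1
    exact Subtype.ext (eg₁ r).symm
  · intro x hx
    change x ∈ algebraicClosure (FractionRing R) K
    rw [mem_algebraicClosure_iff]
    have hx' : IsAlgebraic (algebraicClosure (FractionRing R) K) x := hx
    exact hx'.restrictScalars (FractionRing R)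

/-- **Transport.** -/
theorem transport {K K' : Type} [Field K] [Field K'] [Algebra F K] [Algebra F K'] [IsAlgClosed K']
    {Z s : K} {Z' s' : K'} (h : ∀ R : F[X][X], (spc K s R).eval Z = 0 ↔
      (spc K' s' R).eval Z' = 0) : ∃ (S : IntermediateField F K) (ψ : S →ₐ[F] K') (hZ : Z ∈ S)
      (hs : s ∈ S), ψ ⟨Z, hZ⟩ = Z' ∧ ψ ⟨s, hs⟩ = s' ∧ ∀ x : K, IsAlgebraic S x → x ∈ S := by
  obtain ⟨I, hI⟩ : ∃ I : Ideal F[X][X], I = RingHom.ker (ev2 K Z s) := ⟨_, rfl⟩
  have hI1 : ∀ R, R ∈ I → (ev2 (F := F) K Z s).toRingHom R = 0 := by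
    intro R hR
    rw [hI] at hR
    exact hR
  have hI2 : ∀ R, R ∈ I → (ev2 (F := F) K' Z' s').toRingHom R = 0 := by
    intro R hR
    have := hI1 R hR
    change ev2 K Z s R = 0 at this
    change ev2 K' Z' s' R = 0
    rw [ev2_eq] at this ⊢
    exact (h R).1 this
  haveI : I.IsPrime := by
    rw [hI]
    exact RingHom.ker_isPrime _
  obtain ⟨R₀, _, _, π, f₁, f₂, hπ, hker, e1, e2⟩ : ∃ (R₀ : Type) (_ : CommRing R₀)
      (_ : IsDomain R₀) (π : F[X][X] →+* R₀) (f₁ : R₀ →+* K) (f₂ : R₀ →+* K'),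
      Function.Surjective π ∧ (∀ R, π R = 0 ↔ R ∈ I) ∧ (∀ R, f₁ (π R) = ev2 K Z s R) ∧
      (∀ R, f₂ (π R) = ev2 K' Z' s' R) :=
    ⟨F[X][X] ⧸ I, inferInstance, inferInstance, Ideal.Quotient.mk I,
      Ideal.Quotient.lift I (ev2 (F := F) K Z s).toRingHom hI1,
      Ideal.Quotient.lift I (ev2 (F := F) K' Z' s').toRingHom hI2,
      Ideal.Quotient.mk_surjective, fun R => Ideal.Quotient.eq_zero_iff_mem,
      fun R => rfl, fun R => rfl⟩
  have h1 : Function.Injective f₁ := by
    rw [injective_iff_map_eq_zero]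
    intro a ha
    obtain ⟨R, rfl⟩ := hπ a
    rw [e1] at ha
    rw [hker, hI]
    exact ha
  have h2 : Function.Injective f₂ := by
    rw [injective_iff_map_eq_zero]
    intro a ha
    obtain ⟨R, rfl⟩ := hπ a
    rw [e2, ev2_eq] at ha
    rw [hker, hI]
    change ev2 K Z s R = 0
    rw [ev2_eq]
    exact (h R).2 ha
  obtain ⟨S, ψ, h3, h4⟩ := exists_common f₁ f₂ h1 h2
  have key : ∀ R : F[X][X], ∃ hR : ev2 K Z s R ∈ S, ψ ⟨_, hR⟩ = ev2 K' Z' s' R := by
    intro R
    obtain ⟨h5, h6⟩ := h3 (π R)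
    rw [e2] at h6
    refine ⟨e1 R ▸ h5, ?_⟩
    rw [← h6]
    congr 1
    exact Subtype.ext (e1 R).symm
  have eC : ∀ c : F, ev2 K Z s (C (C c)) = algebraMap F K c := by
    intro c
    rw [ev2_eq, spc, map_C, eval_C]
    exact aeval_C s c
  have eC' : ∀ c : F, ev2 K' Z' s' (C (C c)) = algebraMap F K' c := by
    intro c
    rw [ev2_eq, spc, map_C, eval_C]
    exact aeval_C s' c
  have eZ : ev2 (F := F) K Z s X = Z := by
    rw [ev2_eq, spc, map_X, eval_X]
  have eZ' : ev2 (F := F) K' Z' s' X = Z' := by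
    rw [ev2_eq, spc, map_X, eval_X]
  have es : ev2 (F := F) K Z s (C X) = s := by
    rw [ev2_eq, spc, map_C, eval_C]
    exact aeval_X s
  have es' : ev2 (F := F) K' Z' s' (C X) = s' := by
    rw [ev2_eq, spc, map_C, eval_C]
    exact aeval_X s'
  have hF : ∀ c : F, algebraMap F K c ∈ S := fun c => by
    obtain ⟨h5, -⟩ := key (C (C c))
    rwa [eC] at h5
  have key2 : ∀ (R : F[X][X]) (x : K) (hx : x ∈ S), ev2 K Z s R = x →
      ψ ⟨x, hx⟩ = ev2 K' Z' s' R := by
    rintro R _ hx rfl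
    obtain ⟨h5, h6⟩ := key R
    exact h6
  have hZ : Z ∈ S := by
    obtain ⟨h5, -⟩ := key X
    rwa [eZ] at h5
  have hs : s ∈ S := by
    obtain ⟨h5, -⟩ := key (C X)
    rwa [es] at h5
  let ψ' : S.toIntermediateField hF →ₐ[F] K' :=
    { toRingHom := ψ
      commutes' := fun c => by
        rw [← eC' c]
        exact key2 (C (C c)) _ (hF c) (eC c) }
  refine ⟨S.toIntermediateField hF, ψ', hZ, hs, ?_, ?_, h4⟩
  · rw [← eZ']
    exact key2 X Z hZ eZ
  · rw [← es']
    exact key2 (C X) s hs es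

end

end Pool.Agent.H74.ZP
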