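import Pool.Agent.H74.ZP.Path

/-!
# Torsion twists
-/

set_option autoImplicit false
set_option linter.unusedSectionVars false
set_option linter.style.haveILetI false

namespace Pool.Agent.H74.ZP

open Polynomial Pool.Agent.R948

section

variable {F : Type} [Field F]

/-- there are infinitely many roots of unity -/
theorem exists_tor [IsAlgClosed F] [CharZero F] {G : F[X]} (hG : G ≠ 0) :
    ∃ ζ : Fˣ, Tor ζ ∧ G.eval (ζ : F) ≠ 0 := by
  classical
  by_contra hcon
  push Not at hcon
  obtain ⟨N, hN⟩ : ∃ N, N = G.natDegree + 1 := ⟨_, rfl⟩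
  have hN0 : 0 < N := by omega
  have hNF : ((N : ℕ) : F) ≠ 0 := by exact_mod_cast hN0.ne'
  have hsep : (X ^ N - C (1 : F)).Separable := separable_X_pow_sub_C 1 hNF one_ne_zero
  have hcard : (X ^ N - C (1 : F)).roots.card = N := by
    rw [IsAlgClosed.card_roots_eq_natDegree, natDegree_X_pow_sub_C]
  have hnd := nodup_roots hsep
  have hle : (X ^ N - C (1 : F)).roots ≤ G.roots := by
    rw [Multiset.le_iff_subset hnd]
    intro x hx
    have h1 := isRoot_of_mem_roots hx
    rw [IsRoot, eval_sub, eval_pow, eval_X, eval_C, sub_eq_zero] at h1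
    have hx0 : x ≠ 0 := by
      rintro rfl
      rw [zero_pow hN0.ne'] at h1
      exact zero_ne_one h1
    refine (mem_roots hG).2 ?_
    have h2 := hcon (Units.mk0 x hx0) ⟨N, hN0, Units.ext (by
      rw [Units.val_pow_eq_pow_val, Units.val_mk0, h1, Units.val_one])⟩
    exact h2
  have h1 := Multiset.card_le_card hle
  have h2 := card_roots' G
  omega

theorem exists_prod_form [IsAlgClosed F] {A : F[X]} {d : ℕ} (hd : A.natDegree = d) :
    ∃ α : Fin d → F, (∀ K : Type, ∀ [Field K] [Algebra F K], ∀ x : K,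
      aeval x A = algebraMap F K A.leadingCoeff * ∏ i, (x - algebraMap F K (α i))) ∧
      ∀ i, A.IsRoot (α i) := by
  have hs : A.Splits := IsAlgClosed.splits A
  have hcard : A.roots.toList.length = d := by
    rw [Multiset.length_toList, IsAlgClosed.card_roots_eq_natDegree, hd]
  let g : Fin d → F := fun k => A.roots.toList.get (k.cast hcard.symm)
  have hg : ∀ k, A.IsRoot (g k) := by
    intro k
    have h1 : g k ∈ A.roots := by
      rw [← Multiset.mem_toList]
      exact List.get_mem _ _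
    exact isRoot_of_mem_roots h1
  have hA : A = C A.leadingCoeff * ∏ k, (X - C (g k)) := by
    conv_lhs => rw [hs.eq_prod_roots]
    congr 1
    conv_lhs => rw [← Multiset.coe_toList A.roots, Multiset.map_coe, Multiset.prod_coe]
    rw [← List.prod_ofFn]
    congr 1
    apply List.ext_get
    · simp [hcard]
    · intro n h1 h2
      rw [List.get_eq_getElem, List.get_eq_getElem, List.getElem_ofFn, List.getElem_map]
      rfl
  refine ⟨g, fun K _ _ x => ?_, hg⟩
  conv_lhs => rw [hA]
  rw [map_mul, aeval_C, map_prod]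
  congr 1
  refine Finset.prod_congr rfl fun i _ => ?_
  rw [map_sub, aeval_X, aeval_C]

/-- a linear form of the pencil -/
noncomputable def lf (A B : F[X]) (c : F) : F[X] := C (A.eval c) - X * C (B.eval c)

/-- the norm of the twist -/
noncomputable def tw (A B : F[X]) {d : ℕ} (g η : F) (α : Fin d → F) : F[X] :=
  C (g ^ d) * ∏ i, lf A B (α i * η)

theorem lf_natDegree {A B : F[X]} {c : F} (hB : B.eval c ≠ 0) : (lf A B c).natDegree = 1 := by
  have h1 : lf A B c = C (-(B.eval c)) * X + C (A.eval c) := by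
    rw [lf, C_neg]
    ring
  rw [h1]
  exact natDegree_linear (neg_ne_zero.2 hB)

theorem lf_leadingCoeff {A B : F[X]} {c : F} (hB : B.eval c ≠ 0) :
    (lf A B c).leadingCoeff = -(B.eval c) := by
  have h1 : lf A B c = C (-(B.eval c)) * X + C (A.eval c) := by
    rw [lf, C_neg]
    ring
  rw [h1]
  exact leadingCoeff_linear (neg_ne_zero.2 hB)

theorem lf_coeff_zero (A B : F[X]) (c : F) : (lf A B c).coeff 0 = A.eval c := by
  rw [lf, coeff_sub, coeff_C_zero, mul_coeff_zero, coeff_X_zero, zero_mul, sub_zero]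

theorem tw_coeff_zero (A B : F[X]) {d : ℕ} (g η : F) (α : Fin d → F) :
    (tw A B g η α).coeff 0 = g ^ d * ∏ i, A.eval (α i * η) := by
  rw [tw, mul_coeff_zero, coeff_C_zero, coeff_zero_prod]
  congr 1
  exact Finset.prod_congr rfl fun i _ => lf_coeff_zero _ _ _

theorem tw_leadingCoeff {A B : F[X]} {d : ℕ} {g η : F} {α : Fin d → F}
    (h : ∀ i, B.eval (α i * η) ≠ 0) :
    (tw A B g η α).leadingCoeff = g ^ d * ((-1) ^ d * ∏ i, B.eval (α i * η)) := by
  rw [tw, leadingCoeff_mul, leadingCoeff_C, leadingCoeff_prod]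
  congr 1
  have h1 : ∀ i, (lf A B (α i * η)).leadingCoeff = (-1) * B.eval (α i * η) := fun i => by
    rw [lf_leadingCoeff (h i)]
    ring
  rw [Finset.prod_congr rfl fun i _ => h1 i, Finset.prod_mul_distrib, Finset.prod_const,
    Finset.card_univ, Fintype.card_fin]

theorem tw_natDegree {A B : F[X]} {d : ℕ} {g η : F} {α : Fin d → F} (hg : g ≠ 0)
    (h : ∀ i, B.eval (α i * η) ≠ 0) : (tw A B g η α).natDegree = d := by
  have h1 : ∀ i ∈ Finset.univ, lf A B (α i * η) ≠ 0 := by
    intro i _ h0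
    have := lf_natDegree (A := A) (h i)
    rw [h0, natDegree_zero] at this
    omega
  rw [tw, natDegree_C_mul (pow_ne_zero _ hg), natDegree_prod _ _ h1]
  rw [Finset.sum_congr rfl fun i _ => lf_natDegree (h i)]
  simp

theorem aeval_lf {K : Type} [Field K] [Algebra F K] (A B : F[X]) (c : F) (p : K) :
    aeval p (lf A B c) = aeval (algebraMap F K c) A - p * aeval (algebraMap F K c) B := by
  rw [lf, map_sub, map_mul, aeval_C, aeval_X, aeval_C]
  simp only [aeval_algebraMap_apply, coe_aeval_eq_eval]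

/-- the product over the roots of the pencil of the values of a polynomial -/
theorem prod_twist {K : Type} [Field K] [Algebra F K] {A B G : F[X]} {d : ℕ}
    {γ : Fin d → F} (hG : ∀ x : K, aeval x G = algebraMap F K G.leadingCoeff *
      ∏ i, (x - algebraMap F K (γ i))) {p c : K} (T : Fin d → K)
    (hT : ∀ x : K, aeval x A - p * aeval x B = c * ∏ i, (x - T i)) (ζ η : F) (hζ : ζ * η = 1) :
    c ^ d * ∏ i, aeval (algebraMap F K ζ * T i) G =
      (-algebraMap F K ζ) ^ (d * d) * aeval p (tw A B G.leadingCoeff η γ) := by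
  have hζK : algebraMap F K ζ * algebraMap F K η = 1 := by
    rw [← map_mul, hζ, map_one]
  have h1 : ∀ i, aeval (algebraMap F K ζ * T i) G = algebraMap F K G.leadingCoeff *
      ∏ j, ((-algebraMap F K ζ) * (algebraMap F K (γ j * η) - T i)) := by
    intro i
    rw [hG]
    congr 1
    refine Finset.prod_congr rfl fun j _ => ?_
    rw [map_mul]
    linear_combination (algebraMap F K (γ j)) * hζK
  have h2 : ∀ j, c * ∏ i, (algebraMap F K (γ j * η) - T i) = aeval p (lf A B (γ j * η)) := by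
    intro j
    rw [aeval_lf, hT]
  rw [Finset.prod_congr rfl fun i _ => h1 i, Finset.prod_mul_distrib, Finset.prod_const,
    Finset.card_univ, Fintype.card_fin]
  have h3 : ∏ i : Fin d, ∏ j : Fin d, ((-algebraMap F K ζ) *
      (algebraMap F K (γ j * η) - T i)) = (-algebraMap F K ζ) ^ (d * d) *
      ∏ j : Fin d, ∏ i : Fin d, (algebraMap F K (γ j * η) - T i) := by
    rw [Finset.prod_comm]
    simp only [Finset.prod_mul_distrib, Finset.prod_const, Finset.card_univ, Fintype.card_fin]
    rw [← pow_mul]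
  have h4 : c ^ d * ∏ j : Fin d, ∏ i : Fin d, (algebraMap F K (γ j * η) - T i) =
      ∏ j : Fin d, aeval p (lf A B (γ j * η)) := by
    rw [← Finset.prod_congr rfl fun j _ => h2 j, Finset.prod_mul_distrib, Finset.prod_const,
      Finset.card_univ, Fintype.card_fin]
  rw [h3, tw, map_mul, map_prod, aeval_C, ← h4, map_pow]
  ring

/-- choice of the twist -/
theorem exists_eta [IsAlgClosed F] [CharZero F] {A B : F[X]} (hcop : IsCoprime A B)
    (hA : A.coeff 0 ≠ 0) (hB : B.coeff 0 ≠ 0) {e : ℕ} {α β : Fin (e + 1) → F}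
    (hα : ∀ i, A.IsRoot (α i)) (hβ : ∀ i, B.IsRoot (β i)) :
    ∃ η : Fˣ, Tor η ∧ (∀ i, A.eval (α i * η) ≠ 0) ∧ (∀ i, B.eval (α i * η) ≠ 0) ∧
      (∀ i, A.eval (β i * η) ≠ 0) ∧ (∀ i, B.eval (β i * η) ≠ 0) ∧
      (∏ i, B.eval (α i * η)) * ∏ i, A.eval (β i * η) ≠
        (∏ i, A.eval (α i * η)) * ∏ i, B.eval (β i * η) := by
  have hne : ∀ {x : F}, A.IsRoot x → B.eval x ≠ 0 := by
    intro x hx h0
    obtain ⟨a, b, hab⟩ := hcop
    have h4 := congrArg (eval x) hab
    rw [eval_add, eval_mul, eval_mul, hx.eq_zero, h0] at h4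
    simp at h4
  have hne' : ∀ {x : F}, B.IsRoot x → A.eval x ≠ 0 := by
    intro x hx h0
    exact hne h0 hx
  have hα0 : ∀ i, α i ≠ 0 := by
    intro i h0
    have := hα i
    rw [h0, IsRoot, ← coeff_zero_eq_eval_zero] at this
    exact hA this
  have hβ0 : ∀ i, β i ≠ 0 := by
    intro i h0
    have := hβ i
    rw [h0, IsRoot, ← coeff_zero_eq_eval_zero] at this
    exact hB this
  have hA0 : A ≠ 0 := by
    rintro rfl
    exact hA rfl
  have hB0 : B ≠ 0 := by
    rintro rfl
    exact hB rfl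
  have hcomp : ∀ {G : F[X]} {c : F}, G.coeff 0 ≠ 0 → G.comp (C c * X) ≠ 0 := by
    intro G c hG h0
    have h1 := congrArg (eval 0) h0
    rw [eval_comp, eval_mul, eval_X, mul_zero, eval_zero, ← coeff_zero_eq_eval_zero] at h1
    exact hG h1
  have hev : ∀ (G : F[X]) (c η : F), (G.comp (C c * X)).eval η = G.eval (c * η) := by
    intro G c η
    rw [eval_comp, eval_mul, eval_C, eval_X]
  let GA : F[X] := (∏ i, A.comp (C (α i) * X)) * ∏ i, B.comp (C (β i) * X)
  let GB : F[X] := (∏ i, B.comp (C (α i) * X)) * ∏ i, A.comp (C (β i) * X)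
  have hGA : GA ≠ 0 := mul_ne_zero (Finset.prod_ne_zero_iff.2 fun i _ => hcomp hA)
    (Finset.prod_ne_zero_iff.2 fun i _ => hcomp hB)
  have hGB : GB ≠ 0 := mul_ne_zero (Finset.prod_ne_zero_iff.2 fun i _ => hcomp hB)
    (Finset.prod_ne_zero_iff.2 fun i _ => hcomp hA)
  have hGAe : ∀ η, GA.eval η = (∏ i, A.eval (α i * η)) * ∏ i, B.eval (β i * η) := by
    intro η
    simp only [GA, eval_mul, eval_prod, hev]
  have hGBe : ∀ η, GB.eval η = (∏ i, B.eval (α i * η)) * ∏ i, A.eval (β i * η) := by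
    intro η
    simp only [GB, eval_mul, eval_prod, hev]
  have hsub : GB - GA ≠ 0 := by
    intro h0
    have h1 := congrArg (eval 1) h0
    rw [eval_sub, hGAe, hGBe, eval_zero, sub_eq_zero] at h1
    have h2 : ∏ i, A.eval (α i * 1) = 0 := Finset.prod_eq_zero (Finset.mem_univ 0) (by
      rw [mul_one]
      exact hα 0)
    rw [h2, zero_mul] at h1
    refine mul_ne_zero (Finset.prod_ne_zero_iff.2 fun i _ => ?_)
      (Finset.prod_ne_zero_iff.2 fun i _ => ?_) h1
    · rw [mul_one]
      exact hne (hα i)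
    · rw [mul_one]
      exact hne' (hβ i)
  obtain ⟨η, hη, h1⟩ := exists_tor (mul_ne_zero (mul_ne_zero hGA hGB) hsub)
  rw [eval_mul, eval_mul, eval_sub] at h1
  have h2 := left_ne_zero_of_mul (left_ne_zero_of_mul h1)
  have h3 := right_ne_zero_of_mul (left_ne_zero_of_mul h1)
  have h4 := right_ne_zero_of_mul h1
  rw [hGAe] at h2
  rw [hGBe] at h3
  rw [hGAe, hGBe, sub_ne_zero] at h4
  exact ⟨η, hη, fun i => Finset.prod_ne_zero_iff.1 (left_ne_zero_of_mul h2) i (Finset.mem_univ i),
    fun i => Finset.prod_ne_zero_iff.1 (left_ne_zero_of_mul h3) i (Finset.mem_univ i),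
    fun i => Finset.prod_ne_zero_iff.1 (right_ne_zero_of_mul h3) i (Finset.mem_univ i),
    fun i => Finset.prod_ne_zero_iff.1 (right_ne_zero_of_mul h2) i (Finset.mem_univ i), h4⟩

end

end Pool.Agent.H74.ZP
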