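import Pool.Agent.H74.ZP.Twist

/-!
# Torsion twists of a rational function
-/

set_option autoImplicit false
set_option linter.unusedSectionVars false
set_option linter.style.haveILetI false

namespace Pool.Agent.H74.ZP

open Polynomial Pool.Agent.R948

section

variable {F : Type} [Field F]

theorem rat_trans [IsAlgClosed F] {A B : F[X]} (hcop : IsCoprime A B)
    (hnp : ∀ ξ : F, A ≠ C ξ * B) (K : Type) [Field K] [Algebra F K] (T p : Kˣ) :
    cur (pencil A B) K T p ↔ rat A B K p T := by
  have h := cur_pencil' (g := 1) (i := 0) (j := 0) one_ne_zero hcop hnp K T p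
  rw [h]
  simp

/-- the roots of the pencil -/
theorem pencil_prod {K : Type} [Field K] [Algebra F K] {A B : F[X]} {e : ℕ}
    (hA : A.natDegree = e + 1) (hB : B.natDegree = e + 1) {p : K}
    (hc : algebraMap F K A.leadingCoeff - p * algebraMap F K B.leadingCoeff ≠ 0)
    (T : Fin (e + 1) → Kˣ) (hT : Function.Injective T)
    (h : ∀ i, aeval (T i : K) A = p * aeval (T i : K) B) (x : K) :
    aeval x A - p * aeval x B = (algebraMap F K A.leadingCoeff - p *
      algebraMap F K B.leadingCoeff) * ∏ i, (x - (T i : K)) := by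
  classical
  let P : K[X] := A.map (algebraMap F K) - C p * B.map (algebraMap F K)
  have hPe : ∀ y : K, P.eval y = aeval y A - p * aeval y B := by
    intro y
    simp only [P, eval_sub, eval_mul, eval_C, eval_map_algebraMap]
  have hPc : P.coeff (e + 1) = algebraMap F K A.leadingCoeff - p *
      algebraMap F K B.leadingCoeff := by
    simp only [P, coeff_sub, coeff_map, coeff_C_mul, leadingCoeff, hA, hB]
  have hPd : P.natDegree = e + 1 := by
    refine le_antisymm ?_ (le_natDegree_of_ne_zero (by rw [hPc]; exact hc))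
    rw [natDegree_le_iff_coeff_eq_zero]
    intro N hN
    simp only [P, coeff_sub, coeff_map, coeff_C_mul]
    rw [coeff_eq_zero_of_natDegree_lt (hA ▸ hN), coeff_eq_zero_of_natDegree_lt (hB ▸ hN),
      map_zero, mul_zero, sub_zero]
  have hPl : P.leadingCoeff = algebraMap F K A.leadingCoeff - p *
      algebraMap F K B.leadingCoeff := by
    rw [leadingCoeff, hPd, hPc]
  have hP0 : P ≠ 0 := by
    intro h0
    rw [h0, natDegree_zero] at hPd
    omega
  let s : Multiset K := Finset.univ.val.map fun k => (T k : K)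
  have hs : s.Nodup := by
    refine (Multiset.nodup_map_iff_inj_on Finset.univ.nodup).2 ?_
    intro x _ y _ hxy
    exact hT (Units.ext hxy)
  have hle : s ≤ P.roots := by
    rw [Multiset.le_iff_subset hs]
    intro a ha
    obtain ⟨k, -, rfl⟩ := Multiset.mem_map.1 ha
    refine (mem_roots hP0).2 ?_
    rw [IsRoot, hPe, h k, sub_self]
  have hcs : s.card = e + 1 := by simp [s]
  have hcard : P.roots.card = P.natDegree := by
    refine le_antisymm (card_roots' _) ?_
    rw [hPd, ← hcs]
    exact Multiset.card_le_card hle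
  have heq : s = P.roots := by
    refine Multiset.eq_of_le_of_card_le hle ?_
    rw [hcard, hPd, hcs]
  have h2 := C_leadingCoeff_mul_prod_multiset_X_sub_C hcard
  have h3 := congrArg (eval x) h2
  rw [eval_mul, eval_C, eval_multiset_prod, Multiset.map_map, hPe, hPl, ← heq] at h3
  rw [← h3]
  congr 1
  simp only [s, Multiset.map_map, Finset.prod_map_val, Function.comp, eval_sub, eval_X, eval_C]

/-- the value of the twisted norm -/
theorem twist_value {K : Type} [Field K] [Algebra F K] [IsAlgClosed F] {A B : F[X]} {e : ℕ}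
    (hA : A.natDegree = e + 1) (hB : B.natDegree = e + 1) (hB0 : B ≠ 0)
    {α β : Fin (e + 1) → F}
    (hα : ∀ x : K, aeval x A = algebraMap F K A.leadingCoeff * ∏ i, (x - algebraMap F K (α i)))
    (hβ : ∀ x : K, aeval x B = algebraMap F K B.leadingCoeff * ∏ i, (x - algebraMap F K (β i)))
    {p : K} (hp : Transcendental F p) (T : Fin (e + 1) → Kˣ) (hT : Function.Injective T)
    (h : ∀ i, aeval (T i : K) A = p * aeval (T i : K) B) (ζ : Fˣ) (q : Fin (e + 1) → K)
    (hq : ∀ i, q i * aeval ((uo K ζ * T i : Kˣ) : K) B = aeval ((uo K ζ * T i : Kˣ) : K) A) :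
    (∏ i, q i) * aeval p (tw A B B.leadingCoeff ((ζ⁻¹ : Fˣ) : F) β) =
      aeval p (tw A B A.leadingCoeff ((ζ⁻¹ : Fˣ) : F) α) := by
  have hc : algebraMap F K A.leadingCoeff - p * algebraMap F K B.leadingCoeff ≠ 0 := by
    intro h0
    refine lin_ne (c := -B.leadingCoeff) (d := A.leadingCoeff) hp
      (Or.inl (neg_ne_zero.2 (leadingCoeff_ne_zero.2 hB0))) ?_
    rw [map_neg]
    linear_combination h0
  have hζ : (ζ : F) * ((ζ⁻¹ : Fˣ) : F) = 1 := Units.mul_inv ζ
  have h1 := prod_twist hα (fun i => (T i : K)) (pencil_prod hA hB hc T hT h) (ζ : F) _ hζ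
  have h2 := prod_twist hβ (fun i => (T i : K)) (pencil_prod hA hB hc T hT h) (ζ : F) _ hζ
  have h3 : (∏ i, q i) * ∏ i, aeval (algebraMap F K (ζ : F) * (T i : K)) B =
      ∏ i, aeval (algebraMap F K (ζ : F) * (T i : K)) A := by
    rw [← Finset.prod_mul_distrib]
    refine Finset.prod_congr rfl fun i _ => ?_
    have := hq i
    rwa [val_scale] at this
  have hκ : (-algebraMap F K (ζ : F)) ^ ((e + 1) * (e + 1)) ≠ 0 := by
    refine pow_ne_zero _ (neg_ne_zero.2 ?_)
    rw [Ne, map_eq_zero_iff _ (algebraMap F K).injective]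
    exact ζ.ne_zero
  refine mul_left_cancel₀ hκ ?_
  rw [← h1, ← h3]
  linear_combination (-(∏ i, q i)) * h2

theorem aeval_mem {K : Type} [Field K] [Algebra F K] {L : IntermediateField F K} {x : K}
    (hx : x ∈ L) (A : F[X]) : aeval x A ∈ L := by
  have h1 : aeval x A = algebraMap L K (aeval (⟨x, hx⟩ : L) A) := by
    rw [← aeval_algebraMap_apply]
    rfl
  rw [h1]
  exact (aeval (⟨x, hx⟩ : L) A).2

/-- **Torsion twist of a rational function.** -/
theorem U_twist [IsAlgClosed F] [CharZero F] {A B : F[X]} {e : ℕ} (hcop : IsCoprime A B)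
    (hA0 : A.coeff 0 ≠ 0) (hA : A.natDegree = e + 1) (hB : B.natDegree = e + 1)
    (hnp : ∀ ξ : F, A ≠ C ξ * B) {α β : Fin (e + 1) → F}
    (hα : ∀ K : Type, ∀ [Field K] [Algebra F K], ∀ x : K,
      aeval x A = algebraMap F K A.leadingCoeff * ∏ i, (x - algebraMap F K (α i)))
    (hβ : ∀ K : Type, ∀ [Field K] [Algebra F K], ∀ x : K,
      aeval x B = algebraMap F K B.leadingCoeff * ∏ i, (x - algebraMap F K (β i)))
    (ζ : Fˣ) (hζ : Tor ζ) (htwB : tw A B B.leadingCoeff ((ζ⁻¹ : Fˣ) : F) β ≠ 0)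
    (h : U (rat A B)) :
    U (rat (tw A B A.leadingCoeff ((ζ⁻¹ : Fˣ) : F) α)
      (tw A B B.leadingCoeff ((ζ⁻¹ : Fˣ) : F) β)) := by
  classical
  have hAne : A ≠ 0 := by
    rintro rfl
    exact hA0 rfl
  have hBne : B ≠ 0 := by
    rintro rfl
    rw [natDegree_zero] at hB
    omega
  intro ι J _ _ t s m n ht hs
  -- the exponents
  let mQ : J → Fin (e + 1) → ι ⊕ (J × (Fin (e + 1) ⊕ Fin e)) → ℤ := fun j => Fin.lastCases
    (Sum.elim (m j) (fun a => if a.1 = j then Sum.elim (fun _ => 0) (fun _ => -1) a.2 else 0))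
    (fun i => Sum.elim 0 (Pi.single (j, Sum.inr i) 1))
  let tQ : J → Fin (e + 1) → Fˣ := fun j => Fin.lastCases (t j) (fun _ => 1)
  have hlast : ∀ (K : Type) [Field K] [Algebra F K] (y : ι → Kˣ)
      (x : J × (Fin (e + 1) ⊕ Fin e) → Kˣ) (j : J),
      tm K (tQ j (Fin.last e)) (mQ j (Fin.last e)) (Sum.elim y x) =
        tm K (t j) (m j) y * (∏ i, x (j, Sum.inr i))⁻¹ := by
    intro K _ _ y x j
    simp only [tQ, mQ, Fin.lastCases_last]
    rw [tm_elim, mon, Fintype.prod_prod_type, Finset.prod_eq_single j]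
    · simp [Fintype.prod_sum_type]
    · intro j' _ hj'
      simp [hj']
    · intro hj
      exact absurd (Finset.mem_univ j) hj
  have hcast : ∀ (K : Type) [Field K] [Algebra F K] (y : ι → Kˣ)
      (x : J × (Fin (e + 1) ⊕ Fin e) → Kˣ) (j : J)
      (i : Fin e), tm K (tQ j i.castSucc) (mQ j i.castSucc) (Sum.elim y x) =
        x (j, Sum.inr i) := by
    intro K _ _ y x j i
    simp only [tQ, mQ, Fin.lastCases_castSucc]
    rw [tm_elim, mon_single, tm, uo_one, mon_zero, one_mul, one_mul]
  have hT : ∀ (K : Type) [Field K] [Algebra F K] (y : ι → Kˣ)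
      (x : J × (Fin (e + 1) ⊕ Fin e) → Kˣ) (j : J) (c : Fˣ) (i : Fin (e + 1)),
      tm K c (Sum.elim 0 (Pi.single (j, Sum.inl i) 1)) (Sum.elim y x) =
        uo K c * x (j, Sum.inl i) := by
    intro K _ _ y x j c i
    rw [tm_elim, mon_single, tm_zero]
  have hP : ∀ (K : Type) [Field K] [Algebra F K] (y : ι → Kˣ)
      (x : J × (Fin (e + 1) ⊕ Fin e) → Kˣ) (j : J),
      tm K (s j) (Sum.elim (n j) 0) (Sum.elim y x) = tm K (s j) (n j) y := by
    intro K _ _ y x j
    rw [tm_elim, mon_zero, mul_one]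
  have hprod : ∀ (K : Type) [Field K] [Algebra F K] (y : ι → Kˣ)
      (x : J × (Fin (e + 1) ⊕ Fin e) → Kˣ) (j : J),
      ∏ k, tm K (tQ j k) (mQ j k) (Sum.elim y x) = tm K (t j) (m j) y := by
    intro K _ _ y x j
    rw [Fin.prod_univ_castSucc, hlast]
    simp only [hcast]
    rw [mul_comm, mul_assoc, inv_mul_cancel, mul_one]
  have hmain := h (ι ⊕ (J × (Fin (e + 1) ⊕ Fin e))) (J × (Fin (e + 1) ⊕ Fin (e + 1)))
    (fun a => Sum.elim (fun _ => s a.1) (fun i => tQ a.1 i) a.2)
    (fun a => Sum.elim (fun _ => 1) (fun _ => ζ) a.2)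
    (fun a => Sum.elim (fun _ => Sum.elim (n a.1) 0) (fun i => mQ a.1 i) a.2)
    (fun a => Sum.elim (fun i => Sum.elim 0 (Pi.single (a.1, Sum.inl i) 1))
      (fun i => Sum.elim 0 (Pi.single (a.1, Sum.inl i) 1)) a.2)
    (by
      rintro ⟨j, i | i⟩
      · exact hs j
      · change Tor (tQ j i)
        refine Fin.lastCases ?_ (fun i => ?_) i
        · simp only [tQ, Fin.lastCases_last]
          exact ht j
        · simp only [tQ, Fin.lastCases_castSucc]
          exact tor_one)
    (by
      rintro ⟨j, i | i⟩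
      · exact tor_one
      · exact hζ)
  have key : ∀ (K : Type) [Field K] [Algebra F K] (y : ι → Kˣ)
      (x : J × (Fin (e + 1) ⊕ Fin e) → Kˣ),
      (∀ a : J × (Fin (e + 1) ⊕ Fin (e + 1)), rat A B K
        (tm K (Sum.elim (fun _ => s a.1) (fun i => tQ a.1 i) a.2)
          (Sum.elim (fun _ => Sum.elim (n a.1) 0) (fun i => mQ a.1 i) a.2) (Sum.elim y x))
        (tm K (Sum.elim (fun _ => 1) (fun _ => ζ) a.2)
          (Sum.elim (fun i => Sum.elim 0 (Pi.single (a.1, Sum.inl i) 1))
            (fun i => Sum.elim 0 (Pi.single (a.1, Sum.inl i) 1)) a.2) (Sum.elim y x))) ↔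
      ∀ j, (∀ i, rat A B K (tm K (s j) (n j) y) (x (j, Sum.inl i))) ∧
        ∀ i, rat A B K (tm K (tQ j i) (mQ j i) (Sum.elim y x)) (uo K ζ * x (j, Sum.inl i)) := by
    intro K _ _ y x
    rw [Prod.forall]
    refine forall_congr' fun j => ?_
    rw [Sum.forall]
    simp only [Sum.elim_inl, Sum.elim_inr, hT, hP, uo_one, one_mul]
  have hmain2 := hmain.and (Ψ := fun K _ _ y => ∀ j, Function.Injective fun i : Fin (e + 1) =>
    y (Sum.inr (j, Sum.inl i))) (by
      intro K _ _ y K₁ _ _ z _ _ hzy hinj j k k' hkk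
      refine hinj j ?_
      have h2 := spec_tm (t := (1 : Fˣ)) (s := (1 : Fˣ))
        (m := Pi.single (Sum.inr (j, Sum.inl k)) 1)
        (n := Pi.single (Sum.inr (j, Sum.inl k')) 1) hzy (by
          rw [tm_one_single, tm_one_single]
          exact hkk)
      rwa [tm_one_single, tm_one_single] at h2)
  have hpos : 0 < (pencil A B).natDegree := by
    have h1 : (pencil A B).coeff (e + 1) ≠ 0 := pencil_coeff_ne (Or.inl (by
      rw [← hA]
      exact leadingCoeff_ne_zero.2 hAne))
    have := le_natDegree_of_ne_zero h1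
    omega
  have hpd : (pencil A B).natDegree = e + 1 := by
    refine le_antisymm ?_ (le_natDegree_of_ne_zero (pencil_coeff_ne (Or.inl (by
      rw [← hA]
      exact leadingCoeff_ne_zero.2 hAne))))
    rw [natDegree_le_iff_coeff_eq_zero]
    intro N hN
    rw [pencil_coeff, coeff_eq_zero_of_natDegree_lt (hA ▸ hN),
      coeff_eq_zero_of_natDegree_lt (hB ▸ hN)]
    simp
  refine hmain2.proj (f := 0) ?_ ?_
  · intro K _ _ y hy
    obtain ⟨K', hK'⟩ : ∃ K' : Type, K' = AlgebraicClosure K := ⟨_, rfl⟩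
    obtain ⟨_, _, _, hst, hac⟩ : ∃ (_ : Field K') (_ : Algebra F K')
        (_ : Algebra K K') (_ : IsScalarTower F K K'), IsAlgClosed K' := by
      subst hK'
      exact ⟨inferInstance, inferInstance, inferInstance, inferInstance, inferInstance⟩
    have hy' : ∀ j, rat (tw A B A.leadingCoeff ((ζ⁻¹ : Fˣ) : F) α)
        (tw A B B.leadingCoeff ((ζ⁻¹ : Fˣ) : F) β) K' (tm K' (t j) (m j) (up K' y))
        (tm K' (s j) (n j) (up K' y)) := by
      intro j
      obtain ⟨h1, h2⟩ := hy j
      rw [tm_up, tm_up]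
      refine ⟨?_, (transcendental_algebraMap_iff (algebraMap K K').injective).2 h2⟩
      change algebraMap K K' ((tm K (t j) (m j) y : Kˣ) : K) *
        aeval (algebraMap K K' ((tm K (s j) (n j) y : Kˣ) : K)) _ =
        aeval (algebraMap K K' ((tm K (s j) (n j) y : Kˣ) : K)) _
      rw [aeval_algebraMap_apply, aeval_algebraMap_apply, ← map_mul, h1]
    have hr : ∀ j, ∃ (T : Fin (e + 1) → K'ˣ) (q : Fin (e + 1) → K'ˣ), Function.Injective T ∧
        (∀ i, rat A B K' (tm K' (s j) (n j) (up K' y)) (T i)) ∧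
        (∀ i, rat A B K' (q i) (uo K' ζ * T i)) ∧
        ∏ k, q k = tm K' (t j) (m j) (up K' y) := by
      intro j
      obtain ⟨h1, h2⟩ := hy' j
      obtain ⟨T, hT1, hT2, -⟩ := exists_roots h2 (pencil_irreducible hcop hBne) hpd
        (pencil_coeff_ne (Or.inl hA0))
      have hT3 : ∀ i, rat A B K' (tm K' (s j) (n j) (up K' y)) (T i) := fun i =>
        (rat_trans hcop hnp K' (T i) _).1 ⟨hT2 i, h2⟩
      have hT4 : ∀ i, Transcendental F ((uo K' ζ * T i : K'ˣ) : K') := fun i =>
        trans_tm_scale (hT3 i).2 ζ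
      have hBv : ∀ i, aeval ((uo K' ζ * T i : K'ˣ) : K') B ≠ 0 := fun i =>
        aeval_ne_zero (hT4 i) hBne
      have hAv : ∀ i, aeval ((uo K' ζ * T i : K'ˣ) : K') A ≠ 0 := fun i =>
        aeval_ne_zero (hT4 i) hAne
      let q : Fin (e + 1) → K'ˣ := fun i => Units.mk0 (aeval ((uo K' ζ * T i : K'ˣ) : K') A /
        aeval ((uo K' ζ * T i : K'ˣ) : K') B) (div_ne_zero (hAv i) (hBv i))
      have hq : ∀ i, (q i : K') * aeval ((uo K' ζ * T i : K'ˣ) : K') B =
          aeval ((uo K' ζ * T i : K'ˣ) : K') A := fun i => div_mul_cancel₀ _ (hBv i)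
      refine ⟨T, q, hT1, hT3, fun i => ⟨hq i, hT4 i⟩, ?_⟩
      have h3 := twist_value hA hB hBne (hα K') (hβ K') h2 T hT1 (fun i => ((hT3 i).1).symm) ζ
        (fun i => (q i : K')) hq
      apply Units.ext
      refine mul_right_cancel₀ (aeval_ne_zero h2 htwB) ?_
      rw [Units.coe_prod, h3, h1]
    choose T q hT1 hT2 hT3 hT4 using hr
    refine ⟨K', inferInstance, inferInstance, up K' y,
      fun a => Sum.elim (fun i => T a.1 i) (fun i => q a.1 i.castSucc) a.2,
      ⟨?_, fun j => hT1 j⟩, spec_up y, spec_up' y, td_left_le _ _⟩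
    rw [key]
    refine fun j => ⟨fun i => hT2 j i, fun i => ?_⟩
    have hk : tm K' (tQ j i) (mQ j i) (Sum.elim (up K' y)
        fun a => Sum.elim (fun i => T a.1 i) (fun i => q a.1 i.castSucc) a.2) = q j i := by
      refine Fin.lastCases ?_ (fun i => ?_) i
      · rw [hlast, ← hT4 j, Fin.prod_univ_castSucc, mul_comm, ← mul_assoc]
        simp only [Sum.elim_inr]
        rw [inv_mul_cancel, one_mul]
      · rw [hcast]
        rfl
    rw [hk]
    exact hT3 j i
  · intro K _ _ y x hyx
    obtain ⟨h1, h2⟩ := hyx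
    rw [key] at h1
    have hp : ∀ j, Transcendental F ((tm K (s j) (n j) y : Kˣ) : K) := fun j =>
      ((rat_trans hcop hnp K _ _).2 ((h1 j).1 0)).2
    have hcur : ∀ j i, cur (pencil A B) K (x (j, Sum.inl i)) (tm K (s j) (n j) y) := fun j i =>
      (rat_trans hcop hnp K _ _).2 ((h1 j).1 i)
    refine ⟨fun j => ⟨?_, hp j⟩, ?_⟩
    · have h3 := twist_value hA hB hBne (hα K) (hβ K) (hp j) (fun i => x (j, Sum.inl i)) (h2 j)
        (fun i => (((h1 j).1 i).1).symm) ζ
        (fun i => ((tm K (tQ j i) (mQ j i) (Sum.elim y x) : Kˣ) : K))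
        (fun i => ((h1 j).2 i).1)
      rw [← Units.coe_prod, hprod] at h3
      exact h3
    · rw [add_zero]
      refine td_le_of_alg F ?_
      have hTalg : ∀ j i, IsAlgebraic (Algebra.adjoin F (Set.range (un y)))
          (x (j, Sum.inl i) : K) := by
        intro j i
        refine alg_trans (alg_tm y (s j) (n j)) ?_
        exact root_alg (aeval_ne_zero (hp j) (leadingCoeff_ne_zero.2
          (pencil_irreducible hcop hBne).ne_zero)) (hcur j i).1
      have hQalg : ∀ j i, IsAlgebraic (Algebra.adjoin F (Set.range (un y)))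
          ((tm K (tQ j i) (mQ j i) (Sum.elim y x) : Kˣ) : K) := by
        intro j i
        refine alg_trans (hTalg j i) ?_
        obtain ⟨h3, h4⟩ := (h1 j).2 i
        have h5 : ((tm K (tQ j i) (mQ j i) (Sum.elim y x) : Kˣ) : K) ∈
            IntermediateField.adjoin F {(x (j, Sum.inl i) : K)} := by
          have hL : ((uo K ζ * x (j, Sum.inl i) : Kˣ) : K) ∈
              IntermediateField.adjoin F {(x (j, Sum.inl i) : K)} := by
            rw [val_scale]
            exact mul_mem (IntermediateField.algebraMap_mem _ _)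
              (IntermediateField.mem_adjoin_simple_self F _)
          have h6 : ((tm K (tQ j i) (mQ j i) (Sum.elim y x) : Kˣ) : K) =
              aeval ((uo K ζ * x (j, Sum.inl i) : Kˣ) : K) A /
                aeval ((uo K ζ * x (j, Sum.inl i) : Kˣ) : K) B := by
            rw [eq_div_iff (aeval_ne_zero h4 hBne), h3]
          rw [h6]
          exact div_mem (aeval_mem hL A) (aeval_mem hL B)
        exact alg_of_mem_field h5
      rintro (i | ⟨j, i | i⟩)
      · have h6 : un y i ∈ Algebra.adjoin F (Set.range (un y)) := Algebra.subset_adjoin ⟨i, rfl⟩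
        exact isAlgebraic_algebraMap (A := K) (⟨_, h6⟩ : Algebra.adjoin F (Set.range (un y)))
      · exact hTalg j i
      · have h7 := hQalg j i.castSucc
        rw [hcast] at h7
        exact h7

end

end Pool.Agent.H74.ZP
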