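import Pool.Agent.H74.ZP.Crv

/-!
# Finiteness for the derived curve
-/

set_option autoImplicit false
set_option linter.unusedSectionVars false
set_option linter.style.haveILetI false
set_option synthInstance.maxHeartbeats 400000

namespace Pool.Agent.H74.ZP

open Polynomial Pool.Agent.R948

section

variable {F : Type} [Field F] {ι κ : Type} [Fintype ι] [Fintype κ]

theorem tm_pow' {K : Type} [Field K] [Algebra F K] (t : Fˣ) (m : ι → ℤ) (h : ℕ) (y : ι → Kˣ) :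
    tm K (t ^ h) ((h : ℤ) • m) y = tm K t m y ^ h := by
  have h1 : uo K (t ^ h) = uo K t ^ h := by simp [uo]
  rw [tm, tm, h1, mon_smul, mul_pow, zpow_natCast]

theorem tm_mul' {K : Type} [Field K] [Algebra F K] (t s : Fˣ) (m n : ι → ℤ) (y : ι → Kˣ) :
    tm K (t * s) (m + n) y = tm K t m y * tm K s n y := by
  have h1 : uo K (t * s) = uo K t * uo K s := by simp [uo]
  rw [tm, tm, tm, h1, mon_add]
  exact mul_mul_mul_comm _ _ _ _

theorem sol_of {K : Type} [Field K] [Algebra F K] {P : F[X][X]} {h k : ℕ} {Z s T₁ T₂ : Kˣ}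
    (h1 : cur P K (Z ^ h) T₁) (h2 : cur P K (Z * s) T₂)
    (h3 : cur P K Z (T₁ ^ (k + 1) * (T₂ ^ k)⁻¹)) :
    Sol P h k K (Z : K) s T₁ T₂ ((T₁ ^ (k + 1) * (T₂ ^ k)⁻¹ : Kˣ) : K) := by
  obtain ⟨a1, b1⟩ := h1
  obtain ⟨a2, b2⟩ := h2
  obtain ⟨a3, b3⟩ := h3
  refine ⟨Z.ne_zero, s.ne_zero, ?_, ⟨?_, b1⟩, ⟨?_, b2⟩, ⟨a3, b3⟩⟩
  · rw [← Units.val_pow_eq_pow_val, ← Units.val_mul, mul_assoc, inv_mul_cancel, mul_one,
      Units.val_pow_eq_pow_val]
  · rw [Units.val_pow_eq_pow_val] at a1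
    exact a1
  · rw [Units.val_mul, mul_comm] at a2
    exact a2

theorem of_sol {K : Type} [Field K] [Algebra F K] {P : F[X][X]} {h k : ℕ} {Z s : Kˣ}
    {T₁ T₂ T₃ : K} (hsol : Sol P h k K (Z : K) s T₁ T₂ T₃) : ∃ U₁ U₂ : Kˣ,
      cur P K (Z ^ h) U₁ ∧ cur P K (Z * s) U₂ ∧ cur P K Z (U₁ ^ (k + 1) * (U₂ ^ k)⁻¹) := by
  obtain ⟨hZ0, hs0, hT, ⟨a1, b1⟩, ⟨a2, b2⟩, ⟨a3, b3⟩⟩ := hsol
  have hT1 : T₁ ≠ 0 := fun h0 => b1 (h0 ▸ isAlgebraic_zero)
  have hT2 : T₂ ≠ 0 := fun h0 => b2 (h0 ▸ isAlgebraic_zero)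
  have h4 : ((Units.mk0 T₁ hT1 ^ (k + 1) * (Units.mk0 T₂ hT2 ^ k)⁻¹ : Kˣ) : K) = T₃ := by
    rw [Units.val_mul, Units.val_inv_eq_inv_val, Units.val_pow_eq_pow_val,
      Units.val_pow_eq_pow_val, Units.val_mk0, Units.val_mk0, ← hT, mul_assoc,
      mul_inv_cancel₀ (pow_ne_zero _ hT2), mul_one]
  refine ⟨Units.mk0 T₁ hT1, Units.mk0 T₂ hT2, ⟨?_, b1⟩, ⟨?_, b2⟩, ?_⟩
  · rw [Units.val_pow_eq_pow_val]
    exact a1
  · rw [Units.val_mul, mul_comm]
    exact a2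
  · rw [cur, h4]
    exact ⟨a3, b3⟩

theorem trans_of_same [IsAlgClosed F] {K K' : Type} [Field K] [Field K'] [Algebra F K]
    [Algebra F K'] {Z s : K} {Z' s' : K'} (hsame : ∀ R : F[X][X], (spc K s R).eval Z = 0 ↔
      (spc K' s' R).eval Z' = 0) (hZ : Transcendental F Z) : Transcendental F Z' := by
  intro h
  obtain ⟨c, hc⟩ := mem_range_of_integral h.isIntegral
  have key : ∀ {K : Type} [Field K] [Algebra F K] {Z s : K},
      (spc K s (X - C (C c))).eval Z = Z - algebraMap F K c := by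
    intro K _ _ Z s
    rw [spc, Polynomial.map_sub, map_X, map_C, eval_sub, eval_X, eval_C]
    congr 1
    exact aeval_C s c
  have h1 := (hsame (X - C (C c))).2 (by rw [key, hc, sub_self])
  rw [key, sub_eq_zero] at h1
  rw [h1] at hZ
  exact hZ (isAlgebraic_algebraMap _)

/-- **From the curve to the derived curve.** -/
theorem U_derived [IsAlgClosed F] {P : F[X][X]} (hP : P ≠ 0) {h k : ℕ} (hh : 0 < h) (hk : 0 < k)
    {Q : F[X][X]} (hQ : Irreducible Q) {K₀ : Type} [Field K₀] [Algebra F K₀]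
    {Z₀ s₀ T₁ T₂ T₃ : K₀} (hsol : Sol P h k K₀ Z₀ s₀ T₁ T₂ T₃) (hZ₀ : Transcendental F Z₀)
    (hs₀ : Transcendental F s₀) (hQZ : (spc K₀ s₀ Q).eval Z₀ = 0) (hU : U (cur P)) :
    U (cur Q) := by
  classical
  have hQd := natDegree_pos_of_trans hQ.ne_zero hs₀ hQZ
  intro ι J _ _ t s m n ht hs
  have hmain := hU (ι ⊕ (J × Fin 2)) (J × Fin 3)
    (fun a => ![t a.1 ^ h, t a.1 * s a.1, t a.1] a.2) (fun _ => 1)
    (fun a => ![(h : ℤ) • Sum.elim (m a.1) 0, Sum.elim (m a.1) 0 + Sum.elim (n a.1) 0,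
      Sum.elim (m a.1) 0] a.2)
    (fun a => ![Pi.single (Sum.inr (a.1, 0)) 1, Pi.single (Sum.inr (a.1, 1)) 1,
      ((k + 1 : ℕ) : ℤ) • Pi.single (Sum.inr (a.1, 0)) 1 +
        (-(k : ℤ)) • Pi.single (Sum.inr (a.1, 1)) 1] a.2)
    (by
      rintro ⟨j, i⟩
      fin_cases i
      · have := tor_zpow (ht j) h
        rw [zpow_natCast] at this
        exact this
      · exact (ht j).mul (hs j)
      · exact ht j)
    (fun _ => tor_one)
  have hthird : ∀ (K : Type) [Field K] [Algebra F K] (z : ι ⊕ (J × Fin 2) → Kˣ) (j : J),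
      tm K (1 : Fˣ) (((k + 1 : ℕ) : ℤ) • Pi.single (Sum.inr (j, 0)) 1 +
        (-(k : ℤ)) • Pi.single (Sum.inr (j, 1)) 1) z =
        z (Sum.inr (j, 0)) ^ (k + 1) * (z (Sum.inr (j, 1)) ^ k)⁻¹ := by
    intro K _ _ z j
    rw [tm, uo_one, one_mul, mon_add, mon_smul, mon_smul, mon_single, mon_single, zpow_natCast,
      zpow_neg, zpow_natCast]
  have key : ∀ (K : Type) [Field K] [Algebra F K] (z : ι ⊕ (J × Fin 2) → Kˣ),
      (∀ a : J × Fin 3, cur P K
        (tm K (![t a.1 ^ h, t a.1 * s a.1, t a.1] a.2)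
          (![(h : ℤ) • Sum.elim (m a.1) 0, Sum.elim (m a.1) 0 + Sum.elim (n a.1) 0,
            Sum.elim (m a.1) 0] a.2) z)
        (tm K (1 : Fˣ) (![Pi.single (Sum.inr (a.1, 0)) 1, Pi.single (Sum.inr (a.1, 1)) 1,
          ((k + 1 : ℕ) : ℤ) • Pi.single (Sum.inr (a.1, 0)) 1 +
            (-(k : ℤ)) • Pi.single (Sum.inr (a.1, 1)) 1] a.2) z)) ↔
      ∀ j, cur P K (tm K (t j) (Sum.elim (m j) 0) z ^ h) (z (Sum.inr (j, 0))) ∧
        cur P K (tm K (t j) (Sum.elim (m j) 0) z * tm K (s j) (Sum.elim (n j) 0) z)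
          (z (Sum.inr (j, 1))) ∧
        cur P K (tm K (t j) (Sum.elim (m j) 0) z)
          (z (Sum.inr (j, 0)) ^ (k + 1) * (z (Sum.inr (j, 1)) ^ k)⁻¹) := by
    intro K _ _ z
    rw [Prod.forall]
    refine forall_congr' fun j => ?_
    rw [Fin.forall_fin_succ, Fin.forall_fin_succ, Fin.forall_fin_one]
    have e0 : tm K (t j ^ h) ((h : ℤ) • Sum.elim (m j) 0) z =
      tm K (t j) (Sum.elim (m j) 0) z ^ h := tm_pow' _ _ _ _
    have e1 : tm K (t j * s j) (Sum.elim (m j) 0 + Sum.elim (n j) 0) z =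
      tm K (t j) (Sum.elim (m j) 0) z * tm K (s j) (Sum.elim (n j) 0) z := tm_mul' _ _ _ _ _
    have e2 : tm K (1 : Fˣ) (Pi.single (Sum.inr (j, 0)) 1) z = z (Sum.inr (j, 0)) :=
      tm_one_single _ _
    have e3 : tm K (1 : Fˣ) (Pi.single (Sum.inr (j, 1)) 1) z = z (Sum.inr (j, 1)) :=
      tm_one_single _ _
    have e4 := hthird K z j
    change (cur P K (tm K (t j ^ h) ((h : ℤ) • Sum.elim (m j) 0) z)
      (tm K (1 : Fˣ) (Pi.single (Sum.inr (j, 0)) 1) z) ∧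
      cur P K (tm K (t j * s j) (Sum.elim (m j) 0 + Sum.elim (n j) 0) z)
        (tm K (1 : Fˣ) (Pi.single (Sum.inr (j, 1)) 1) z) ∧
      cur P K (tm K (t j) (Sum.elim (m j) 0) z) (tm K (1 : Fˣ)
        (((k + 1 : ℕ) : ℤ) • Pi.single (Sum.inr (j, 0)) 1 +
          (-(k : ℤ)) • Pi.single (Sum.inr (j, 1)) 1) z)) ↔ _
    rw [e0, e1, e2, e3, e4]
  have hmain2 := hmain.and (Ψ := fun K _ _ z => ∀ j,
      cur Q K (tm K (t j) (Sum.elim (m j) 0) z) (tm K (s j) (Sum.elim (n j) 0) z)) (by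
    intro K _ _ y K₁ _ _ z _ hz hzy hy j
    rw [key] at hz
    obtain ⟨z1, z2, z3⟩ := hz j
    obtain ⟨y1, y2⟩ := hy j
    have hst : Transcendental F ((tm K₁ (s j) (Sum.elim (n j) 0) z : K₁ˣ) : K₁) :=
      spec_trans hzy (s j) (Sum.elim (n j) 0) y2
    obtain ⟨R, hR, hR1⟩ := exists_irr (dim_lemma hP hh hk (sol_of z1 z2 z3) hst)
    have hR2 := spec_eval hzy (t j) (s j) (Sum.elim (m j) 0) (Sum.elim (n j) 0) R hR1
    have hQR : Q ∣ R := by
      by_contra h4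
      exact no_common_root y2 hQ hQd h4 y1 hR2
    obtain ⟨V, hV⟩ := hQR
    have hV' : IsUnit V := (hR.isUnit_or_isUnit hV).resolve_left hQ.not_isUnit
    obtain ⟨w, hw⟩ := hV'.exists_right_inv
    refine ⟨?_, hst⟩
    have h5 := congrArg (fun q => (spc K₁ ((tm K₁ (s j) (Sum.elim (n j) 0) z : K₁ˣ) : K₁) q).eval
      ((tm K₁ (t j) (Sum.elim (m j) 0) z : K₁ˣ) : K₁)) hw
    simp only [spc, Polynomial.map_mul, eval_mul, Polynomial.map_one, eval_one] at h5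
    rw [hV, spc, Polynomial.map_mul, eval_mul] at hR1
    rcases mul_eq_zero.1 hR1 with h6 | h6
    · exact h6
    · rw [h6, zero_mul] at h5
      exact absurd h5 zero_ne_one)
  have helim : ∀ (K : Type) [Field K] [Algebra F K] (y : ι → Kˣ) (x : J × Fin 2 → Kˣ)
      (c : Fˣ) (l : ι → ℤ), tm K c (Sum.elim l 0) (Sum.elim y x) = tm K c l y := by
    intro K _ _ y x c l
    rw [tm_elim, mon_zero, mul_one]
  refine hmain2.proj (f := 0) ?_ ?_
  · intro K _ _ y hy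
    obtain ⟨K', hK'⟩ : ∃ K' : Type, K' = AlgebraicClosure K := ⟨_, rfl⟩
    obtain ⟨_, _, _, hst, hac⟩ : ∃ (_ : Field K') (_ : Algebra F K')
        (_ : Algebra K K') (_ : IsScalarTower F K K'), IsAlgClosed K' := by
      subst hK'
      exact ⟨inferInstance, inferInstance, inferInstance, inferInstance, inferInstance⟩
    have hy' : ∀ j, cur Q K' (tm K' (t j) (m j) (up K' y)) (tm K' (s j) (n j) (up K' y)) := by
      intro j
      obtain ⟨h1, h2⟩ := hy j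
      rw [tm_up, tm_up]
      refine ⟨?_, (transcendental_algebraMap_iff (algebraMap K K').injective).2 h2⟩
      have h3 := spc_hom (IsScalarTower.toAlgHom F K K') Q
        ((tm K (t j) (m j) y : Kˣ) : K) ((tm K (s j) (n j) y : Kˣ) : K)
      rw [h1, map_zero] at h3
      exact h3
    have hr : ∀ j, ∃ U₁ U₂ : K'ˣ, cur P K' (tm K' (t j) (m j) (up K' y) ^ h) U₁ ∧
        cur P K' (tm K' (t j) (m j) (up K' y) * tm K' (s j) (n j) (up K' y)) U₂ ∧
        cur P K' (tm K' (t j) (m j) (up K' y)) (U₁ ^ (k + 1) * (U₂ ^ k)⁻¹) := by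
      intro j
      obtain ⟨h1, h2⟩ := hy' j
      obtain ⟨T₁', T₂', T₃', h3⟩ := lift_sol hP hh hk (same_of_irr hQ hQd hs₀ h2 hQZ h1) hZ₀ hsol
      exact of_sol h3
    choose U₁ U₂ hU1 hU2 hU3 using hr
    refine ⟨K', inferInstance, inferInstance, up K' y, fun a => ![U₁ a.1, U₂ a.1] a.2,
      ⟨?_, ?_⟩, spec_up y, spec_up' y, td_left_le _ _⟩
    · rw [key]
      intro j
      rw [helim, helim]
      exact ⟨hU1 j, hU2 j, hU3 j⟩
    · intro j
      rw [helim, helim]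
      exact hy' j
  · intro K _ _ y x hyx
    obtain ⟨h1, h2⟩ := hyx
    rw [key] at h1
    simp only [helim] at h1 h2
    refine ⟨h2, ?_⟩
    rw [add_zero]
    refine td_le_of_alg F ?_
    have hZ : ∀ j, Transcendental F ((tm K (t j) (m j) y : Kˣ) : K) := fun j =>
      trans_of_same (same_of_irr hQ hQd hs₀ (h2 j).2 hQZ (h2 j).1) hZ₀
    have hx0 : ∀ j, IsAlgebraic (Algebra.adjoin F (Set.range (un y))) ((x (j, 0) : Kˣ) : K) := by
      intro j
      obtain ⟨⟨a1, -⟩, -, -⟩ := h1 j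
      rw [IsRoot, Units.val_pow_eq_pow_val] at a1
      exact alg_trans ((alg_tm y (t j) (m j)).pow h) (alg_snd hP ((hZ j).pow hh) a1)
    have hx1 : ∀ j, IsAlgebraic (Algebra.adjoin F (Set.range (un y))) ((x (j, 1) : Kˣ) : K) := by
      intro j
      obtain ⟨-, -, ⟨a3, -⟩⟩ := h1 j
      have h3 := alg_trans (alg_tm y (t j) (m j)) (alg_snd hP (hZ j) a3)
      have h4 : ((x (j, 1) : Kˣ) : K) ^ k = ((x (j, 0) : Kˣ) : K) ^ (k + 1) *
          (((x (j, 0) ^ (k + 1) * (x (j, 1) ^ k)⁻¹ : Kˣ) : K))⁻¹ := by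
        rw [← Units.val_inv_eq_inv_val, ← Units.val_pow_eq_pow_val, ← Units.val_pow_eq_pow_val,
          ← Units.val_mul]
        congr 1
        rw [mul_inv_rev, inv_inv, mul_comm (x (j, 1) ^ k), ← mul_assoc, mul_inv_cancel, one_mul]
      refine IsAlgebraic.of_pow hk ?_
      rw [h4]
      exact ((hx0 j).pow _).mul h3.inv
    rintro (i | ⟨j, i⟩)
    · have h6 : un y i ∈ Algebra.adjoin F (Set.range (un y)) := Algebra.subset_adjoin ⟨i, rfl⟩
      exact isAlgebraic_algebraMap (A := K) (⟨_, h6⟩ : Algebra.adjoin F (Set.range (un y)))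
    · fin_cases i
      · exact hx0 j
      · exact hx1 j

/-- from a curve with non-proportional extreme coefficients to the line -/
theorem fin_of_cur [IsAlgClosed F] [CharZero F] {Q : F[X][X]} (hQ : Irreducible Q)
    (hQ0 : Q.coeff 0 ≠ 0) (hfl : ¬ Prp Q.leadingCoeff (Q.coeff 0)) (h : U (cur Q)) (M : ℕ) :
    Fin' (lineI F M) := by
  have hd : 0 < Q.natDegree := by
    by_contra h0
    apply hfl
    have h1 : Q.leadingCoeff = Q.coeff 0 := by
      rw [leadingCoeff, show Q.natDegree = 0 by omega]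
    rw [h1]
    exact Prp.refl _
  have h1 := U_nor hQ hd hQ0 h
  have hc : ((-1 : F) ^ Q.natDegree) ≠ 0 := pow_ne_zero _ (by simp)
  have hcC : C ((-1 : F) ^ Q.natDegree) ≠ 0 := C_ne_zero.2 hc
  have h2 : U (rat (C ((-1 : F) ^ Q.natDegree) * Q.coeff 0) Q.leadingCoeff) := by
    refine h1.pull 1 0 0 1 fun K _ _ x y => ?_
    rw [zpow_one, zpow_one, zpow_zero, zpow_zero, one_mul, mul_one, rat, nor]
    simp
  have hlc := leadingCoeff_ne_zero.2 hQ.ne_zero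
  obtain ⟨α, β, hα, hβ, h5⟩ := exists_lin3 (mul_ne_zero hcC hQ0) hlc (by
    intro κ i j h3
    apply hfl
    have hκ : κ ≠ 0 := by
      rintro rfl
      rw [C_0, zero_mul] at h3
      exact mul_ne_zero (pow_ne_zero _ X_ne_zero) (mul_ne_zero hcC hQ0) h3
    refine ⟨(-1) ^ Q.natDegree / κ, j, i, ?_⟩
    have hκC : C κ ≠ 0 := C_ne_zero.2 hκ
    refine mul_left_cancel₀ hκC ?_
    have h4 : C κ * C ((-1) ^ Q.natDegree / κ) = C ((-1 : F) ^ Q.natDegree) := by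
      rw [← C_mul, mul_div_cancel₀ _ hκ]
    linear_combination (-1 : F[X]) * h3 - (X ^ i * Q.coeff 0) * h4) h2
  exact fin_line hα hβ h5 M

/-- **From a plane curve to the line.** -/
theorem fin_of_curve [IsAlgClosed F] [CharZero F] {P : F[X][X]} (hP : Irreducible P)
    (hd : 0 < P.natDegree) (hP0 : P.coeff 0 ≠ 0) {u : F} (hu0 : u ≠ 0)
    (hu : (P.coeff 0).eval u = 0) (hU : U (cur P)) (M : ℕ) : Fin' (lineI F M) := by
  have hPu : P.map (evalRingHom u) ≠ 0 := by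
    intro h2
    have h3 : C (X - C u) ∣ P := by
      rw [C_dvd_iff_dvd_coeff]
      intro i
      rw [dvd_iff_isRoot]
      have := congrArg (fun q => q.coeff i) h2
      simpa using this
    obtain ⟨R, hR⟩ := h3
    rcases hP.isUnit_or_isUnit hR with h4 | h4
    · exact not_isUnit_X_sub_C u (isUnit_C.1 h4)
    · have h5 := natDegree_eq_zero_of_isUnit h4
      have h6 : P.natDegree ≤ 0 + R.natDegree := by
        conv_lhs => rw [hR]
        refine natDegree_mul_le.trans ?_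
        rw [natDegree_C]
      omega
  obtain ⟨h, k, Q, hh, hk, hQ, hQ0, hfl, K, _, _, Z, s, T₁, T₂, T₃, hsol, hZ, hs, hQZ⟩ :=
    exists_derived hP0 hu0 hu hPu
  exact fin_of_cur hQ hQ0 hfl (U_derived hP.ne_zero hh hk hQ hsol hZ hs hQZ hU) M

end

end Pool.Agent.H74.ZP
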