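import Pool.Agent.H74.ZP.Prp

/-!
# Roots of polynomials in algebraically closed valued fields
-/

set_option autoImplicit false
set_option linter.unusedSectionVars false
set_option linter.style.haveILetI false

namespace Pool.Agent.H74.ZP

open Polynomial Pool.Agent.R948

section

variable {K Γ : Type} [Field K] [LinearOrderedCommGroupWithZero Γ] (v : Valuation K Γ)

/-- the maximal terms of a vanishing sum -/
theorem exists_twice {ι : Type} [DecidableEq ι] {S : Finset ι} {t : ι → K} (h : ∑ i ∈ S, t i = 0)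
    {a : ι} (ha : a ∈ S) (hta : t a ≠ 0) :
    ∃ b ∈ S, ∃ c ∈ S, b ≠ c ∧ v (t b) = v (t c) ∧ t b ≠ 0 ∧ ∀ d ∈ S, v (t d) ≤ v (t b) := by
  obtain ⟨b, hb, hmax⟩ := Finset.exists_max_image S (fun i => v (t i)) ⟨a, ha⟩
  have htb : t b ≠ 0 := by
    intro h0
    have h1 := hmax a ha
    rw [h0, map_zero] at h1
    exact hta ((map_eq_zero v).1 (le_antisymm h1 zero_le))
  by_contra hcon
  push Not at hcon
  have hlt : ∀ c ∈ S.erase b, v (t c) < v (t b) := by
    intro c hc
    rw [Finset.mem_erase] at hc
    refine lt_of_le_of_ne (hmax c hc.2) fun h1 => ?_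
    obtain ⟨d, hd, h2⟩ := hcon b hb c hc.2 (Ne.symm hc.1) h1.symm htb
    exact absurd (hmax d hd) (not_le.2 h2)
  have h1 : v (∑ i ∈ S.erase b, t i) < v (t b) :=
    v.map_sum_lt ((map_ne_zero v).2 htb) hlt
  have h2 := Finset.add_sum_erase S t hb
  rw [h] at h2
  have h3 : t b = - ∑ i ∈ S.erase b, t i := by linear_combination h2
  rw [h3, Valuation.map_neg] at h1
  exact lt_irrefl _ h1

theorem map_multiset_prod' (s : Multiset K) : v s.prod = (s.map v).prod :=
  map_multiset_prod v s

/-- a root close to a point -/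
theorem exists_root_near [IsAlgClosed K] {p : K[X]} {u x : K} (hxu : v (x - u) ≤ 1)
    (h : v (p.eval u) < v (p.eval x)) : ∃ r, p.IsRoot r ∧ v (r - u) < 1 := by
  by_contra hcon
  push Not at hcon
  have hs : p.Splits := IsAlgClosed.splits p
  have hev : ∀ y, v (p.eval y) = v p.leadingCoeff * (p.roots.map fun r => v (y - r)).prod := by
    intro y
    conv_lhs => rw [hs.eq_prod_roots]
    rw [eval_mul, eval_C, map_mul, eval_multiset_prod, Multiset.map_map, map_multiset_prod',
      Multiset.map_map]
    congr 2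
    refine Multiset.map_congr rfl fun r _ => ?_
    simp
  rw [hev, hev] at h
  refine absurd h (not_lt.2 ?_)
  refine mul_le_mul_right ?_ _
  refine Multiset.prod_map_le_prod_map _ _ fun r hr => ?_
  have h1 := hcon r (isRoot_of_mem_roots hr)
  rw [← neg_sub, Valuation.map_neg] at h1
  have h2 : x - r = (x - u) + (u - r) := by ring
  rw [h2]
  refine (v.map_add _ _).trans (max_le (hxu.trans h1) le_rfl)

/-- a large root -/
theorem exists_root_large [IsAlgClosed K] {p : K[X]} {x : K} (hx : v x ≤ 1)
    (h : v p.leadingCoeff < v (p.eval x)) : ∃ r, p.IsRoot r ∧ 1 < v r := by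
  by_contra hcon
  push Not at hcon
  have hs : p.Splits := IsAlgClosed.splits p
  have hev : ∀ y, v (p.eval y) = v p.leadingCoeff * (p.roots.map fun r => v (y - r)).prod := by
    intro y
    conv_lhs => rw [hs.eq_prod_roots]
    rw [eval_mul, eval_C, map_mul, eval_multiset_prod, Multiset.map_map, map_multiset_prod',
      Multiset.map_map]
    congr 2
    refine Multiset.map_congr rfl fun r _ => ?_
    simp
  rw [hev] at h
  refine absurd h (not_lt.2 ?_)
  have h1 : (p.roots.map fun r => v (x - r)).prod ≤ (p.roots.map fun _ => (1 : Γ)).prod :=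
    Multiset.prod_map_le_prod_map _ _ fun r hr =>
      (v.map_sub _ _).trans (max_le hx (hcon r (isRoot_of_mem_roots hr)))
  rw [Multiset.map_const', Multiset.prod_replicate, one_pow] at h1
  exact mul_le_of_le_one_right' h1

variable {F : Type} [Field F] [Algebra F K]

/-- `x` is close to the constant `c` -/
def Nr (x : K) (c : F) : Prop := v (x - algebraMap F K c) < 1

variable {v}

theorem Nr.zero {x : K} (h : v x < 1) : Nr v x (0 : F) := by
  rwa [Nr, map_zero, sub_zero]

theorem Nr.lt {x : K} (h : Nr v x (0 : F)) : v x < 1 := by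
  rwa [Nr, map_zero, sub_zero] at h

theorem Nr.refl (c : F) : Nr v (algebraMap F K c) c := by
  rw [Nr, sub_self, map_zero]
  exact zero_lt_one

theorem Nr.add {x y : K} {c d : F} (h : Nr v x c) (h' : Nr v y d) : Nr v (x + y) (c + d) := by
  have h1 : x + y - algebraMap F K (c + d) =
      (x - algebraMap F K c) + (y - algebraMap F K d) := by
    rw [map_add]
    ring
  rw [Nr, h1]
  exact v.map_add_lt h h'

theorem Nr.neg {x : K} {c : F} (h : Nr v x c) : Nr v (-x) (-c) := by
  have h1 : -x - algebraMap F K (-c) = -(x - algebraMap F K c) := by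
    rw [map_neg]
    ring
  rw [Nr, h1, Valuation.map_neg]
  exact h

theorem Nr.sub {x y : K} {c d : F} (h : Nr v x c) (h' : Nr v y d) : Nr v (x - y) (c - d) := by
  rw [sub_eq_add_neg, sub_eq_add_neg]
  exact h.add h'.neg

section

variable (hv : ∀ c : F, c ≠ 0 → v (algebraMap F K c) = 1)

include hv

theorem v_le_one (c : F) : v (algebraMap F K c) ≤ 1 := by
  by_cases h : c = 0
  · rw [h, map_zero, map_zero]
    exact zero_le_one
  · exact (hv c h).le

theorem Nr.le {x : K} {c : F} (h : Nr v x c) : v x ≤ 1 := by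
  have h1 : x = (x - algebraMap F K c) + algebraMap F K c := by ring
  rw [h1]
  exact (v.map_add _ _).trans (max_le (le_of_lt h) (v_le_one hv c))

theorem Nr.mul {x y : K} {c d : F} (h : Nr v x c) (h' : Nr v y d) : Nr v (x * y) (c * d) := by
  have h1 : x * y - algebraMap F K (c * d) =
      (x - algebraMap F K c) * y + algebraMap F K c * (y - algebraMap F K d) := by
    rw [map_mul]
    ring
  rw [Nr, h1]
  refine v.map_add_lt ?_ ?_
  · rw [map_mul]
    exact mul_lt_one_of_lt_of_le h (h'.le hv)
  · rw [map_mul, mul_comm]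
    exact mul_lt_one_of_lt_of_le h' (v_le_one hv c)

theorem Nr.pow {x : K} {c : F} (h : Nr v x c) (n : ℕ) : Nr v (x ^ n) (c ^ n) := by
  induction n with
  | zero =>
    rw [pow_zero, pow_zero]
    have := Nr.refl (v := v) (1 : F)
    rwa [map_one] at this
  | succ n ih =>
    rw [pow_succ, pow_succ]
    exact Nr.mul hv ih h

theorem Nr.sum {ι : Type} (S : Finset ι) {x : ι → K} {c : ι → F}
    (h : ∀ i ∈ S, Nr v (x i) (c i)) : Nr v (∑ i ∈ S, x i) (∑ i ∈ S, c i) := by
  classical
  induction S using Finset.induction_on with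
  | empty =>
    rw [Finset.sum_empty, Finset.sum_empty]
    exact Nr.zero (by rw [map_zero]; exact zero_lt_one)
  | insert a s ha ih =>
    rw [Finset.sum_insert ha, Finset.sum_insert ha]
    exact (h a (Finset.mem_insert_self a s)).add
      (ih fun i hi => h i (Finset.mem_insert_of_mem hi))

theorem Nr.unique {x : K} {c d : F} (h : Nr v x c) (h' : Nr v x d) : c = d := by
  by_contra hne
  have h1 := h.sub h'
  rw [sub_self, Nr, zero_sub, Valuation.map_neg, hv _ (sub_ne_zero.2 hne)] at h1
  exact lt_irrefl _ h1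

theorem Nr.v_eq {x : K} {c : F} (h : Nr v x c) (hc : c ≠ 0) : v x = 1 := by
  have h1 : x = algebraMap F K c + (x - algebraMap F K c) := by ring
  rw [h1, Valuation.map_add_eq_of_lt_left]
  · exact hv c hc
  · rw [hv c hc]
    exact h

theorem Nr.ne_zero {x : K} {c : F} (h : Nr v x c) (hx : v x = 1) : c ≠ 0 := by
  rintro rfl
  have := h.lt
  rw [hx] at this
  exact lt_irrefl _ this

theorem Nr.inv {x : K} {c : F} (h : Nr v x c) (hc : c ≠ 0) : Nr v x⁻¹ c⁻¹ := by
  have hx : v x = 1 := h.v_eq hv hc
  have hx0 : x ≠ 0 := by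
    rintro rfl
    rw [map_zero] at hx
    exact zero_ne_one hx
  have hc0 : algebraMap F K c ≠ 0 := by
    rwa [Ne, map_eq_zero_iff _ (algebraMap F K).injective]
  have h1 : x⁻¹ - algebraMap F K c⁻¹ = -((x - algebraMap F K c) * (x⁻¹ * algebraMap F K c⁻¹)) := by
    rw [map_inv₀]
    field_simp
    ring
  rw [Nr, h1, Valuation.map_neg, map_mul, map_mul, map_inv₀, hx, inv_one, one_mul,
    hv _ (inv_ne_zero hc), mul_one]
  exact h

theorem Nr.div {x y : K} {c d : F} (h : Nr v x c) (h' : Nr v y d) (hd : d ≠ 0) :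
    Nr v (x / y) (c / d) := by
  rw [div_eq_mul_inv, div_eq_mul_inv]
  exact Nr.mul hv h (h'.inv hv hd)

theorem Nr.aeval {x : K} {c : F} (h : Nr v x c) (p : F[X]) : Nr v (aeval x p) (p.eval c) := by
  rw [aeval_eq_sum_range, eval_eq_sum_range]
  refine Nr.sum hv _ fun i _ => ?_
  rw [Algebra.smul_def]
  exact Nr.mul hv (Nr.refl _) (h.pow hv i)

/-- if a polynomial is small at a point then the point is close to a root -/
theorem exists_near_root [IsAlgClosed F] {p : F[X]} (hp : p ≠ 0) {x : K}
    (hpx : v (Polynomial.aeval x p) < 1) : ∃ c : F, p.IsRoot c ∧ Nr v x c := by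
  by_contra hcon
  push Not at hcon
  have hs : p.Splits := IsAlgClosed.splits p
  have hev : v (Polynomial.aeval x p) = (p.roots.map fun r => v (x - algebraMap F K r)).prod := by
    conv_lhs => rw [hs.eq_prod_roots]
    rw [map_mul, aeval_C, map_mul, hv _ (leadingCoeff_ne_zero.2 hp), one_mul,
      map_multiset_prod, Multiset.map_map, map_multiset_prod', Multiset.map_map]
    congr 1
    refine Multiset.map_congr rfl fun r _ => ?_
    simp
  rw [hev] at hpx
  have h1 : (p.roots.map fun _ => (1 : Γ)).prod ≤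
      (p.roots.map fun r => v (x - algebraMap F K r)).prod :=
    Multiset.prod_map_le_prod_map _ _ fun r hr =>
      not_lt.1 (hcon r (isRoot_of_mem_roots hr))
  rw [Multiset.map_const', Multiset.prod_replicate, one_pow] at h1
  exact absurd hpx (not_lt.2 h1)

/-- an element whose valuation is not 1 is transcendental -/
theorem trans_of_v [IsAlgClosed F] {x : K} (hx0 : x ≠ 0) (hx : v x ≠ 1) :
    Transcendental F x := by
  intro h
  obtain ⟨ξ, hξ⟩ := mem_range_of_integral h.isIntegral
  rw [hξ] at hx hx0
  refine hx (hv ξ ?_)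
  rintro rfl
  exact hx0 (map_zero _)

/-- an element close to a constant but different from it is transcendental -/
theorem trans_of_nr [IsAlgClosed F] {x : K} {c : F} (h : Nr v x c)
    (hne : x ≠ algebraMap F K c) : Transcendental F x := by
  intro hx
  obtain ⟨ξ, hξ⟩ := mem_range_of_integral hx.isIntegral
  have h1 := Nr.unique hv h (hξ ▸ Nr.refl ξ)
  rw [h1] at hne
  exact hne hξ

end

end

end Pool.Agent.H74.ZP
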