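import Pool.Agent.H74.ZP.Inf

/-!
# The system at zero
-/

set_option autoImplicit false
set_option linter.unusedSectionVars false
set_option linter.style.haveILetI false
set_option synthInstance.maxHeartbeats 400000

namespace Pool.Agent.H74.ZP

open Polynomial Pool.Agent.R948

section

variable {F K Γ : Type} [Field F] [Field K] [Algebra F K] [LinearOrderedCommGroupWithZero Γ]
  {v : Valuation K Γ} (hv : ∀ c : F, c ≠ 0 → v (algebraMap F K c) = 1)

include hv

theorem ev_small (P : F[X][X]) {x T : K} {c : F} (hx : v x < 1) (hT : Nr v T c) :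
    Nr v ((spc K T P).eval x) ((P.coeff 0).eval c) := by
  have h1 : (spc K T P).eval x = x * (spc K T P.divX).eval x + aeval T (P.coeff 0) := by
    conv_lhs => rw [← divX_mul_X_add P]
    rw [spc, Polynomial.map_add, Polynomial.map_mul, map_X, map_C, eval_add, eval_mul, eval_X,
      eval_C]
    change (spc K T P.divX).eval x * x + _ = _
    rw [mul_comm]
    rfl
  have h2 : v (x * (spc K T P.divX).eval x) < 1 := by
    rw [map_mul]
    exact mul_lt_one_of_lt_of_le hx (v_ev_le hv _ hx.le (hT.le hv))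
  have h3 := (Nr.zero (F := F) h2).add (hT.aeval hv (P.coeff 0))
  rw [zero_add] at h3
  rw [h1]
  exact h3

/-- a point on the curve close to a given point -/
theorem exists_pt [IsAlgClosed K] [IsAlgClosed F] {P : F[X][X]} (hP0 : P.coeff 0 ≠ 0) {u : F}
    (hu0 : u ≠ 0) (hu : (P.coeff 0).eval u = 0) (hPu : P.map (evalRingHom u) ≠ 0) {x : K}
    (hx0 : x ≠ 0) (hx : v x < 1) : ∃ T τ : K, (spc K T P).eval x = 0 ∧ Transcendental F T ∧
      Nr v T u ∧ T = algebraMap F K u * (1 + τ) ∧ τ ≠ 0 ∧ v τ < 1 ∧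
      (spc K τ (sh u P)).eval x = 0 := by
  haveI : Infinite F := IsAlgClosed.instInfinite
  obtain ⟨c, hc⟩ : ∃ c : F, (P.coeff 0).eval c ≠ 0 := by
    by_contra hcon
    push Not at hcon
    exact hP0 (Polynomial.funext fun c => by rw [hcon c, eval_zero])
  have h1 := ev_small hv P hx (Nr.refl u)
  rw [hu] at h1
  have h2 := (ev_small hv P hx (Nr.refl c)).v_eq hv hc
  obtain ⟨T, hT, h3⟩ := exists_root_near v (p := spc K x (sw P)) (u := algebraMap F K u)
    (x := algebraMap F K c) (by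
      rw [← map_sub]
      exact v_le_one hv _) (by
      rw [sw_eval, sw_eval, h2]
      exact h1.lt)
  rw [IsRoot, sw_eval] at hT
  have hne : T ≠ algebraMap F K u := by
    rintro rfl
    rw [spc_const] at hT
    exact aeval_ne_zero (trans_of_v hv hx0 hx.ne) hPu hT
  have hu' : algebraMap F K u ≠ 0 := by
    rwa [Ne, map_eq_zero_iff _ (algebraMap F K).injective]
  have e1 : T = algebraMap F K u * (1 + (T / algebraMap F K u - 1)) := by
    field_simp
    ring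
  refine ⟨T, T / algebraMap F K u - 1, hT, trans_of_nr hv h3 hne, h3, e1, ?_, ?_, ?_⟩
  · intro h7
    rw [h7, add_zero, mul_one] at e1
    exact hne e1
  · have h8 : T / algebraMap F K u - 1 = (T - algebraMap F K u) / algebraMap F K u := by
      field_simp
    rw [h8, map_div₀, hv u hu0, div_one]
    exact h3
  · rw [sh_eval, ← e1]
    exact hT

/-- **The solution at zero.** -/
theorem exists_zero [IsAlgClosed K] [IsAlgClosed F] [CharZero F] {P : F[X][X]}
    (hP0 : P.coeff 0 ≠ 0) {u : F} (hu0 : u ≠ 0) (hu : (P.coeff 0).eval u = 0)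
    (hPu : P.map (evalRingHom u) ≠ 0) {D L : ℕ} (hD : bd (sh u P) ≤ D)
    (hL : ∀ q, 1 ≤ q → q ≤ D → q ∣ L) (hL0 : 0 < L) {h k : ℕ} (hh : D * D < h) (hk : 0 < k)
    {z : K} (hz0 : z ≠ 0) (hz : v z < 1) :
    ∃ (e : ℕ) (s₀ : F) (Z s T₁ T₂ T₃ : K), 0 < e ∧ e ≤ L * D ∧ s₀ ^ e * (-(k : F)) ^ L = 1 ∧
      Sol P h k K Z s T₁ T₂ T₃ ∧ v Z < 1 ∧ Nr v s s₀ := by
  have hP : P ≠ 0 := by
    rintro rfl
    exact hP0 rfl
  have hh0 : h ≠ 0 := by omega
  have hk0 : (k : F) ≠ 0 := by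
    rw [Nat.cast_ne_zero]
    omega
  have hkK : v (k : K) = 1 := by
    rw [← map_natCast (algebraMap F K)]
    exact hv _ hk0
  have hZ0 : z ^ L ≠ 0 := pow_ne_zero _ hz0
  have hZ : v (z ^ L) < 1 := by
    rw [map_pow]
    exact pow_lt_one₀ zero_le hz hL0.ne'
  have hZh : v ((z ^ L) ^ h) < 1 := by
    rw [map_pow]
    exact pow_lt_one₀ zero_le hZ hh0
  have hvZ0 : 0 < v (z ^ L) := zero_lt_iff.2 ((map_ne_zero v).2 hZ0)
  obtain ⟨T₃, τ₃, a3, b3, c3, d3, e3, f3, g3⟩ := exists_pt hv hP0 hu0 hu hPu hZ0 hZ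
  obtain ⟨T₁, τ₁, a1, b1, c1, d1, e1, f1, g1⟩ := exists_pt hv hP0 hu0 hu hPu
    (pow_ne_zero h hZ0) hZh
  have hshP : sh u P ≠ 0 := sh_ne_zero hu0 hP
  obtain ⟨p3, q3, h1, h2, h3, h4, h5⟩ := slope_near hv hshP hZ0 e3 hZ f3 g3
  obtain ⟨p1, q1, i1, i2, i3, i4, i5⟩ := slope_near hv hshP (pow_ne_zero h hZ0) e1 hZh f1 g1
  have h13 : v τ₁ < v τ₃ := by
    refine lt_of_slopes (D := D) (h := h) (p := p1) (q := q1) (p' := p3) (q' := q3) hvZ0 hZ i1
      (i4.trans hD) (h2.trans hD) h3 ?_ h5 hh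
    rw [i5, map_pow v (z ^ L) h, pow_mul]
  obtain ⟨e, he0, heD, he⟩ := exists_e hv hL hL0 h1 (h2.trans hD) h3 (h4.trans hD) h5
  have hT30 : T₃ ≠ 0 := fun h0 => b3 (h0 ▸ isAlgebraic_zero)
  -- the second point
  have hc : Nr v (T₁ ^ (k + 1) / T₃) (u ^ k) := by
    have h6 := (c1.pow hv (k + 1)).div hv c3 hu0
    rwa [pow_succ u, mul_div_cancel_right₀ _ hu0] at h6
  obtain ⟨T₂, hT2, c2⟩ := exists_root_near v (p := X ^ k - C (T₁ ^ (k + 1) / T₃))
    (u := algebraMap F K u) (x := 0) (by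
      rw [zero_sub, Valuation.map_neg]
      exact v_le_one hv u) (by
      rw [eval_sub, eval_sub, eval_pow, eval_pow, eval_X, eval_X, eval_C, eval_C,
        zero_pow hk.ne', zero_sub, Valuation.map_neg, hc.v_eq hv (pow_ne_zero _ hu0)]
      have h6 := ((Nr.refl (v := v) (K := K) u).pow hv k).sub hc
      rw [sub_self] at h6
      exact h6.lt)
  rw [IsRoot, eval_sub, eval_pow, eval_X, eval_C, sub_eq_zero] at hT2
  have hT : T₃ * T₂ ^ k = T₁ ^ (k + 1) := by
    rw [hT2, mul_div_cancel₀ _ hT30]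
  have hu' : algebraMap F K u ≠ 0 := by
    rwa [Ne, map_eq_zero_iff _ (algebraMap F K).injective]
  obtain ⟨τ₂, d2⟩ : ∃ τ₂, T₂ = algebraMap F K u * (1 + τ₂) := by
    refine ⟨T₂ / algebraMap F K u - 1, ?_⟩
    field_simp
    ring
  have f2 : v τ₂ < 1 := by
    have h8 : T₂ - algebraMap F K u = algebraMap F K u * τ₂ := by
      rw [d2]
      ring
    have h9 : v (T₂ - algebraMap F K u) < 1 := c2
    rwa [h8, map_mul, hv u hu0, one_mul] at h9
  have hτ : (1 + τ₃) * (1 + τ₂) ^ k = (1 + τ₁) ^ (k + 1) := by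
    refine mul_left_cancel₀ (pow_ne_zero (k + 1) hu') ?_
    rw [← mul_pow, ← d1, ← hT, d3, d2, mul_pow]
    ring
  obtain ⟨h23, hfirst⟩ := first_order v hkK f1 f2 hτ e3 h13
  have e2 : τ₂ ≠ 0 := by
    rintro rfl
    rw [map_zero] at h23
    exact e3 ((map_eq_zero v).1 h23.symm)
  have b2 : Transcendental F T₂ := by
    refine trans_of_nr hv c2 fun h6 => e2 ?_
    rw [d2] at h6
    have h7 : algebraMap F K u * τ₂ = 0 := by linear_combination h6
    exact (mul_eq_zero.1 h7).resolve_left hu'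
  -- leading coefficients
  have hze0 : z ^ e ≠ 0 := pow_ne_zero _ hz0
  obtain ⟨ρ, y3, z3, g3'⟩ := near_rho hv hshP (L := L) (e := e) (x := z)
    (η := τ₃ / z ^ e) hL0 hz0 hz (by
      rw [map_div₀, map_pow, he, div_self]
      exact pow_ne_zero _ ((map_ne_zero v).2 hz0)) (by
      rw [mul_div_cancel₀ _ hze0]
      exact g3)
  obtain ⟨l, hl⟩ := IsAlgClosed.exists_pow_nat_eq (-(k : F))⁻¹ he0
  have hl0 : l ≠ 0 := by
    rintro rfl
    rw [zero_pow he0.ne'] at hl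
    exact inv_ne_zero (neg_ne_zero.2 hk0) hl.symm
  have hη2 : Nr v (τ₂ / z ^ e) (l ^ e * ρ) := by
    have h6 : Nr v ((τ₃ + k * τ₂) / z ^ e) (0 : F) := by
      refine Nr.zero ?_
      rw [map_div₀, map_pow, ← he, div_lt_one₀ (zero_lt_iff.2 ((map_ne_zero v).2 e3))]
      exact hfirst
    have h7 := (h6.sub g3').mul hv ((Nr.refl (v := v) (K := K) (k : F)).inv hv hk0)
    have h8 : ((τ₃ + k * τ₂) / z ^ e - τ₃ / z ^ e) * (algebraMap F K (k : F))⁻¹ =
        τ₂ / z ^ e := by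
      have h9 : (algebraMap F K (k : F)) ≠ 0 := by
        rwa [Ne, map_eq_zero_iff _ (algebraMap F K).injective]
      rw [map_natCast] at h9 ⊢
      field_simp
      ring
    have h10 : (0 - ρ) * (k : F)⁻¹ = l ^ e * ρ := by
      rw [hl, inv_neg]
      ring
    rw [h8, h10] at h7
    exact h7
  obtain ⟨s, hs1, hs2⟩ := exists_other hv hshP hL0 he0 hz0 hz y3 hl0 z3 hη2
  rw [mul_div_cancel₀ _ hze0, sh_eval, ← d2] at hs1
  have hs0 : s ≠ 0 := by
    intro h6
    have h7 := hs2.v_eq hv (pow_ne_zero L hl0)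
    rw [h6, map_zero] at h7
    exact zero_ne_one h7
  refine ⟨e, l ^ L, z ^ L, s, T₁, T₂, T₃, he0, heD, ?_,
    ⟨hZ0, hs0, hT, ⟨a1, b1⟩, ⟨?_, b2⟩, ⟨a3, b3⟩⟩, hZ, hs2⟩
  · rw [← pow_mul, mul_comm, mul_comm L e, pow_mul, hl, ← mul_pow,
      mul_inv_cancel₀ (neg_ne_zero.2 hk0), one_pow]
  · rw [mul_comm]
    exact hs1

end

end Pool.Agent.H74.ZP
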